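import Pool.Agent.TH339.MP.Y2

/-!
# Large deviations of the boundary function
-/

set_option autoImplicit false

namespace Pool.Agent.TH339.MP

open Complex Set Filter Topology MeasureTheory

section
variable {b : PP → ℂ} {M : ℝ}

lemma density_of_test (hb : ∀ x, ‖b x‖ ≤ M / (x.2 + 1 : ℕ)) {φ : ℂ → ℝ} (hφc : Continuous φ)
    (hφ0 : ∀ z, 0 ≤ φ z) (hφ1 : ∀ z, φ z ≤ 1) {F : Set ℂ} (hφF : ∀ z ∈ F, φ z = 1) {δ : ℝ}
    (hδ : ∫ ω, φ (RR b ω) ∂PM ≤ δ) (ε : ℝ) (hε : 0 < ε) :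
    ∃ T₀ : ℝ, 0 < T₀ ∧ ∀ T : ℝ, T₀ ≤ T → ∀ a : ℝ,
      volume ({τ : ℝ | bl b τ ∈ F} ∩ Icc a (a + T)) ≤ ENNReal.ofReal ((δ + ε) * T) := by
  have hJ := mean_all (J := Unit) (b := fun _ => b) (M := fun _ => M) (fun _ => hb)
    (ψ := fun z => φ (z ())) (hφc.comp (continuous_apply _)) (C := 1) (fun z => by
      rw [abs_of_nonneg (hφ0 _)]
      exact hφ1 _)
  obtain ⟨T₀, hT₀, hm⟩ := hJ ε hε
  refine ⟨T₀, hT₀, fun T hT a => ?_⟩
  have hTpos : 0 < T := lt_of_lt_of_le hT₀ hT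
  have h1 := hm T hT a
  simp only at h1
  have h2 : (1 / T) * ∫ τ in a..(a + T), φ (bl b τ) ≤ δ + ε := by
    have := (abs_le.1 h1).2
    linarith
  have h3 : ∫ τ in a..(a + T), φ (bl b τ) ≤ (δ + ε) * T := by
    rw [one_div, ← div_eq_inv_mul, div_le_iff₀ hTpos] at h2
    exact h2
  have hae := (boundary hb).1
  have hint : Integrable (fun τ => φ (bl b τ)) (volume.restrict (Icc a (a + T))) := by
    refine Measure.integrableOn_of_bounded (M := 1) (by simp) ?_ ?_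
    · exact (hφc.measurable.comp_aemeasurable hae).aestronglyMeasurable
    · refine Eventually.of_forall fun τ => ?_
      rw [Real.norm_eq_abs, abs_of_nonneg (hφ0 _)]
      exact hφ1 _
  rw [intervalIntegral.integral_of_le (by linarith), ← integral_Icc_eq_integral_Ioc] at h3
  have h4 : ∫⁻ τ in Icc a (a + T), ENNReal.ofReal (φ (bl b τ)) ≤ ENNReal.ofReal ((δ + ε) * T) := by
    rw [← ofReal_integral_eq_lintegral_ofReal hint (Eventually.of_forall fun τ => hφ0 _)]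
    exact ENNReal.ofReal_le_ofReal h3
  refine le_trans ?_ h4
  have hae2 : AEMeasurable (fun τ => ENNReal.ofReal (φ (bl b τ)))
      (volume.restrict (Icc a (a + T))) :=
    (ENNReal.measurable_ofReal.comp_aemeasurable
      (hφc.measurable.comp_aemeasurable hae)).restrict
  have h5 := mul_meas_ge_le_lintegral₀ hae2 1
  rw [one_mul] at h5
  refine le_trans ?_ h5
  rw [Measure.restrict_apply₀' measurableSet_Icc.nullMeasurableSet]
  refine measure_mono ?_
  rintro τ ⟨hτ, hτ2⟩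
  refine ⟨?_, hτ2⟩
  change 1 ≤ ENNReal.ofReal (φ (bl b τ))
  rw [hφF _ hτ, ENNReal.ofReal_one]

end

/-- one-sided bound -/
lemma one_sided : ∃ c : ℝ, 0 < c ∧ ∀ (b : PP → ℂ) (M : ℝ), 1 ≤ M →
    (∀ x, ‖b x‖ ≤ M / (x.2 + 1 : ℕ)) → ∀ V : ℝ, 0 < V → 1 / c ≤ V ^ (1 / M) →
    ∀ ε : ℝ, 0 < ε → ∃ T₀ : ℝ, 0 < T₀ ∧ ∀ T : ℝ, T₀ ≤ T → ∀ a : ℝ,
      volume ({τ : ℝ | Real.log V ≤ (bl b τ).re} ∩ Icc a (a + T)) ≤
        ENNReal.ofReal ((Real.exp (-Real.exp (c * V ^ (1 / M))) + ε) * T) := by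
  obtain ⟨C, hC0, hC⟩ := tail_RR
  set c₂ : ℝ := Real.exp (-C - 2) with hc₂
  have hc₂0 : 0 < c₂ := Real.exp_pos _
  refine ⟨c₂ / 2, by positivity, fun b M hM hb V hV hVc ε hε => ?_⟩
  set u : ℝ := V ^ (1 / M) with hu
  have hM0 : 0 < M := by linarith
  have hu0 : 0 < u := Real.rpow_pos_of_pos hV _
  have hcu : 1 ≤ c₂ / 2 * u := by
    rw [div_le_iff₀ (by positivity)] at hVc
    linarith
  set m : ℕ := ⌊Real.exp (c₂ * u)⌋₊ with hm
  have hy : 2.7 ≤ Real.exp (c₂ / 2 * u) := by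
    have h1 := Real.exp_one_gt_d9
    have h2 := Real.exp_le_exp.2 hcu
    linarith
  have hyy : Real.exp (c₂ * u) = Real.exp (c₂ / 2 * u) ^ 2 := by
    rw [← Real.exp_nat_mul]
    congr 1
    push_cast
    ring
  have hm1 : (m : ℝ) ≤ Real.exp (c₂ * u) := Nat.floor_le (Real.exp_pos _).le
  have hm2 : Real.exp (c₂ * u) < m + 1 := Nat.lt_floor_add_one _
  have hmr : (2 : ℝ) ≤ m := by nlinarith
  have hm3 : 2 ≤ m := by exact_mod_cast hmr
  have htail := hC b M hM0 hb m hm3 (Real.log V - 1)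
  have hlogm : Real.log m ≤ c₂ * u := by
    rw [Real.log_le_iff_le_exp (by linarith)]
    exact hm1
  have hlogm0 : 0 < Real.log m := Real.log_pos (by linarith)
  have hll : Real.log (Real.log m) ≤ -C - 2 + Real.log V / M := by
    refine (Real.log_le_log hlogm0 hlogm).trans (le_of_eq ?_)
    rw [Real.log_mul hc₂0.ne' hu0.ne', hc₂, Real.log_exp, hu, Real.log_rpow hV]
    ring
  have hexp : -((m / 2 : ℝ) * ((Real.log V - 1) / M - Real.log (Real.log m) - C)) ≤
      -Real.exp (c₂ / 2 * u) := by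
    have h1 : 1 ≤ (Real.log V - 1) / M - Real.log (Real.log m) - C := by
      have h2 : (Real.log V - 1) / M = Real.log V / M - 1 / M := by ring
      have h3 : 1 / M ≤ 1 := by
        rw [div_le_one hM0]
        exact hM
      rw [h2]
      linarith
    have h4 : (m / 2 : ℝ) * 1 ≤ (m / 2 : ℝ) * ((Real.log V - 1) / M - Real.log (Real.log m) - C) :=
      mul_le_mul_of_nonneg_left h1 (by positivity)
    have h5 : Real.exp (c₂ / 2 * u) ≤ (m / 2 : ℝ) := by
      rw [hyy] at hm2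
      nlinarith
    linarith
  -- the test function
  set φ : ℂ → ℝ := fun z => max 0 (min 1 (z.re - (Real.log V - 1))) with hφ
  have hφc : Continuous φ := by
    simp only [hφ]
    fun_prop
  have hφ0 : ∀ z, 0 ≤ φ z := fun z => le_max_left _ _
  have hφ1 : ∀ z, φ z ≤ 1 := fun z => max_le zero_le_one (min_le_left _ _)
  have hφF : ∀ z ∈ {z : ℂ | Real.log V ≤ z.re}, φ z = 1 := by
    intro z hz
    have hz' : Real.log V ≤ z.re := hz
    simp only [hφ]
    rw [min_eq_left (by linarith), max_eq_right zero_le_one]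
  have hint : ∫ ω, φ (RR b ω) ∂PM ≤ Real.exp (-Real.exp (c₂ / 2 * u)) := by
    have hmeas : AEStronglyMeasurable (fun ω => φ (RR b ω)) PM :=
      (hφc.measurable.comp_aemeasurable (aemeasurable_RR hb)).aestronglyMeasurable
    rw [integral_eq_lintegral_of_nonneg_ae (Eventually.of_forall fun ω => hφ0 _) hmeas]
    set E : Set Om := toMeasurable PM {ω | Real.log V - 1 ≤ (RR b ω).re} with hE
    have h1 : ∫⁻ ω, ENNReal.ofReal (φ (RR b ω)) ∂PM ≤ ∫⁻ ω, E.indicator (fun _ => 1) ω ∂PM := by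
      refine lintegral_mono fun ω => ?_
      by_cases hω : ω ∈ E
      · rw [indicator_of_mem hω]
        exact ENNReal.ofReal_le_one.2 (hφ1 _)
      · have h2 : ¬ Real.log V - 1 ≤ (RR b ω).re := fun h => hω (subset_toMeasurable _ _ h)
        push Not at h2
        have h3 : φ (RR b ω) = 0 := by
          simp only [hφ]
          rw [min_eq_right (by linarith), max_eq_left (by linarith)]
        simp only [h3, ENNReal.ofReal_zero]
        exact bot_le
    have h1' : ∫⁻ ω, E.indicator (fun _ => (1 : ENNReal)) ω ∂PM = PM E := by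
      rw [lintegral_indicator (measurableSet_toMeasurable _ _), lintegral_const, one_mul,
        Measure.restrict_apply MeasurableSet.univ, univ_inter]
    rw [h1', hE, measure_toMeasurable] at h1
    have h2 := h1.trans htail
    have h3 := ENNReal.toReal_mono ENNReal.ofReal_ne_top h2
    rw [ENNReal.toReal_ofReal (Real.exp_pos _).le] at h3
    exact h3.trans (Real.exp_le_exp.2 hexp)
  exact density_of_test hb hφc hφ0 hφ1 hφF hint ε hε

/-- **Large deviations of the boundary function.** -/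
theorem edge_tail : ∃ c : ℝ, 0 < c ∧ ∀ (b : PP → ℂ) (M : ℝ), 1 ≤ M →
    (∀ x, ‖b x‖ ≤ M / (x.2 + 1 : ℕ)) → ∀ V : ℝ, 0 < V → 1 / c ≤ V ^ (1 / M) →
    ∀ ε : ℝ, 0 < ε → ∃ T₀ : ℝ, 0 < T₀ ∧ ∀ T : ℝ, T₀ ≤ T → ∀ a : ℝ,
      volume ({τ : ℝ | V ≤ ‖Complex.exp (bl b τ)‖ ∨ ‖Complex.exp (bl b τ)‖ ≤ 1 / V} ∩
        Icc a (a + T)) ≤ ENNReal.ofReal ((2 * Real.exp (-Real.exp (c * V ^ (1 / M))) + ε) * T) := by
  obtain ⟨c, hc0, hc⟩ := one_sided
  refine ⟨c, hc0, fun b M hM hb V hV hVc ε hε => ?_⟩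
  have hb' : ∀ x, ‖(fun x => -b x) x‖ ≤ M / (x.2 + 1 : ℕ) := fun x => by
    simp only [norm_neg]
    exact hb x
  obtain ⟨T₁, hT₁, h1⟩ := hc b M hM hb V hV hVc (ε / 2) (by positivity)
  obtain ⟨T₂, hT₂, h2⟩ := hc _ M hM hb' V hV hVc (ε / 2) (by positivity)
  refine ⟨max T₁ T₂, lt_max_of_lt_left hT₁, fun T hT a => ?_⟩
  have hTpos : 0 < T := lt_of_lt_of_le hT₁ ((le_max_left _ _).trans hT)
  have g1 := h1 T ((le_max_left _ _).trans hT) a
  have g2 := h2 T ((le_max_right _ _).trans hT) a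
  have hn1 := volume_divSet hb
  have hn2 := volume_divSet hb'
  have hneg : ∀ τ, τ ∉ Pool.Agent.W350.Edge.divSet (ap b) →
      τ ∉ Pool.Agent.W350.Edge.divSet (ap fun x => -b x) → bl (fun x => -b x) τ = -bl b τ := by
    intro τ k1 k2
    have r1 := radial_x hb k1
    have r2 := radial_x hb' k2
    refine tendsto_nhds_unique r2 (r1.neg.congr fun x => ?_)
    unfold FF
    rw [← tsum_neg]
    refine tsum_congr fun y => ?_
    unfold tm
    ring
  have hsub : {τ : ℝ | V ≤ ‖Complex.exp (bl b τ)‖ ∨ ‖Complex.exp (bl b τ)‖ ≤ 1 / V} ∩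
      Icc a (a + T) ⊆ ({τ : ℝ | Real.log V ≤ (bl b τ).re} ∩ Icc a (a + T)) ∪
        (({τ : ℝ | Real.log V ≤ (bl (fun x => -b x) τ).re} ∩ Icc a (a + T)) ∪
        (Pool.Agent.W350.Edge.divSet (ap b) ∪ Pool.Agent.W350.Edge.divSet (ap fun x => -b x))) := by
    rintro τ ⟨hτ, hτ2⟩
    by_cases k1 : τ ∈ Pool.Agent.W350.Edge.divSet (ap b)
    · exact Or.inr (Or.inr (Or.inl k1))
    by_cases k2 : τ ∈ Pool.Agent.W350.Edge.divSet (ap fun x => -b x)
    · exact Or.inr (Or.inr (Or.inr k2))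
    rcases hτ with hτ | hτ
    · left
      refine ⟨?_, hτ2⟩
      rw [Complex.norm_exp] at hτ
      exact (Real.log_le_iff_le_exp hV).2 hτ
    · right
      left
      refine ⟨?_, hτ2⟩
      change Real.log V ≤ (bl (fun x => -b x) τ).re
      rw [hneg τ k1 k2, neg_re]
      rw [Complex.norm_exp] at hτ
      have h3 := Real.log_le_log (Real.exp_pos _) hτ
      rw [Real.log_exp, Real.log_div one_ne_zero hV.ne', Real.log_one] at h3
      linarith
  refine (measure_mono hsub).trans ((measure_union_le _ _).trans ?_)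
  refine (add_le_add g1 ((measure_union_le _ _).trans (add_le_add g2 (le_of_eq
    (measure_union_null hn1 hn2))))).trans ?_
  rw [add_zero, ← ENNReal.ofReal_add (by positivity) (by positivity)]
  refine ENNReal.ofReal_le_ofReal (le_of_eq ?_)
  ring

end Pool.Agent.TH339.MP
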