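import Mathlib

/-!
# The majorant principle for finite trigonometric sums
-/

set_option autoImplicit false

namespace Pool.Agent.TH339.MP

open Complex MeasureTheory Finset
open scoped ComplexConjugate

/-- `e^{i l u}` -/
noncomputable def ee (l u : ℝ) : ℂ := Complex.exp (((l * u : ℝ) : ℂ) * I)

lemma norm_ee (l u : ℝ) : ‖ee l u‖ = 1 := Complex.norm_exp_ofReal_mul_I _

lemma ee_zero (l : ℝ) : ee l 0 = 1 := by simp [ee]

lemma ee_zero_left (u : ℝ) : ee 0 u = 1 := by simp [ee]

lemma ee_add (l u v : ℝ) : ee l (u + v) = ee l u * ee l v := by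
  rw [ee, ee, ee, ← Complex.exp_add]
  congr 1
  push_cast
  ring

lemma ee_add_left (l m u : ℝ) : ee (l + m) u = ee l u * ee m u := by
  rw [ee, ee, ee, ← Complex.exp_add]
  congr 1
  push_cast
  ring

lemma ee_neg_left (l u : ℝ) : ee (-l) u = conj (ee l u) := by
  rw [ee, ee, ← Complex.exp_conj]
  congr 1
  simp

lemma ee_neg_right (l u : ℝ) : ee l (-u) = ee (-l) u := by
  rw [ee, ee]
  congr 2
  push_cast
  ring

lemma continuous_ee (l : ℝ) : Continuous (ee l) := by
  unfold ee
  fun_prop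

/-- `∫_{-h}^{h} e^{i m x} dx` -/
noncomputable def cc (h m : ℝ) : ℂ := ∫ x in (-h)..h, ee m x

lemma cc_neg (h m : ℝ) : cc h (-m) = conj (cc h m) := by
  unfold cc
  simp only [intervalIntegral, map_sub, ← integral_conj, ee_neg_left]

lemma cc_bound1 {h : ℝ} (hh : 0 < h) (m : ℝ) : ‖cc h m‖ ≤ 2 * h := by
  unfold cc
  refine (intervalIntegral.norm_integral_le_of_norm_le_const (C := 1) fun x _ =>
    (norm_ee m x).le).trans ?_
  rw [abs_of_nonneg (by linarith)]
  linarith

lemma cc_bound2 (h : ℝ) {m : ℝ} (hm : m ≠ 0) : ‖cc h m‖ ≤ 2 / |m| := by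
  have h1 : cc h m = (ee m h - ee m (-h)) / (m * I) := by
    unfold cc
    have hmI : (m * I : ℂ) ≠ 0 := mul_ne_zero (by exact_mod_cast hm) I_ne_zero
    have h2 := integral_exp_mul_complex (a := -h) (b := h) hmI
    have h3 : ∀ x : ℝ, ee m x = Complex.exp (m * I * x) := by
      intro x
      rw [ee]
      congr 1
      push_cast
      ring
    simp_rw [h3]
    rw [h2]
  rw [h1, norm_div, norm_mul, norm_I, mul_one, Complex.norm_real, Real.norm_eq_abs]
  refine div_le_div_of_nonneg_right ?_ (abs_nonneg _)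
  refine (norm_sub_le _ _).trans ?_
  rw [norm_ee, norm_ee]
  norm_num

variable {ι : Type*} [Fintype ι]

/-- the trigonometric sum -/
noncomputable def ts (l : ι → ℝ) (a : ι → ℂ) (u : ℝ) : ℂ := ∑ i, a i * ee (l i) u

lemma continuous_ts (l : ι → ℝ) (a : ι → ℂ) : Continuous (ts l a) := by
  unfold ts
  exact continuous_finsetSum _ fun i _ => continuous_const.mul (continuous_ee _)

/-- the double mean -/
noncomputable def dm (h : ℝ) (l : ι → ℝ) (a : ι → ℂ) (t : ℝ) : ℝ :=
  ∫ x in (-h)..h, ∫ y in (-h)..h, ‖ts l a (t + x - y)‖ ^ 2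

lemma sq_ts (l : ι → ℝ) (a : ι → ℂ) (t x y : ℝ) :
    ((‖ts l a (t + x - y)‖ ^ 2 : ℝ) : ℂ) =
      ∑ i, ∑ j, a i * conj (a j) * ee (l i - l j) t * (ee (l i - l j) x * ee (-(l i - l j)) y) := by
  rw [← Complex.normSq_eq_norm_sq, Complex.normSq_eq_conj_mul_self, mul_comm]
  unfold ts
  rw [map_sum, sum_mul_sum]
  refine sum_congr rfl fun i _ => sum_congr rfl fun j _ => ?_
  rw [map_mul]
  have h1 : t + x - y = t + x + -y := by ring
  rw [h1, ee_add, ee_add, ee_neg_right, ee_add, ee_add, ee_neg_right]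
  have h2 : ∀ u, ee (l i - l j) u = ee (l i) u * conj (ee (l j) u) := by
    intro u
    rw [sub_eq_add_neg, ee_add_left, ee_neg_left]
  have h3 : ee (-(l i - l j)) y = conj (ee (l i) y) * ee (l j) y := by
    rw [ee_neg_left, h2, map_mul, Complex.conj_conj]
  rw [h2, h2, h3, map_mul, map_mul, ee_neg_left, ee_neg_left, Complex.conj_conj]
  ring

lemma dm_eq (h : ℝ) (l : ι → ℝ) (a : ι → ℂ) (t : ℝ) :
    (dm h l a t : ℂ) =
      ∑ i, ∑ j, a i * conj (a j) * ee (l i - l j) t * ((‖cc h (l i - l j)‖ ^ 2 : ℝ) : ℂ) := by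
  unfold dm
  rw [← intervalIntegral.integral_ofReal]
  have h1 : ∀ x : ℝ, ((∫ y in (-h)..h, ‖ts l a (t + x - y)‖ ^ 2 : ℝ) : ℂ) =
      ∑ i, ∑ j, a i * conj (a j) * ee (l i - l j) t *
        (ee (l i - l j) x * cc h (-(l i - l j))) := by
    intro x
    rw [← intervalIntegral.integral_ofReal]
    simp_rw [sq_ts]
    rw [intervalIntegral.integral_finsetSum]
    · refine sum_congr rfl fun i _ => ?_
      rw [intervalIntegral.integral_finsetSum]
      · refine sum_congr rfl fun j _ => ?_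
        rw [intervalIntegral.integral_const_mul, intervalIntegral.integral_const_mul]
        rfl
      · intro j _
        exact Continuous.intervalIntegrable (continuous_const.mul (continuous_const.mul
          (continuous_ee _))) _ _
    · intro i _
      exact Continuous.intervalIntegrable (continuous_finsetSum _ fun j _ =>
        continuous_const.mul (continuous_const.mul (continuous_ee _))) _ _
  simp_rw [h1]
  rw [intervalIntegral.integral_finsetSum]
  · refine sum_congr rfl fun i _ => ?_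
    rw [intervalIntegral.integral_finsetSum]
    · refine sum_congr rfl fun j _ => ?_
      rw [intervalIntegral.integral_const_mul, intervalIntegral.integral_mul_const]
      congr 1
      change cc h (l i - l j) * cc h (-(l i - l j)) = _
      rw [cc_neg, Complex.mul_conj, Complex.normSq_eq_norm_sq]
    · intro j _
      exact Continuous.intervalIntegrable (continuous_const.mul
        ((continuous_ee _).mul continuous_const)) _ _
  · intro i _
    exact Continuous.intervalIntegrable (continuous_finsetSum _ fun j _ =>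
      continuous_const.mul ((continuous_ee _).mul continuous_const)) _ _

lemma dm_le (h : ℝ) (l : ι → ℝ) (a : ι → ℂ) (A : ι → ℝ) (hA : ∀ i, ‖a i‖ ≤ A i) (t : ℝ) :
    dm h l a t ≤ ∑ i, ∑ j, A i * A j * ‖cc h (l i - l j)‖ ^ 2 := by
  have h1 : dm h l a t ≤ ‖(dm h l a t : ℂ)‖ := by
    rw [Complex.norm_real]
    exact Real.le_norm_self _
  refine h1.trans ?_
  rw [dm_eq]
  refine norm_sum_le_of_le _ fun i _ => norm_sum_le_of_le _ fun j _ => ?_
  rw [norm_mul, norm_mul, norm_mul, norm_ee, mul_one, RCLike.norm_conj, Complex.norm_real,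
    Real.norm_of_nonneg (by positivity)]
  exact mul_le_mul_of_nonneg_right (mul_le_mul (hA i) (hA j) (norm_nonneg _)
    ((norm_nonneg _).trans (hA i))) (by positivity)

lemma dm_zero (h : ℝ) (l : ι → ℝ) (A : ι → ℝ) :
    dm h l (fun i => (A i : ℂ)) 0 = ∑ i, ∑ j, A i * A j * ‖cc h (l i - l j)‖ ^ 2 := by
  have h1 := dm_eq h l (fun i => (A i : ℂ)) 0
  simp only [ee_zero, mul_one, Complex.conj_ofReal] at h1
  exact_mod_cast h1

lemma le_dm {h : ℝ} (hh : 0 < h) (l : ι → ℝ) (a : ι → ℂ) (t : ℝ) :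
    h * ∫ u in (t - h / 2)..(t + h / 2), ‖ts l a u‖ ^ 2 ≤ dm h l a t := by
  have hc : Continuous fun u => ‖ts l a u‖ ^ 2 := (continuous_ts l a).norm.pow 2
  have h2 : Continuous fun x : ℝ => ∫ y in (-h)..h, ‖ts l a (t + x - y)‖ ^ 2 := by
    refine intervalIntegral.continuous_parametric_intervalIntegral_of_continuous' ?_ _ _
    exact hc.comp (by fun_prop)
  have h3 : ∀ x ∈ Set.Icc (-(h / 2)) (h / 2),
      ∫ u in (t - h / 2)..(t + h / 2), ‖ts l a u‖ ^ 2 ≤
        ∫ y in (-h)..h, ‖ts l a (t + x - y)‖ ^ 2 := by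
    intro x hx
    rw [intervalIntegral.integral_comp_sub_left (fun u => ‖ts l a u‖ ^ 2) (t + x)]
    refine intervalIntegral.integral_mono_interval (by linarith [hx.1, hx.2]) (by linarith)
      (by linarith [hx.1, hx.2]) (Filter.Eventually.of_forall fun u => by positivity)
      (hc.intervalIntegrable _ _)
  have h4 : ∫ x in (-(h / 2))..(h / 2), (∫ u in (t - h / 2)..(t + h / 2), ‖ts l a u‖ ^ 2) ≤
      ∫ x in (-(h / 2))..(h / 2), ∫ y in (-h)..h, ‖ts l a (t + x - y)‖ ^ 2 :=
    intervalIntegral.integral_mono_on (by linarith) (by simp)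
      (h2.intervalIntegrable _ _) h3
  have h5 : ∫ x in (-(h / 2))..(h / 2), ∫ y in (-h)..h, ‖ts l a (t + x - y)‖ ^ 2 ≤ dm h l a t := by
    unfold dm
    refine intervalIntegral.integral_mono_interval (by linarith) (by linarith) (by linarith)
      (Filter.Eventually.of_forall fun x => ?_) (h2.intervalIntegrable _ _)
    exact intervalIntegral.integral_nonneg (by linarith) fun y _ => by positivity
  refine le_trans (le_of_eq ?_) (h4.trans h5)
  rw [intervalIntegral.integral_const, smul_eq_mul]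
  congr 1
  ring

lemma dm_zero_le {h : ℝ} (hh : 0 < h) (l : ι → ℝ) (a : ι → ℂ) :
    dm h l a 0 ≤ 2 * h * ∫ u in (-(2 * h))..(2 * h), ‖ts l a u‖ ^ 2 := by
  have hc : Continuous fun u => ‖ts l a u‖ ^ 2 := (continuous_ts l a).norm.pow 2
  have h2 : Continuous fun x : ℝ => ∫ y in (-h)..h, ‖ts l a (0 + x - y)‖ ^ 2 := by
    refine intervalIntegral.continuous_parametric_intervalIntegral_of_continuous' ?_ _ _
    exact hc.comp (by fun_prop)
  have h3 : ∀ x ∈ Set.Icc (-h) h,
      ∫ y in (-h)..h, ‖ts l a (0 + x - y)‖ ^ 2 ≤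
        ∫ u in (-(2 * h))..(2 * h), ‖ts l a u‖ ^ 2 := by
    intro x hx
    rw [intervalIntegral.integral_comp_sub_left (fun u => ‖ts l a u‖ ^ 2) (0 + x)]
    refine intervalIntegral.integral_mono_interval (by linarith [hx.1, hx.2]) (by linarith)
      (by linarith [hx.1, hx.2]) (Filter.Eventually.of_forall fun u => by positivity)
      (hc.intervalIntegrable _ _)
  have h4 := intervalIntegral.integral_mono_on (μ := volume) (a := -h) (b := h) (by linarith)
    (h2.intervalIntegrable _ _) (g := fun _ => ∫ u in (-(2 * h))..(2 * h), ‖ts l a u‖ ^ 2)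
    (by simp) h3
  unfold dm
  refine h4.trans (le_of_eq ?_)
  rw [intervalIntegral.integral_const, smul_eq_mul]
  congr 1
  ring

/-- **The majorant principle.** -/
theorem principle {h : ℝ} (hh : 0 < h) (l : ι → ℝ) (a : ι → ℂ) (A : ι → ℝ)
    (hA : ∀ i, ‖a i‖ ≤ A i) (t : ℝ) :
    ∫ u in (t - h / 2)..(t + h / 2), ‖ts l a u‖ ^ 2 ≤
      2 * ∫ u in (-(2 * h))..(2 * h), ‖ts l (fun i => (A i : ℂ)) u‖ ^ 2 := by
  have h1 := le_dm hh l a t
  have h2 := dm_le h l a A hA t
  rw [← dm_zero] at h2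
  have h3 := dm_zero_le hh l (fun i => (A i : ℂ))
  have h4 := (h1.trans h2).trans h3
  have h5 : h * ∫ u in (t - h / 2)..(t + h / 2), ‖ts l a u‖ ^ 2 ≤
      h * (2 * ∫ u in (-(2 * h))..(2 * h), ‖ts l (fun i => (A i : ℂ)) u‖ ^ 2) := by
    refine h4.trans (le_of_eq ?_)
    ring
  exact le_of_mul_le_mul_left h5 hh

/-- The explicit form of the principle. -/
theorem principle2 {h : ℝ} (hh : 0 < h) (l : ι → ℝ) (a : ι → ℂ) (A : ι → ℝ)
    (hA : ∀ i, ‖a i‖ ≤ A i) (t : ℝ) :
    ∫ u in (t - h / 2)..(t + h / 2), ‖ts l a u‖ ^ 2 ≤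
      (1 / h) * ∑ i, ∑ j, A i * A j * ‖cc h (l i - l j)‖ ^ 2 := by
  have h1 := (le_dm hh l a t).trans (dm_le h l a A hA t)
  rw [one_div, ← div_eq_inv_mul, le_div_iff₀ hh, mul_comm]
  exact h1

end Pool.Agent.TH339.MP
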