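import Pool.Agent.TH339.MP.P9

/-!
# Local Hardy space bounds for the L-series of elliptic curves over number fields
-/

set_option autoImplicit false

namespace Pool.Agent.TH339.MP

open Complex MeasureTheory Finset Filter Topology NumberField IsDedekindDomain
open scoped ENNReal

lemma continuous_FF {b : PP → ℂ} {M : ℝ} (hb : ∀ x, ‖b x‖ ≤ M / (x.2 + 1 : ℕ)) {σ : ℝ}
    (hσ : 1 < σ) : Continuous fun u : ℝ => FF b ((σ : ℂ) + u * I) := by
  simp_rw [FF_eq]
  unfold tse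
  refine continuous_tsum (fun x => continuous_const.mul (continuous_ee _))
    ((summable_wt hσ).mul_left M) fun x u => ?_
  rw [norm_mul, norm_ee, mul_one, norm_mul, Complex.norm_real,
    Real.norm_of_nonneg (wt_nonneg _ x)]
  refine (mul_le_mul_of_nonneg_right (hb x) (wt_nonneg _ x)).trans (le_of_eq ?_)
  ring

lemma continuous_norm_exp {b : PP → ℂ} {M : ℝ} (hb : ∀ x, ‖b x‖ ≤ M / (x.2 + 1 : ℕ)) {σ : ℝ}
    (hσ : 1 < σ) (r : ℝ) :
    Continuous fun u : ℝ => ‖Complex.exp (FF b ((σ : ℂ) + u * I))‖ ^ r :=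
  (Complex.continuous_exp.comp (continuous_FF hb hσ)).norm.rpow_const fun _ =>
    Or.inl (norm_ne_zero_iff.2 (Complex.exp_ne_zero _))

/-- **Local Hardy space bounds**, for the Lebesgue integral. -/
theorem hardy_lint (b : PP → ℂ) {M : ℝ} (hb : ∀ x, ‖b x‖ ≤ M / (x.2 + 1 : ℕ)) {σ : ℝ}
    (hσ : 1 < σ) (t : ℝ) {r : ℝ} (hr : |r| * M < 1) :
    ∫⁻ u in Set.Icc t (t + 1), ENNReal.ofReal (‖Complex.exp (FF b ((σ : ℂ) + u * I))‖ ^ r) ≤
      ENNReal.ofReal (36 / (1 - |r| * M)) := by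
  have h1 := hardy b hb hσ t hr
  have hc := continuous_norm_exp hb hσ r
  rw [intervalIntegral.integral_of_le (by linarith), ← integral_Icc_eq_integral_Ioc] at h1
  rw [← ofReal_integral_eq_lintegral_ofReal]
  · exact ENNReal.ofReal_le_ofReal h1
  · exact hc.continuousOn.integrableOn_compact isCompact_Icc
  · exact Eventually.of_forall fun u => Real.rpow_nonneg (norm_nonneg _) _

section
variable {K : Type} [Field K] [NumberField K]

lemma elf_hasProd (W : HeightOneSpectrum (𝓞 K) → WeierstrassCurve (𝓞 K)) :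
    ∃ b : PP → ℂ, (∀ x, ‖b x‖ ≤ ((Module.finrank ℚ K : ℝ) * 2) / (x.2 + 1 : ℕ)) ∧
      ∀ s : ℂ, 3 / 2 < s.re → ∃ E : ℂ,
        HasProd (fun v => elf W v s) (Complex.exp (FF b (s - 1 / 2)) * E) ∧
        ‖E‖ ≤ 24 ^ (S6 : Finset (HeightOneSpectrum (𝓞 K))).card ∧
        ‖E⁻¹‖ ≤ 24 ^ (S6 : Finset (HeightOneSpectrum (𝓞 K))).card := by
  classical
  obtain ⟨β, h1, h2⟩ := exists_beta W
  set β' : HeightOneSpectrum (𝓞 K) → Fin 2 → ℂ := fun v j => if v ∈ S6 then 0 else β v j with hβ'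
  have hb' : ∀ v j, ‖β' v j‖ ≤ 1 := by
    intro v j
    simp only [hβ']
    split_ifs
    · simp
    · exact h1 v j
  refine ⟨bb β', fun x => by simpa using norm_bb hb' x, fun s hs => ?_⟩
  have hs1 : 1 < (s - 1 / 2).re := by
    have : (s - 1 / 2).re = s.re - 1 / 2 := by simp
    rw [this]
    linarith
  have h3 := hasProd_L hb' hs1
  have h4 : HasProd (fun v => if v ∈ (S6 : Finset (HeightOneSpectrum (𝓞 K))) then elf W v s else 1)
      (∏ v ∈ (S6 : Finset (HeightOneSpectrum (𝓞 K))), elf W v s) := by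
    have h5 := hasProd_prod_of_ne_finset_one (L := SummationFilter.unconditional _)
      (s := (S6 : Finset (HeightOneSpectrum (𝓞 K))))
      (f := fun v => if v ∈ (S6 : Finset (HeightOneSpectrum (𝓞 K))) then elf W v s else 1)
      (fun v hv => if_neg hv)
    have h6 : ∏ v ∈ (S6 : Finset (HeightOneSpectrum (𝓞 K))),
        (if v ∈ (S6 : Finset (HeightOneSpectrum (𝓞 K))) then elf W v s else 1) =
        ∏ v ∈ (S6 : Finset (HeightOneSpectrum (𝓞 K))), elf W v s :=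
      Finset.prod_congr rfl fun v hv => if_pos hv
    rwa [h6] at h5
  refine ⟨∏ v ∈ (S6 : Finset (HeightOneSpectrum (𝓞 K))), elf W v s, ?_, ?_, ?_⟩
  · have h5 := h3.mul h4
    convert h5 using 1
    funext v
    by_cases hv : v ∈ (S6 : Finset (HeightOneSpectrum (𝓞 K)))
    · simp only [hβ', if_pos hv]
      simp
    · simp only [hβ', if_neg hv]
      rw [h2 v hv s, mul_one]
  · rw [norm_prod]
    calc _ ≤ ∏ v ∈ (S6 : Finset (HeightOneSpectrum (𝓞 K))), (24 : ℝ) :=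
          Finset.prod_le_prod (fun _ _ => norm_nonneg _) fun v _ => (elf_triv W v hs).1
      _ = _ := by rw [Finset.prod_const]
  · rw [← Finset.prod_inv_distrib, norm_prod]
    calc _ ≤ ∏ v ∈ (S6 : Finset (HeightOneSpectrum (𝓞 K))), (24 : ℝ) :=
          Finset.prod_le_prod (fun _ _ => norm_nonneg _) fun v _ => (elf_triv W v hs).2
      _ = _ := by rw [Finset.prod_const]

lemma norm_rpow_le {E : ℂ} {n : ℕ} {c : ℝ} (hn : (n : ℝ) ≤ c) (h1 : ‖E‖ ≤ 24 ^ n)
    (h2 : ‖E⁻¹‖ ≤ 24 ^ n) {r : ℝ} (hr : c * |r| ≤ 1) : ‖E‖ ^ r ≤ 24 := by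
  have key : ∀ x : ℝ, 0 ≤ x → x ≤ 24 ^ n → x ^ |r| ≤ 24 := by
    intro x hx hx2
    calc x ^ |r| ≤ ((24 : ℝ) ^ n) ^ |r| := Real.rpow_le_rpow hx hx2 (abs_nonneg r)
      _ = (24 : ℝ) ^ ((n : ℝ) * |r|) := by
        rw [← Real.rpow_natCast, ← Real.rpow_mul (by norm_num)]
      _ ≤ (24 : ℝ) ^ (1 : ℝ) := Real.rpow_le_rpow_of_exponent_le (by norm_num)
        ((mul_le_mul_of_nonneg_right hn (abs_nonneg r)).trans hr)
      _ = 24 := Real.rpow_one _
  rcases le_total 0 r with h | h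
  · have := key ‖E‖ (norm_nonneg _) h1
    rwa [abs_of_nonneg h] at this
  · have := key ‖E⁻¹‖ (norm_nonneg _) h2
    rw [abs_of_nonpos h, norm_inv, Real.inv_rpow (norm_nonneg _), ← Real.rpow_neg (norm_nonneg _),
      neg_neg] at this
    exact this

theorem ec_hardy (W : HeightOneSpectrum (𝓞 K) → WeierstrassCurve (𝓞 K)) {σ : ℝ} (hσ : 3 / 2 < σ)
    (t : ℝ) {r : ℝ} (hr : 2 * Module.finrank ℚ K * |r| < 1) :
    ∫⁻ u in Set.Icc t (t + 1), ENNReal.ofReal (‖∏' v, elf W v ((σ : ℂ) + u * I)‖ ^ r) ≤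
      ENNReal.ofReal (864 / (1 - 2 * Module.finrank ℚ K * |r|)) := by
  obtain ⟨b, hb, hE⟩ := elf_hasProd W
  have hσ' : 1 < σ - 1 / 2 := by linarith
  have hr' : |r| * ((Module.finrank ℚ K : ℝ) * 2) < 1 := by
    calc |r| * ((Module.finrank ℚ K : ℝ) * 2) = 2 * Module.finrank ℚ K * |r| := by ring
      _ < 1 := hr
  have h1 := hardy_lint b hb hσ' t hr'
  have h2 : ∀ u : ℝ, ENNReal.ofReal (‖∏' v, elf W v ((σ : ℂ) + u * I)‖ ^ r) ≤
      ENNReal.ofReal 24 *
        ENNReal.ofReal (‖Complex.exp (FF b (((σ - 1 / 2 : ℝ) : ℂ) + u * I))‖ ^ r) := by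
    intro u
    have hre : 3 / 2 < ((σ : ℂ) + u * I).re := by simpa using hσ
    obtain ⟨E, h3, h4, h5⟩ := hE _ hre
    rw [h3.tprod_eq, norm_mul, Real.mul_rpow (norm_nonneg _) (norm_nonneg _),
      ← ENNReal.ofReal_mul (by norm_num)]
    refine ENNReal.ofReal_le_ofReal ?_
    have e1 : (σ : ℂ) + u * I - 1 / 2 = ((σ - 1 / 2 : ℝ) : ℂ) + u * I := by
      push_cast
      ring
    rw [e1, mul_comm]
    exact mul_le_mul_of_nonneg_right (norm_rpow_le card_S6 h4 h5 hr.le)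
      (Real.rpow_nonneg (norm_nonneg _) _)
  refine (lintegral_mono fun u => h2 u).trans ?_
  rw [lintegral_const_mul' _ _ ENNReal.ofReal_ne_top]
  refine (mul_le_mul' le_rfl h1).trans ?_
  rw [← ENNReal.ofReal_mul (by norm_num)]
  refine ENNReal.ofReal_le_ofReal (le_of_eq ?_)
  rw [show |r| * ((Module.finrank ℚ K : ℝ) * 2) = 2 * Module.finrank ℚ K * |r| by ring]
  ring

end

end Pool.Agent.TH339.MP
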