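import Pool.Agent.TH339.MP.P1

/-!
# The majorant principle for exponentials of absolutely convergent series
-/

set_option autoImplicit false

namespace Pool.Agent.TH339.MP

open Complex MeasureTheory Finset Filter Topology

/-- `f` is a trigonometric sum majorised by `g`. -/
def Dom (f g : ℝ → ℂ) : Prop :=
  ∃ (ι : Type) (_ : Fintype ι) (l : ι → ℝ) (a : ι → ℂ) (A : ι → ℝ),
    (∀ i, ‖a i‖ ≤ A i) ∧ f = ts l a ∧ g = ts l (fun i => (A i : ℂ))

lemma Dom.add {f g f' g' : ℝ → ℂ} (h : Dom f g) (h' : Dom f' g') :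
    Dom (fun u => f u + f' u) (fun u => g u + g' u) := by
  obtain ⟨ι, _, l, a, A, hA, rfl, rfl⟩ := h
  obtain ⟨κ, _, m, b, B, hB, rfl, rfl⟩ := h'
  refine ⟨ι ⊕ κ, inferInstance, Sum.elim l m, Sum.elim a b, Sum.elim A B, ?_, ?_, ?_⟩
  · rintro (i | i)
    · exact hA i
    · exact hB i
  · funext u
    simp [ts, Fintype.sum_sum_type]
  · funext u
    simp [ts, Fintype.sum_sum_type]

lemma Dom.mul {f g f' g' : ℝ → ℂ} (h : Dom f g) (h' : Dom f' g') :
    Dom (fun u => f u * f' u) (fun u => g u * g' u) := by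
  obtain ⟨ι, _, l, a, A, hA, rfl, rfl⟩ := h
  obtain ⟨κ, _, m, b, B, hB, rfl, rfl⟩ := h'
  refine ⟨ι × κ, inferInstance, fun x => l x.1 + m x.2, fun x => a x.1 * b x.2,
    fun x => A x.1 * B x.2, ?_, ?_, ?_⟩
  · rintro ⟨i, j⟩
    rw [norm_mul]
    exact mul_le_mul (hA i) (hB j) (norm_nonneg _) ((norm_nonneg _).trans (hA i))
  · funext u
    simp only [ts, sum_mul_sum, Fintype.sum_prod_type]
    refine sum_congr rfl fun i _ => sum_congr rfl fun j _ => ?_
    rw [ee_add_left]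
    ring
  · funext u
    simp only [ts, sum_mul_sum, Fintype.sum_prod_type]
    refine sum_congr rfl fun i _ => sum_congr rfl fun j _ => ?_
    rw [ee_add_left]
    push_cast
    ring

lemma Dom.const (c : ℂ) (C : ℝ) (h : ‖c‖ ≤ C) : Dom (fun _ => c) (fun _ => (C : ℂ)) := by
  refine ⟨Unit, inferInstance, fun _ => 0, fun _ => c, fun _ => C, fun _ => h, ?_, ?_⟩
  · funext u
    simp [ts, ee_zero_left]
  · funext u
    simp [ts, ee_zero_left]

lemma Dom.pow {f g : ℝ → ℂ} (h : Dom f g) (k : ℕ) :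
    Dom (fun u => f u ^ k) (fun u => g u ^ k) := by
  induction k with
  | zero => simpa using Dom.const 1 1 (by simp)
  | succ k ih =>
    have := ih.mul h
    simpa only [pow_succ] using this

lemma Dom.sum {f g : ℕ → ℝ → ℂ} (h : ∀ k, Dom (f k) (g k)) (n : ℕ) :
    Dom (fun u => ∑ k ∈ range n, f k u) (fun u => ∑ k ∈ range n, g k u) := by
  induction n with
  | zero => simpa using Dom.const 0 0 (by simp)
  | succ n ih =>
    have := ih.add (h n)
    simpa only [sum_range_succ] using this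

/-- partial sums of the exponential series -/
noncomputable def pexp (n : ℕ) (z : ℂ) : ℂ := ∑ k ∈ range n, z ^ k / (k.factorial : ℂ)

lemma Dom.pexp' {f g : ℝ → ℂ} (h : Dom f g) (z : ℂ) (n : ℕ) :
    Dom (fun u => pexp n (z * f u)) (fun u => pexp n ((‖z‖ : ℂ) * g u)) := by
  unfold pexp
  refine Dom.sum (f := fun k u => (z * f u) ^ k / (k.factorial : ℂ))
    (g := fun k u => ((‖z‖ : ℂ) * g u) ^ k / (k.factorial : ℂ)) (fun k => ?_) n
  have h1 : Dom (fun u => z * f u) (fun u => (‖z‖ : ℂ) * g u) := (Dom.const z ‖z‖ le_rfl).mul h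
  have h2 := (Dom.const ((k.factorial : ℂ)⁻¹) ((k.factorial : ℝ)⁻¹) (by
    rw [norm_inv, Complex.norm_natCast])).mul (h1.pow k)
  have e1 : (fun u => (k.factorial : ℂ)⁻¹ * (z * f u) ^ k) =
      fun u => (z * f u) ^ k / (k.factorial : ℂ) := by
    funext u
    rw [div_eq_mul_inv, mul_comm]
  have e2 : (fun u => (((k.factorial : ℝ)⁻¹ : ℝ) : ℂ) * ((‖z‖ : ℂ) * g u) ^ k) =
      fun u => ((‖z‖ : ℂ) * g u) ^ k / (k.factorial : ℂ) := by
    funext u
    rw [div_eq_mul_inv, mul_comm]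
    push_cast
    rfl
  rw [e1, e2] at h2
  exact h2

theorem Dom.principle {f g : ℝ → ℂ} (H : Dom f g) {h : ℝ} (hh : 0 < h) (t : ℝ) :
    ∫ u in (t - h / 2)..(t + h / 2), ‖f u‖ ^ 2 ≤ 2 * ∫ u in (-(2 * h))..(2 * h), ‖g u‖ ^ 2 := by
  obtain ⟨ι, _, l, a, A, hA, rfl, rfl⟩ := H
  exact MP.principle hh l a A hA t

lemma norm_pexp_le (n : ℕ) (z : ℂ) {C : ℝ} (hz : ‖z‖ ≤ C) : ‖pexp n z‖ ≤ Real.exp C := by
  unfold pexp
  have h1 : ∀ k ∈ range n, ‖z ^ k / (k.factorial : ℂ)‖ ≤ C ^ k / k.factorial := by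
    intro k _
    rw [norm_div, norm_pow, Complex.norm_natCast]
    exact div_le_div_of_nonneg_right (pow_le_pow_left₀ (norm_nonneg _) hz k) (by positivity)
  exact (norm_sum_le_of_le _ h1).trans (Real.sum_le_exp_of_nonneg ((norm_nonneg _).trans hz) n)

lemma tendsto_pexp (z : ℂ) : Tendsto (fun n => pexp n z) atTop (𝓝 (Complex.exp z)) := by
  unfold pexp
  rw [Complex.exp_eq_exp_ℂ]
  exact (NormedSpace.expSeries_div_hasSum_exp z).tendsto_sum_nat

lemma Dom.bdd {f g : ℝ → ℂ} (H : Dom f g) : ∃ C : ℝ, (∀ u, ‖f u‖ ≤ C) ∧ ∀ u, ‖g u‖ ≤ C := by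
  obtain ⟨ι, _, l, a, A, hA, rfl, rfl⟩ := H
  refine ⟨∑ i, A i, fun u => ?_, fun u => ?_⟩
  · refine norm_sum_le_of_le _ fun i _ => ?_
    rw [norm_mul, norm_ee, mul_one]
    exact hA i
  · refine norm_sum_le_of_le _ fun i _ => ?_
    rw [norm_mul, norm_ee, mul_one, Complex.norm_real,
      Real.norm_of_nonneg ((norm_nonneg _).trans (hA i))]

lemma Dom.continuous {f g : ℝ → ℂ} (H : Dom f g) : Continuous f ∧ Continuous g := by
  obtain ⟨ι, _, l, a, A, hA, rfl, rfl⟩ := H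
  exact ⟨continuous_ts _ _, continuous_ts _ _⟩

lemma tendsto_integral_sq {ι : Type*} {L : Filter ι} [L.IsCountablyGenerated] {F : ι → ℝ → ℂ}
    {f : ℝ → ℂ} (hF : ∀ i, Continuous (F i)) {C : ℝ} (hC : ∀ i u, ‖F i u‖ ≤ C)
    (hlim : ∀ u, Tendsto (fun i => F i u) L (𝓝 (f u))) (a b : ℝ) :
    Tendsto (fun i => ∫ u in a..b, ‖F i u‖ ^ 2) L (𝓝 (∫ u in a..b, ‖f u‖ ^ 2)) := by
  refine intervalIntegral.tendsto_integral_filter_of_dominated_convergence (fun _ => C ^ 2)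
    (Eventually.of_forall fun i => ((hF i).norm.pow 2).aestronglyMeasurable)
    (Eventually.of_forall fun i => Eventually.of_forall fun u _ => ?_)
    (by simp) (Eventually.of_forall fun u _ => ((hlim u).norm).pow 2)
  rw [norm_pow, norm_norm]
  exact pow_le_pow_left₀ (norm_nonneg _) (hC i u) 2

lemma continuous_pexp (n : ℕ) : Continuous (pexp n) := by
  unfold pexp
  fun_prop

theorem Dom.exp_principle {f g : ℝ → ℂ} (H : Dom f g) (z : ℂ) {h : ℝ} (hh : 0 < h) (t : ℝ) :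
    ∫ u in (t - h / 2)..(t + h / 2), ‖Complex.exp (z * f u)‖ ^ 2 ≤
      2 * ∫ u in (-(2 * h))..(2 * h), ‖Complex.exp ((‖z‖ : ℂ) * g u)‖ ^ 2 := by
  obtain ⟨C, hC1, hC2⟩ := H.bdd
  obtain ⟨hc1, hc2⟩ := H.continuous
  have hC0 : 0 ≤ C := (norm_nonneg _).trans (hC1 0)
  have h1 : ∀ u, ‖z * f u‖ ≤ ‖z‖ * C := fun u => by
    rw [norm_mul]
    exact mul_le_mul_of_nonneg_left (hC1 u) (norm_nonneg _)
  have h2 : ∀ u, ‖(‖z‖ : ℂ) * g u‖ ≤ ‖z‖ * C := fun u => by
    rw [norm_mul, Complex.norm_real, norm_norm]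
    exact mul_le_mul_of_nonneg_left (hC2 u) (norm_nonneg _)
  have h3 := tendsto_integral_sq (L := atTop) (F := fun n u => pexp n (z * f u))
    (fun n => (continuous_pexp n).comp (continuous_const.mul hc1))
    (fun n u => norm_pexp_le n _ (h1 u)) (fun u => tendsto_pexp _) (t - h / 2) (t + h / 2)
  have h4 := (tendsto_integral_sq (L := atTop) (F := fun n u => pexp n ((‖z‖ : ℂ) * g u))
    (fun n => (continuous_pexp n).comp (continuous_const.mul hc2))
    (fun n u => norm_pexp_le n _ (h2 u)) (fun u => tendsto_pexp _) (-(2 * h)) (2 * h)).const_mul 2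
  exact le_of_tendsto_of_tendsto' h3 h4 fun n => (H.pexp' z n).principle hh t

/-- The sum of a series. -/
noncomputable def tse {ι : Type} (l : ι → ℝ) (a : ι → ℂ) (u : ℝ) : ℂ := ∑' i, a i * ee (l i) u

lemma dom_finset {ι : Type} (l : ι → ℝ) (a : ι → ℂ) (A : ι → ℝ) (hA : ∀ i, ‖a i‖ ≤ A i)
    (s : Finset ι) : Dom (fun u => ∑ i ∈ s, a i * ee (l i) u)
      (fun u => ∑ i ∈ s, (A i : ℂ) * ee (l i) u) := by
  refine ⟨s, inferInstance, fun i => l i, fun i => a i, fun i => A i, fun i => hA i, ?_, ?_⟩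
  · funext u
    unfold ts
    exact (Finset.sum_coe_sort s (fun i => a i * ee (l i) u)).symm
  · funext u
    unfold ts
    exact (Finset.sum_coe_sort s (fun i => (A i : ℂ) * ee (l i) u)).symm

lemma summable_tse {ι : Type} (l : ι → ℝ) (a : ι → ℂ) (A : ι → ℝ) (hA : ∀ i, ‖a i‖ ≤ A i)
    (hs : Summable A) (u : ℝ) : Summable fun i => a i * ee (l i) u :=
  Summable.of_norm_bounded hs fun i => by
    rw [norm_mul, norm_ee, mul_one]
    exact hA i

/-- **The majorant principle for exponentials.** -/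
theorem exp_principle {ι : Type} [Countable ι] (l : ι → ℝ) (a : ι → ℂ) (A : ι → ℝ)
    (hA : ∀ i, ‖a i‖ ≤ A i) (hs : Summable A) (z : ℂ) {h : ℝ} (hh : 0 < h) (t : ℝ) :
    ∫ u in (t - h / 2)..(t + h / 2), ‖Complex.exp (z * tse l a u)‖ ^ 2 ≤
      2 * ∫ u in (-(2 * h))..(2 * h),
        ‖Complex.exp ((‖z‖ : ℂ) * tse l (fun i => (A i : ℂ)) u)‖ ^ 2 := by
  have hA0 : ∀ i, 0 ≤ A i := fun i => (norm_nonneg _).trans (hA i)
  have hA' : ∀ i, ‖((A i : ℝ) : ℂ)‖ ≤ A i := fun i => by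
    rw [Complex.norm_real, Real.norm_of_nonneg (hA0 i)]
  have hb : ∀ (b : ι → ℂ), (∀ i, ‖b i‖ ≤ A i) → ∀ (s : Finset ι) (u : ℝ),
      ‖∑ i ∈ s, b i * ee (l i) u‖ ≤ ∑' i, A i := by
    intro b hb s u
    refine (norm_sum_le_of_le (n := A) _ fun i _ => ?_).trans (hs.sum_le_tsum s fun i _ => hA0 i)
    rw [norm_mul, norm_ee, mul_one]
    exact hb i
  have hexp : ∀ (w : ℂ) (b : ι → ℂ), (∀ i, ‖b i‖ ≤ A i) → ∀ (s : Finset ι) (u : ℝ),
      ‖Complex.exp (w * ∑ i ∈ s, b i * ee (l i) u)‖ ≤ Real.exp (‖w‖ * ∑' i, A i) := by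
    intro w b hb' s u
    rw [Complex.norm_exp]
    refine Real.exp_le_exp.2 ((Complex.re_le_norm _).trans ?_)
    rw [norm_mul]
    exact mul_le_mul_of_nonneg_left (hb b hb' s u) (norm_nonneg _)
  have hcont : ∀ (w : ℂ) (b : ι → ℂ) (s : Finset ι),
      Continuous fun u => Complex.exp (w * ∑ i ∈ s, b i * ee (l i) u) := by
    intro w b s
    exact Complex.continuous_exp.comp (continuous_const.mul
      (continuous_finsetSum _ fun i _ => continuous_const.mul (continuous_ee _)))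
  have hlim : ∀ (w : ℂ) (b : ι → ℂ), (∀ i, ‖b i‖ ≤ A i) → ∀ u,
      Tendsto (fun s : Finset ι => Complex.exp (w * ∑ i ∈ s, b i * ee (l i) u)) atTop
        (𝓝 (Complex.exp (w * tse l b u))) := by
    intro w b hb' u
    refine (Complex.continuous_exp.tendsto _).comp (Tendsto.const_mul _ ?_)
    exact (summable_tse l b A hb' hs u).hasSum
  have h3 := tendsto_integral_sq (L := (atTop : Filter (Finset ι))) (hcont z a) (hexp z a hA)
    (hlim z a hA) (t - h / 2) (t + h / 2)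
  have h4 := (tendsto_integral_sq (L := (atTop : Filter (Finset ι)))
    (hcont (‖z‖ : ℂ) (fun i => (A i : ℂ))) (hexp _ _ hA') (hlim _ _ hA')
    (-(2 * h)) (2 * h)).const_mul 2
  exact le_of_tendsto_of_tendsto' h3 h4 fun s => (dom_finset l a A hA s).exp_principle z hh t

end Pool.Agent.TH339.MP
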