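import Pool.Agent.TH339.MP.P2

/-!
# The zeta function near `1`
-/

set_option autoImplicit false

namespace Pool.Agent.TH339.MP

open Complex MeasureTheory Finset Filter Topology Set

lemma zeta_integral {s : ℂ} (hs : 1 < s.re) :
    riemannZeta s = s * ∫ t in Set.Ioi (1 : ℝ), (⌊t⌋₊ : ℂ) * (t : ℂ) ^ (-(s + 1)) := by
  rw [← LSeries_one_eq_riemannZeta hs, LSeries_eq_mul_integral' 1 zero_le_one hs ?_]
  · congr 1
    refine integral_congr_ae (Eventually.of_forall fun t => ?_)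
    simp
  · refine Asymptotics.IsBigO.of_bound 1 (Eventually.of_forall fun n => ?_)
    simp

lemma zeta_norm_bound {s : ℂ} (hs : 1 < s.re) :
    ‖riemannZeta s‖ ≤ ‖s‖ * (1 / ‖s - 1‖ + 1 / s.re) := by
  have hs0 : 0 < s.re := by linarith
  have h1 : (∫ t in Set.Ioi (1 : ℝ), (t : ℂ) ^ (-s)) = 1 / (s - 1) := by
    rw [integral_Ioi_cpow_of_lt (by rw [neg_re]; linarith) one_pos]
    have hne : s - 1 ≠ 0 := by
      intro h
      have := congrArg Complex.re h
      simp at this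
      linarith
    have hne2 : -s + 1 ≠ 0 := by
      intro h
      apply hne
      linear_combination -h
    rw [ofReal_one, one_cpow, div_eq_div_iff hne2 hne]
    ring
  have i1 : IntegrableOn (fun t : ℝ => (t : ℂ) ^ (-s)) (Set.Ioi 1) :=
    integrableOn_Ioi_cpow_of_lt (by rw [neg_re]; linarith) one_pos
  have i2 : IntegrableOn (fun t : ℝ => t ^ (-(s.re + 1))) (Set.Ioi 1) :=
    integrableOn_Ioi_rpow_of_lt (by linarith) one_pos
  have hb : ∀ t ∈ Set.Ioi (1 : ℝ), ‖((Int.fract t : ℝ) : ℂ) * (t : ℂ) ^ (-(s + 1))‖ ≤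
      t ^ (-(s.re + 1)) := by
    intro t ht
    have ht0 : (0 : ℝ) < t := lt_trans one_pos ht
    rw [norm_mul, norm_cpow_eq_rpow_re_of_pos ht0, Complex.norm_real,
      Real.norm_of_nonneg (Int.fract_nonneg t)]
    have e1 : (-(s + 1)).re = -(s.re + 1) := by simp
    rw [e1]
    exact mul_le_of_le_one_left (Real.rpow_nonneg ht0.le _) (Int.fract_lt_one t).le
  have i3 : IntegrableOn (fun t : ℝ => ((Int.fract t : ℝ) : ℂ) * (t : ℂ) ^ (-(s + 1)))
      (Set.Ioi 1) := by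
    refine Integrable.mono' i2 ?_ ?_
    · refine ((measurable_ofReal.comp measurable_fract).aestronglyMeasurable).mul ?_
      refine ContinuousOn.aestronglyMeasurable ?_ measurableSet_Ioi
      intro t ht
      have ht0 : (0 : ℝ) < t := lt_trans one_pos ht
      exact (continuousAt_ofReal_cpow_const _ _ (Or.inr ht0.ne')).continuousWithinAt
    · exact (ae_restrict_iff' measurableSet_Ioi).2 (Eventually.of_forall hb)
  have h2 : (∫ t in Set.Ioi (1 : ℝ), (⌊t⌋₊ : ℂ) * (t : ℂ) ^ (-(s + 1))) =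
      1 / (s - 1) - ∫ t in Set.Ioi (1 : ℝ), ((Int.fract t : ℝ) : ℂ) * (t : ℂ) ^ (-(s + 1)) := by
    rw [← h1, ← integral_sub i1 i3]
    refine setIntegral_congr_fun measurableSet_Ioi fun t ht => ?_
    have ht0 : (0 : ℝ) < t := lt_trans one_pos ht
    have h3 : ((⌊t⌋₊ : ℂ)) = (t : ℂ) - ((Int.fract t : ℝ) : ℂ) := by
      have h4 : ((⌊t⌋₊ : ℝ)) = t - Int.fract t := by
        rw [Int.self_sub_fract, natCast_floor_eq_intCast_floor ht0.le]
      exact_mod_cast congrArg (fun x : ℝ => (x : ℂ)) h4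
    have h5 : (t : ℂ) ^ (-s) = (t : ℂ) * (t : ℂ) ^ (-(s + 1)) := by
      have hne : (t : ℂ) ≠ 0 := by exact_mod_cast ht0.ne'
      rw [show -s = 1 + -(s + 1) by ring, cpow_add _ _ hne, cpow_one]
    rw [h3, h5]
    ring
  rw [zeta_integral hs, h2, norm_mul]
  refine mul_le_mul_of_nonneg_left ?_ (norm_nonneg _)
  refine (norm_sub_le _ _).trans ?_
  rw [norm_div, norm_one]
  refine add_le_add le_rfl ?_
  have h6 : ∫ t in Set.Ioi (1 : ℝ), t ^ (-(s.re + 1)) = 1 / s.re := by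
    rw [integral_Ioi_rpow_of_lt (by linarith) one_pos, Real.one_rpow]
    have : -(s.re + 1) + 1 = -s.re := by ring
    rw [this, neg_div_neg_eq]
  rw [← h6]
  exact norm_integral_le_of_norm_le i2 ((ae_restrict_iff' measurableSet_Ioi).2
    (Eventually.of_forall hb))

lemma zeta_near {σ u : ℝ} (hσ : 1 < σ) (hu : |u| ≤ 2) (hu0 : u ≠ 0) :
    ‖riemannZeta (σ + u * I)‖ ≤ 9 / |u| := by
  have hre : ((σ : ℂ) + u * I).re = σ := by simp
  have him : ((σ : ℂ) + u * I - 1).im = u := by simp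
  have h1 := zeta_norm_bound (s := (σ : ℂ) + u * I) (by rw [hre]; exact hσ)
  rw [hre] at h1
  have hu' : 0 < |u| := abs_pos.2 hu0
  have hn1 : |u| ≤ ‖(σ : ℂ) + u * I - 1‖ := by
    have h := Complex.abs_im_le_norm ((σ : ℂ) + u * I - 1)
    rwa [him] at h
  have hn2 : σ - 1 ≤ ‖(σ : ℂ) + u * I - 1‖ := by
    have h := Complex.re_le_norm ((σ : ℂ) + u * I - 1)
    have : ((σ : ℂ) + u * I - 1).re = σ - 1 := by simp
    linarith
  have hn0 : 0 < ‖(σ : ℂ) + u * I - 1‖ := lt_of_lt_of_le hu' hn1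
  have hs : ‖(σ : ℂ) + u * I‖ ≤ ‖(σ : ℂ) + u * I - 1‖ + 1 := by
    calc ‖(σ : ℂ) + u * I‖ = ‖((σ : ℂ) + u * I - 1) + 1‖ := by ring_nf
      _ ≤ _ := by
        refine (norm_add_le _ _).trans ?_
        rw [norm_one]
  rcases le_or_gt σ 2 with h2 | h2
  · have h3 : ‖(σ : ℂ) + u * I‖ ≤ 3 := by
      have h4 : ‖(σ : ℂ) + u * I‖ ^ 2 = σ ^ 2 + u ^ 2 := by
        rw [← Complex.normSq_eq_norm_sq, Complex.normSq_add_mul_I]
      have h5 : u ^ 2 ≤ 4 := by
        rw [← sq_abs]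
        nlinarith
      have h6 : ‖(σ : ℂ) + u * I‖ ^ 2 ≤ 3 ^ 2 := by
        rw [h4]
        nlinarith
      exact (pow_le_pow_iff_left₀ (norm_nonneg _) (by norm_num) (by norm_num)).1 h6
    have h7 : 1 / ‖(σ : ℂ) + u * I - 1‖ ≤ 1 / |u| := one_div_le_one_div_of_le hu' hn1
    have h8 : 1 / σ ≤ 2 / |u| := by
      rw [div_le_div_iff₀ (by linarith) hu']
      nlinarith
    calc _ ≤ _ := h1
      _ ≤ 3 * (1 / |u| + 2 / |u|) :=
        mul_le_mul h3 (add_le_add h7 h8) (by positivity) (by norm_num)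
      _ = 9 / |u| := by ring
  · have h3 : ‖(σ : ℂ) + u * I‖ * (1 / ‖(σ : ℂ) + u * I - 1‖) ≤ 2 := by
      rw [mul_one_div, div_le_iff₀ hn0]
      linarith
    have h4 : ‖(σ : ℂ) + u * I‖ * (1 / σ) ≤ 2 := by
      rw [mul_one_div, div_le_iff₀ (by linarith)]
      have h5 : ‖(σ : ℂ) + u * I‖ ≤ σ + |u| := by
        refine (norm_add_le _ _).trans ?_
        rw [norm_mul, norm_I, mul_one, Complex.norm_real, Complex.norm_real,
          Real.norm_of_nonneg (by linarith), Real.norm_eq_abs]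
      linarith
    have h5 : ‖riemannZeta (σ + u * I)‖ ≤ 4 := by
      rw [mul_add] at h1
      linarith
    refine h5.trans ?_
    rw [le_div_iff₀ hu']
    linarith

lemma zeta_rpow_integral {σ ρ : ℝ} (hσ : 1 < σ) (h0 : 0 ≤ ρ) (h1 : ρ < 1) :
    ∫ u in (-2 : ℝ)..2, ‖riemannZeta (σ + u * I)‖ ^ ρ ≤ 18 / (1 - ρ) := by
  have hcont : Continuous fun u : ℝ => ‖riemannZeta (σ + u * I)‖ ^ ρ := by
    refine Continuous.rpow_const ?_ fun _ => Or.inr h0
    refine Continuous.norm ?_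
    rw [continuous_iff_continuousAt]
    intro u
    have hne : ((σ : ℂ) + u * I) ≠ 1 := by
      intro h
      have := congrArg Complex.re h
      simp at this
      linarith
    exact ContinuousAt.comp (f := fun u : ℝ => ((σ : ℂ) + u * I)) (g := riemannZeta)
      (differentiableAt_riemannZeta hne).continuousAt
      (by fun_prop)
  set φ : ℝ → ℝ := fun u => ‖riemannZeta (σ + u * I)‖ ^ ρ with hφ
  have hb : ∀ u : ℝ, |u| ≤ 2 → u ≠ 0 → φ u ≤ 9 ^ ρ * |u| ^ (-ρ) := by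
    intro u hu hu0
    have h2 := zeta_near hσ hu hu0
    have h3 : φ u ≤ (9 / |u|) ^ ρ := Real.rpow_le_rpow (norm_nonneg _) h2 h0
    refine h3.trans (le_of_eq ?_)
    rw [Real.div_rpow (by norm_num) (abs_nonneg _), Real.rpow_neg (abs_nonneg _), div_eq_mul_inv]
  have hi : IntervalIntegrable (fun u : ℝ => (9 : ℝ) ^ ρ * u ^ (-ρ)) volume 0 2 :=
    (intervalIntegral.intervalIntegrable_rpow' (by linarith)).const_mul _
  have hint : ∫ u in (0 : ℝ)..2, (9 : ℝ) ^ ρ * u ^ (-ρ) ≤ 9 / (1 - ρ) := by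
    rw [intervalIntegral.integral_const_mul, integral_rpow (Or.inl (by linarith))]
    have h1' : 0 < 1 - ρ := by linarith
    rw [Real.zero_rpow (by linarith), sub_zero, show -ρ + 1 = 1 - ρ by ring, ← mul_div_assoc]
    refine div_le_div_of_nonneg_right ?_ h1'.le
    have h2 : (2 : ℝ) ^ (1 - ρ) = 2 * 2 ^ (-ρ) := by
      rw [show (1 - ρ) = 1 + -ρ by ring, Real.rpow_add two_pos, Real.rpow_one]
    have h3 : (9 : ℝ) ^ ρ * 2 ^ (-ρ) = (9 / 2) ^ ρ := by
      rw [Real.div_rpow (by norm_num) (by norm_num), Real.rpow_neg (by norm_num), div_eq_mul_inv]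
    have h4 : ((9 : ℝ) / 2) ^ ρ ≤ 9 / 2 := by
      calc ((9 : ℝ) / 2) ^ ρ ≤ (9 / 2) ^ (1 : ℝ) :=
            Real.rpow_le_rpow_of_exponent_le (by norm_num) h1.le
        _ = 9 / 2 := Real.rpow_one _
    rw [h2]
    calc (9 : ℝ) ^ ρ * (2 * 2 ^ (-ρ)) = 2 * (9 ^ ρ * 2 ^ (-ρ)) := by ring
      _ = 2 * (9 / 2) ^ ρ := by rw [h3]
      _ ≤ 9 := by linarith
  have hpos : ∫ u in (0 : ℝ)..2, φ u ≤ 9 / (1 - ρ) := by
    refine le_trans ?_ hint
    refine intervalIntegral.integral_mono_ae_restrict (by norm_num) (hcont.intervalIntegrable _ _)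
      hi ?_
    rw [Filter.EventuallyLE, ae_restrict_iff' measurableSet_Icc]
    have hne : ∀ᵐ u : ℝ, u ≠ 0 := by
      simp [ae_iff, measure_singleton]
    filter_upwards [hne] with u hu hu2
    have h3 := hb u (by rw [abs_of_nonneg hu2.1]; exact hu2.2) hu
    rwa [abs_of_nonneg hu2.1] at h3
  have hneg : ∫ u in (-2 : ℝ)..0, φ u ≤ 9 / (1 - ρ) := by
    have e1 : ∫ u in (-2 : ℝ)..0, φ u = ∫ u in (0 : ℝ)..2, φ (-u) := by
      rw [intervalIntegral.integral_comp_neg φ]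
      simp
    rw [e1]
    refine le_trans ?_ hint
    refine intervalIntegral.integral_mono_ae_restrict (by norm_num)
      ((hcont.comp continuous_neg).intervalIntegrable _ _) hi ?_
    rw [Filter.EventuallyLE, ae_restrict_iff' measurableSet_Icc]
    have hne : ∀ᵐ u : ℝ, u ≠ 0 := by
      simp [ae_iff, measure_singleton]
    filter_upwards [hne] with u hu hu2
    have h3 := hb (-u) (by rw [abs_neg, abs_of_nonneg hu2.1]; exact hu2.2) (neg_ne_zero.2 hu)
    rwa [abs_neg, abs_of_nonneg hu2.1] at h3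
  rw [← intervalIntegral.integral_add_adjacent_intervals (hcont.intervalIntegrable (-2) 0)
    (hcont.intervalIntegrable 0 2)]
  calc _ ≤ 9 / (1 - ρ) + 9 / (1 - ρ) := add_le_add hneg hpos
    _ = 18 / (1 - ρ) := by ring

end Pool.Agent.TH339.MP
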