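import Pool.Agent.TH339.MP.P3

/-!
# Local Hardy space bounds for exponentials of Dirichlet series over the prime powers
-/

set_option autoImplicit false

namespace Pool.Agent.TH339.MP

open Complex MeasureTheory Finset Filter Topology

/-- the index set: `(p, k)` stands for the prime power `p^(k+1)` -/
abbrev PP : Type := Nat.Primes × ℕ

/-- the frequency of `p^{-(k+1) i u}` -/
noncomputable def fr (x : PP) : ℝ := -((x.2 + 1 : ℕ) * Real.log (x.1 : ℕ))

/-- `p^{-(k+1) σ}` -/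
noncomputable def wt (σ : ℝ) (x : PP) : ℝ := (((x.1 : ℕ) : ℝ) ^ (-σ)) ^ (x.2 + 1)

/-- the term `b(p,k) p^{-(k+1) s}` -/
noncomputable def tm (b : PP → ℂ) (s : ℂ) (x : PP) : ℂ := b x * (((x.1 : ℕ) : ℂ) ^ (-s)) ^ (x.2 + 1)

/-- the Dirichlet series -/
noncomputable def FF (b : PP → ℂ) (s : ℂ) : ℂ := ∑' x, tm b s x

lemma prime_pos (p : Nat.Primes) : (0 : ℝ) < ((p : ℕ) : ℝ) := by exact_mod_cast p.2.pos

lemma two_le_prime (p : Nat.Primes) : (2 : ℝ) ≤ ((p : ℕ) : ℝ) := by exact_mod_cast p.2.two_le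

lemma wt_nonneg (σ : ℝ) (x : PP) : 0 ≤ wt σ x := by
  unfold wt
  have := prime_pos x.1
  positivity

lemma cpow_eq (p : Nat.Primes) (σ u : ℝ) :
    ((p : ℕ) : ℂ) ^ (-((σ : ℂ) + u * I)) =
      ((((p : ℕ) : ℝ) ^ (-σ) : ℝ) : ℂ) * ee (-Real.log (p : ℕ)) u := by
  have h0 := prime_pos p
  have hne : ((p : ℕ) : ℂ) ≠ 0 := by exact_mod_cast p.2.ne_zero
  rw [neg_add, cpow_add _ _ hne, Complex.ofReal_cpow h0.le]
  congr 1
  · push_cast
    rfl
  · rw [cpow_def_of_ne_zero hne, ee]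
    congr 1
    have h1 : Complex.log ((p : ℕ) : ℂ) = ((Real.log (p : ℕ) : ℝ) : ℂ) := by
      rw [Complex.ofReal_log h0.le]
      simp
    rw [h1]
    push_cast
    ring

lemma ee_pow (l u : ℝ) (n : ℕ) : ee l u ^ n = ee (n * l) u := by
  rw [ee, ee, ← Complex.exp_nat_mul]
  congr 1
  push_cast
  ring

lemma tm_eq (b : PP → ℂ) (σ u : ℝ) (x : PP) :
    tm b ((σ : ℂ) + u * I) x = (b x * (wt σ x : ℂ)) * ee (fr x) u := by
  unfold tm wt fr
  rw [cpow_eq, mul_pow, ee_pow]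
  push_cast
  rw [mul_assoc]
  congr 3
  ring

lemma FF_eq (b : PP → ℂ) (σ u : ℝ) :
    FF b ((σ : ℂ) + u * I) = tse fr (fun x => b x * (wt σ x : ℂ)) u := by
  unfold FF tse
  exact tsum_congr fun x => tm_eq b σ u x

lemma rpow_neg_le_half (p : Nat.Primes) {σ : ℝ} (hσ : 1 ≤ σ) :
    ((p : ℕ) : ℝ) ^ (-σ) ≤ 1 / 2 := by
  have h2 := two_le_prime p
  calc ((p : ℕ) : ℝ) ^ (-σ) ≤ ((p : ℕ) : ℝ) ^ (-1 : ℝ) :=
        Real.rpow_le_rpow_of_exponent_le (by linarith) (by linarith)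
    _ = ((p : ℕ) : ℝ)⁻¹ := Real.rpow_neg_one _
    _ ≤ 1 / 2 := by
        rw [one_div]
        exact inv_anti₀ two_pos h2

lemma summable_wt {σ : ℝ} (hσ : 1 < σ) : Summable fun x : PP => wt σ x / (x.2 + 1 : ℕ) := by
  have hp : Summable fun p : Nat.Primes => ((p : ℕ) : ℝ) ^ (-σ) :=
    (Nat.Primes.summable_rpow (r := -σ)).2 (by linarith)
  have hg : ∀ p : Nat.Primes, HasSum (fun k : ℕ => (((p : ℕ) : ℝ) ^ (-σ)) ^ (k + 1))
      (((p : ℕ) : ℝ) ^ (-σ) * (1 - ((p : ℕ) : ℝ) ^ (-σ))⁻¹) := by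
    intro p
    have h0 : 0 ≤ ((p : ℕ) : ℝ) ^ (-σ) := Real.rpow_nonneg (prime_pos p).le _
    have h1 := rpow_neg_le_half p hσ.le
    have := (hasSum_geometric_of_lt_one h0 (by linarith)).mul_left (((p : ℕ) : ℝ) ^ (-σ))
    simpa only [pow_succ'] using this
  have h1 : Summable fun x : PP => wt σ x := by
    rw [summable_prod_of_nonneg (fun x => wt_nonneg σ x)]
    refine ⟨fun p => (hg p).summable, ?_⟩
    refine Summable.of_nonneg_of_le (fun p => tsum_nonneg fun k => wt_nonneg σ (p, k))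
      (fun p => ?_) (hp.mul_right 2)
    have h2 : ∑' k, wt σ (p, k) = _ := (hg p).tsum_eq
    rw [h2]
    have h0 : 0 ≤ ((p : ℕ) : ℝ) ^ (-σ) := Real.rpow_nonneg (prime_pos p).le _
    refine mul_le_mul_of_nonneg_left ?_ h0
    have h1 := rpow_neg_le_half p hσ.le
    rw [inv_le_comm₀ (by linarith) two_pos]
    linarith
  refine Summable.of_nonneg_of_le (fun x => div_nonneg (wt_nonneg σ x) (by positivity))
    (fun x => ?_) h1
  refine div_le_self (wt_nonneg σ x) ?_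
  exact_mod_cast Nat.le_add_left 1 x.2

lemma FF_zeta {σ : ℝ} (hσ : 1 < σ) (u : ℝ) :
    Complex.exp (FF (fun x => 1 / ((x.2 + 1 : ℕ) : ℂ)) ((σ : ℂ) + u * I)) =
      riemannZeta ((σ : ℂ) + u * I) := by
  have hre : 1 < ((σ : ℂ) + u * I).re := by simpa using hσ
  rw [← riemannZeta_eulerProduct_exp_log hre]
  congr 1
  have hs : Summable fun x : PP => tm (fun x => 1 / ((x.2 + 1 : ℕ) : ℂ)) ((σ : ℂ) + u * I) x := by
    refine Summable.of_norm_bounded (summable_wt hσ) fun x => ?_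
    rw [tm_eq, norm_mul, norm_ee, mul_one, norm_mul, Complex.norm_real,
      Real.norm_of_nonneg (wt_nonneg σ x), norm_div, norm_one, Complex.norm_natCast]
    exact le_of_eq (by ring)
  unfold FF
  rw [hs.tsum_prod]
  refine tsum_congr fun p => ?_
  have hlt : ‖((p : ℕ) : ℂ) ^ (-((σ : ℂ) + u * I))‖ < 1 := by
    rw [cpow_eq, norm_mul, norm_ee, mul_one, Complex.norm_real,
      Real.norm_of_nonneg (Real.rpow_nonneg (prime_pos p).le _)]
    have := rpow_neg_le_half p hσ.le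
    linarith
  have h1 := Complex.hasSum_taylorSeries_neg_log hlt
  rw [← hasSum_nat_add_iff' 1] at h1
  simp only [range_one, sum_singleton, pow_zero, CharP.cast_eq_zero, div_zero, sub_zero] at h1
  rw [← h1.tsum_eq]
  refine tsum_congr fun k => ?_
  unfold tm
  simp only
  ring

/-- **Local Hardy space bounds.** -/
theorem hardy (b : PP → ℂ) {M : ℝ} (hb : ∀ x, ‖b x‖ ≤ M / (x.2 + 1 : ℕ)) {σ : ℝ} (hσ : 1 < σ)
    (t : ℝ) {r : ℝ} (hr : |r| * M < 1) :
    ∫ u in t..(t + 1), ‖Complex.exp (FF b ((σ : ℂ) + u * I))‖ ^ r ≤ 36 / (1 - |r| * M) := by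
  have hM : 0 ≤ M := by
    have h1 := (norm_nonneg _).trans (hb (⟨2, Nat.prime_two⟩, 0))
    simpa using h1
  set A : PP → ℝ := fun x => M * (wt σ x / (x.2 + 1 : ℕ)) with hA
  have hsA : Summable A := (summable_wt hσ).mul_left M
  have hbA : ∀ x, ‖b x * (wt σ x : ℂ)‖ ≤ A x := by
    intro x
    rw [norm_mul, Complex.norm_real, Real.norm_of_nonneg (wt_nonneg σ x)]
    refine (mul_le_mul_of_nonneg_right (hb x) (wt_nonneg σ x)).trans (le_of_eq ?_)
    rw [hA]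
    ring
  have h1 := exp_principle fr (fun x => b x * (wt σ x : ℂ)) A hbA hsA ((r / 2 : ℝ) : ℂ)
    one_pos (t + 1 / 2)
  have e1 : t + 1 / 2 - 1 / 2 = t := by ring
  have e2 : t + 1 / 2 + 1 / 2 = t + 1 := by ring
  rw [e1, e2] at h1
  have hL : ∀ u : ℝ, ‖Complex.exp (FF b ((σ : ℂ) + u * I))‖ ^ r =
      ‖Complex.exp (((r / 2 : ℝ) : ℂ) * tse fr (fun x => b x * (wt σ x : ℂ)) u)‖ ^ 2 := by
    intro u
    rw [FF_eq, Complex.norm_exp, Complex.norm_exp, ← Real.exp_mul, ← Real.exp_nat_mul,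
      Complex.re_ofReal_mul]
    congr 1
    push_cast
    ring
  simp_rw [hL]
  refine h1.trans ?_
  have hR : ∀ u : ℝ, ‖Complex.exp ((‖((r / 2 : ℝ) : ℂ)‖ : ℂ) * tse fr (fun x => (A x : ℂ)) u)‖ ^ 2 =
      ‖riemannZeta ((σ : ℂ) + u * I)‖ ^ (|r| * M) := by
    intro u
    have h2 : tse fr (fun x => (A x : ℂ)) u =
        (M : ℂ) * FF (fun x => 1 / ((x.2 + 1 : ℕ) : ℂ)) ((σ : ℂ) + u * I) := by
      rw [FF_eq]
      unfold tse
      rw [← tsum_mul_left]
      refine tsum_congr fun x => ?_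
      rw [hA]
      push_cast
      ring
    rw [h2, ← FF_zeta hσ, Complex.norm_exp, Complex.norm_exp, ← Real.exp_mul, ← Real.exp_nat_mul,
      Complex.norm_real, Complex.re_ofReal_mul, Complex.re_ofReal_mul, Real.norm_eq_abs, abs_div,
      abs_two]
    congr 1
    push_cast
    ring
  simp_rw [hR]
  have h3 := zeta_rpow_integral hσ (mul_nonneg (abs_nonneg r) hM) hr
  rw [mul_one]
  calc _ ≤ 2 * (18 / (1 - |r| * M)) := mul_le_mul_of_nonneg_left h3 (by norm_num)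
    _ = 36 / (1 - |r| * M) := by ring

end Pool.Agent.TH339.MP
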