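import Pool.Agent.TH339.MP.P4

/-!
# Euler products over number fields as Euler products over the rational primes
-/

set_option autoImplicit false

namespace Pool.Agent.TH339.MP

open Complex MeasureTheory Finset Filter Topology NumberField IsDedekindDomain

section
variable {K : Type} [Field K] [NumberField K]

/-- the norm of a prime -/
noncomputable def nm (v : HeightOneSpectrum (𝓞 K)) : ℕ := Ideal.absNorm v.asIdeal

lemma exists_pf (v : HeightOneSpectrum (𝓞 K)) :
    ∃ (p : Nat.Primes) (f : ℕ), 0 < f ∧ nm v = (p : ℕ) ^ f := by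
  classical
  have hmax : v.asIdeal.IsMaximal := v.isMaximal
  let _ := Ideal.Quotient.field v.asIdeal
  have hfin : Finite (𝓞 K ⧸ v.asIdeal) := Ideal.finiteQuotientOfFreeOfNeBot _ v.ne_bot
  let _ : Fintype (𝓞 K ⧸ v.asIdeal) := Fintype.ofFinite _
  obtain ⟨p, _, n, hp, hc⟩ := FiniteField.card' (𝓞 K ⧸ v.asIdeal)
  refine ⟨⟨p, hp⟩, n, n.pos, ?_⟩
  rw [nm, Ideal.absNorm_apply, Submodule.cardQuot_apply, Nat.card_eq_fintype_card, hc]

/-- the prime below -/
noncomputable def pr (v : HeightOneSpectrum (𝓞 K)) : Nat.Primes := (exists_pf v).choose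

/-- the residue degree -/
noncomputable def dg (v : HeightOneSpectrum (𝓞 K)) : ℕ := (exists_pf v).choose_spec.choose

lemma dg_pos (v : HeightOneSpectrum (𝓞 K)) : 0 < dg v := (exists_pf v).choose_spec.choose_spec.1

lemma nm_eq (v : HeightOneSpectrum (𝓞 K)) : nm v = ((pr v : ℕ)) ^ dg v :=
  (exists_pf v).choose_spec.choose_spec.2

lemma pr_mem (v : HeightOneSpectrum (𝓞 K)) : ((pr v : ℕ) : 𝓞 K) ∈ v.asIdeal := by
  have h1 : ((nm v : ℕ) : 𝓞 K) ∈ v.asIdeal := Ideal.absNorm_mem v.asIdeal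
  rw [nm_eq, Nat.cast_pow] at h1
  exact v.isPrime.mem_of_pow_mem _ h1

lemma dvd_pr (v : HeightOneSpectrum (𝓞 K)) :
    v.asIdeal ∣ Ideal.span {((pr v : ℕ) : 𝓞 K)} := by
  rw [Ideal.dvd_span_singleton]
  exact pr_mem v

lemma finite_fiber (p : Nat.Primes) : {v : HeightOneSpectrum (𝓞 K) | pr v = p}.Finite := by
  have hne : Ideal.span {((p : ℕ) : 𝓞 K)} ≠ 0 := by
    rw [Ne, Ideal.zero_eq_bot, Ideal.span_singleton_eq_bot]
    exact_mod_cast p.2.ne_zero
  refine (Ideal.finite_factors hne).subset fun v hv => ?_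
  have h : pr v = p := hv
  rw [Set.mem_ofPred_eq, ← h]
  exact dvd_pr v

/-- the primes above `p` -/
noncomputable def Sp (p : Nat.Primes) : Finset (HeightOneSpectrum (𝓞 K)) :=
  (finite_fiber p).toFinset

lemma mem_Sp (p : Nat.Primes) (v : HeightOneSpectrum (𝓞 K)) : v ∈ Sp p ↔ pr v = p := by
  rw [Sp, Set.Finite.mem_toFinset, Set.mem_ofPred_eq]

lemma sum_dg_le (p : Nat.Primes) :
    ∑ v ∈ (Sp p : Finset (HeightOneSpectrum (𝓞 K))), dg v ≤ Module.finrank ℚ K := by
  have h1 : ∏ v ∈ (Sp p : Finset (HeightOneSpectrum (𝓞 K))), v.asIdeal ∣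
      Ideal.span {((p : ℕ) : 𝓞 K)} := by
    refine Finset.prod_dvd_of_isRelPrime ?_ ?_
    · intro v _ w _ hvw
      refine IsCoprime.isRelPrime ?_
      rw [Ideal.isCoprime_iff_sup_eq]
      exact Ideal.IsMaximal.coprime_of_ne v.isMaximal w.isMaximal
        fun h => hvw (HeightOneSpectrum.ext h)
    · intro v hv
      rw [mem_Sp] at hv
      rw [← hv]
      exact dvd_pr v
  have h2 := map_dvd (Ideal.absNorm (S := 𝓞 K)) h1
  rw [map_prod] at h2
  have h3 : ∏ v ∈ (Sp p : Finset (HeightOneSpectrum (𝓞 K))), Ideal.absNorm v.asIdeal =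
      (p : ℕ) ^ ∑ v ∈ (Sp p : Finset (HeightOneSpectrum (𝓞 K))), dg v := by
    rw [← Finset.prod_pow_eq_pow_sum]
    refine Finset.prod_congr rfl fun v hv => ?_
    rw [mem_Sp] at hv
    rw [← hv]
    exact nm_eq v
  have h4 : Ideal.absNorm (Ideal.span {((p : ℕ) : 𝓞 K)}) = (p : ℕ) ^ Module.finrank ℚ K := by
    rw [Ideal.absNorm_span_singleton]
    have h5 : Algebra.norm ℤ (((p : ℕ) : 𝓞 K)) = ((p : ℕ) : ℤ) ^ Module.finrank ℤ (𝓞 K) := by
      have := Algebra.norm_algebraMap_of_basis (NumberField.RingOfIntegers.basis K) ((p : ℕ) : ℤ)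
      rw [← Module.finrank_eq_card_basis (NumberField.RingOfIntegers.basis K)] at this
      rw [← this]
      simp
    rw [h5, Int.natAbs_pow, Int.natAbs_natCast, NumberField.RingOfIntegers.rank]
  rw [h3, h4] at h2
  exact (Nat.pow_dvd_pow_iff_le_right p.2.one_lt).1 h2

end

end Pool.Agent.TH339.MP
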