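import Pool.Agent.TH339.MP.P5

/-!
# Euler products over number fields as Euler products over the rational primes, II
-/

set_option autoImplicit false

namespace Pool.Agent.TH339.MP

open Complex MeasureTheory Finset Filter Topology NumberField IsDedekindDomain

section
variable {K : Type} [Field K] [NumberField K] {N : ℕ}

/-- minus the logarithm of the inverse local factor -/
noncomputable def lv (β : HeightOneSpectrum (𝓞 K) → Fin N → ℂ) (v : HeightOneSpectrum (𝓞 K))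
    (s : ℂ) : ℂ := ∑ j, -Complex.log (1 - β v j * ((nm v : ℕ) : ℂ) ^ (-s))

/-- the coefficients over the rational prime powers -/
noncomputable def bb (β : HeightOneSpectrum (𝓞 K) → Fin N → ℂ) (x : PP) : ℂ :=
  ∑ v ∈ Sp x.1, if dg v ∣ x.2 + 1 then
    (∑ j, β v j ^ ((x.2 + 1) / dg v)) * ((dg v : ℂ) / ((x.2 + 1 : ℕ) : ℂ)) else 0

lemma norm_bb {β : HeightOneSpectrum (𝓞 K) → Fin N → ℂ} (hβ : ∀ v j, ‖β v j‖ ≤ 1) (x : PP) :
    ‖bb β x‖ ≤ ((Module.finrank ℚ K : ℝ) * N) / (x.2 + 1 : ℕ) := by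
  unfold bb
  have h1 : ∀ v ∈ (Sp x.1 : Finset (HeightOneSpectrum (𝓞 K))),
      ‖(if dg v ∣ x.2 + 1 then (∑ j, β v j ^ ((x.2 + 1) / dg v)) *
        ((dg v : ℂ) / ((x.2 + 1 : ℕ) : ℂ)) else 0)‖ ≤ (dg v : ℝ) * (N / (x.2 + 1 : ℕ)) := by
    intro v _
    split_ifs with h
    · rw [norm_mul, norm_div, Complex.norm_natCast, Complex.norm_natCast]
      have h2 : ‖∑ j, β v j ^ ((x.2 + 1) / dg v)‖ ≤ N := by
        refine (norm_sum_le_of_le (n := fun _ => (1 : ℝ)) _ fun j _ => ?_).trans ?_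
        · rw [norm_pow]
          exact pow_le_one₀ (norm_nonneg _) (hβ v j)
        · simp
      calc _ ≤ (N : ℝ) * ((dg v : ℝ) / (x.2 + 1 : ℕ)) :=
            mul_le_mul_of_nonneg_right h2 (by positivity)
        _ = _ := by ring
    · rw [norm_zero]
      positivity
  refine (norm_sum_le_of_le _ h1).trans ?_
  rw [← Finset.sum_mul]
  have h2 : (∑ v ∈ (Sp x.1 : Finset (HeightOneSpectrum (𝓞 K))), (dg v : ℝ)) ≤
      Module.finrank ℚ K := by exact_mod_cast sum_dg_le x.1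
  calc _ ≤ (Module.finrank ℚ K : ℝ) * (N / (x.2 + 1 : ℕ)) :=
        mul_le_mul_of_nonneg_right h2 (by positivity)
    _ = _ := by ring

lemma nm_cpow (v : HeightOneSpectrum (𝓞 K)) (s : ℂ) :
    ((nm v : ℕ) : ℂ) ^ (-s) = (((pr v : ℕ) : ℂ) ^ (-s)) ^ dg v := by
  have hne : ((pr v : ℕ) : ℂ) ≠ 0 := by exact_mod_cast (pr v).2.ne_zero
  rw [nm_eq, Nat.cast_pow, cpow_def_of_ne_zero (pow_ne_zero _ hne), cpow_def_of_ne_zero hne,
    ← Complex.exp_nat_mul]
  congr 1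
  have h1 : Complex.log (((pr v : ℕ) : ℂ) ^ dg v) = (dg v : ℂ) * Complex.log ((pr v : ℕ) : ℂ) := by
    have h0 := prime_pos (pr v)
    have h2 : ((Real.log ((((pr v : ℕ) : ℝ)) ^ dg v) : ℝ) : ℂ) =
        (((dg v : ℝ) * Real.log ((pr v : ℕ) : ℝ) : ℝ) : ℂ) := by
      rw [Real.log_pow]
    rw [Complex.ofReal_log (by positivity), Complex.ofReal_mul,
      Complex.ofReal_log (by positivity)] at h2
    push_cast at h2
    exact h2
  rw [h1]
  ring

lemma norm_pr_cpow (p : Nat.Primes) {s : ℂ} (hs : 1 ≤ s.re) :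
    ‖((p : ℕ) : ℂ) ^ (-s)‖ ≤ 1 / 2 := by
  rw [norm_natCast_cpow_of_pos p.2.pos, neg_re]
  exact rpow_neg_le_half p hs

lemma norm_pr_cpow' (p : Nat.Primes) (s : ℂ) :
    ‖((p : ℕ) : ℂ) ^ (-s)‖ = ((p : ℕ) : ℝ) ^ (-s.re) := by
  rw [norm_natCast_cpow_of_pos p.2.pos, neg_re]

lemma norm_nm_cpow (v : HeightOneSpectrum (𝓞 K)) {s : ℂ} (hs : 1 ≤ s.re) :
    ‖((nm v : ℕ) : ℂ) ^ (-s)‖ ≤ ((pr v : ℕ) : ℝ) ^ (-s.re) ∧
      ‖((nm v : ℕ) : ℂ) ^ (-s)‖ ≤ 1 / 2 := by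
  have h1 := norm_pr_cpow (pr v) hs
  have h2 : ‖((nm v : ℕ) : ℂ) ^ (-s)‖ ≤ ‖((pr v : ℕ) : ℂ) ^ (-s)‖ := by
    rw [nm_cpow, norm_pow]
    exact pow_le_of_le_one (norm_nonneg _) (h1.trans (by norm_num)) (dg_pos v).ne'
  exact ⟨h2.trans (norm_pr_cpow' _ _).le, h2.trans h1⟩

lemma hasSum_lv {β : HeightOneSpectrum (𝓞 K) → Fin N → ℂ} (hβ : ∀ v j, ‖β v j‖ ≤ 1)
    (v : HeightOneSpectrum (𝓞 K)) {s : ℂ} (hs : 1 ≤ s.re) :
    HasSum (fun k : ℕ => (if dg v ∣ k + 1 then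
      (∑ j, β v j ^ ((k + 1) / dg v)) * ((dg v : ℂ) / ((k + 1 : ℕ) : ℂ)) else 0) *
        (((pr v : ℕ) : ℂ) ^ (-s)) ^ (k + 1)) (lv β v s) := by
  have hf := dg_pos v
  have hf0 : (dg v : ℂ) ≠ 0 := by exact_mod_cast hf.ne'
  set g : ℕ → ℕ := fun l => dg v * (l + 1) - 1 with hg
  have hg1 : ∀ l, g l + 1 = dg v * (l + 1) := by
    intro l
    have : 0 < dg v * (l + 1) := Nat.mul_pos hf (Nat.succ_pos l)
    simp only [hg]
    omega
  have hinj : Function.Injective g := by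
    intro a b hab
    have h1 : dg v * (a + 1) = dg v * (b + 1) := by rw [← hg1, ← hg1, hab]
    have := Nat.eq_of_mul_eq_mul_left hf h1
    omega
  rw [← hinj.hasSum_iff]
  · have h2 : ∀ j, HasSum (fun l : ℕ => (β v j * ((nm v : ℕ) : ℂ) ^ (-s)) ^ (l + 1) /
        ((l + 1 : ℕ) : ℂ)) (-Complex.log (1 - β v j * ((nm v : ℕ) : ℂ) ^ (-s))) := by
      intro j
      have hlt : ‖β v j * ((nm v : ℕ) : ℂ) ^ (-s)‖ < 1 := by
        rw [norm_mul]
        have h3 := (norm_nm_cpow v hs).2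
        have h4 := hβ v j
        nlinarith [norm_nonneg (β v j), norm_nonneg (((nm v : ℕ) : ℂ) ^ (-s))]
      have h1 := Complex.hasSum_taylorSeries_neg_log hlt
      rw [← hasSum_nat_add_iff' 1] at h1
      simpa only [range_one, sum_singleton, pow_zero, CharP.cast_eq_zero, div_zero, sub_zero]
        using h1
    have h3 := hasSum_sum (s := (Finset.univ : Finset (Fin N))) fun j _ => h2 j
    unfold lv
    convert h3 using 1
    funext l
    simp only [Function.comp_apply]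
    rw [hg1, if_pos (Dvd.intro _ rfl), Nat.mul_div_cancel_left _ hf, Finset.sum_mul,
      Finset.sum_mul]
    refine Finset.sum_congr rfl fun j _ => ?_
    rw [mul_pow, nm_cpow, ← pow_mul]
    push_cast
    have h5 : ((l : ℂ) + 1) ≠ 0 := by exact_mod_cast Nat.succ_ne_zero l
    field_simp
  · intro k hk
    rw [if_neg, zero_mul]
    rintro ⟨c, hc⟩
    apply hk
    have hc0 : 0 < c := by
      rcases Nat.eq_zero_or_pos c with h | h
      · rw [h, mul_zero] at hc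
        omega
      · exact h
    refine ⟨c - 1, ?_⟩
    have := hg1 (c - 1)
    rw [Nat.sub_add_cancel hc0] at this
    omega

end

end Pool.Agent.TH339.MP
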