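import Pool.Agent.TH339.MP.P6

/-!
# Euler products over number fields as Euler products over the rational primes, III
-/

set_option autoImplicit false

namespace Pool.Agent.TH339.MP

open Complex MeasureTheory Finset Filter Topology NumberField IsDedekindDomain

lemma summable_tm {b : PP → ℂ} {M : ℝ} (hb : ∀ x, ‖b x‖ ≤ M / (x.2 + 1 : ℕ)) {s : ℂ}
    (hs : 1 < s.re) : Summable (tm b s) := by
  have hse : ((s.re : ℂ) + s.im * I) = s := re_add_im s
  refine Summable.of_norm_bounded ((summable_wt hs).mul_left M) fun x => ?_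
  rw [← hse, tm_eq, norm_mul, norm_ee, mul_one, norm_mul, Complex.norm_real,
    Real.norm_of_nonneg (wt_nonneg _ x)]
  refine (mul_le_mul_of_nonneg_right (hb x) (wt_nonneg _ x)).trans (le_of_eq ?_)
  simp
  ring

section
variable {K : Type} [Field K] [NumberField K] {N : ℕ}

lemma hasSum_fiber {β : HeightOneSpectrum (𝓞 K) → Fin N → ℂ} (hβ : ∀ v j, ‖β v j‖ ≤ 1)
    (p : Nat.Primes) {s : ℂ} (hs : 1 ≤ s.re) :
    HasSum (fun k : ℕ => tm (bb β) s (p, k)) (∑ v ∈ Sp p, lv β v s) := by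
  have h1 := hasSum_sum (s := (Sp p : Finset (HeightOneSpectrum (𝓞 K))))
    fun v _ => hasSum_lv hβ v hs
  convert h1 using 1
  funext k
  unfold tm bb
  simp only
  rw [Finset.sum_mul]
  refine Finset.sum_congr rfl fun v hv => ?_
  rw [mem_Sp] at hv
  rw [hv]

lemma norm_lv {β : HeightOneSpectrum (𝓞 K) → Fin N → ℂ} (hβ : ∀ v j, ‖β v j‖ ≤ 1)
    (v : HeightOneSpectrum (𝓞 K)) {s : ℂ} (hs : 1 ≤ s.re) :
    ‖lv β v s‖ ≤ (3 / 2 * N) * ((pr v : ℕ) : ℝ) ^ (-s.re) := by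
  unfold lv
  obtain ⟨h1, h2⟩ := norm_nm_cpow v hs
  refine (norm_sum_le_of_le (n := fun _ => 3 / 2 * ((pr v : ℕ) : ℝ) ^ (-s.re)) _
    fun j _ => ?_).trans (le_of_eq ?_)
  · rw [norm_neg, sub_eq_add_neg]
    have h3 : ‖-(β v j * ((nm v : ℕ) : ℂ) ^ (-s))‖ ≤ ‖((nm v : ℕ) : ℂ) ^ (-s)‖ := by
      rw [norm_neg, norm_mul]
      exact mul_le_of_le_one_left (norm_nonneg _) (hβ v j)
    refine (Complex.norm_log_one_add_half_le_self (h3.trans h2)).trans ?_
    exact mul_le_mul_of_nonneg_left (h3.trans h1) (by norm_num)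
  · rw [Finset.sum_const, Finset.card_univ, Fintype.card_fin, nsmul_eq_mul]
    ring

/-- the equivalence between the primes and the pairs of a rational prime and a prime above it -/
noncomputable def eqv : (Σ p : Nat.Primes, {v : HeightOneSpectrum (𝓞 K) // pr v = p}) ≃
    HeightOneSpectrum (𝓞 K) := Equiv.sigmaFiberEquiv pr

instance (p : Nat.Primes) : Finite {v : HeightOneSpectrum (𝓞 K) // pr v = p} :=
  (finite_fiber p).to_subtype

noncomputable instance (p : Nat.Primes) : Fintype {v : HeightOneSpectrum (𝓞 K) // pr v = p} :=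
  Fintype.ofFinite _

lemma sum_fiber {E : Type*} [AddCommMonoid E] (p : Nat.Primes)
    (f : HeightOneSpectrum (𝓞 K) → E) :
    ∑ w : {v : HeightOneSpectrum (𝓞 K) // pr v = p}, f w = ∑ v ∈ Sp p, f v :=
  (Finset.sum_subtype (Sp p) (fun v => mem_Sp p v) f).symm

lemma card_Sp (p : Nat.Primes) :
    (((Sp p : Finset (HeightOneSpectrum (𝓞 K))).card : ℕ) : ℝ) ≤ Module.finrank ℚ K := by
  have h1 : (Sp p : Finset (HeightOneSpectrum (𝓞 K))).card ≤ Module.finrank ℚ K := by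
    refine le_trans ?_ (sum_dg_le p)
    rw [Finset.card_eq_sum_ones]
    exact Finset.sum_le_sum fun v _ => dg_pos v
  exact_mod_cast h1

lemma summable_pr {σ : ℝ} (hσ : 1 < σ) :
    Summable fun v : HeightOneSpectrum (𝓞 K) => ((pr v : ℕ) : ℝ) ^ (-σ) := by
  rw [← (eqv (K := K)).summable_iff]
  have h0 : ∀ x : (Σ p : Nat.Primes, {v : HeightOneSpectrum (𝓞 K) // pr v = p}),
      0 ≤ ((fun v : HeightOneSpectrum (𝓞 K) => ((pr v : ℕ) : ℝ) ^ (-σ)) ∘ eqv) x :=
    fun x => Real.rpow_nonneg (prime_pos _).le _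
  rw [summable_sigma_of_nonneg h0]
  refine ⟨fun p => (hasSum_fintype _).summable, ?_⟩
  have hp : Summable fun p : Nat.Primes => ((p : ℕ) : ℝ) ^ (-σ) :=
    (Nat.Primes.summable_rpow (r := -σ)).2 (by linarith)
  refine Summable.of_nonneg_of_le (fun p => tsum_nonneg fun x =>
    Real.rpow_nonneg (prime_pos _).le _) (fun p => ?_) (hp.mul_left (Module.finrank ℚ K : ℝ))
  rw [tsum_fintype]
  have h1 : ∀ w : {v : HeightOneSpectrum (𝓞 K) // pr v = p},
      ((fun v : HeightOneSpectrum (𝓞 K) => ((pr v : ℕ) : ℝ) ^ (-σ)) ∘ eqv) ⟨p, w⟩ =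
        ((p : ℕ) : ℝ) ^ (-σ) := by
    intro w
    change ((pr w.1 : ℕ) : ℝ) ^ (-σ) = _
    rw [w.2]
  simp_rw [h1]
  rw [Finset.sum_const, nsmul_eq_mul]
  refine mul_le_mul_of_nonneg_right ?_ (Real.rpow_nonneg (prime_pos p).le _)
  have h2 := card_Sp (K := K) p
  have h3 : (Finset.univ : Finset {v : HeightOneSpectrum (𝓞 K) // pr v = p}).card =
      (Sp p : Finset (HeightOneSpectrum (𝓞 K))).card := by
    have := sum_fiber (K := K) p (fun _ => (1 : ℕ))
    simpa using this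
  rw [h3]
  exact h2

lemma summable_lv {β : HeightOneSpectrum (𝓞 K) → Fin N → ℂ} (hβ : ∀ v j, ‖β v j‖ ≤ 1) {s : ℂ}
    (hs : 1 < s.re) : Summable fun v => lv β v s :=
  Summable.of_norm_bounded ((summable_pr hs).mul_left (3 / 2 * (N : ℝ))) fun v => norm_lv hβ v hs.le

lemma eqv_apply (x : (Σ p : Nat.Primes, {v : HeightOneSpectrum (𝓞 K) // pr v = p})) :
    eqv x = x.2.1 := rfl

lemma tsum_eqv (f : HeightOneSpectrum (𝓞 K) → ℂ) (hf : Summable f) :
    ∑' v, f v = ∑' p : Nat.Primes, ∑ v ∈ Sp p, f v := by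
  have h2 : Summable fun x : (Σ p : Nat.Primes, {v : HeightOneSpectrum (𝓞 K) // pr v = p}) =>
      f x.2.1 := ((eqv (K := K)).summable_iff).2 hf
  have h3 : ∑' x : (Σ p : Nat.Primes, {v : HeightOneSpectrum (𝓞 K) // pr v = p}), f x.2.1 =
      ∑' v, f v := (eqv (K := K)).tsum_eq f
  rw [← h3, h2.tsum_sigma]
  refine tsum_congr fun p => ?_
  rw [tsum_fintype]
  exact sum_fiber p f

lemma hasSum_all {β : HeightOneSpectrum (𝓞 K) → Fin N → ℂ} (hβ : ∀ v j, ‖β v j‖ ≤ 1) {s : ℂ}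
    (hs : 1 < s.re) : HasSum (fun v => lv β v s) (FF (bb β) s) := by
  have h1 : ∑' v, lv β v s = FF (bb β) s := by
    rw [tsum_eqv _ (summable_lv hβ hs)]
    unfold FF
    rw [(summable_tm (norm_bb hβ) hs).tsum_prod]
    exact tsum_congr fun p => (hasSum_fiber hβ p hs.le).tsum_eq.symm
  rw [← h1]
  exact (summable_lv hβ hs).hasSum

lemma exp_lv {β : HeightOneSpectrum (𝓞 K) → Fin N → ℂ} (hβ : ∀ v j, ‖β v j‖ ≤ 1)
    (v : HeightOneSpectrum (𝓞 K)) {s : ℂ} (hs : 1 ≤ s.re) :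
    Complex.exp (lv β v s) = ∏ j, (1 - β v j * ((nm v : ℕ) : ℂ) ^ (-s))⁻¹ := by
  unfold lv
  rw [Complex.exp_sum]
  refine Finset.prod_congr rfl fun j _ => ?_
  rw [Complex.exp_neg, Complex.exp_log]
  intro h
  have h2 := (norm_nm_cpow v hs).2
  have h3 : ‖β v j * ((nm v : ℕ) : ℂ) ^ (-s)‖ = 1 := by
    rw [← sub_eq_zero.1 h, norm_one]
  rw [norm_mul] at h3
  have h4 := hβ v j
  nlinarith [norm_nonneg (β v j), norm_nonneg (((nm v : ℕ) : ℂ) ^ (-s))]

/-- **The Euler product.** -/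
theorem hasProd_L {β : HeightOneSpectrum (𝓞 K) → Fin N → ℂ} (hβ : ∀ v j, ‖β v j‖ ≤ 1) {s : ℂ}
    (hs : 1 < s.re) :
    HasProd (fun v : HeightOneSpectrum (𝓞 K) => ∏ j, (1 - β v j * ((nm v : ℕ) : ℂ) ^ (-s))⁻¹)
      (Complex.exp (FF (bb β) s)) := by
  have h1 := (hasSum_all hβ hs).cexp
  convert h1 using 1
  funext v
  exact (exp_lv hβ v hs.le).symm

end

end Pool.Agent.TH339.MP
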