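import Pool.Agent.H341R2.NF.ECCount

/-!
# Points on Weierstrass cubics over finite fields
-/

set_option autoImplicit false

namespace Pool.Agent.TH339.MP

open Finset Polynomial

section
variable {k : Type} [Field k]

lemma two_ne (h6 : (6 : k) ≠ 0) : (2 : k) ≠ 0 := by
  intro h
  apply h6
  have : (6 : k) = 3 * 2 := by norm_num
  rw [this, h, mul_zero]

lemma three_ne (h6 : (6 : k) ≠ 0) : (3 : k) ≠ 0 := by
  intro h
  apply h6
  have : (6 : k) = 2 * 3 := by norm_num
  rw [this, h, mul_zero]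

lemma csum_sing [Fintype k] [DecidableEq k] (h6 : (6 : k) ≠ 0) {c c' : k}
    (h : c ^ 3 - c' ^ 2 = 0) : |(H341R2.EC.csum c c' : ℝ)| ≤ 1 := by
  have h2 := two_ne h6
  have hk : ringChar k ≠ 2 := by
    intro h
    apply h2
    have := ringChar.Nat.cast_ringChar (R := k)
    rw [h] at this
    exact_mod_cast this
  obtain ⟨t, ht1, ht2⟩ : ∃ t : k, c = t ^ 2 ∧ c' = t ^ 3 := by
    by_cases hc : c = 0
    · refine ⟨0, by rw [hc]; ring, ?_⟩
      have h3 : c' ^ 2 = 0 := by
        rw [hc] at h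
        linear_combination -h
      rw [pow_eq_zero_iff (by norm_num)] at h3
      rw [h3]
      ring
    · refine ⟨c' / c, ?_, ?_⟩
      · field_simp
        linear_combination h
      · field_simp
        linear_combination c' * h
  have h3 : ∀ x : k, quadraticChar k ((H341R2.EC.cub c c').eval x) =
      quadraticChar k (x - 6 * t) - (if x = -3 * t then quadraticChar k (x - 6 * t) else 0) := by
    intro x
    rw [H341R2.EC.cub_eval, ht1, ht2]
    have e : x ^ 3 - 27 * t ^ 2 * x - 54 * t ^ 3 = (x + 3 * t) ^ 2 * (x - 6 * t) := by ring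
    rw [e, map_mul]
    by_cases hx : x = -3 * t
    · rw [if_pos hx, sub_self]
      have : x + 3 * t = 0 := by rw [hx]; ring
      rw [this]
      simp
    · rw [if_neg hx, sub_zero]
      have : x + 3 * t ≠ 0 := by
        intro h'
        apply hx
        linear_combination h'
      rw [quadraticChar_sq_one' this, one_mul]
  have h4 : ∑ x : k, quadraticChar k (x - 6 * t) = 0 := by
    rw [← quadraticChar_sum_zero hk]
    exact Fintype.sum_equiv (Equiv.subRight (6 * t)) _ _ fun x => rfl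
  have h5 : H341R2.EC.csum c c' = -quadraticChar k (-3 * t - 6 * t) := by
    unfold H341R2.EC.csum
    simp_rw [h3]
    rw [Finset.sum_sub_distrib, h4, Finset.sum_ite_eq' Finset.univ (-3 * t)
      (fun x => quadraticChar k (x - 6 * t))]
    simp
  rw [h5]
  rcases quadraticChar_isQuadratic k (-3 * t - 6 * t) with h7 | h7 | h7 <;> rw [h7] <;> simp

open Classical in
lemma card_sub_aff [Finite k] (h6 : (6 : k) ≠ 0) (V : WeierstrassCurve k) :
    |(Nat.card k : ℝ) - H341R2.EC.aff V| ≤
      if V.Δ = 0 then 1 else 2 * Real.sqrt (Nat.card k) := by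
  let _ : Fintype k := Fintype.ofFinite k
  have h1 : H341R2.EC.aff V = H341R2.EC.short V.c₄ V.c₆ := H341R2.EC.aff_eq_short h6 V
  have h2' : (H341R2.EC.short V.c₄ V.c₆ : ℤ) = Fintype.card k + H341R2.EC.csum V.c₄ V.c₆ :=
    H341R2.EC.short_eq h6 V.c₄ V.c₆
  have h5 : (H341R2.EC.short V.c₄ V.c₆ : ℝ) = Fintype.card k + H341R2.EC.csum V.c₄ V.c₆ := by
    exact_mod_cast h2'
  rw [Nat.card_eq_fintype_card, h1, h5, sub_add_cancel_left, abs_neg]
  have h4 := V.c_relation
  split_ifs with h
  · refine csum_sing h6 ?_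
    rw [← h4, h, mul_zero]
  · refine H341R2.EC.csum_bound h6 ?_
    rw [← h4]
    have h7 : (1728 : k) ≠ 0 := by
      have e : (1728 : k) = 2 ^ 6 * 3 ^ 3 := by norm_num
      rw [e]
      exact mul_ne_zero (pow_ne_zero _ (two_ne h6)) (pow_ne_zero _ (three_ne h6))
    exact mul_ne_zero h7 h

lemma aff_le [Finite k] (V : WeierstrassCurve k) : H341R2.EC.aff V ≤ 2 * Nat.card k := by
  classical
  let _ : Fintype k := Fintype.ofFinite k
  unfold H341R2.EC.aff
  let e : {p : k × k // p.2 ^ 2 + V.a₁ * p.1 * p.2 + V.a₃ * p.2 =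
    p.1 ^ 3 + V.a₂ * p.1 ^ 2 + V.a₄ * p.1 + V.a₆} ≃
    Σ x : k, {y : k // y ^ 2 + V.a₁ * x * y + V.a₃ * y = x ^ 3 + V.a₂ * x ^ 2 + V.a₄ * x + V.a₆} :=
    { toFun := fun p => ⟨p.1.1, ⟨p.1.2, p.2⟩⟩
      invFun := fun q => ⟨(q.1, q.2.1), q.2.2⟩
      left_inv := fun p => rfl
      right_inv := fun q => rfl }
  rw [Nat.card_congr e, Nat.card_eq_fintype_card, Fintype.card_sigma, Nat.card_eq_fintype_card]
  have h1 : ∀ x ∈ (Finset.univ : Finset k), Fintype.card {y : k // y ^ 2 + V.a₁ * x * y +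
      V.a₃ * y = x ^ 3 + V.a₂ * x ^ 2 + V.a₄ * x + V.a₆} ≤ 2 := by
    intro x _
    set P : k[X] := X ^ 2 + (C (V.a₁ * x + V.a₃) * X -
      C (x ^ 3 + V.a₂ * x ^ 2 + V.a₄ * x + V.a₆)) with hP
    have hdeg : (C (V.a₁ * x + V.a₃) * X -
      C (x ^ 3 + V.a₂ * x ^ 2 + V.a₄ * x + V.a₆) : k[X]).degree < (2 : ℕ) := by
      refine lt_of_le_of_lt (degree_sub_le _ _) (max_lt ?_ ?_)
      · exact lt_of_le_of_lt (degree_C_mul_X_le _) (by norm_num)
      · exact lt_of_le_of_lt degree_C_le (by norm_num)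
    have hmon : P.Monic := monic_X_pow_add hdeg
    have hnd : P.natDegree = 2 := by
      have h3 : P.degree = 2 := by
        rw [hP, degree_add_eq_left_of_degree_lt (by rw [degree_X_pow]; exact hdeg), degree_X_pow]
        rfl
      exact natDegree_eq_of_degree_eq_some h3
    rw [Fintype.card_subtype]
    have h4 : (Finset.univ.filter fun y : k => y ^ 2 + V.a₁ * x * y +
        V.a₃ * y = x ^ 3 + V.a₂ * x ^ 2 + V.a₄ * x + V.a₆) ⊆ P.roots.toFinset := by
      intro y hy
      rw [Finset.mem_filter] at hy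
      rw [Multiset.mem_toFinset, mem_roots hmon.ne_zero, IsRoot.def, hP]
      simp only [eval_add, eval_pow, eval_X, eval_sub, eval_mul, eval_C]
      linear_combination hy.2
    refine (Finset.card_le_card h4).trans ((Multiset.toFinset_card_le _).trans ?_)
    exact (card_roots' P).trans hnd.le
  refine (Finset.sum_le_sum h1).trans (le_of_eq ?_)
  rw [Finset.sum_const, Finset.card_univ, smul_eq_mul, mul_comm]

end

end Pool.Agent.TH339.MP
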