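import Pool.Agent.TH339.MP.P7
import Pool.Agent.TH339.MP.P8

/-!
# The local factors of elliptic curves
-/

set_option autoImplicit false

namespace Pool.Agent.TH339.MP

open Complex MeasureTheory Finset Filter Topology NumberField IsDedekindDomain
open scoped ComplexConjugate

theorem exists_roots {a q : ℝ} (hq : 0 < q) (h : |a| ≤ 2 * Real.sqrt q) :
    ∃ α : Fin 2 → ℂ, (∀ j, ‖α j‖ = Real.sqrt q) ∧ α 0 + α 1 = a ∧ α 0 * α 1 = q := by
  have h1 : a ^ 2 ≤ 4 * q := by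
    have h2 : |a| ^ 2 ≤ (2 * Real.sqrt q) ^ 2 := pow_le_pow_left₀ (abs_nonneg _) h 2
    rw [sq_abs, mul_pow, Real.sq_sqrt hq.le] at h2
    linarith
  set s : ℝ := Real.sqrt (4 * q - a ^ 2) with hs
  have hs2 : s ^ 2 = 4 * q - a ^ 2 := Real.sq_sqrt (by linarith)
  set z : ℂ := ⟨a / 2, s / 2⟩ with hz
  have hns : Complex.normSq z = q := by
    rw [Complex.normSq_apply, hz]
    simp only
    nlinarith
  have hnorm : ‖z‖ = Real.sqrt q := by
    rw [← hns, Complex.norm_def]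
  refine ⟨![z, conj z], fun j => ?_, ?_, ?_⟩
  · fin_cases j
    · exact hnorm
    · change ‖conj z‖ = _
      rw [Complex.norm_conj]
      exact hnorm
  · change z + conj z = a
    rw [Complex.add_conj, hz]
    push_cast
    ring
  · change z * conj z = q
    rw [Complex.mul_conj, hns]

/-- the local factor with the parameters `a`, `e`, `q` -/
noncomputable def lfac (q : ℕ) (a : ℝ) (e : ℂ) (s : ℂ) : ℂ :=
  (1 - (a : ℂ) * (q : ℂ) ^ (-s) + e * (q : ℂ) ^ (-2 * s))⁻¹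

lemma cpow_two (q : ℕ) (hq : q ≠ 0) (s : ℂ) : (q : ℂ) ^ (-2 * s) = ((q : ℂ) ^ (-s)) ^ 2 := by
  rw [← Complex.cpow_nat_mul]
  congr 1
  push_cast
  ring

lemma cpow_half (q : ℕ) (hq : 0 < q) (s : ℂ) :
    (q : ℂ) ^ (-(s - 1 / 2)) = ((Real.sqrt q : ℝ) : ℂ) * (q : ℂ) ^ (-s) := by
  have hne : (q : ℂ) ≠ 0 := by exact_mod_cast hq.ne'
  have h1 : -(s - 1 / 2) = 1 / 2 + -s := by ring
  rw [h1, cpow_add _ _ hne]
  congr 1
  have h2 : (0 : ℝ) ≤ (q : ℝ) := by positivity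
  rw [Real.sqrt_eq_rpow, Complex.ofReal_cpow h2]
  push_cast
  rfl

/-- tempered factors of good reduction -/
lemma good_factor {q : ℕ} (hq : 0 < q) {a : ℝ} (ha : |a| ≤ 2 * Real.sqrt q) :
    ∃ β : Fin 2 → ℂ, (∀ j, ‖β j‖ ≤ 1) ∧ ∀ s : ℂ,
      lfac q a q s = ∏ j, (1 - β j * (q : ℂ) ^ (-(s - 1 / 2)))⁻¹ := by
  have hq0 : (0 : ℝ) < q := by exact_mod_cast hq
  have hs : 0 < Real.sqrt q := Real.sqrt_pos.2 hq0
  obtain ⟨α, h1, h2, h3⟩ := exists_roots hq0 ha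
  refine ⟨fun j => α j / (Real.sqrt q : ℝ), fun j => ?_, fun s => ?_⟩
  · rw [norm_div, h1, Complex.norm_real, Real.norm_of_nonneg hs.le, div_self hs.ne']
  · have hsC : ((Real.sqrt q : ℝ) : ℂ) ≠ 0 := by exact_mod_cast hs.ne'
    have h4 : ∀ j, 1 - α j / (Real.sqrt q : ℝ) * (q : ℂ) ^ (-(s - 1 / 2)) =
        1 - α j * (q : ℂ) ^ (-s) := by
      intro j
      rw [cpow_half q hq]
      field_simp
    simp_rw [h4]
    rw [Fin.prod_univ_two, ← mul_inv, lfac, cpow_two q hq.ne']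
    congr 1
    have h5 : α 0 * α 1 = (q : ℂ) := by
      rw [h3]
      simp
    rw [← h2]
    linear_combination (-((q : ℂ) ^ (-s)) ^ 2) * h5

/-- factors of bad reduction -/
lemma bad_factor {q : ℕ} (hq : 0 < q) {a : ℝ} (ha : |a| ≤ 1) :
    ∃ β : Fin 2 → ℂ, (∀ j, ‖β j‖ ≤ 1) ∧ ∀ s : ℂ,
      lfac q a 0 s = ∏ j, (1 - β j * (q : ℂ) ^ (-(s - 1 / 2)))⁻¹ := by
  have hq0 : (1 : ℝ) ≤ q := by exact_mod_cast hq
  have hs : 1 ≤ Real.sqrt q := by
    rw [Real.one_le_sqrt]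
    exact hq0
  refine ⟨![(a : ℂ) / (Real.sqrt q : ℝ), 0], fun j => ?_, fun s => ?_⟩
  · fin_cases j
    · change ‖(a : ℂ) / (Real.sqrt q : ℝ)‖ ≤ 1
      rw [norm_div, Complex.norm_real, Complex.norm_real, Real.norm_eq_abs,
        Real.norm_of_nonneg (by linarith)]
      rw [div_le_one (by linarith)]
      linarith
    · change ‖(0 : ℂ)‖ ≤ 1
      simp
  · have hsC : ((Real.sqrt q : ℝ) : ℂ) ≠ 0 := by
      have : Real.sqrt q ≠ 0 := by linarith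
      exact_mod_cast this
    rw [Fin.prod_univ_two]
    simp only [Matrix.cons_val_zero, Matrix.cons_val_one, zero_mul, sub_zero, inv_one, mul_one]
    rw [cpow_half q hq, lfac, zero_mul, add_zero]
    congr 2
    field_simp

/-- the trivial bound at the places above `6` -/
lemma triv_factor {q : ℕ} (hq : 2 ≤ q) {a : ℝ} (ha : |a| ≤ q) {e : ℂ} (he : ‖e‖ ≤ q) {s : ℂ}
    (hs : 3 / 2 < s.re) : ‖lfac q a e s‖ ≤ 24 ∧ ‖(lfac q a e s)⁻¹‖ ≤ 24 := by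
  have hq0 : (0 : ℝ) < q := by exact_mod_cast (by omega : 0 < q)
  have hq1 : (1 : ℝ) ≤ q := by exact_mod_cast (by omega : 1 ≤ q)
  have hq2 : (2 : ℝ) ≤ q := by exact_mod_cast hq
  have hx : ‖(q : ℂ) ^ (-s)‖ ≤ (q : ℝ) ^ (-(3 / 2) : ℝ) := by
    rw [norm_natCast_cpow_of_pos (by omega), neg_re]
    exact Real.rpow_le_rpow_of_exponent_le hq1 (by linarith)
  have h1 : (q : ℝ) * (q : ℝ) ^ (-(3 / 2) : ℝ) ≤ 708 / 1000 := by
    have e1 : (q : ℝ) * (q : ℝ) ^ (-(3 / 2) : ℝ) = (Real.sqrt q)⁻¹ := by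
      rw [Real.sqrt_eq_rpow, ← Real.rpow_neg hq0.le]
      nth_rewrite 1 [← Real.rpow_one (q : ℝ)]
      rw [← Real.rpow_add hq0]
      norm_num
    rw [e1, inv_le_comm₀ (Real.sqrt_pos.2 hq0) (by norm_num)]
    refine Real.le_sqrt_of_sq_le ?_
    norm_num
    linarith
  have h2 : (q : ℝ) * ((q : ℝ) ^ (-(3 / 2) : ℝ)) ^ 2 ≤ 1 / 4 := by
    have e1 : (q : ℝ) * ((q : ℝ) ^ (-(3 / 2) : ℝ)) ^ 2 = ((q : ℝ) ^ 2)⁻¹ := by
      rw [← Real.rpow_natCast, ← Real.rpow_mul hq0.le]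
      nth_rewrite 1 [← Real.rpow_one (q : ℝ)]
      rw [← Real.rpow_add hq0, ← Real.rpow_natCast (q : ℝ) 2, ← Real.rpow_neg hq0.le]
      norm_num
    rw [e1, inv_le_comm₀ (by positivity) (by norm_num)]
    nlinarith
  have h3 : ‖(a : ℂ) * (q : ℂ) ^ (-s)‖ ≤ 708 / 1000 := by
    rw [norm_mul, Complex.norm_real]
    exact (mul_le_mul ha hx (norm_nonneg _) hq0.le).trans h1
  have h4 : ‖e * (q : ℂ) ^ (-2 * s)‖ ≤ 1 / 4 := by
    rw [cpow_two q (by omega), norm_mul, norm_pow]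
    exact (mul_le_mul he (pow_le_pow_left₀ (norm_nonneg _) hx 2) (by positivity) hq0.le).trans h2
  have h5 : ‖1 - (a : ℂ) * (q : ℂ) ^ (-s) + e * (q : ℂ) ^ (-2 * s)‖ ≤ 24 := by
    refine (norm_add_le _ _).trans ?_
    have := norm_sub_le (1 : ℂ) ((a : ℂ) * (q : ℂ) ^ (-s))
    rw [norm_one] at this
    linarith
  have h6 : 1 / 24 ≤ ‖1 - (a : ℂ) * (q : ℂ) ^ (-s) + e * (q : ℂ) ^ (-2 * s)‖ := by
    have h7 : ‖(1 : ℂ)‖ ≤ ‖1 - (a : ℂ) * (q : ℂ) ^ (-s) + e * (q : ℂ) ^ (-2 * s)‖ +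
        ‖(a : ℂ) * (q : ℂ) ^ (-s)‖ + ‖e * (q : ℂ) ^ (-2 * s)‖ := by
      calc ‖(1 : ℂ)‖ = ‖(1 - (a : ℂ) * (q : ℂ) ^ (-s) + e * (q : ℂ) ^ (-2 * s)) +
            (a : ℂ) * (q : ℂ) ^ (-s) - e * (q : ℂ) ^ (-2 * s)‖ := by
              congr 1
              ring
        _ ≤ _ := (norm_sub_le _ _).trans (by
              have := norm_add_le (1 - (a : ℂ) * (q : ℂ) ^ (-s) + e * (q : ℂ) ^ (-2 * s))
                ((a : ℂ) * (q : ℂ) ^ (-s))
              linarith)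
    rw [norm_one] at h7
    linarith
  unfold lfac
  rw [inv_inv, norm_inv]
  refine ⟨?_, h5⟩
  rw [inv_le_comm₀ (by linarith) (by norm_num)]
  linarith

section
variable {K : Type} [Field K] [NumberField K]

/-- the number of solutions of the affine Weierstrass equation -/
noncomputable def affc {R : Type} [CommRing R] (V : WeierstrassCurve R) : ℕ :=
  Nat.card {p : R × R // p.2 ^ 2 + V.a₁ * p.1 * p.2 + V.a₃ * p.2 =
    p.1 ^ 3 + V.a₂ * p.1 ^ 2 + V.a₄ * p.1 + V.a₆}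

lemma affc_le {k : Type} [Field k] [Finite k] (V : WeierstrassCurve k) :
    affc V ≤ 2 * Nat.card k := aff_le V

open Classical in
lemma card_sub_affc {k : Type} [Field k] [Finite k] (h6 : (6 : k) ≠ 0) (V : WeierstrassCurve k) :
    |(Nat.card k : ℝ) - affc V| ≤
      if V.Δ = 0 then 1 else 2 * Real.sqrt (Nat.card k) := card_sub_aff h6 V

/-- the trace -/
noncomputable def av (W : HeightOneSpectrum (𝓞 K) → WeierstrassCurve (𝓞 K))
    (v : HeightOneSpectrum (𝓞 K)) : ℝ :=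
  (nm v : ℝ) - affc ((W v).map (Ideal.Quotient.mk v.asIdeal))

open Classical in
/-- the Euler factor -/
noncomputable def elf (W : HeightOneSpectrum (𝓞 K) → WeierstrassCurve (𝓞 K))
    (v : HeightOneSpectrum (𝓞 K)) (s : ℂ) : ℂ :=
  lfac (nm v) (av W v) (if (W v).Δ ∈ v.asIdeal then 0 else (nm v : ℂ)) s

lemma two_le_nm (v : HeightOneSpectrum (𝓞 K)) : 2 ≤ nm v := by
  rw [nm_eq]
  calc 2 ≤ ((pr v : ℕ)) := (pr v).2.two_le
    _ = ((pr v : ℕ)) ^ 1 := (pow_one _).symm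
    _ ≤ _ := Nat.pow_le_pow_right (pr v).2.pos (dg_pos v)

lemma card_quot (v : HeightOneSpectrum (𝓞 K)) : Nat.card (𝓞 K ⧸ v.asIdeal) = nm v := by
  rw [nm, Ideal.absNorm_apply, Submodule.cardQuot_apply]

lemma av_triv (W : HeightOneSpectrum (𝓞 K) → WeierstrassCurve (𝓞 K))
    (v : HeightOneSpectrum (𝓞 K)) : |av W v| ≤ nm v := by
  have hmax : v.asIdeal.IsMaximal := v.isMaximal
  let _ := Ideal.Quotient.field v.asIdeal
  have hfin : Finite (𝓞 K ⧸ v.asIdeal) := Ideal.finiteQuotientOfFreeOfNeBot _ v.ne_bot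
  have h1 := affc_le ((W v).map (Ideal.Quotient.mk v.asIdeal))
  rw [card_quot] at h1
  have h2 : (affc ((W v).map (Ideal.Quotient.mk v.asIdeal)) : ℝ) ≤ 2 * nm v := by
    exact_mod_cast h1
  have h3 : (0 : ℝ) ≤ affc ((W v).map (Ideal.Quotient.mk v.asIdeal)) := by positivity
  unfold av
  rw [abs_le]
  constructor <;> linarith

open Classical in
lemma av_bound (W : HeightOneSpectrum (𝓞 K) → WeierstrassCurve (𝓞 K))
    (v : HeightOneSpectrum (𝓞 K)) (h6 : (6 : 𝓞 K) ∉ v.asIdeal) :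
    |av W v| ≤ if (W v).Δ ∈ v.asIdeal then 1 else 2 * Real.sqrt (nm v) := by
  have hmax : v.asIdeal.IsMaximal := v.isMaximal
  let _ := Ideal.Quotient.field v.asIdeal
  have hfin : Finite (𝓞 K ⧸ v.asIdeal) := Ideal.finiteQuotientOfFreeOfNeBot _ v.ne_bot
  have h1 : (6 : 𝓞 K ⧸ v.asIdeal) ≠ 0 := by
    intro h
    apply h6
    rw [← Ideal.Quotient.eq_zero_iff_mem, map_ofNat]
    exact h
  have h2 := card_sub_affc h1 ((W v).map (Ideal.Quotient.mk v.asIdeal))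
  rw [card_quot] at h2
  have h3 : ((W v).map (Ideal.Quotient.mk v.asIdeal)).Δ = 0 ↔ (W v).Δ ∈ v.asIdeal := by
    rw [WeierstrassCurve.map_Δ, Ideal.Quotient.eq_zero_iff_mem]
  unfold av
  refine h2.trans (le_of_eq ?_)
  by_cases h : (W v).Δ ∈ v.asIdeal
  · rw [if_pos h, if_pos (h3.2 h)]
  · rw [if_neg h, if_neg fun h' => h (h3.1 h')]

open Classical in
/-- the primes above `6` -/
noncomputable def S6 : Finset (HeightOneSpectrum (𝓞 K)) :=
  Sp ⟨2, Nat.prime_two⟩ ∪ Sp ⟨3, Nat.prime_three⟩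

lemma mem_S6 {v : HeightOneSpectrum (𝓞 K)} (h6 : (6 : 𝓞 K) ∈ v.asIdeal) : v ∈ (S6 : Finset _) := by
  classical
  have h1 : (((pr v : ℕ)) : 𝓞 K) ∈ v.asIdeal := pr_mem v
  have key : ∀ q : ℕ, q.Prime → ((q : ℕ) : 𝓞 K) ∈ v.asIdeal → (pr v : ℕ) = q := by
    intro q hq hqv
    by_contra hne
    have hco : Nat.Coprime (pr v : ℕ) q := (Nat.coprime_primes (pr v).2 hq).2 hne
    have h2 : IsCoprime (((pr v : ℕ) : ℤ)) (q : ℤ) := Nat.isCoprime_iff_coprime.2 hco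
    obtain ⟨a, b, hab⟩ := h2
    apply v.isPrime.ne_top
    rw [Ideal.eq_top_iff_one]
    have h3 : (1 : 𝓞 K) = (a : 𝓞 K) * ((pr v : ℕ) : 𝓞 K) + (b : 𝓞 K) * ((q : ℕ) : 𝓞 K) := by
      have := congrArg (Int.cast : ℤ → 𝓞 K) hab
      push_cast at this
      exact this.symm
    rw [h3]
    exact v.asIdeal.add_mem (v.asIdeal.mul_mem_left _ h1) (v.asIdeal.mul_mem_left _ hqv)
  have h2 : (((2 : ℕ) : 𝓞 K)) * ((3 : ℕ) : 𝓞 K) ∈ v.asIdeal := by
    have : (((2 : ℕ) : 𝓞 K)) * ((3 : ℕ) : 𝓞 K) = 6 := by norm_num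
    rw [this]
    exact h6
  unfold S6
  rw [Finset.mem_union]
  rcases v.isPrime.mem_or_mem h2 with h | h
  · exact Or.inl ((mem_Sp _ v).2 (Subtype.ext (key 2 Nat.prime_two h)))
  · exact Or.inr ((mem_Sp _ v).2 (Subtype.ext (key 3 Nat.prime_three h)))

lemma card_S6 : (((S6 : Finset (HeightOneSpectrum (𝓞 K))).card : ℕ) : ℝ) ≤
    2 * Module.finrank ℚ K := by
  classical
  have h1 : (S6 : Finset (HeightOneSpectrum (𝓞 K))).card ≤
      (Sp ⟨2, Nat.prime_two⟩ : Finset (HeightOneSpectrum (𝓞 K))).card +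
      (Sp ⟨3, Nat.prime_three⟩ : Finset (HeightOneSpectrum (𝓞 K))).card :=
    Finset.card_union_le _ _
  have h2 := card_Sp (K := K) ⟨2, Nat.prime_two⟩
  have h3 := card_Sp (K := K) ⟨3, Nat.prime_three⟩
  have h4 : (((S6 : Finset (HeightOneSpectrum (𝓞 K))).card : ℕ) : ℝ) ≤
      ((Sp ⟨2, Nat.prime_two⟩ : Finset (HeightOneSpectrum (𝓞 K))).card : ℝ) +
      ((Sp ⟨3, Nat.prime_three⟩ : Finset (HeightOneSpectrum (𝓞 K))).card : ℝ) := by
    exact_mod_cast h1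
  linarith

lemma exists_beta (W : HeightOneSpectrum (𝓞 K) → WeierstrassCurve (𝓞 K)) :
    ∃ β : HeightOneSpectrum (𝓞 K) → Fin 2 → ℂ, (∀ v j, ‖β v j‖ ≤ 1) ∧
      ∀ v, v ∉ (S6 : Finset (HeightOneSpectrum (𝓞 K))) → ∀ s : ℂ,
        elf W v s = ∏ j, (1 - β v j * ((nm v : ℕ) : ℂ) ^ (-(s - 1 / 2)))⁻¹ := by
  classical
  have key : ∀ v : HeightOneSpectrum (𝓞 K), ∃ β : Fin 2 → ℂ, (∀ j, ‖β j‖ ≤ 1) ∧
      (v ∉ (S6 : Finset (HeightOneSpectrum (𝓞 K))) → ∀ s : ℂ,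
        elf W v s = ∏ j, (1 - β j * ((nm v : ℕ) : ℂ) ^ (-(s - 1 / 2)))⁻¹) := by
    intro v
    by_cases hv : v ∈ (S6 : Finset (HeightOneSpectrum (𝓞 K)))
    · exact ⟨0, fun j => by simp, fun h => absurd hv h⟩
    · have h6 : (6 : 𝓞 K) ∉ v.asIdeal := fun h => hv (mem_S6 h)
      have hb := av_bound W v h6
      have hpos : 0 < nm v := by
        have := two_le_nm v
        omega
      by_cases h : (W v).Δ ∈ v.asIdeal
      · rw [if_pos h] at hb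
        obtain ⟨β, h1, h2⟩ := bad_factor hpos hb
        refine ⟨β, h1, fun _ s => ?_⟩
        rw [← h2, elf, if_pos h]
      · rw [if_neg h] at hb
        obtain ⟨β, h1, h2⟩ := good_factor hpos hb
        refine ⟨β, h1, fun _ s => ?_⟩
        rw [← h2, elf, if_neg h]
  choose β h1 h2 using key
  exact ⟨β, h1, h2⟩

lemma elf_triv (W : HeightOneSpectrum (𝓞 K) → WeierstrassCurve (𝓞 K))
    (v : HeightOneSpectrum (𝓞 K)) {s : ℂ} (hs : 3 / 2 < s.re) :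
    ‖elf W v s‖ ≤ 24 ∧ ‖(elf W v s)⁻¹‖ ≤ 24 := by
  unfold elf
  refine triv_factor (two_le_nm v) (av_triv W v) ?_ hs
  split_ifs
  · simp
  · simp

end

end Pool.Agent.TH339.MP
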