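import Pool.Agent.TH339.MP.P10
import Pool.Agent.W350.Edge6

/-!
# The tails of the logarithm of an Euler product in the mean square over unit intervals
-/

set_option autoImplicit false

namespace Pool.Agent.TH339.MP

open Complex MeasureTheory Finset Filter Topology
open Pool.Agent.W350.Edge (lg lg_le lt_lg gauss_mean schur_row)

/-- the prime power `p^(k+1)` -/
def qq (x : PP) : ℕ := (x.1 : ℕ) ^ (x.2 + 1)

lemma qq_injective : Function.Injective qq := by
  intro x y h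
  have h1 : Nat.Primes.prodNatEquiv x = Nat.Primes.prodNatEquiv y := Subtype.ext h
  exact Nat.Primes.prodNatEquiv.injective h1

lemma two_le_qq (x : PP) : 2 ≤ qq x := by
  unfold qq
  calc 2 ≤ (x.1 : ℕ) := x.1.2.two_le
    _ = (x.1 : ℕ) ^ 1 := (pow_one _).symm
    _ ≤ _ := Nat.pow_le_pow_right x.1.2.pos (by omega)

lemma log_qq (x : PP) : Real.log (qq x) = (x.2 + 1 : ℕ) * Real.log (x.1 : ℕ) := by
  unfold qq
  rw [Nat.cast_pow, Real.log_pow]

lemma fr_eq (x : PP) : fr x = -Real.log (qq x) := by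
  rw [log_qq, fr]

lemma wt_one (x : PP) : wt 1 x = 1 / (qq x : ℝ) := by
  unfold wt qq
  rw [Real.rpow_neg_one, inv_pow, Nat.cast_pow, one_div]

/-- the size of the coefficients on the edge -/
noncomputable def ce (x : PP) : ℝ := 1 / ((x.2 + 1 : ℕ) * (qq x : ℝ))

lemma ce_nonneg (x : PP) : 0 ≤ ce x := by
  unfold ce
  positivity

lemma psi_bound (T : Finset PP) (X : ℝ) (hT : ∀ x ∈ T, (qq x : ℝ) ≤ X) :
    ∑ x ∈ T, Real.log (x.1 : ℕ) ≤ Chebyshev.psi X := by
  classical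
  have h1 : ∀ x : PP, Real.log (x.1 : ℕ) = ArithmeticFunction.vonMangoldt (qq x) := by
    intro x
    unfold qq
    rw [ArithmeticFunction.vonMangoldt_apply_pow (by omega),
      ArithmeticFunction.vonMangoldt_apply_prime x.1.2]
  simp_rw [h1]
  rw [← Finset.sum_image (f := fun n => ArithmeticFunction.vonMangoldt n) (g := qq)
    (fun x _ y _ h => qq_injective h)]
  unfold Chebyshev.psi
  refine Finset.sum_le_sum_of_subset_of_nonneg ?_ fun n _ _ =>
    ArithmeticFunction.vonMangoldt_nonneg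
  intro n hn
  rw [Finset.mem_image] at hn
  obtain ⟨x, hx, rfl⟩ := hn
  rw [Finset.mem_Ioc]
  exact ⟨by have := two_le_qq x; omega, Nat.le_floor (hT x hx)⟩

/-- Chebyshev's bound on the logarithmic scale. -/
lemma blk (T : Finset PP) (m : ℕ) (hm : 1 ≤ m) (hT : ∀ x ∈ T, lg (qq x) = m) :
    ∑ x ∈ T, ce x ≤ 15 / m := by
  have hm0 : (0 : ℝ) < m := by exact_mod_cast hm
  have h1 : ∀ x ∈ T, ce x ≤ Real.exp (-m) / m * Real.log (x.1 : ℕ) := by
    intro x hx
    have hq : 1 ≤ qq x := by have := two_le_qq x; omega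
    have h2 : (m : ℝ) ≤ Real.log (qq x) := by
      rw [← hT x hx]
      exact lg_le hq
    have hq0 : (0 : ℝ) < qq x := by exact_mod_cast hq
    have h3 : Real.exp m ≤ qq x := by
      rw [← Real.le_log_iff_exp_le hq0]
      exact h2
    have hk0 : (0 : ℝ) < ((x.2 + 1 : ℕ) : ℝ) := by exact_mod_cast Nat.succ_pos _
    have hlp : Real.log (x.1 : ℕ) = Real.log (qq x) / (x.2 + 1 : ℕ) := by
      rw [log_qq]
      field_simp
    unfold ce
    rw [hlp]
    have h4 : 1 / (qq x : ℝ) ≤ Real.exp (-m) := by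
      rw [Real.exp_neg, one_div]
      exact inv_anti₀ (Real.exp_pos _) h3
    have h5 : 1 ≤ Real.log (qq x) / m := by
      rw [le_div_iff₀ hm0, one_mul]
      exact h2
    calc 1 / (((x.2 + 1 : ℕ) : ℝ) * (qq x : ℝ)) = 1 / ((x.2 + 1 : ℕ) : ℝ) * (1 / (qq x : ℝ) * 1) := by
          field_simp
      _ ≤ 1 / ((x.2 + 1 : ℕ) : ℝ) * (Real.exp (-m) * (Real.log (qq x) / m)) := by
          refine mul_le_mul_of_nonneg_left ?_ (by positivity)
          exact mul_le_mul h4 h5 zero_le_one (Real.exp_pos _).le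
      _ = Real.exp (-m) / m * (Real.log (qq x) / (x.2 + 1 : ℕ)) := by
          ring
  refine (Finset.sum_le_sum h1).trans ?_
  rw [← Finset.mul_sum]
  have h2 : ∑ x ∈ T, Real.log (x.1 : ℕ) ≤ (Real.log 4 + 4) * Real.exp (m + 1) := by
    refine (psi_bound T (Real.exp (m + 1)) fun x hx => ?_).trans
      (Chebyshev.psi_le_const_mul_self (Real.exp_pos _).le)
    have hq0 : (0 : ℝ) < qq x := by
      have := two_le_qq x
      exact_mod_cast (by omega : 0 < qq x)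
    rw [← Real.log_le_iff_le_exp hq0]
    have := lt_lg (qq x)
    rw [hT x hx] at this
    exact this.le
  have h3 : Real.log 4 ≤ 1.4 := by
    have : Real.log 4 = 2 * Real.log 2 := by
      rw [show (4 : ℝ) = 2 ^ 2 by norm_num, Real.log_pow]
      norm_num
    rw [this]
    have := Real.log_two_lt_d9
    linarith
  have h4 : Real.exp 1 ≤ 2.7183 := by
    have := Real.exp_one_lt_d9
    linarith
  have h5 : 0 ≤ Real.log 4 := Real.log_nonneg (by norm_num)
  calc Real.exp (-m) / m * ∑ x ∈ T, Real.log (x.1 : ℕ)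
      ≤ Real.exp (-m) / m * ((Real.log 4 + 4) * Real.exp (m + 1)) :=
        mul_le_mul_of_nonneg_left h2 (by positivity)
    _ = (Real.log 4 + 4) * Real.exp 1 / m := by
        rw [Real.exp_add, Real.exp_neg]
        have := (Real.exp_pos (m : ℝ)).ne'
        field_simp
    _ ≤ 15 / m := by
        refine div_le_div_of_nonneg_right ?_ hm0.le
        nlinarith [Real.exp_pos (1 : ℝ)]

lemma blk_sum (T : Finset PP) (R : Finset ℕ) (hR : ∀ l ∈ R, 1 ≤ l)
    (hT : ∀ x ∈ T, lg (qq x) ∈ R) (g : ℕ → ℝ) (hg : ∀ l, 0 ≤ g l) :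
    ∑ x ∈ T, ce x * g (lg (qq x)) ≤ ∑ l ∈ R, 15 / l * g l := by
  rw [← sum_fiberwise_of_maps_to hT]
  refine sum_le_sum fun l hl => ?_
  have h1 : ∑ x ∈ T with lg (qq x) = l, ce x * g (lg (qq x)) =
      (∑ x ∈ T with lg (qq x) = l, ce x) * g l := by
    rw [sum_mul]
    refine sum_congr rfl fun x hx => ?_
    rw [(mem_filter.1 hx).2]
  rw [h1]
  exact mul_le_mul_of_nonneg_right (blk _ l (hR l hl) fun x hx => (mem_filter.1 hx).2) (hg l)

lemma gauss_le (x y : PP) :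
    Real.exp (-(Real.log (qq x) - Real.log (qq y)) ^ 2) ≤
      Real.exp (1 - |(lg (qq x) : ℝ) - lg (qq y)|) := by
  have := Pool.Agent.W350.Edge.kappa_le (p := qq x) (q := qq y)
    (by have := two_le_qq x; omega) (by have := two_le_qq y; omega) 0
  simpa using this

lemma inv_sq_sum {m0 : ℕ} (hm : 1 ≤ m0) (R : Finset ℕ) (hR : ∀ l ∈ R, m0 ≤ l) :
    ∑ l ∈ R, 1 / (l : ℝ) ^ 2 ≤ 2 / (m0 : ℝ) := by
  have h1 : ∀ l : ℕ, 1 ≤ l → 1 / (l : ℝ) ^ 2 ≤ 2 / (l : ℝ) - 2 / ((l + 1 : ℕ) : ℝ) := by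
    intro l hl
    have hl0 : (0 : ℝ) < l := by exact_mod_cast hl
    have hl1 : (1 : ℝ) ≤ l := by exact_mod_cast hl
    push_cast
    rw [div_sub_div _ _ hl0.ne' (by positivity), div_le_div_iff₀ (by positivity) (by positivity)]
    nlinarith
  have h2 : R ⊆ Ico m0 (R.sup id + 1) := by
    intro l hl
    rw [mem_Ico]
    have : l ≤ R.sup id := Finset.le_sup (f := id) hl
    exact ⟨hR l hl, by omega⟩
  refine (sum_le_sum_of_subset_of_nonneg h2 fun l _ _ => by positivity).trans ?_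
  have h3 : ∀ n : ℕ, ∑ l ∈ Ico m0 (m0 + n), 1 / (l : ℝ) ^ 2 ≤
      2 / (m0 : ℝ) - 2 / ((m0 + n : ℕ) : ℝ) := by
    intro n
    induction n with
    | zero => simp
    | succ n ih =>
      rw [← add_assoc, Finset.sum_Ico_succ_top (by omega)]
      have := h1 (m0 + n) (by omega)
      linarith
  rcases le_total m0 (R.sup id + 1) with h | h
  · obtain ⟨n, hn⟩ := Nat.exists_eq_add_of_le h
    rw [hn]
    refine (h3 n).trans ?_
    have : (0 : ℝ) ≤ 2 / ((m0 + n : ℕ) : ℝ) := by positivity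
    linarith
  · rw [Finset.Ico_eq_empty_of_le h, Finset.sum_empty]
    positivity

lemma dbl (T : Finset PP) {m0 : ℕ} (hm : 1 ≤ m0) (hT : ∀ x ∈ T, m0 ≤ lg (qq x)) :
    ∑ x ∈ T, ∑ y ∈ T, ce x * ce y *
      Real.exp (-(Real.log (qq x) - Real.log (qq y)) ^ 2) ≤ 5400 / m0 := by
  classical
  set R : Finset ℕ := T.image fun x => lg (qq x) with hRdef
  have hR : ∀ l ∈ R, m0 ≤ l := by
    intro l hl
    rw [hRdef, mem_image] at hl
    obtain ⟨x, hx, rfl⟩ := hl
    exact hT x hx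
  have hR1 : ∀ l ∈ R, 1 ≤ l := fun l hl => hm.trans (hR l hl)
  have hTR : ∀ x ∈ T, lg (qq x) ∈ R := fun x hx => mem_image_of_mem _ hx
  set κ : ℕ → ℕ → ℝ := fun l l' => Real.exp (1 - |(l : ℝ) - l'|) with hκ
  have hκ0 : ∀ l l', 0 ≤ κ l l' := fun l l' => (Real.exp_pos _).le
  calc ∑ x ∈ T, ∑ y ∈ T, ce x * ce y *
        Real.exp (-(Real.log (qq x) - Real.log (qq y)) ^ 2)
      ≤ ∑ x ∈ T, ∑ y ∈ T, ce x * (ce y * κ (lg (qq x)) (lg (qq y))) := by
        refine sum_le_sum fun x _ => sum_le_sum fun y _ => ?_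
        rw [← mul_assoc]
        exact mul_le_mul_of_nonneg_left (gauss_le x y) (mul_nonneg (ce_nonneg x) (ce_nonneg y))
    _ = ∑ x ∈ T, ce x * ∑ y ∈ T, ce y * κ (lg (qq x)) (lg (qq y)) := by
        refine sum_congr rfl fun x _ => ?_
        rw [mul_sum]
    _ ≤ ∑ x ∈ T, ce x * ∑ l' ∈ R, 15 / l' * κ (lg (qq x)) l' := by
        refine sum_le_sum fun x _ => mul_le_mul_of_nonneg_left ?_ (ce_nonneg x)
        exact blk_sum T R hR1 hTR (fun l' => κ (lg (qq x)) l') fun l' => hκ0 _ _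
    _ ≤ ∑ l ∈ R, 15 / l * ∑ l' ∈ R, 15 / l' * κ l l' :=
        blk_sum T R hR1 hTR (fun l => ∑ l' ∈ R, 15 / l' * κ l l') fun l =>
          sum_nonneg fun l' _ => mul_nonneg (by positivity) (hκ0 _ _)
    _ ≤ ∑ l ∈ R, ∑ l' ∈ R, (225 / 2) * (1 / (l : ℝ) ^ 2 * κ l l' + 1 / (l' : ℝ) ^ 2 * κ l' l) := by
        refine sum_le_sum fun l hl => ?_
        rw [mul_sum]
        refine sum_le_sum fun l' hl' => ?_
        have hl0 : (0 : ℝ) < l := by exact_mod_cast hR1 l hl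
        have hl0' : (0 : ℝ) < l' := by exact_mod_cast hR1 l' hl'
        have hsym : κ l' l = κ l l' := by
          simp only [hκ]
          rw [abs_sub_comm]
        rw [hsym]
        have h5 : 1 / (l : ℝ) * (1 / l') ≤ (1 / (l : ℝ) ^ 2 + 1 / (l' : ℝ) ^ 2) / 2 := by
          have h6 : 1 / (l : ℝ) ^ 2 = (1 / (l : ℝ)) ^ 2 := by rw [div_pow, one_pow]
          have h7 : 1 / (l' : ℝ) ^ 2 = (1 / (l' : ℝ)) ^ 2 := by rw [div_pow, one_pow]
          rw [h6, h7]
          nlinarith [sq_nonneg (1 / (l : ℝ) - 1 / l')]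
        calc 15 / (l : ℝ) * (15 / l' * κ l l') = 225 * (1 / (l : ℝ) * (1 / l')) * κ l l' := by ring
          _ ≤ 225 * ((1 / (l : ℝ) ^ 2 + 1 / (l' : ℝ) ^ 2) / 2) * κ l l' :=
              mul_le_mul_of_nonneg_right (mul_le_mul_of_nonneg_left h5 (by norm_num)) (hκ0 _ _)
          _ = _ := by ring
    _ = 225 * ∑ l ∈ R, 1 / (l : ℝ) ^ 2 * ∑ l' ∈ R, κ l l' := by
        have e1 : ∑ l ∈ R, ∑ l' ∈ R, 1 / (l' : ℝ) ^ 2 * κ l' l =
            ∑ l ∈ R, ∑ l' ∈ R, 1 / (l : ℝ) ^ 2 * κ l l' := sum_comm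
        have e2 : ∑ l ∈ R, ∑ l' ∈ R, (225 / 2 : ℝ) *
            (1 / (l : ℝ) ^ 2 * κ l l' + 1 / (l' : ℝ) ^ 2 * κ l' l) =
            225 / 2 * (∑ l ∈ R, ∑ l' ∈ R, 1 / (l : ℝ) ^ 2 * κ l l' +
              ∑ l ∈ R, ∑ l' ∈ R, 1 / (l' : ℝ) ^ 2 * κ l' l) := by
          rw [← sum_add_distrib, mul_sum]
          refine sum_congr rfl fun l _ => ?_
          rw [← sum_add_distrib, mul_sum]
        rw [e2, e1]
        simp_rw [mul_sum]
        rw [← two_mul, ← mul_assoc, Finset.mul_sum]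
        refine sum_congr rfl fun l _ => ?_
        rw [Finset.mul_sum]
        refine sum_congr rfl fun l' _ => ?_
        ring
    _ ≤ 225 * ∑ l ∈ R, 1 / (l : ℝ) ^ 2 * 12 := by
        refine mul_le_mul_of_nonneg_left (sum_le_sum fun l _ =>
          mul_le_mul_of_nonneg_left (schur_row R l) (by positivity)) (by norm_num)
    _ = 2700 * ∑ l ∈ R, 1 / (l : ℝ) ^ 2 := by
        rw [← sum_mul]
        ring
    _ ≤ 2700 * (2 / m0) := mul_le_mul_of_nonneg_left (inv_sq_sum hm R hR) (by norm_num)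
    _ = 5400 / m0 := by ring

/-- **The tail bound** in the mean square over all unit intervals. -/
theorem tail (T : Finset PP) {m0 : ℕ} (hm : 1 ≤ m0) (hT : ∀ x ∈ T, m0 ≤ lg (qq x))
    (a : PP → ℂ) {M : ℝ} (hM : 0 ≤ M) (ha : ∀ x ∈ T, ‖a x‖ ≤ M * ce x) (t : ℝ) :
    ∫ u in t..(t + 1), ‖∑ x ∈ T, a x * ee (fr x) u‖ ^ 2 ≤ 32400 * M ^ 2 / m0 := by
  have h1 : ∫ u in t..(t + 1), ‖∑ x ∈ T, a x * ee (fr x) u‖ ^ 2 =
      ∫ τ in (0 : ℝ)..1, ‖∑ x ∈ T, (a x * ee (fr x) t) *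
        Complex.exp (-(τ * (Real.log (qq x) : ℝ)) * Complex.I)‖ ^ 2 := by
    have h2 := intervalIntegral.integral_comp_add_left
      (fun u : ℝ => ‖∑ x ∈ T, a x * ee (fr x) u‖ ^ 2) (a := 0) (b := 1) t
    rw [add_zero] at h2
    rw [← h2]
    refine intervalIntegral.integral_congr fun τ _ => ?_
    congr 2
    refine sum_congr rfl fun x _ => ?_
    rw [ee_add, ← mul_assoc]
    congr 1
    rw [ee, fr_eq]
    congr 1
    push_cast
    ring
  rw [h1]
  refine (gauss_mean T (fun x => a x * ee (fr x) t) (fun x => Real.log (qq x))).trans ?_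
  have h3 : ∑ x ∈ T, ∑ y ∈ T, ‖a x * ee (fr x) t‖ * ‖a y * ee (fr y) t‖ *
      Real.exp (-(Real.log (qq x) - Real.log (qq y)) ^ 2) ≤
      M ^ 2 * ∑ x ∈ T, ∑ y ∈ T, ce x * ce y *
        Real.exp (-(Real.log (qq x) - Real.log (qq y)) ^ 2) := by
    rw [mul_sum]
    refine sum_le_sum fun x hx => ?_
    rw [mul_sum]
    refine sum_le_sum fun y hy => ?_
    rw [norm_mul, norm_mul, norm_ee, norm_ee, mul_one, mul_one]
    have h4 : ‖a x‖ * ‖a y‖ ≤ (M * ce x) * (M * ce y) :=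
      mul_le_mul (ha x hx) (ha y hy) (norm_nonneg _) (mul_nonneg hM (ce_nonneg x))
    calc _ ≤ (M * ce x) * (M * ce y) * Real.exp (-(Real.log (qq x) - Real.log (qq y)) ^ 2) :=
          mul_le_mul_of_nonneg_right h4 (Real.exp_pos _).le
      _ = _ := by ring
  have h5 := dbl T hm hT
  calc _ ≤ 6 * (M ^ 2 * (5400 / m0)) := by
        refine mul_le_mul_of_nonneg_left (h3.trans ?_) (by norm_num)
        exact mul_le_mul_of_nonneg_left h5 (by positivity)
    _ = _ := by ring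

end Pool.Agent.TH339.MP
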