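import Pool.Agent.TH339.MP.Q1

/-!
# Boundary values on the edge line and their mean square approximation
-/

set_option autoImplicit false

namespace Pool.Agent.TH339.MP

open Complex MeasureTheory Finset Filter Topology
open Pool.Agent.W350.Edge (lg lg_le lt_lg term ps divSet dimH_divSet abel_stolz)
open scoped ENNReal

/-- the prime powers up to `X` -/
noncomputable def TX (X : ℕ) : Finset PP :=
  ((Set.finite_Iic X).preimage qq_injective.injOn).toFinset

lemma mem_TX (X : ℕ) (x : PP) : x ∈ TX X ↔ qq x ≤ X := by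
  unfold TX
  simp

/-- the partial sums on the edge -/
noncomputable def PS (b : PP → ℂ) (X : ℕ) (τ : ℝ) : ℂ :=
  ∑ x ∈ TX X, (b x * (wt 1 x : ℂ)) * ee (fr x) τ

/-- the next power -/
def sh (x : PP) : PP := (x.1, x.2 + 1)

lemma sh_injective : Function.Injective sh := by
  intro x y h
  unfold sh at h
  have h1 := congrArg Prod.fst h
  have h2 := congrArg Prod.snd h
  simp only at h1 h2
  exact Prod.ext h1 (by omega)

lemma wt_sh_summable : Summable fun x : PP => wt 1 (sh x) := by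
  have h2 : Summable fun p : Nat.Primes => ((p : ℕ) : ℝ) ^ (-2 : ℝ) :=
    (Nat.Primes.summable_rpow (r := -2)).2 (by norm_num)
  have h3 : Summable fun k : ℕ => ((1 : ℝ) / 2) ^ k :=
    summable_geometric_of_lt_one (by norm_num) (by norm_num)
  have h4 := h2.mul_of_nonneg h3 (fun p => Real.rpow_nonneg (prime_pos p).le _)
    (fun k => by positivity)
  refine Summable.of_nonneg_of_le (fun x => wt_nonneg 1 _) (fun x => ?_) h4
  unfold wt sh
  simp only
  have h5 := rpow_neg_le_half x.1 (le_refl (1 : ℝ))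
  have h6 : 0 ≤ ((x.1 : ℕ) : ℝ) ^ (-1 : ℝ) := Real.rpow_nonneg (prime_pos _).le _
  have e1 : ((x.1 : ℕ) : ℝ) ^ (-2 : ℝ) = (((x.1 : ℕ) : ℝ) ^ (-1 : ℝ)) ^ 2 := by
    rw [← Real.rpow_natCast, ← Real.rpow_mul (prime_pos _).le]
    norm_num
  rw [e1, show x.2 + 1 + 1 = 2 + x.2 by ring, pow_add]
  exact mul_le_mul_of_nonneg_left (pow_le_pow_left₀ h6 h5 _) (by positivity)

lemma wt_anti {σ : ℝ} (hσ : 1 ≤ σ) (x : PP) : wt σ x ≤ wt 1 x := by
  unfold wt
  have h1 : (1 : ℝ) ≤ ((x.1 : ℕ) : ℝ) := by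
    have := two_le_prime x.1
    linarith
  exact pow_le_pow_left₀ (Real.rpow_nonneg (prime_pos _).le _)
    (Real.rpow_le_rpow_of_exponent_le h1 (by linarith)) _

section
variable {b : PP → ℂ} {M : ℝ}

lemma norm_tm (b : PP → ℂ) (s : ℂ) (x : PP) : ‖tm b s x‖ = ‖b x‖ * wt s.re x := by
  have hse : ((s.re : ℂ) + s.im * I) = s := re_add_im s
  conv_lhs => rw [← hse]
  rw [tm_eq, norm_mul, norm_ee, mul_one, norm_mul, Complex.norm_real,
    Real.norm_of_nonneg (wt_nonneg _ x)]

lemma norm_b_le (hb : ∀ x, ‖b x‖ ≤ M / (x.2 + 1 : ℕ)) (x : PP) : ‖b x‖ ≤ M := by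
  have h1 := hb x
  have hM : 0 ≤ M := by
    have h1 := (norm_nonneg _).trans (hb (⟨2, Nat.prime_two⟩, 0))
    simpa using h1
  refine h1.trans (div_le_self hM ?_)
  exact_mod_cast Nat.le_add_left 1 x.2

lemma M_nonneg (hb : ∀ x, ‖b x‖ ≤ M / (x.2 + 1 : ℕ)) : 0 ≤ M := by
  have h1 := (norm_nonneg _).trans (hb (⟨2, Nat.prime_two⟩, 0))
  simpa using h1

/-- the contribution of the proper prime powers -/
noncomputable def hpart (b : PP → ℂ) (s : ℂ) : ℂ := ∑' x, tm b s (sh x)

lemma norm_tm_sh (hb : ∀ x, ‖b x‖ ≤ M / (x.2 + 1 : ℕ)) {s : ℂ} (hs : 1 ≤ s.re) (x : PP) :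
    ‖tm b s (sh x)‖ ≤ M * wt 1 (sh x) := by
  rw [norm_tm]
  exact mul_le_mul (norm_b_le hb _) (wt_anti hs _) (wt_nonneg _ _) (M_nonneg hb)

lemma summable_sh (hb : ∀ x, ‖b x‖ ≤ M / (x.2 + 1 : ℕ)) {s : ℂ} (hs : 1 ≤ s.re) :
    Summable fun x => tm b s (sh x) :=
  Summable.of_norm_bounded (wt_sh_summable.mul_left M) fun x => norm_tm_sh hb hs x

lemma continuous_tm (b : PP → ℂ) (x : PP) : Continuous fun s => tm b s x := by
  unfold tm
  have hne : ((x.1 : ℕ) : ℂ) ≠ 0 := by exact_mod_cast x.1.2.ne_zero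
  exact continuous_const.mul ((continuous_neg.const_cpow (Or.inl hne)).pow _)

lemma hpart_tendsto (hb : ∀ x, ‖b x‖ ≤ M / (x.2 + 1 : ℕ)) (s₀ : ℂ) :
    Tendsto (hpart b) (𝓝[{s | 1 ≤ s.re}] s₀) (𝓝 (hpart b s₀)) := by
  unfold hpart
  refine tendsto_tsum_of_dominated_convergence (wt_sh_summable.mul_left M)
    (fun x => ((continuous_tm b (sh x)).tendsto s₀).mono_left nhdsWithin_le_nhds) ?_
  filter_upwards [self_mem_nhdsWithin] with s hs x
  exact norm_tm_sh hb hs x

open Classical in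
/-- the coefficients at the primes -/
noncomputable def ap (b : PP → ℂ) (p : ℕ) : ℂ := if h : p.Prime then b (⟨p, h⟩, 0) else 0

lemma norm_ap (hb : ∀ x, ‖b x‖ ≤ M / (x.2 + 1 : ℕ)) (p : ℕ) : ‖ap b p‖ ≤ M := by
  unfold ap
  split_ifs
  · exact norm_b_le hb _
  · rw [norm_zero]
    exact M_nonneg hb

lemma term_eq (b : PP → ℂ) (z : ℂ) (τ : ℝ) (p : Nat.Primes) :
    Complex.exp (-z * Real.log (p : ℕ)) * term (ap b) τ p =
      tm b (1 + τ * I + z) (p, 0) := by
  have hne : ((p : ℕ) : ℂ) ≠ 0 := by exact_mod_cast p.2.ne_zero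
  have hlog : Complex.log ((p : ℕ) : ℂ) = ((Real.log (p : ℕ) : ℝ) : ℂ) := by
    rw [Complex.ofReal_log (prime_pos p).le]
    simp
  unfold Pool.Agent.W350.Edge.term ap tm
  rw [if_pos p.2, dif_pos p.2]
  simp only [zero_add, pow_one]
  rw [cpow_def_of_ne_zero hne, hlog]
  have h1 : ((p : ℕ) : ℂ) = Complex.exp ((Real.log (p : ℕ) : ℝ) : ℂ) := by
    rw [← hlog, Complex.exp_log hne]
  have h2 : b (⟨(p : ℕ), p.2⟩, 0) / ((p : ℕ) : ℂ) =
      b (p, 0) * Complex.exp (-((Real.log (p : ℕ) : ℝ) : ℂ)) := by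
    rw [Complex.exp_neg, ← h1, div_eq_mul_inv]
    rfl
  rw [h2]
  have h3 : ∀ x u v c : ℂ, Complex.exp x * (c * Complex.exp u * Complex.exp v) =
      c * Complex.exp (x + u + v) := by
    intro x u v c
    rw [Complex.exp_add, Complex.exp_add]
    ring
  rw [h3]
  congr 2
  ring

lemma summable_term (hb : ∀ x, ‖b x‖ ≤ M / (x.2 + 1 : ℕ)) (τ : ℝ) {z : ℂ} (hz : 0 < z.re) :
    Summable fun n : ℕ => Complex.exp (-z * Real.log n) * term (ap b) τ n := by
  have hinj : Function.Injective ((↑) : Nat.Primes → ℕ) := Nat.Primes.coe_nat_injective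
  have h1 : ∀ n ∉ Set.range ((↑) : Nat.Primes → ℕ),
      Complex.exp (-z * Real.log n) * term (ap b) τ n = 0 := by
    intro n hn
    have hnp : ¬ n.Prime := fun h => hn ⟨⟨n, h⟩, rfl⟩
    unfold Pool.Agent.W350.Edge.term
    rw [if_neg hnp, mul_zero]
  rw [← hinj.summable_iff h1]
  have hre : 1 < ((1 : ℂ) + τ * I + z).re := by
    simp
    exact hz
  have h2 : Summable fun p : Nat.Primes => tm b (1 + τ * I + z) (p, 0) :=
    (summable_tm hb hre).comp_injective (i := fun p : Nat.Primes => ((p, 0) : PP))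
      fun p q h => congrArg Prod.fst h
  exact h2.congr fun p => (term_eq b z τ p).symm

lemma tsum_term (b : PP → ℂ) (τ : ℝ) (z : ℂ) :
    ∑' n : ℕ, Complex.exp (-z * Real.log n) * term (ap b) τ n =
      ∑' p : Nat.Primes, tm b (1 + τ * I + z) (p, 0) := by
  have hinj : Function.Injective ((↑) : Nat.Primes → ℕ) := Nat.Primes.coe_nat_injective
  have h1 : Function.support (fun n : ℕ => Complex.exp (-z * Real.log n) * term (ap b) τ n) ⊆
      Set.range ((↑) : Nat.Primes → ℕ) := by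
    intro n hn
    by_contra h
    have hnp : ¬ n.Prime := fun h' => h ⟨⟨n, h'⟩, rfl⟩
    apply hn
    unfold Pool.Agent.W350.Edge.term
    simp only
    rw [if_neg hnp, mul_zero]
  rw [← hinj.tsum_eq h1]
  exact tsum_congr fun p => term_eq b z τ p

lemma FF_split (hb : ∀ x, ‖b x‖ ≤ M / (x.2 + 1 : ℕ)) {s : ℂ} (hs : 1 < s.re) :
    FF b s = (∑' p : Nat.Primes, tm b s (p, 0)) + hpart b s := by
  have h0 := summable_tm hb hs
  have h1 : ∀ p : Nat.Primes, Summable fun k : ℕ => tm b s (p, k) := fun p =>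
    h0.comp_injective (i := fun k : ℕ => ((p, k) : PP)) fun k l h => congrArg Prod.snd h
  have h2 : Summable fun p : Nat.Primes => tm b s (p, 0) :=
    h0.comp_injective (i := fun p : Nat.Primes => ((p, 0) : PP)) fun p q h => congrArg Prod.fst h
  have h3 : Summable fun x : Nat.Primes × ℕ => tm b s (x.1, x.2 + 1) := summable_sh hb hs.le
  unfold FF hpart
  rw [h0.tsum_prod]
  have h4 : ∑' x, tm b s (sh x) = ∑' p : Nat.Primes, ∑' k : ℕ, tm b s (p, k + 1) := h3.tsum_prod
  rw [h4, ← h2.tsum_add h3.prod]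
  exact tsum_congr fun p => (h1 p).tsum_eq_zero_add

open Classical in
/-- the boundary function -/
noncomputable def bl (b : PP → ℂ) (τ : ℝ) : ℂ :=
  if h : ∃ l, Tendsto (ps (ap b) τ) atTop (𝓝 l) then h.choose + hpart b (1 + τ * I) else 0

lemma bl_spec {τ : ℝ} (hτ : τ ∉ divSet (ap b)) :
    ∃ l, Tendsto (ps (ap b) τ) atTop (𝓝 l) ∧ bl b τ = l + hpart b (1 + τ * I) := by
  have h : ∃ l, Tendsto (ps (ap b) τ) atTop (𝓝 l) := by
    by_contra h
    exact hτ h
  refine ⟨h.choose, h.choose_spec, ?_⟩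
  unfold bl
  rw [dif_pos h]

lemma bl_angle (hb : ∀ x, ‖b x‖ ≤ M / (x.2 + 1 : ℕ)) {τ : ℝ} (hτ : τ ∉ divSet (ap b)) (C : ℝ) :
    Tendsto (fun z : ℂ => FF b (1 + τ * I + z)) (𝓝[{z : ℂ | 0 < z.re ∧ ‖z‖ ≤ C * z.re}] 0)
      (𝓝 (bl b τ)) := by
  obtain ⟨l, h1, h2⟩ := bl_spec hτ
  rw [h2]
  have h3 := abel_stolz (term (ap b) τ) l h1 (fun z hz => summable_term hb τ hz) C
  have h4 : Tendsto (fun z : ℂ => hpart b (1 + τ * I + z))
      (𝓝[{z : ℂ | 0 < z.re ∧ ‖z‖ ≤ C * z.re}] 0) (𝓝 (hpart b (1 + τ * I))) := by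
    refine (hpart_tendsto hb (1 + τ * I)).comp ?_
    rw [tendsto_nhdsWithin_iff]
    constructor
    · have h5 : Tendsto (fun z : ℂ => 1 + τ * I + z) (𝓝 0) (𝓝 (1 + τ * I + 0)) :=
        (continuous_const.add continuous_id).tendsto 0
      rw [add_zero] at h5
      exact h5.mono_left nhdsWithin_le_nhds
    · filter_upwards [self_mem_nhdsWithin] with z hz
      have hz1 : 0 < z.re := hz.1
      change 1 ≤ (1 + τ * I + z).re
      simp
      exact hz1.le
  refine (h3.add h4).congr' ?_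
  filter_upwards [self_mem_nhdsWithin] with z hz
  have hz1 : 0 < z.re := hz.1
  rw [tsum_term, FF_split hb]
  simp
  exact hz1

lemma PS_tendsto (hb : ∀ x, ‖b x‖ ≤ M / (x.2 + 1 : ℕ)) {τ : ℝ} (hτ : τ ∉ divSet (ap b)) :
    Tendsto (fun X => PS b X τ) atTop (𝓝 (bl b τ)) := by
  classical
  obtain ⟨l, h1, h2⟩ := bl_spec hτ
  rw [h2]
  have hs1 : (1 : ℝ) ≤ ((1 : ℂ) + τ * I).re := by simp
  set g : PP → ℂ := fun x => (b x * (wt 1 x : ℂ)) * ee (fr x) τ with hg
  have hgt : ∀ x, g x = tm b (1 + τ * I) x := by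
    intro x
    have := tm_eq b 1 τ x
    rw [Complex.ofReal_one] at this
    exact this.symm
  -- the proper powers
  set UX : ℕ → Finset PP := fun X => ((Set.finite_Iic X).preimage
    (f := fun x => qq (sh x)) (qq_injective.comp sh_injective).injOn).toFinset with hUX
  have hmemU : ∀ X x, x ∈ UX X ↔ qq (sh x) ≤ X := by
    intro X x
    simp [hUX]
  have hU : Tendsto UX atTop atTop := by
    refine tendsto_atTop_finset_of_monotone ?_ ?_
    · intro X Y hXY x hx
      rw [hmemU] at hx ⊢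
      exact hx.trans hXY
    · intro x
      exact ⟨qq (sh x), (hmemU _ _).2 le_rfl⟩
  have h3 : Tendsto (fun X => ∑ x ∈ UX X, tm b (1 + τ * I) (sh x)) atTop
      (𝓝 (hpart b (1 + τ * I))) := (summable_sh hb hs1).hasSum.comp hU
  have h4 : Tendsto (fun X : ℕ => ps (ap b) τ (X + 1)) atTop (𝓝 l) :=
    h1.comp (tendsto_add_atTop_nat 1)
  refine (h4.add h3).congr fun X => ?_
  unfold PS
  rw [← Finset.sum_filter_add_sum_filter_not (TX X) (fun x => x.2 = 0)]
  congr 1
  · -- the primes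
    have h5 : ps (ap b) τ (X + 1) = ∑ n ∈ (range (X + 1)).filter Nat.Prime, term (ap b) τ n := by
      unfold Pool.Agent.W350.Edge.ps
      rw [Finset.sum_filter]
      refine Finset.sum_congr rfl fun n _ => ?_
      split_ifs with h
      · rfl
      · unfold Pool.Agent.W350.Edge.term
        rw [if_neg h]
    rw [h5]
    symm
    refine Finset.sum_bij (fun x _ => (x.1 : ℕ)) ?_ ?_ ?_ ?_
    · intro x hx
      rw [mem_filter, mem_TX] at hx
      rw [mem_filter, mem_range]
      refine ⟨?_, x.1.2⟩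
      have h6 : qq x = x.1 := by
        unfold qq
        rw [hx.2, zero_add, pow_one]
      rw [h6] at hx
      omega
    · intro x hx y hy hxy
      rw [mem_filter] at hx hy
      exact Prod.ext (Subtype.ext hxy) (by rw [hx.2, hy.2])
    · intro n hn
      rw [mem_filter, mem_range] at hn
      refine ⟨(⟨n, hn.2⟩, 0), ?_, rfl⟩
      rw [mem_filter, mem_TX]
      refine ⟨?_, rfl⟩
      unfold qq
      simp only [zero_add, pow_one]
      omega
    · intro x hx
      rw [mem_filter] at hx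
      have h6 : x = (x.1, 0) := Prod.ext rfl hx.2
      have h7 := term_eq b 0 τ x.1
      rw [neg_zero, zero_mul, Complex.exp_zero, one_mul, add_zero] at h7
      rw [h7, ← h6, ← hgt]
  · -- the proper powers
    symm
    refine Finset.sum_bij (fun x _ => (x.1, x.2 - 1)) ?_ ?_ ?_ ?_
    · intro x hx
      rw [mem_filter, mem_TX] at hx
      rw [hmemU]
      have h6 : sh (x.1, x.2 - 1) = x := Prod.ext rfl (by
        have := hx.2
        change x.2 - 1 + 1 = x.2
        omega)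
      rw [h6]
      exact hx.1
    · intro x hx y hy hxy
      rw [mem_filter] at hx hy
      have h6 := congrArg Prod.fst hxy
      have h7 := congrArg Prod.snd hxy
      simp only at h6 h7
      exact Prod.ext h6 (by have := hx.2; have := hy.2; omega)
    · intro x hx
      rw [hmemU] at hx
      refine ⟨sh x, ?_, ?_⟩
      · rw [mem_filter, mem_TX]
        exact ⟨hx, by unfold sh; simp⟩
      · exact Prod.ext rfl (by unfold sh; simp)
    · intro x hx
      rw [mem_filter] at hx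
      have h6 : sh (x.1, x.2 - 1) = x := Prod.ext rfl (by
        have := hx.2
        change x.2 - 1 + 1 = x.2
        omega)
      rw [h6]
      exact hgt x

end

end Pool.Agent.TH339.MP
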