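import Pool.Agent.TH339.MP.Q2

/-!
# The mean square approximation of the boundary function
-/

set_option autoImplicit false

namespace Pool.Agent.TH339.MP

open Complex MeasureTheory Finset Filter Topology
open Pool.Agent.W350.Edge (lg lg_le lt_lg term ps divSet dimH_divSet abel_stolz)
open scoped ENNReal

lemma continuous_PS (b : PP → ℂ) (X : ℕ) : Continuous (PS b X) := by
  unfold PS
  exact continuous_finsetSum _ fun x _ => continuous_const.mul (continuous_ee _)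

lemma lg_ge {X : ℕ} (hX : 2 ≤ X) {q : ℕ} (hq : X < q) :
    max 1 ⌊Real.log X⌋₊ ≤ lg q := by
  have hq3 : 3 ≤ q := by omega
  refine max_le ?_ ?_
  · unfold Pool.Agent.W350.Edge.lg
    refine Nat.le_floor ?_
    rw [Nat.cast_one, Real.le_log_iff_exp_le (by positivity)]
    have h1 : (3 : ℝ) ≤ q := by exact_mod_cast hq3
    have := Real.exp_one_lt_d9
    linarith
  · unfold Pool.Agent.W350.Edge.lg
    refine Nat.floor_le_floor ?_
    refine Real.log_le_log ?_ ?_
    · exact_mod_cast (by omega : 0 < X)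
    · exact_mod_cast hq.le

lemma max_ge {X : ℕ} (hX : 2 ≤ X) : Real.log X / 2 ≤ (max 1 ⌊Real.log X⌋₊ : ℕ) := by
  have h0 : 0 ≤ Real.log X := Real.log_nonneg (by exact_mod_cast (by omega : 1 ≤ X))
  rcases le_or_gt (Real.log X) 2 with h | h
  · have : (1 : ℝ) ≤ (max 1 ⌊Real.log X⌋₊ : ℕ) := by exact_mod_cast le_max_left _ _
    linarith
  · have h1 : (⌊Real.log X⌋₊ : ℝ) ≤ (max 1 ⌊Real.log X⌋₊ : ℕ) := by
      exact_mod_cast le_max_right _ _
    have h2 := Nat.lt_floor_add_one (Real.log X)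
    linarith

section
variable {b : PP → ℂ} {M : ℝ}

lemma norm_coef (hb : ∀ x, ‖b x‖ ≤ M / (x.2 + 1 : ℕ)) (x : PP) :
    ‖b x * (wt 1 x : ℂ)‖ ≤ M * ce x := by
  rw [norm_mul, Complex.norm_real, Real.norm_of_nonneg (wt_nonneg _ x), wt_one]
  refine (mul_le_mul_of_nonneg_right (hb x) (by positivity)).trans (le_of_eq ?_)
  unfold ce
  have h1 : (((x.2 + 1 : ℕ) : ℝ)) ≠ 0 := Nat.cast_ne_zero.2 (Nat.succ_ne_zero x.2)
  have h2 : (qq x : ℝ) ≠ 0 := by
    have := two_le_qq x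
    exact_mod_cast (by omega : qq x ≠ 0)
  field_simp

lemma PS_diff (hb : ∀ x, ‖b x‖ ≤ M / (x.2 + 1 : ℕ)) {X Y : ℕ} (hX : 2 ≤ X) (hXY : X ≤ Y) (t : ℝ) :
    ∫ u in t..(t + 1), ‖PS b Y u - PS b X u‖ ^ 2 ≤ 64800 * M ^ 2 / Real.log X := by
  classical
  have hM := M_nonneg hb
  have hsub : TX X ⊆ TX Y := by
    intro x hx
    rw [mem_TX] at hx ⊢
    exact hx.trans hXY
  have h1 : ∀ u, PS b Y u - PS b X u = ∑ x ∈ TX Y \ TX X, (b x * (wt 1 x : ℂ)) * ee (fr x) u := by
    intro u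
    unfold PS
    rw [← Finset.sum_sdiff hsub]
    ring
  simp_rw [h1]
  have hlg : ∀ x ∈ TX Y \ TX X, max 1 ⌊Real.log X⌋₊ ≤ lg (qq x) := by
    intro x hx
    rw [Finset.mem_sdiff, mem_TX, mem_TX] at hx
    exact lg_ge hX (by omega)
  refine (tail _ (le_max_left 1 _) hlg _ hM (fun x _ => norm_coef hb x) t).trans ?_
  have h0 : 0 < Real.log X := Real.log_pos (by exact_mod_cast (by omega : 1 < X))
  have h2 := max_ge hX
  rw [div_le_div_iff₀ (by linarith) h0]
  nlinarith [sq_nonneg M]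

lemma PS_diff_lint (hb : ∀ x, ‖b x‖ ≤ M / (x.2 + 1 : ℕ)) {X Y : ℕ} (hX : 2 ≤ X) (hXY : X ≤ Y)
    (t : ℝ) :
    ∫⁻ u in Set.Icc t (t + 1), ENNReal.ofReal (‖PS b Y u - PS b X u‖ ^ 2) ≤
      ENNReal.ofReal (64800 * M ^ 2 / Real.log X) := by
  have h1 := PS_diff hb hX hXY t
  have hc : Continuous fun u => ‖PS b Y u - PS b X u‖ ^ 2 :=
    ((continuous_PS b Y).sub (continuous_PS b X)).norm.pow 2
  rw [intervalIntegral.integral_of_le (by linarith), ← integral_Icc_eq_integral_Ioc] at h1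
  rw [← ofReal_integral_eq_lintegral_ofReal]
  · exact ENNReal.ofReal_le_ofReal h1
  · exact hc.continuousOn.integrableOn_compact isCompact_Icc
  · exact Eventually.of_forall fun u => by positivity

lemma ae_notMem (hb : ∀ x, ‖b x‖ ≤ M / (x.2 + 1 : ℕ)) : ∀ᵐ τ : ℝ, τ ∉ divSet (ap b) := by
  have h1 : dimH (divSet (ap b)) = 0 := dimH_divSet (ap b) M (norm_ap hb)
  have h2 : volume (divSet (ap b)) = 0 := by
    have h3 := hausdorffMeasure_of_dimH_lt (s := divSet (ap b)) (d := 1) (by rw [h1]; simp)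
    rw [NNReal.coe_one, hausdorffMeasure_real] at h3
    exact h3
  exact measure_eq_zero_iff_ae_notMem.1 h2

/-- **The boundary function and its approximation.** -/
theorem boundary (hb : ∀ x, ‖b x‖ ≤ M / (x.2 + 1 : ℕ)) :
    AEMeasurable (bl b) ∧ dimH (divSet (ap b)) = 0 ∧
      ∀ (X : ℕ), 2 ≤ X → ∀ t : ℝ,
        ∫⁻ u in Set.Icc t (t + 1), ENNReal.ofReal (‖bl b u - PS b X u‖ ^ 2) ≤
          ENNReal.ofReal (64800 * M ^ 2 / Real.log X) := by
  have hae : ∀ᵐ τ : ℝ, Tendsto (fun X => PS b X τ) atTop (𝓝 (bl b τ)) := by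
    filter_upwards [ae_notMem hb] with τ hτ
    exact PS_tendsto hb hτ
  refine ⟨aemeasurable_of_tendsto_metrizable_ae atTop
    (fun X => (continuous_PS b X).aemeasurable) hae, dimH_divSet (ap b) M (norm_ap hb), ?_⟩
  intro X hX t
  have h1 : ∫⁻ u in Set.Icc t (t + 1), ENNReal.ofReal (‖bl b u - PS b X u‖ ^ 2) ≤
      ∫⁻ u in Set.Icc t (t + 1),
        liminf (fun Y => ENNReal.ofReal (‖PS b Y u - PS b X u‖ ^ 2)) atTop := by
    refine lintegral_mono_ae ?_
    filter_upwards [ae_restrict_of_ae hae] with u hu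
    have h2 : Tendsto (fun Y => ENNReal.ofReal (‖PS b Y u - PS b X u‖ ^ 2)) atTop
        (𝓝 (ENNReal.ofReal (‖bl b u - PS b X u‖ ^ 2))) :=
      (ENNReal.continuous_ofReal.tendsto _).comp (((hu.sub_const _).norm).pow 2)
    rw [h2.liminf_eq]
  refine h1.trans ((lintegral_liminf_le fun Y => ?_).trans ?_)
  · exact (ENNReal.continuous_ofReal.comp
      (((continuous_PS b Y).sub (continuous_PS b X)).norm.pow 2)).measurable
  · refine liminf_le_of_frequently_le' ?_
    refine Eventually.frequently ?_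
    filter_upwards [eventually_ge_atTop X] with Y hY
    exact PS_diff_lint hb hX hY t

end

end Pool.Agent.TH339.MP
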