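import Pool.Agent.TH339.MP.Q3

/-!
# Euler products of tempered conjugacy classes
-/

set_option autoImplicit false

namespace Pool.Agent.TH339.MP

open Complex MeasureTheory Finset Filter Topology
open Pool.Agent.W350.Edge (lg lg_le lt_lg term ps divSet dimH_divSet abel_stolz)
open scoped ENNReal

lemma det_one_sub {N : ℕ} (B : Matrix (Fin N) (Fin N) ℂ) (α : Fin N → ℂ)
    (hα : B.charpoly.roots = Multiset.map α Finset.univ.val) (z : ℂ) :
    (1 - z • B).det = ∏ j, (1 - α j * z) := by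
  have h1 : ∀ w : ℂ, (Matrix.scalar (Fin N) w - B).det = ∏ j, (w - α j) := by
    intro w
    have h2 : B.charpoly.eval w = (Matrix.scalar (Fin N) w - B).det := by
      rw [Matrix.eval_charpoly]
    rw [← h2]
    have h3 : B.charpoly = (Multiset.map (fun a => Polynomial.X - Polynomial.C a)
        B.charpoly.roots).prod :=
      ((IsAlgClosed.splits B.charpoly).eq_prod_roots_of_monic (Matrix.charpoly_monic B))
    rw [h3, hα, Multiset.map_map]
    change Polynomial.eval w (∏ j, (Polynomial.X - Polynomial.C (α j))) = _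
    rw [Polynomial.eval_prod]
    simp
  by_cases hz : z = 0
  · simp [hz]
  · have h2 : (1 - z • B) = z • (Matrix.scalar (Fin N) z⁻¹ - B) := by
      rw [smul_sub]
      congr 1
      ext i j
      simp only [Matrix.scalar_apply, Matrix.smul_apply, Matrix.diagonal_apply, smul_eq_mul,
        Matrix.one_apply]
      split_ifs
      · rw [mul_inv_cancel₀ hz]
      · rw [mul_zero]
    rw [h2, Matrix.det_smul, h1, Fintype.card_fin]
    have h3 : z ^ N = ∏ _j : Fin N, z := by simp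
    rw [h3, ← Finset.prod_mul_distrib]
    refine Finset.prod_congr rfl fun j _ => ?_
    rw [mul_sub, mul_inv_cancel₀ hz]
    ring

/-- eigenvalues of an element of a compact group of matrices -/
lemma eig_le_one {N : ℕ} {H : Type*} [Group H] [TopologicalSpace H]
    (ρ : H →* Matrix (Fin N) (Fin N) ℂ) (hρ : Continuous ρ) (C : Subgroup H)
    (hC : IsCompact (C : Set H)) {g : H} (hg : g ∈ C) {a : ℂ}
    (ha : a ∈ (ρ g).charpoly.roots) : ‖a‖ ≤ 1 := by
  have h1 : a ∈ spectrum ℂ (ρ g) := by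
    rw [Matrix.mem_spectrum_iff_isRoot_charpoly]
    exact (Polynomial.mem_roots'.1 ha).2
  -- an eigenvector
  obtain ⟨v, hv0, hv⟩ : ∃ v : Fin N → ℂ, v ≠ 0 ∧ (ρ g).mulVec v = a • v := by
    have h2 : (Matrix.scalar (Fin N) a - ρ g).det = 0 := by
      have h3 := (Polynomial.mem_roots'.1 ha).2
      rw [Polynomial.IsRoot.def, Matrix.eval_charpoly] at h3
      exact h3
    obtain ⟨v, hv0, hv⟩ := Matrix.exists_mulVec_eq_zero_iff.2 h2
    refine ⟨v, hv0, ?_⟩
    rw [Matrix.sub_mulVec, sub_eq_zero] at hv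
    rw [← hv]
    simp
  have hpow : ∀ k : ℕ, (ρ (g ^ k)).mulVec v = a ^ k • v := by
    intro k
    induction k with
    | zero => simp
    | succ k ih =>
      rw [pow_succ', map_mul, ← Matrix.mulVec_mulVec, ih, Matrix.mulVec_smul, hv, smul_smul,
        pow_succ]
  obtain ⟨i, hi⟩ : ∃ i, v i ≠ 0 := by
    by_contra h
    push Not at h
    exact hv0 (funext h)
  -- boundedness
  have hcont : Continuous fun h : H => ((ρ h).mulVec v) i := by
    have : Continuous fun h : H => (ρ h).mulVec v := Continuous.matrix_mulVec hρ continuous_const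
    exact (continuous_apply i).comp this
  obtain ⟨B, hB⟩ := hC.exists_bound_of_continuousOn hcont.continuousOn
  by_contra hlt
  push Not at hlt
  have h3 : Tendsto (fun k : ℕ => ‖a‖ ^ k) atTop atTop := tendsto_pow_atTop_atTop_of_one_lt hlt
  obtain ⟨k, hk⟩ := (h3.eventually_gt_atTop (B / ‖v i‖)).exists
  have h4 := hB (g ^ k) (C.pow_mem hg k)
  rw [hpow k, Pi.smul_apply, smul_eq_mul, norm_mul, norm_pow] at h4
  have h5 : 0 < ‖v i‖ := norm_pos_iff.2 hi
  rw [div_lt_iff₀ h5] at hk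
  linarith

section
variable {N : ℕ}

open Classical in
/-- the coefficients -/
noncomputable def bα (α : ℕ → Fin N → ℂ) (S : Finset ℕ) (x : PP) : ℂ :=
  if (x.1 : ℕ) ∈ S then 0 else (∑ j, α x.1 j ^ (x.2 + 1)) / ((x.2 + 1 : ℕ) : ℂ)

lemma norm_bα {α : ℕ → Fin N → ℂ} {S : Finset ℕ}
    (hα : ∀ p : ℕ, p.Prime → p ∉ S → ∀ j, ‖α p j‖ ≤ 1) (x : PP) :
    ‖bα α S x‖ ≤ (N : ℝ) / (x.2 + 1 : ℕ) := by
  unfold bα
  split_ifs with h
  · rw [norm_zero]
    positivity
  · rw [norm_div, Complex.norm_natCast]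
    refine div_le_div_of_nonneg_right ?_ (by positivity)
    refine (norm_sum_le_of_le (n := fun _ => (1 : ℝ)) _ fun j _ => ?_).trans ?_
    · rw [norm_pow]
      exact pow_le_one₀ (norm_nonneg _) (hα _ x.1.2 h j)
    · simp

open Classical in
/-- the local factor -/
noncomputable def fα (α : ℕ → Fin N → ℂ) (S : Finset ℕ) (s : ℂ) (p : Nat.Primes) : ℂ :=
  if (p : ℕ) ∈ S then 1 else ∏ j, (1 - α p j * ((p : ℕ) : ℂ) ^ (-s))⁻¹

open Classical in
/-- its logarithm -/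
noncomputable def lα (α : ℕ → Fin N → ℂ) (S : Finset ℕ) (s : ℂ) (p : Nat.Primes) : ℂ :=
  if (p : ℕ) ∈ S then 0 else ∑ j, -Complex.log (1 - α p j * ((p : ℕ) : ℂ) ^ (-s))

lemma small {α : ℕ → Fin N → ℂ} {S : Finset ℕ}
    (hα : ∀ p : ℕ, p.Prime → p ∉ S → ∀ j, ‖α p j‖ ≤ 1) {p : Nat.Primes} (hp : (p : ℕ) ∉ S)
    (j : Fin N) {s : ℂ} (hs : 1 ≤ s.re) : ‖α p j * ((p : ℕ) : ℂ) ^ (-s)‖ < 1 := by
  rw [norm_mul]
  have h1 := norm_pr_cpow p hs
  have h2 := hα p p.2 hp j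
  nlinarith [norm_nonneg (α p j), norm_nonneg (((p : ℕ) : ℂ) ^ (-s))]

lemma hasSum_lα {α : ℕ → Fin N → ℂ} {S : Finset ℕ}
    (hα : ∀ p : ℕ, p.Prime → p ∉ S → ∀ j, ‖α p j‖ ≤ 1) (p : Nat.Primes) {s : ℂ}
    (hs : 1 ≤ s.re) : HasSum (fun k : ℕ => tm (bα α S) s (p, k)) (lα α S s p) := by
  unfold tm bα lα
  by_cases hp : (p : ℕ) ∈ S
  · simp [hp]
  · simp only [hp, if_false]
    have h2 : ∀ j, HasSum (fun l : ℕ => (α p j * ((p : ℕ) : ℂ) ^ (-s)) ^ (l + 1) /
        ((l + 1 : ℕ) : ℂ)) (-Complex.log (1 - α p j * ((p : ℕ) : ℂ) ^ (-s))) := by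
      intro j
      have h1 := Complex.hasSum_taylorSeries_neg_log (small hα hp j hs)
      rw [← hasSum_nat_add_iff' 1] at h1
      simpa only [range_one, sum_singleton, pow_zero, CharP.cast_eq_zero, div_zero, sub_zero]
        using h1
    have h3 := hasSum_sum (s := (Finset.univ : Finset (Fin N))) fun j _ => h2 j
    convert h3 using 1
    funext l
    rw [Finset.sum_div, Finset.sum_mul]
    refine Finset.sum_congr rfl fun j _ => ?_
    rw [mul_pow]
    ring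

lemma exp_lα {α : ℕ → Fin N → ℂ} {S : Finset ℕ}
    (hα : ∀ p : ℕ, p.Prime → p ∉ S → ∀ j, ‖α p j‖ ≤ 1) (p : Nat.Primes) {s : ℂ}
    (hs : 1 ≤ s.re) : Complex.exp (lα α S s p) = fα α S s p := by
  unfold lα fα
  by_cases hp : (p : ℕ) ∈ S
  · simp [hp]
  · simp only [hp, if_false]
    rw [Complex.exp_sum]
    refine Finset.prod_congr rfl fun j _ => ?_
    rw [Complex.exp_neg, Complex.exp_log]
    intro h
    have h2 := small hα hp j hs
    rw [← sub_eq_zero.1 h, norm_one] at h2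
    exact lt_irrefl _ h2

theorem hasProd_α {α : ℕ → Fin N → ℂ} {S : Finset ℕ}
    (hα : ∀ p : ℕ, p.Prime → p ∉ S → ∀ j, ‖α p j‖ ≤ 1) {s : ℂ} (hs : 1 < s.re) :
    HasProd (fα α S s) (Complex.exp (FF (bα α S) s)) := by
  have h1 : HasSum (lα α S s) (FF (bα α S) s) :=
    (summable_tm (norm_bα hα) hs).hasSum.prod_fiberwise fun p => hasSum_lα hα p hs.le
  have h2 := h1.cexp
  convert h2 using 1
  funext p
  exact (exp_lα hα p hs.le).symm

/-- the sum over the prime powers `p^k ≤ X` -/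
lemma PS_eq (α : ℕ → Fin N → ℂ) (S : Finset ℕ) (X : ℕ) (τ : ℝ) :
    PS (bα α S) X τ = ∑ p ∈ (range (X + 1)).filter fun p => p.Prime ∧ p ∉ S,
      ∑ k ∈ (range (X + 1)).filter fun k => 1 ≤ k ∧ p ^ k ≤ X,
        (∑ j, α p j ^ k) / (k : ℂ) * ((p : ℂ) ^ (-(1 + τ * I : ℂ))) ^ k := by
  classical
  unfold PS
  rw [Finset.sum_sigma' ((range (X + 1)).filter fun p => p.Prime ∧ p ∉ S)
    (fun p => (range (X + 1)).filter fun k => 1 ≤ k ∧ p ^ k ≤ X)
    (fun p k => (∑ j, α p j ^ k) / (k : ℂ) * ((p : ℂ) ^ (-(1 + τ * I : ℂ))) ^ k)]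
  rw [← Finset.sum_filter_add_sum_filter_not (TX X) (fun x => (x.1 : ℕ) ∈ S)]
  have h1 : ∑ x ∈ (TX X).filter (fun x => (x.1 : ℕ) ∈ S),
      (bα α S x * (wt 1 x : ℂ)) * ee (fr x) τ = 0 := by
    refine Finset.sum_eq_zero fun x hx => ?_
    rw [mem_filter] at hx
    unfold bα
    rw [if_pos hx.2, zero_mul, zero_mul]
  rw [h1, zero_add]
  refine Finset.sum_bij (fun x _ => (⟨(x.1 : ℕ), x.2 + 1⟩ : Σ _ : ℕ, ℕ)) ?_ ?_ ?_ ?_
  · intro x hx
    rw [mem_filter, mem_TX] at hx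
    have hq : (x.1 : ℕ) ^ (x.2 + 1) ≤ X := hx.1
    rw [Finset.mem_sigma, mem_filter, mem_filter, mem_range, mem_range]
    have h2 : (x.1 : ℕ) ≤ (x.1 : ℕ) ^ (x.2 + 1) := Nat.le_self_pow (by omega) _
    have h3 : x.2 + 1 < (x.1 : ℕ) ^ (x.2 + 1) := Nat.lt_pow_self x.1.2.one_lt
    exact ⟨⟨Nat.lt_succ_of_le (h2.trans hq), x.1.2, hx.2⟩,
      Nat.lt_succ_of_le (h3.le.trans hq), Nat.succ_pos _, hq⟩
  · intro x _ y _ hxy
    simp only [Sigma.mk.injEq, heq_eq_eq] at hxy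
    exact Prod.ext (Subtype.ext hxy.1) (by omega)
  · rintro ⟨p, k⟩ hpk
    rw [Finset.mem_sigma, mem_filter, mem_filter] at hpk
    simp only at hpk
    refine ⟨(⟨p, hpk.1.2.1⟩, k - 1), ?_, ?_⟩
    · rw [mem_filter, mem_TX]
      refine ⟨?_, hpk.1.2.2⟩
      unfold qq
      simp only
      rw [Nat.sub_add_cancel hpk.2.2.1]
      exact hpk.2.2.2
    · simp only [Sigma.mk.injEq, heq_eq_eq, true_and]
      exact Nat.sub_add_cancel hpk.2.2.1
  · intro x hx
    rw [mem_filter] at hx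
    have h2 := tm_eq (bα α S) 1 τ x
    rw [Complex.ofReal_one] at h2
    rw [← h2]
    unfold tm bα
    rw [if_neg hx.2]

end

end Pool.Agent.TH339.MP
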