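import Pool.Agent.TH339.MP.Q3

/-!
# Bounds for zeta near its pole, and the ratio of its values
-/

set_option autoImplicit false

namespace Pool.Agent.TH339.MP

open Complex MeasureTheory Finset Filter Topology

lemma zeta_repr {s : ℂ} (hs : 1 < s.re) :
    ∃ J : ℂ, ‖J‖ ≤ 1 / s.re ∧ riemannZeta s = s * (1 / (s - 1) - J) := by
  have hs0 : 0 < s.re := by linarith
  have h1 : (∫ t in Set.Ioi (1 : ℝ), (t : ℂ) ^ (-s)) = 1 / (s - 1) := by
    rw [integral_Ioi_cpow_of_lt (by rw [neg_re]; linarith) one_pos]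
    have hne : s - 1 ≠ 0 := by
      intro h
      have := congrArg Complex.re h
      simp at this
      linarith
    have hne2 : -s + 1 ≠ 0 := by
      intro h
      apply hne
      linear_combination -h
    rw [ofReal_one, one_cpow, div_eq_div_iff hne2 hne]
    ring
  have i1 : IntegrableOn (fun t : ℝ => (t : ℂ) ^ (-s)) (Set.Ioi 1) :=
    integrableOn_Ioi_cpow_of_lt (by rw [neg_re]; linarith) one_pos
  have i2 : IntegrableOn (fun t : ℝ => t ^ (-(s.re + 1))) (Set.Ioi 1) :=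
    integrableOn_Ioi_rpow_of_lt (by linarith) one_pos
  have hb : ∀ t ∈ Set.Ioi (1 : ℝ), ‖((Int.fract t : ℝ) : ℂ) * (t : ℂ) ^ (-(s + 1))‖ ≤
      t ^ (-(s.re + 1)) := by
    intro t ht
    have ht0 : (0 : ℝ) < t := lt_trans one_pos ht
    rw [norm_mul, norm_cpow_eq_rpow_re_of_pos ht0, Complex.norm_real,
      Real.norm_of_nonneg (Int.fract_nonneg t)]
    have e1 : (-(s + 1)).re = -(s.re + 1) := by simp
    rw [e1]
    exact mul_le_of_le_one_left (Real.rpow_nonneg ht0.le _) (Int.fract_lt_one t).le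
  have i3 : IntegrableOn (fun t : ℝ => ((Int.fract t : ℝ) : ℂ) * (t : ℂ) ^ (-(s + 1)))
      (Set.Ioi 1) := by
    refine Integrable.mono' i2 ?_ ?_
    · refine ((measurable_ofReal.comp measurable_fract).aestronglyMeasurable).mul ?_
      refine ContinuousOn.aestronglyMeasurable ?_ measurableSet_Ioi
      intro t ht
      have ht0 : (0 : ℝ) < t := lt_trans one_pos ht
      exact (continuousAt_ofReal_cpow_const _ _ (Or.inr ht0.ne')).continuousWithinAt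
    · exact (ae_restrict_iff' measurableSet_Ioi).2 (Eventually.of_forall hb)
  have h2 : (∫ t in Set.Ioi (1 : ℝ), (⌊t⌋₊ : ℂ) * (t : ℂ) ^ (-(s + 1))) =
      1 / (s - 1) - ∫ t in Set.Ioi (1 : ℝ), ((Int.fract t : ℝ) : ℂ) * (t : ℂ) ^ (-(s + 1)) := by
    rw [← h1, ← integral_sub i1 i3]
    refine setIntegral_congr_fun measurableSet_Ioi fun t ht => ?_
    have ht0 : (0 : ℝ) < t := lt_trans one_pos ht
    have h3 : ((⌊t⌋₊ : ℂ)) = (t : ℂ) - ((Int.fract t : ℝ) : ℂ) := by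
      have h4 : ((⌊t⌋₊ : ℝ)) = t - Int.fract t := by
        rw [Int.self_sub_fract, natCast_floor_eq_intCast_floor ht0.le]
      exact_mod_cast congrArg (fun x : ℝ => (x : ℂ)) h4
    have h5 : (t : ℂ) ^ (-s) = (t : ℂ) * (t : ℂ) ^ (-(s + 1)) := by
      have hne : (t : ℂ) ≠ 0 := by exact_mod_cast ht0.ne'
      rw [show -s = 1 + -(s + 1) by ring, cpow_add _ _ hne, cpow_one]
    rw [h3, h5]
    ring
  refine ⟨_, ?_, by rw [zeta_integral hs, h2]⟩
  have h6 : ∫ t in Set.Ioi (1 : ℝ), t ^ (-(s.re + 1)) = 1 / s.re := by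
    rw [integral_Ioi_rpow_of_lt (by linarith) one_pos, Real.one_rpow]
    have : -(s.re + 1) + 1 = -s.re := by ring
    rw [this, neg_div_neg_eq]
  rw [← h6]
  exact norm_integral_le_of_norm_le i2 ((ae_restrict_iff' measurableSet_Ioi).2
    (Eventually.of_forall hb))

/-- the lower bound near the pole -/
lemma zeta_lower {h u : ℝ} (hh : 0 < h) (hh2 : h ≤ 1 / 2) (hu : |u| ≤ 2 * h) :
    1 / (9 * h) ≤ ‖riemannZeta (((1 + h : ℝ) : ℂ) + u * I)‖ := by
  set s : ℂ := ((1 + h : ℝ) : ℂ) + u * I with hs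
  have hre : s.re = 1 + h := by simp [hs]
  have h1 : 1 < s.re := by rw [hre]; linarith
  obtain ⟨J, hJ, hz⟩ := zeta_repr h1
  have hs1 : s - 1 = ((h : ℝ) : ℂ) + u * I := by
    rw [hs]
    push_cast
    ring
  have hn : ‖s - 1‖ ^ 2 = h ^ 2 + u ^ 2 := by
    rw [hs1, ← Complex.normSq_eq_norm_sq, Complex.normSq_add_mul_I]
  have hu2 : u ^ 2 ≤ 4 * h ^ 2 := by
    rw [← sq_abs]
    nlinarith [abs_nonneg u]
  have hn1 : ‖s - 1‖ ≤ 2.2361 * h := by
    have h2 : ‖s - 1‖ ^ 2 ≤ (2.2361 * h) ^ 2 := by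
      rw [hn]
      nlinarith
    exact (pow_le_pow_iff_left₀ (norm_nonneg _) (by positivity) (by norm_num)).1 h2
  have hn0 : 0 < ‖s - 1‖ := by
    have h2 : 0 < ‖s - 1‖ ^ 2 := by
      rw [hn]
      positivity
    by_contra h3
    have h4 : ‖s - 1‖ = 0 := le_antisymm (not_lt.1 h3) (norm_nonneg _)
    rw [h4] at h2
    simp at h2
  have hsn : 1 ≤ ‖s‖ := by
    have := Complex.re_le_norm s
    linarith
  have h3 : 1 / (9 * h) ≤ ‖1 / (s - 1) - J‖ := by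
    have h4 : ‖1 / (s - 1)‖ - ‖J‖ ≤ ‖1 / (s - 1) - J‖ := norm_sub_norm_le _ _
    have h5 : ‖1 / (s - 1)‖ = 1 / ‖s - 1‖ := by rw [norm_div, norm_one]
    have h6 : 1 / (2.2361 * h) ≤ 1 / ‖s - 1‖ := one_div_le_one_div_of_le hn0 hn1
    rw [hre] at hJ
    have h7 : 1 / (9 * h) ≤ 1 / (2.2361 * h) - 1 / (1 + h) := by
      rw [div_sub_div _ _ (by positivity) (by positivity), div_le_div_iff₀ (by positivity)
        (by positivity)]
      nlinarith
    linarith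
  rw [hz, norm_mul]
  have h8 : (0 : ℝ) ≤ 1 / (9 * h) := by positivity
  nlinarith [norm_nonneg (1 / (s - 1) - J)]

lemma zeta_ratio {h σ u : ℝ} (hσ : 1 < σ) (hh : 0 < h) (hh2 : h ≤ 1 / 2) (hu : |u| ≤ 2 * h)
    (hu0 : u ≠ 0) :
    ‖riemannZeta ((σ : ℂ) + u * I)‖ / ‖riemannZeta (((1 + h : ℝ) : ℂ) + u * I)‖ ≤
      81 * h / |u| := by
  have h1 := zeta_near hσ (by linarith : |u| ≤ 2) hu0
  have h2 := zeta_lower hh hh2 hu
  have hu' : 0 < |u| := abs_pos.2 hu0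
  have h3 : 0 < ‖riemannZeta (((1 + h : ℝ) : ℂ) + u * I)‖ := lt_of_lt_of_le (by positivity) h2
  rw [div_le_iff₀ h3]
  have h4 : 81 * h / |u| * (1 / (9 * h)) = 9 / |u| := by
    field_simp
    norm_num
  calc _ ≤ 9 / |u| := h1
    _ = 81 * h / |u| * (1 / (9 * h)) := h4.symm
    _ ≤ _ := mul_le_mul_of_nonneg_left h2 (by positivity)

/-- the real logarithm of zeta -/
noncomputable def ZZ (σ : ℝ) : ℝ := ∑' x : PP, wt σ x / (x.2 + 1 : ℕ)

lemma exp_ZZ {σ : ℝ} (hσ : 1 < σ) : Real.exp (ZZ σ) = ‖riemannZeta (σ : ℂ)‖ := by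
  have h1 := FF_zeta hσ 0
  rw [Complex.ofReal_zero, zero_mul, add_zero] at h1
  rw [← h1, Complex.norm_exp]
  congr 1
  have h2 := FF_eq (fun x => 1 / ((x.2 + 1 : ℕ) : ℂ)) σ 0
  rw [Complex.ofReal_zero, zero_mul, add_zero] at h2
  rw [h2]
  unfold tse ZZ
  have h3 : ∀ x : PP, (1 / ((x.2 + 1 : ℕ) : ℂ) * (wt σ x : ℂ)) * ee (fr x) 0 =
      ((wt σ x / (x.2 + 1 : ℕ) : ℝ) : ℂ) := by
    intro x
    rw [ee_zero, mul_one]
    push_cast
    ring
  simp_rw [h3]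
  rw [← Complex.ofReal_tsum, Complex.ofReal_re]

lemma ZZ_diff {h : ℝ} (hh : 0 < h) (hh2 : h ≤ 1 / 2) : ZZ (1 + h / 2) - ZZ (1 + h) ≤ 1.1 := by
  have h1 : (1 : ℝ) < 1 + h / 2 := by linarith
  have h2 : (1 : ℝ) < 1 + h := by linarith
  have e1 := exp_ZZ h1
  have e2 := exp_ZZ h2
  have hre1 : (((1 + h / 2 : ℝ)) : ℂ).re = 1 + h / 2 := Complex.ofReal_re _
  have hre2 : (((1 + h : ℝ)) : ℂ).re = 1 + h := Complex.ofReal_re _
  have b1 := zeta_norm_bound (s := ((1 + h / 2 : ℝ) : ℂ)) (by rw [hre1]; exact h1)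
  have n1 : ‖((1 + h / 2 : ℝ) : ℂ)‖ = 1 + h / 2 := by
    rw [Complex.norm_real, Real.norm_of_nonneg (by linarith)]
  have n2 : ‖((1 + h / 2 : ℝ) : ℂ) - 1‖ = h / 2 := by
    have : ((1 + h / 2 : ℝ) : ℂ) - 1 = ((h / 2 : ℝ) : ℂ) := by
      push_cast
      ring
    rw [this, Complex.norm_real, Real.norm_of_nonneg (by linarith)]
  rw [n1, n2, hre1, ← e1] at b1
  obtain ⟨J, hJ, hz⟩ := zeta_repr (s := ((1 + h : ℝ) : ℂ)) (by rw [hre2]; exact h2)
  rw [hre2] at hJ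
  have m1 : ((1 + h : ℝ) : ℂ) - 1 = ((h : ℝ) : ℂ) := by
    push_cast
    ring
  have m2 : ‖((1 + h : ℝ) : ℂ)‖ = 1 + h := by
    rw [Complex.norm_real, Real.norm_of_nonneg (by linarith)]
  have b2 : 1 / h ≤ ‖riemannZeta ((1 + h : ℝ) : ℂ)‖ := by
    rw [hz, norm_mul, m2, m1]
    have h4 : ‖(1 : ℂ) / ((h : ℝ) : ℂ)‖ - ‖J‖ ≤ ‖1 / ((h : ℝ) : ℂ) - J‖ := norm_sub_norm_le _ _
    have h5 : ‖(1 : ℂ) / ((h : ℝ) : ℂ)‖ = 1 / h := by
      rw [norm_div, norm_one, Complex.norm_real, Real.norm_of_nonneg hh.le]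
    rw [h5] at h4
    have h6 : 1 / h - 1 / (1 + h) ≤ ‖1 / ((h : ℝ) : ℂ) - J‖ := by linarith
    calc 1 / h = (1 + h) * (1 / h - 1 / (1 + h)) := by
          field_simp
          ring
      _ ≤ _ := mul_le_mul_of_nonneg_left h6 (by linarith)
  rw [← e2] at b2
  have b3 : Real.exp (ZZ (1 + h / 2)) ≤ 3 * Real.exp (ZZ (1 + h)) := by
    calc _ ≤ (1 + h / 2) * (1 / (h / 2) + 1 / (1 + h / 2)) := b1
      _ ≤ 3 * (1 / h) := by
        have : (1 + h / 2) * (1 / (h / 2) + 1 / (1 + h / 2)) = (2 + 2 * h) / h := by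
          field_simp
          ring
        rw [this, mul_one_div]
        exact div_le_div_of_nonneg_right (by linarith) hh.le
      _ ≤ _ := mul_le_mul_of_nonneg_left b2 (by norm_num)
  have b4 : Real.exp (ZZ (1 + h / 2) - ZZ (1 + h)) ≤ Real.exp 1.1 := by
    rw [Real.exp_sub, div_le_iff₀ (Real.exp_pos _)]
    refine b3.trans (mul_le_mul_of_nonneg_right ?_ (Real.exp_pos _).le)
    have h5 : (3 : ℝ) ≤ Real.exp 1.1 := by
      rw [← Real.log_le_iff_le_exp (by norm_num)]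
      have h6 := Real.log_three_lt_d9
      linarith
    exact h5
  exact Real.exp_le_exp.1 b4

end Pool.Agent.TH339.MP
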