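import Pool.Agent.TH339.MP.U1

/-!
# The Harnack inequality up to the edge
-/

set_option autoImplicit false

namespace Pool.Agent.TH339.MP

open Complex MeasureTheory Finset Filter Topology

lemma fr_nonpos (x : PP) : fr x ≤ 0 := by
  rw [fr_eq, neg_nonpos]
  exact Real.log_nonneg (by
    have := two_le_qq x
    exact_mod_cast (by omega : 1 ≤ qq x))

lemma wt_exp (σ : ℝ) (x : PP) : wt σ x = Real.exp (σ * fr x) := by
  unfold wt fr
  rw [Real.rpow_def_of_pos (prime_pos x.1), ← Real.exp_nat_mul]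
  congr 1
  ring

lemma wt_anti' {σ σ' : ℝ} (h : σ ≤ σ') (x : PP) : wt σ' x ≤ wt σ x := by
  rw [wt_exp, wt_exp, Real.exp_le_exp]
  exact mul_le_mul_of_nonpos_right h (fr_nonpos x)

lemma wt_gap {h : ℝ} (x : PP) :
    wt (1 + h) x * (-fr x * (h / 2)) ≤ wt (1 + h / 2) x - wt (1 + h) x := by
  rw [wt_exp, wt_exp]
  have h1 : Real.exp ((1 + h / 2) * fr x) =
      Real.exp ((1 + h) * fr x) * Real.exp (-fr x * (h / 2)) := by
    rw [← Real.exp_add]
    congr 1
    ring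
  rw [h1]
  have h2 := Real.add_one_le_exp (-fr x * (h / 2))
  have h3 := Real.exp_pos ((1 + h) * fr x)
  nlinarith

lemma ee_lip (l u t : ℝ) : ‖ee l u - ee l t‖ ≤ |l| * |u - t| := by
  have h1 : ee l u - ee l t = ee l t * (ee l (u - t) - 1) := by
    rw [mul_sub, ← ee_add, mul_one]
    congr 2
    ring
  rw [h1, norm_mul, norm_ee, one_mul]
  unfold ee
  have h2 := Real.norm_exp_I_mul_ofReal_sub_one_le (x := l * (u - t))
  rw [mul_comm] at h2
  refine h2.trans (le_of_eq ?_)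
  rw [Real.norm_eq_abs, abs_mul]

section
variable {b : PP → ℂ} {M : ℝ}

/-- the oscillation of the logarithm at height `h` above the edge -/
lemma osc (hb : ∀ x, ‖b x‖ ≤ M / (x.2 + 1 : ℕ)) {h : ℝ} (hh : 0 < h) (hh2 : h ≤ 1 / 2) {u t : ℝ}
    (hu : |u - t| ≤ h / 2) :
    ‖FF b (((1 + h : ℝ) : ℂ) + u * I) - FF b (((1 + h : ℝ) : ℂ) + t * I)‖ ≤ 1.1 * M := by
  have hM := M_nonneg hb
  have h1 : (1 : ℝ) < 1 + h := by linarith
  have h2 : (1 : ℝ) < 1 + h / 2 := by linarith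
  have hs : ∀ v : ℝ, Summable fun x => tm b (((1 + h : ℝ) : ℂ) + v * I) x := fun v =>
    summable_tm hb (by simpa using hh)
  have hsum : Summable fun x : PP => M * ((wt (1 + h / 2) x - wt (1 + h) x) / (x.2 + 1 : ℕ)) := by
    refine Summable.mul_left M ?_
    refine ((summable_wt h2).sub (summable_wt h1)).congr fun x => ?_
    ring
  have hterm : ∀ x, ‖tm b (((1 + h : ℝ) : ℂ) + u * I) x - tm b (((1 + h : ℝ) : ℂ) + t * I) x‖ ≤
      M * ((wt (1 + h / 2) x - wt (1 + h) x) / (x.2 + 1 : ℕ)) := by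
    intro x
    rw [tm_eq, tm_eq, ← mul_sub, norm_mul, norm_mul, Complex.norm_real,
      Real.norm_of_nonneg (wt_nonneg _ x)]
    have h3 : ‖ee (fr x) u - ee (fr x) t‖ ≤ -fr x * (h / 2) := by
      refine (ee_lip _ _ _).trans ?_
      rw [abs_of_nonpos (fr_nonpos x)]
      exact mul_le_mul_of_nonneg_left hu (by linarith [fr_nonpos x])
    have hk : (0 : ℝ) < ((x.2 + 1 : ℕ) : ℝ) := by exact_mod_cast Nat.succ_pos _
    calc ‖b x‖ * wt (1 + h) x * ‖ee (fr x) u - ee (fr x) t‖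
        ≤ (M / (x.2 + 1 : ℕ)) * wt (1 + h) x * (-fr x * (h / 2)) := by
          refine mul_le_mul (mul_le_mul_of_nonneg_right (hb x) (wt_nonneg _ x)) h3
            (norm_nonneg _) ?_
          exact mul_nonneg (by positivity) (wt_nonneg _ x)
      _ = (M / (x.2 + 1 : ℕ)) * (wt (1 + h) x * (-fr x * (h / 2))) := by ring
      _ ≤ (M / (x.2 + 1 : ℕ)) * (wt (1 + h / 2) x - wt (1 + h) x) :=
          mul_le_mul_of_nonneg_left (wt_gap x) (by positivity)
      _ = _ := by ring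
  unfold FF
  rw [← (hs u).tsum_sub (hs t)]
  refine (tsum_of_norm_bounded hsum.hasSum hterm).trans ?_
  rw [tsum_mul_left]
  have h4 : ∑' x : PP, (wt (1 + h / 2) x - wt (1 + h) x) / (x.2 + 1 : ℕ) =
      ZZ (1 + h / 2) - ZZ (1 + h) := by
    unfold ZZ
    rw [← (summable_wt h2).tsum_sub (summable_wt h1)]
    exact tsum_congr fun x => by ring
  rw [h4, mul_comm]
  exact mul_le_mul_of_nonneg_right (ZZ_diff hh hh2) hM

lemma continuous_zeta_line {σ : ℝ} (hσ : 1 < σ) :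
    Continuous fun u : ℝ => ‖riemannZeta ((σ : ℂ) + u * I)‖ := by
  refine Continuous.norm ?_
  rw [continuous_iff_continuousAt]
  intro u
  have hne : ((σ : ℂ) + u * I) ≠ 1 := by
    intro h
    have := congrArg Complex.re h
    simp at this
    linarith
  exact ContinuousAt.comp (f := fun u : ℝ => ((σ : ℂ) + u * I)) (g := riemannZeta)
    (differentiableAt_riemannZeta hne).continuousAt
    (by fun_prop)

lemma zeta_line_pos {σ : ℝ} (hσ : 1 < σ) (u : ℝ) : 0 < ‖riemannZeta ((σ : ℂ) + u * I)‖ :=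
  norm_pos_iff.2 (riemannZeta_ne_zero_of_one_le_re (by simpa using hσ.le))

/-- the integral of the ratio -/
lemma ratio_integral {σ h κ : ℝ} (hσ : 1 < σ) (hh : 0 < h) (hh2 : h ≤ 1 / 2) (h0 : 0 ≤ κ)
    (h1 : κ < 1) :
    ∫ u in (-(2 * h))..(2 * h), (‖riemannZeta ((σ : ℂ) + u * I)‖ /
      ‖riemannZeta (((1 + h : ℝ) : ℂ) + u * I)‖) ^ κ ≤ 4 * h * (81 / 2) ^ κ / (1 - κ) := by
  set φ : ℝ → ℝ := fun u => (‖riemannZeta ((σ : ℂ) + u * I)‖ /
      ‖riemannZeta (((1 + h : ℝ) : ℂ) + u * I)‖) ^ κ with hφ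
  have hcont : Continuous φ := by
    refine Continuous.rpow_const ?_ fun _ => Or.inr h0
    exact (continuous_zeta_line hσ).div (continuous_zeta_line (by linarith)) fun u =>
      (zeta_line_pos (by linarith) u).ne'
  have hb : ∀ u : ℝ, |u| ≤ 2 * h → u ≠ 0 → φ u ≤ (81 * h) ^ κ * |u| ^ (-κ) := by
    intro u hu hu0
    have h2 := zeta_ratio hσ hh hh2 hu hu0
    have h3 : φ u ≤ (81 * h / |u|) ^ κ := Real.rpow_le_rpow (by positivity) h2 h0
    refine h3.trans (le_of_eq ?_)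
    rw [Real.div_rpow (by positivity) (abs_nonneg _), Real.rpow_neg (abs_nonneg _), div_eq_mul_inv]
  have h1' : 0 < 1 - κ := by linarith
  have hi : IntervalIntegrable (fun u : ℝ => (81 * h) ^ κ * u ^ (-κ)) volume 0 (2 * h) :=
    (intervalIntegral.intervalIntegrable_rpow' (by linarith)).const_mul _
  have hint : ∫ u in (0 : ℝ)..(2 * h), (81 * h) ^ κ * u ^ (-κ) = 2 * h * (81 / 2) ^ κ / (1 - κ) := by
    rw [intervalIntegral.integral_const_mul, integral_rpow (Or.inl (by linarith))]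
    rw [Real.zero_rpow (by linarith), sub_zero, show -κ + 1 = 1 - κ by ring, ← mul_div_assoc]
    congr 1
    have h2 : (2 * h) ^ (1 - κ) = 2 * h * (2 * h) ^ (-κ) := by
      rw [show (1 - κ) = 1 + -κ by ring, Real.rpow_add (by positivity), Real.rpow_one]
    rw [h2, show (81 : ℝ) / 2 = 81 * h / (2 * h) by field_simp,
      Real.div_rpow (by positivity) (by positivity), Real.rpow_neg (by positivity)]
    ring
  have hne : ∀ᵐ u : ℝ, u ≠ 0 := by
    simp [ae_iff, measure_singleton]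
  have hpos : ∫ u in (0 : ℝ)..(2 * h), φ u ≤ 2 * h * (81 / 2) ^ κ / (1 - κ) := by
    rw [← hint]
    refine intervalIntegral.integral_mono_ae_restrict (by positivity)
      (hcont.intervalIntegrable _ _) hi ?_
    rw [Filter.EventuallyLE, ae_restrict_iff' measurableSet_Icc]
    filter_upwards [hne] with u hu hu2
    have h3 := hb u (by rw [abs_of_nonneg hu2.1]; exact hu2.2) hu
    rwa [abs_of_nonneg hu2.1] at h3
  have hneg : ∫ u in (-(2 * h))..0, φ u ≤ 2 * h * (81 / 2) ^ κ / (1 - κ) := by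
    have e1 : ∫ u in (-(2 * h))..0, φ u = ∫ u in (0 : ℝ)..(2 * h), φ (-u) := by
      rw [intervalIntegral.integral_comp_neg φ]
      simp
    rw [e1, ← hint]
    refine intervalIntegral.integral_mono_ae_restrict (by positivity)
      ((hcont.comp continuous_neg).intervalIntegrable _ _) hi ?_
    rw [Filter.EventuallyLE, ae_restrict_iff' measurableSet_Icc]
    filter_upwards [hne] with u hu hu2
    have h3 := hb (-u) (by rw [abs_neg, abs_of_nonneg hu2.1]; exact hu2.2) (neg_ne_zero.2 hu)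
    rwa [abs_neg, abs_of_nonneg hu2.1] at h3
  rw [← intervalIntegral.integral_add_adjacent_intervals (hcont.intervalIntegrable (-(2 * h)) 0)
    (hcont.intervalIntegrable 0 (2 * h))]
  calc _ ≤ 2 * h * (81 / 2) ^ κ / (1 - κ) + 2 * h * (81 / 2) ^ κ / (1 - κ) := add_le_add hneg hpos
    _ = _ := by ring

/-- **The Harnack inequality**, inside the half-plane of convergence. -/
theorem harnack (hb : ∀ x, ‖b x‖ ≤ M / (x.2 + 1 : ℕ)) {σ h : ℝ} (hσ : 1 < σ) (hσh : σ ≤ 1 + h)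
    (hh : 0 < h) (hh2 : h ≤ 1 / 2) (t : ℝ) (c : ℂ) (hc : ‖c‖ * M < 1) :
    ∫ u in (t - h / 2)..(t + h / 2), ‖Complex.exp (c * (FF b ((σ : ℂ) + u * I) -
      FF b (((1 + h : ℝ) : ℂ) + t * I)))‖ ≤ 1000 * h / (1 - ‖c‖ * M) := by
  have hM := M_nonneg hb
  have h1 : (1 : ℝ) < 1 + h := by linarith
  set κ : ℝ := ‖c‖ * M with hκ
  have hκ0 : 0 ≤ κ := by positivity
  set A : PP → ℝ := fun x => M * ((wt σ x - wt (1 + h) x) / (x.2 + 1 : ℕ)) with hA
  have hsA : Summable A := by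
    refine Summable.mul_left M ?_
    refine ((summable_wt hσ).sub (summable_wt h1)).congr fun x => ?_
    ring
  set a : PP → ℂ := fun x => b x * ((wt σ x - wt (1 + h) x : ℝ) : ℂ) with ha
  have hbA : ∀ x, ‖a x‖ ≤ A x := by
    intro x
    have h2 : 0 ≤ wt σ x - wt (1 + h) x := sub_nonneg.2 (wt_anti' hσh x)
    rw [ha, norm_mul, Complex.norm_real, Real.norm_of_nonneg h2]
    refine (mul_le_mul_of_nonneg_right (hb x) h2).trans (le_of_eq ?_)
    rw [hA]
    ring
  have hs : ∀ {ρ : ℝ}, 1 < ρ → ∀ (b' : PP → ℂ) (M' : ℝ), (∀ x, ‖b' x‖ ≤ M' / (x.2 + 1 : ℕ)) →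
      ∀ u : ℝ, Summable fun x => (b' x * (wt ρ x : ℂ)) * ee (fr x) u := by
    intro ρ hρ b' M' hb' u
    refine (summable_tm hb' (s := (ρ : ℂ) + u * I) (by simpa using hρ)).congr fun x => ?_
    exact tm_eq b' ρ u x
  have htse : ∀ (b' : PP → ℂ) (M' : ℝ), (∀ x, ‖b' x‖ ≤ M' / (x.2 + 1 : ℕ)) → ∀ u : ℝ,
      tse fr (fun x => b' x * ((wt σ x - wt (1 + h) x : ℝ) : ℂ)) u =
        FF b' ((σ : ℂ) + u * I) - FF b' (((1 + h : ℝ) : ℂ) + u * I) := by
    intro b' M' hb' u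
    rw [FF_eq, FF_eq]
    unfold tse
    rw [← (hs hσ b' M' hb' u).tsum_sub (hs h1 b' M' hb' u)]
    refine tsum_congr fun x => ?_
    push_cast
    ring
  have h2 := exp_principle fr a A hbA hsA (c / 2) hh t
  -- the left side
  have hL : ∀ u : ℝ, |u - t| ≤ h / 2 → ‖Complex.exp (c * (FF b ((σ : ℂ) + u * I) -
      FF b (((1 + h : ℝ) : ℂ) + t * I)))‖ ≤
      ‖Complex.exp (c / 2 * tse fr a u)‖ ^ 2 * Real.exp (1.1 * κ) := by
    intro u hu
    have e1 : c * (FF b ((σ : ℂ) + u * I) - FF b (((1 + h : ℝ) : ℂ) + t * I)) =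
        2 * (c / 2 * tse fr a u) + c * (FF b (((1 + h : ℝ) : ℂ) + u * I) -
          FF b (((1 + h : ℝ) : ℂ) + t * I)) := by
      rw [ha, htse b M hb u]
      ring
    rw [e1, Complex.exp_add, norm_mul]
    refine mul_le_mul ?_ ?_ (norm_nonneg _) (by positivity)
    · rw [show (2 : ℂ) * (c / 2 * tse fr a u) = ((2 : ℕ) : ℂ) * (c / 2 * tse fr a u) by norm_num,
        Complex.exp_nat_mul, norm_pow]
    · rw [Complex.norm_exp, Real.exp_le_exp]
      refine (Complex.re_le_norm _).trans ?_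
      rw [norm_mul]
      calc _ ≤ ‖c‖ * (1.1 * M) := mul_le_mul_of_nonneg_left (osc hb hh hh2 hu) (norm_nonneg _)
        _ = 1.1 * κ := by rw [hκ]; ring
  -- the right side
  have hR : ∀ u : ℝ, ‖Complex.exp ((‖c / 2‖ : ℂ) * tse fr (fun x => (A x : ℂ)) u)‖ ^ 2 =
      (‖riemannZeta ((σ : ℂ) + u * I)‖ / ‖riemannZeta (((1 + h : ℝ) : ℂ) + u * I)‖) ^ κ := by
    intro u
    have hb1 : ∀ x : PP, ‖(1 / ((x.2 + 1 : ℕ) : ℂ))‖ ≤ 1 / (x.2 + 1 : ℕ) := by
      intro x
      rw [norm_div, norm_one, Complex.norm_natCast]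
    have h3 : tse fr (fun x => (A x : ℂ)) u =
        (M : ℂ) * (FF (fun x => 1 / ((x.2 + 1 : ℕ) : ℂ)) ((σ : ℂ) + u * I) -
          FF (fun x => 1 / ((x.2 + 1 : ℕ) : ℂ)) (((1 + h : ℝ) : ℂ) + u * I)) := by
      rw [← htse _ 1 hb1 u]
      unfold tse
      rw [← tsum_mul_left]
      refine tsum_congr fun x => ?_
      rw [hA]
      push_cast
      ring
    have h4 : ‖riemannZeta ((σ : ℂ) + u * I)‖ / ‖riemannZeta (((1 + h : ℝ) : ℂ) + u * I)‖ =
        Real.exp ((FF (fun x => 1 / ((x.2 + 1 : ℕ) : ℂ)) ((σ : ℂ) + u * I) -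
          FF (fun x => 1 / ((x.2 + 1 : ℕ) : ℂ)) (((1 + h : ℝ) : ℂ) + u * I))).re := by
      rw [← FF_zeta hσ, ← FF_zeta h1, ← norm_div, ← Complex.exp_sub, Complex.norm_exp]
    rw [h3, h4, Complex.norm_exp, ← Real.exp_mul, ← Real.exp_nat_mul]
    congr 1
    have h5 : ((‖c / 2‖ : ℂ) * ((M : ℂ) * (FF (fun x => 1 / ((x.2 + 1 : ℕ) : ℂ)) ((σ : ℂ) + u * I) -
          FF (fun x => 1 / ((x.2 + 1 : ℕ) : ℂ)) (((1 + h : ℝ) : ℂ) + u * I)))).re =
        ‖c / 2‖ * (M * (FF (fun x => 1 / ((x.2 + 1 : ℕ) : ℂ)) ((σ : ℂ) + u * I) -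
          FF (fun x => 1 / ((x.2 + 1 : ℕ) : ℂ)) (((1 + h : ℝ) : ℂ) + u * I)).re) := by
      rw [Complex.re_ofReal_mul, Complex.re_ofReal_mul]
    rw [h5, norm_div]
    have h6 : ‖(2 : ℂ)‖ = 2 := by norm_num
    rw [h6, hκ]
    push_cast
    ring
  simp_rw [hR] at h2
  have h3 := ratio_integral hσ hh hh2 hκ0 hc
  have hc1 : Continuous fun u : ℝ => ‖Complex.exp (c * (FF b ((σ : ℂ) + u * I) -
      FF b (((1 + h : ℝ) : ℂ) + t * I)))‖ :=
    (Complex.continuous_exp.comp (continuous_const.mul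
      ((continuous_FF hb hσ).sub continuous_const))).norm
  have hc2 : Continuous fun u : ℝ => ‖Complex.exp (c / 2 * tse fr a u)‖ ^ 2 *
      Real.exp (1.1 * κ) := by
    have : Continuous (tse fr a) := by
      have h4 : tse fr a = fun u : ℝ => FF b ((σ : ℂ) + u * I) -
          FF b (((1 + h : ℝ) : ℂ) + u * I) := by
        funext u
        exact htse b M hb u
      rw [h4]
      exact (continuous_FF hb hσ).sub (continuous_FF hb h1)
    exact ((Complex.continuous_exp.comp (continuous_const.mul this)).norm.pow 2).mul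
      continuous_const
  have h4 : ∫ u in (t - h / 2)..(t + h / 2), ‖Complex.exp (c * (FF b ((σ : ℂ) + u * I) -
      FF b (((1 + h : ℝ) : ℂ) + t * I)))‖ ≤
      ∫ u in (t - h / 2)..(t + h / 2), ‖Complex.exp (c / 2 * tse fr a u)‖ ^ 2 *
        Real.exp (1.1 * κ) := by
    refine intervalIntegral.integral_mono_on (by linarith) (hc1.intervalIntegrable _ _)
      (hc2.intervalIntegrable _ _) fun u hu => hL u ?_
    rw [abs_le]
    constructor <;> linarith [hu.1, hu.2]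
  rw [intervalIntegral.integral_mul_const] at h4
  refine h4.trans ?_
  have h1' : 0 < 1 - κ := by linarith
  have h5 : (81 / 2 : ℝ) ^ κ * Real.exp (1.1 * κ) ≤ 125 := by
    have h6 : Real.exp (1.1 * κ) = Real.exp 1.1 ^ κ := by
      rw [← Real.exp_mul]
    rw [h6, ← Real.mul_rpow (by norm_num) (Real.exp_pos _).le]
    have h7 : Real.exp 1.1 ≤ 3.05 := by
      have h8 : Real.exp 1.1 = Real.exp 1 * Real.exp 0.1 := by
        rw [← Real.exp_add]
        norm_num
      have h9 : Real.exp 0.1 ≤ 1.12 := by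
        have h10 := Real.exp_bound_div_one_sub_of_interval (x := (0.1 : ℝ)) (by norm_num)
          (by norm_num)
        refine h10.trans ?_
        norm_num
      rw [h8]
      have h10 := Real.exp_one_lt_d9
      nlinarith [Real.exp_pos 1, Real.exp_pos (0.1 : ℝ)]
    have h8 : (1 : ℝ) ≤ 81 / 2 * Real.exp 1.1 := by
      have := Real.one_le_exp (x := (1.1 : ℝ)) (by norm_num)
      nlinarith
    calc (81 / 2 * Real.exp 1.1) ^ κ ≤ (81 / 2 * Real.exp 1.1) ^ (1 : ℝ) :=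
          Real.rpow_le_rpow_of_exponent_le h8 hc.le
      _ = 81 / 2 * Real.exp 1.1 := Real.rpow_one _
      _ ≤ 125 := by linarith
  calc _ ≤ (2 * (4 * h * (81 / 2) ^ κ / (1 - κ))) * Real.exp (1.1 * κ) :=
        mul_le_mul_of_nonneg_right (h2.trans (mul_le_mul_of_nonneg_left h3 (by norm_num)))
          (Real.exp_pos _).le
    _ = 8 * h / (1 - κ) * ((81 / 2) ^ κ * Real.exp (1.1 * κ)) := by ring
    _ ≤ 8 * h / (1 - κ) * 125 := mul_le_mul_of_nonneg_left h5 (by positivity)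
    _ = _ := by ring

end

end Pool.Agent.TH339.MP
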