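import Pool.Agent.TH339.MP.U2

/-!
# The Harnack inequality on the edge
-/

set_option autoImplicit false

namespace Pool.Agent.TH339.MP

open Complex MeasureTheory Finset Filter Topology
open Pool.Agent.W350.Edge (divSet dimH_divSet)
open scoped ENNReal

section
variable {b : PP → ℂ} {M : ℝ}

lemma radial (hb : ∀ x, ‖b x‖ ≤ M / (x.2 + 1 : ℕ)) {τ : ℝ} (hτ : τ ∉ divSet (ap b)) :
    Tendsto (fun n : ℕ => FF b (((1 + 1 / ((n : ℝ) + 1) : ℝ) : ℂ) + τ * I)) atTop
      (𝓝 (bl b τ)) := by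
  have h1 := bl_angle hb hτ 1
  have h2 : Tendsto (fun n : ℕ => ((1 / ((n : ℝ) + 1) : ℝ) : ℂ)) atTop
      (𝓝[{z : ℂ | 0 < z.re ∧ ‖z‖ ≤ 1 * z.re}] 0) := by
    rw [tendsto_nhdsWithin_iff]
    constructor
    · have h3 : Tendsto (fun n : ℕ => (1 / ((n : ℝ) + 1) : ℝ)) atTop (𝓝 0) :=
        tendsto_one_div_add_atTop_nhds_zero_nat
      have h4 := (Complex.continuous_ofReal.tendsto 0).comp h3
      rw [Complex.ofReal_zero] at h4
      exact h4
    · refine Eventually.of_forall fun n => ?_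
      have h3 : (0 : ℝ) < 1 / ((n : ℝ) + 1) := by positivity
      refine ⟨by rw [Complex.ofReal_re]; exact h3, ?_⟩
      rw [Complex.norm_real, Real.norm_of_nonneg h3.le, Complex.ofReal_re, one_mul]
  refine (h1.comp h2).congr fun n => ?_
  simp only [Function.comp_apply]
  congr 1
  push_cast
  ring

/-- the upper bound on the edge -/
theorem edge_upper (hb : ∀ x, ‖b x‖ ≤ M / (x.2 + 1 : ℕ)) {h : ℝ} (hh : 0 < h) (hh2 : h ≤ 1 / 2)
    (t : ℝ) (c : ℂ) (hc : ‖c‖ * M < 1) :
    ∫⁻ u in Set.Icc (t - h / 2) (t + h / 2), ENNReal.ofReal ‖Complex.exp (c * (bl b u -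
      FF b (((1 + h : ℝ) : ℂ) + t * I)))‖ ≤ ENNReal.ofReal (1000 * h / (1 - ‖c‖ * M)) := by
  set σ : ℕ → ℝ := fun n => 1 + 1 / ((n : ℝ) + 1) with hσ
  set w : ℂ := FF b (((1 + h : ℝ) : ℂ) + t * I) with hw
  have hσ1 : ∀ n, 1 < σ n := by
    intro n
    have h3 : (0 : ℝ) < 1 / ((n : ℝ) + 1) := by positivity
    simp only [hσ]
    linarith
  have hcont : ∀ n, Continuous fun u : ℝ => ‖Complex.exp (c * (FF b ((σ n : ℂ) + u * I) - w))‖ :=
    fun n => (Complex.continuous_exp.comp (continuous_const.mul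
      ((continuous_FF hb (hσ1 n)).sub continuous_const))).norm
  have h1 : ∫⁻ u in Set.Icc (t - h / 2) (t + h / 2), ENNReal.ofReal ‖Complex.exp (c * (bl b u - w))‖ ≤
      ∫⁻ u in Set.Icc (t - h / 2) (t + h / 2), liminf (fun n => ENNReal.ofReal
        ‖Complex.exp (c * (FF b ((σ n : ℂ) + u * I) - w))‖) atTop := by
    refine lintegral_mono_ae ?_
    filter_upwards [ae_restrict_of_ae (ae_notMem hb)] with u hu
    have h2 : Tendsto (fun n => ENNReal.ofReal
        ‖Complex.exp (c * (FF b ((σ n : ℂ) + u * I) - w))‖) atTop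
        (𝓝 (ENNReal.ofReal ‖Complex.exp (c * (bl b u - w))‖)) := by
      refine (ENNReal.continuous_ofReal.tendsto _).comp (Tendsto.norm ?_)
      exact (Complex.continuous_exp.tendsto _).comp (((radial hb hu).sub_const w).const_mul c)
    rw [h2.liminf_eq]
  refine h1.trans ((lintegral_liminf_le fun n => ?_).trans ?_)
  · exact (ENNReal.continuous_ofReal.comp (hcont n)).measurable
  · refine liminf_le_of_frequently_le' (Eventually.frequently ?_)
    have h3 : ∀ᶠ n : ℕ in atTop, 1 / ((n : ℝ) + 1) < h :=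
      tendsto_one_div_add_atTop_nhds_zero_nat.eventually (gt_mem_nhds hh)
    filter_upwards [h3] with n hn
    have h4 := harnack hb (hσ1 n) (by simp only [hσ]; linarith) hh hh2 t c hc
    rw [intervalIntegral.integral_of_le (by linarith), ← integral_Icc_eq_integral_Ioc] at h4
    rw [← ofReal_integral_eq_lintegral_ofReal]
    · exact ENNReal.ofReal_le_ofReal h4
    · exact (hcont n).continuousOn.integrableOn_compact isCompact_Icc
    · exact Eventually.of_forall fun u => norm_nonneg _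

/-- the two-sided bound on the edge -/
theorem edge_harnack (hb : ∀ x, ‖b x‖ ≤ M / (x.2 + 1 : ℕ)) {h : ℝ} (hh : 0 < h) (hh2 : h ≤ 1 / 2)
    (t : ℝ) (c : ℂ) (hc : ‖c‖ * M < 1) :
    IntegrableOn (fun u => ‖Complex.exp (c * bl b u)‖) (Set.Icc (t - h / 2) (t + h / 2)) ∧
    (1 - ‖c‖ * M) / 1000 * h * ‖Complex.exp (c * FF b (((1 + h : ℝ) : ℂ) + t * I))‖ ≤
      ∫ u in (t - h / 2)..(t + h / 2), ‖Complex.exp (c * bl b u)‖ ∧
    ∫ u in (t - h / 2)..(t + h / 2), ‖Complex.exp (c * bl b u)‖ ≤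
      1000 / (1 - ‖c‖ * M) * h * ‖Complex.exp (c * FF b (((1 + h : ℝ) : ℂ) + t * I))‖ := by
  have hM := M_nonneg hb
  set w : ℂ := FF b (((1 + h : ℝ) : ℂ) + t * I) with hw
  set S : Set ℝ := Set.Icc (t - h / 2) (t + h / 2) with hS
  have h1' : 0 < 1 - ‖c‖ * M := by linarith
  have hmeas : AEMeasurable (bl b) := (boundary hb).1
  have hm : ∀ z : ℂ, AEStronglyMeasurable (fun u => ‖Complex.exp (z * (bl b u - w))‖)
      (volume.restrict S) := by
    intro z
    have h1 : AEMeasurable (fun u => z * (bl b u - w)) := (hmeas.sub_const w).const_mul z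
    exact ((Complex.measurable_exp.comp_aemeasurable h1).norm).aestronglyMeasurable.restrict
  have hint : ∀ z : ℂ, ‖z‖ * M < 1 →
      IntegrableOn (fun u => ‖Complex.exp (z * (bl b u - w))‖) S ∧
      ∫ u in S, ‖Complex.exp (z * (bl b u - w))‖ ≤ 1000 * h / (1 - ‖z‖ * M) := by
    intro z hz
    have h2 := edge_upper hb hh hh2 t z hz
    have h3 : IntegrableOn (fun u => ‖Complex.exp (z * (bl b u - w))‖) S := by
      refine ⟨hm z, ?_⟩
      rw [hasFiniteIntegral_iff_ofReal (Eventually.of_forall fun u => norm_nonneg _)]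
      exact lt_of_le_of_lt h2 ENNReal.ofReal_lt_top
    refine ⟨h3, ?_⟩
    have h4 := ofReal_integral_eq_lintegral_ofReal h3 (Eventually.of_forall fun u => norm_nonneg _)
    rw [← h4] at h2
    have h5 : 0 ≤ 1000 * h / (1 - ‖z‖ * M) := div_nonneg (by positivity) (by linarith)
    exact (ENNReal.ofReal_le_ofReal_iff h5).1 h2
  obtain ⟨i1, i2⟩ := hint c hc
  have hc' : ‖-c‖ * M < 1 := by rwa [norm_neg]
  obtain ⟨j1, j2⟩ := hint (-c) hc'
  rw [norm_neg] at j2
  have hfac : ∀ u, ‖Complex.exp (c * bl b u)‖ =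
      ‖Complex.exp (c * w)‖ * ‖Complex.exp (c * (bl b u - w))‖ := by
    intro u
    rw [← norm_mul, ← Complex.exp_add]
    congr 2
    ring
  have hE : 0 < ‖Complex.exp (c * w)‖ := norm_pos_iff.2 (Complex.exp_ne_zero _)
  have hI : ∫ u in (t - h / 2)..(t + h / 2), ‖Complex.exp (c * bl b u)‖ =
      ‖Complex.exp (c * w)‖ * ∫ u in S, ‖Complex.exp (c * (bl b u - w))‖ := by
    rw [intervalIntegral.integral_of_le (by linarith), ← integral_Icc_eq_integral_Ioc]
    simp_rw [hfac]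
    rw [integral_const_mul]
  refine ⟨?_, ?_, ?_⟩
  · simp_rw [hfac]
    exact i1.const_mul _
  · rw [hI]
    -- the lower bound
    set Q : ℝ := 1000 / (1 - ‖c‖ * M) with hQ
    have hQ0 : 0 < Q := by positivity
    have h2 : ∀ u, (2 : ℝ) ≤ Q * ‖Complex.exp (c * (bl b u - w))‖ +
        Q⁻¹ * ‖Complex.exp (-c * (bl b u - w))‖ := by
      intro u
      have e1 : ‖Complex.exp (-c * (bl b u - w))‖ = ‖Complex.exp (c * (bl b u - w))‖⁻¹ := by
        rw [neg_mul, Complex.exp_neg, norm_inv]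
      rw [e1, ← mul_inv]
      have h3 : 0 < Q * ‖Complex.exp (c * (bl b u - w))‖ :=
        mul_pos hQ0 (norm_pos_iff.2 (Complex.exp_ne_zero _))
      have h4 : (Q * ‖Complex.exp (c * (bl b u - w))‖) *
          (Q * ‖Complex.exp (c * (bl b u - w))‖)⁻¹ = 1 := mul_inv_cancel₀ h3.ne'
      have h5 : 0 < (Q * ‖Complex.exp (c * (bl b u - w))‖)⁻¹ := inv_pos.2 h3
      nlinarith [sq_nonneg (Q * ‖Complex.exp (c * (bl b u - w))‖ -
        (Q * ‖Complex.exp (c * (bl b u - w))‖)⁻¹)]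
    have h3 : ∫ _u in S, (2 : ℝ) ≤ ∫ u in S, (Q * ‖Complex.exp (c * (bl b u - w))‖ +
        Q⁻¹ * ‖Complex.exp (-c * (bl b u - w))‖) := by
      refine integral_mono ?_ ((i1.const_mul Q).add (j1.const_mul Q⁻¹)) h2
      exact continuous_const.continuousOn.integrableOn_compact isCompact_Icc
    rw [integral_add (i1.const_mul Q) (j1.const_mul Q⁻¹), integral_const_mul,
      integral_const_mul] at h3
    have h4 : ∫ _u in S, (2 : ℝ) = 2 * h := by
      rw [setIntegral_const, hS, Real.volume_real_Icc_of_le (by linarith), smul_eq_mul]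
      ring
    rw [h4] at h3
    have h5 : Q⁻¹ * ∫ u in S, ‖Complex.exp (-c * (bl b u - w))‖ ≤ h := by
      calc _ ≤ Q⁻¹ * (1000 * h / (1 - ‖c‖ * M)) := mul_le_mul_of_nonneg_left j2 (by positivity)
        _ = h := by
          rw [hQ]
          field_simp
    have h6 : h ≤ Q * ∫ u in S, ‖Complex.exp (c * (bl b u - w))‖ := by linarith
    have h7 : (1 - ‖c‖ * M) / 1000 * h ≤ ∫ u in S, ‖Complex.exp (c * (bl b u - w))‖ := by
      have h8 : (1 - ‖c‖ * M) / 1000 * Q = 1 := by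
        rw [hQ]
        field_simp
      calc (1 - ‖c‖ * M) / 1000 * h ≤ (1 - ‖c‖ * M) / 1000 *
            (Q * ∫ u in S, ‖Complex.exp (c * (bl b u - w))‖) :=
            mul_le_mul_of_nonneg_left h6 (by positivity)
        _ = ((1 - ‖c‖ * M) / 1000 * Q) * ∫ u in S, ‖Complex.exp (c * (bl b u - w))‖ := by ring
        _ = _ := by rw [h8, one_mul]
    calc _ = ‖Complex.exp (c * w)‖ * ((1 - ‖c‖ * M) / 1000 * h) := by ring
      _ ≤ _ := mul_le_mul_of_nonneg_left h7 hE.le
  · rw [hI]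
    calc _ ≤ ‖Complex.exp (c * w)‖ * (1000 * h / (1 - ‖c‖ * M)) :=
          mul_le_mul_of_nonneg_left i2 hE.le
      _ = _ := by ring

/-- the logarithm is analytic -/
lemma differentiableOn_FF (hb : ∀ x, ‖b x‖ ≤ M / (x.2 + 1 : ℕ)) :
    DifferentiableOn ℂ (FF b) {s : ℂ | 1 < s.re} := by
  intro s hs
  have hs' : 1 < s.re := hs
  set ρ : ℝ := (1 + s.re) / 2 with hρ
  have hρ1 : 1 < ρ := by rw [hρ]; linarith
  have hρ2 : ρ < s.re := by rw [hρ]; linarith
  have hopen : IsOpen {s : ℂ | ρ < s.re} := isOpen_lt continuous_const Complex.continuous_re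
  have h1 : DifferentiableOn ℂ (FF b) {s : ℂ | ρ < s.re} := by
    unfold FF
    refine differentiableOn_tsum_of_summable_norm ((summable_wt hρ1).mul_left M) ?_ hopen ?_
    · intro x
      have hne : ((x.1 : ℕ) : ℂ) ≠ 0 := by exact_mod_cast x.1.2.ne_zero
      unfold tm
      refine DifferentiableOn.const_mul (DifferentiableOn.pow ?_ _) _
      exact (differentiable_id.neg.const_cpow (Or.inl hne)).differentiableOn
    · intro x z hz
      have hz' : ρ < z.re := hz
      rw [norm_tm]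
      calc ‖b x‖ * wt z.re x ≤ (M / (x.2 + 1 : ℕ)) * wt ρ x :=
            mul_le_mul (hb x) (wt_anti' hz'.le x) (wt_nonneg _ _)
              (div_nonneg (M_nonneg hb) (by positivity))
        _ = _ := by ring
  exact ((h1 s hρ2).differentiableAt (hopen.mem_nhds hρ2)).differentiableWithinAt

end

end Pool.Agent.TH339.MP
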