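import Pool.Agent.TH339.MP.U3

/-!
# Euler factors given by polynomials
-/

set_option autoImplicit false

namespace Pool.Agent.TH339.MP

open Complex MeasureTheory Finset Filter Topology NumberField IsDedekindDomain Polynomial

lemma list_alpha (N : ℕ) : ∀ l : List ℂ, l.length ≤ N →
    ∃ α : Fin N → ℂ, (∀ j, α j = 0 ∨ ∃ z ∈ l, α j = z⁻¹) ∧
      ∀ x : ℂ, (l.map fun z => 1 - z⁻¹ * x).prod = ∏ j, (1 - α j * x) := by
  induction N with
  | zero =>
    intro l hl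
    have : l = [] := List.length_eq_zero_iff.1 (Nat.le_zero.1 hl)
    subst this
    exact ⟨fun _ => 0, fun j => Or.inl rfl, fun x => by simp⟩
  | succ N ih =>
    intro l hl
    cases l with
    | nil => exact ⟨fun _ => 0, fun j => Or.inl rfl, fun x => by simp⟩
    | cons a l =>
      obtain ⟨α, h1, h2⟩ := ih l (by simpa using hl)
      refine ⟨Fin.cons a⁻¹ α, ?_, ?_⟩
      · intro j
        refine Fin.cases ?_ (fun j => ?_) j
        · exact Or.inr ⟨a, by simp, by simp⟩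
        · rcases h1 j with h | ⟨z, hz, h⟩
          · exact Or.inl (by simpa using h)
          · exact Or.inr ⟨z, List.mem_cons_of_mem _ hz, by simpa using h⟩
      · intro x
        rw [List.map_cons, List.prod_cons, h2, Fin.prod_univ_succ]
        simp

lemma poly_alpha {N : ℕ} (P : ℂ[X]) (h0 : P.coeff 0 = 1) (hN : P.natDegree ≤ N) {R : ℝ}
    (hR : 0 < R) (hroot : ∀ z : ℂ, P.IsRoot z → R⁻¹ ≤ ‖z‖) :
    ∃ α : Fin N → ℂ, (∀ j, ‖α j‖ ≤ R) ∧ ∀ x : ℂ, P.eval x = ∏ j, (1 - α j * x) := by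
  have hP0 : P ≠ 0 := by
    rintro rfl
    simp at h0
  obtain ⟨α, h1, h2⟩ := list_alpha N P.roots.toList (by
    rw [Multiset.length_toList]
    exact (Polynomial.card_roots' P).trans hN)
  refine ⟨α, ?_, ?_⟩
  · intro j
    rcases h1 j with h | ⟨z, hz, h⟩
    · rw [h, norm_zero]
      exact hR.le
    · rw [Multiset.mem_toList, Polynomial.mem_roots hP0] at hz
      rw [h, norm_inv]
      have h3 := hroot z hz
      exact inv_le_of_inv_le₀ hR h3
  · intro x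
    rw [← h2 x]
    have hne : ∀ z ∈ P.roots, z ≠ 0 := by
      intro z hz h3
      rw [Polynomial.mem_roots hP0, h3, Polynomial.IsRoot.def, ← Polynomial.coeff_zero_eq_eval_zero,
        h0] at hz
      exact one_ne_zero hz
    have h4 : P = C P.leadingCoeff * (Multiset.map (fun a => X - C a) P.roots).prod :=
      (IsAlgClosed.splits P).eq_prod_roots
    have h5 : ∀ y : ℂ, P.eval y = P.leadingCoeff * (P.roots.map fun a => y - a).prod := by
      intro y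
      conv_lhs => rw [h4]
      rw [Polynomial.eval_mul, Polynomial.eval_C, Polynomial.eval_multiset_prod, Multiset.map_map]
      simp
    have h6 : (P.roots.map fun a => x - a).prod =
        (P.roots.map fun a => (0 : ℂ) - a).prod * (P.roots.map fun z => 1 - z⁻¹ * x).prod := by
      rw [← Multiset.prod_map_mul]
      congr 1
      refine Multiset.map_congr rfl fun z hz => ?_
      have := hne z hz
      field_simp
      ring
    have h7 : P.eval 0 = 1 := by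
      rw [← Polynomial.coeff_zero_eq_eval_zero, h0]
    rw [h5, h6, ← mul_assoc, ← h5 0, h7, one_mul]
    conv_lhs => rw [← Multiset.coe_toList P.roots]
    rw [Multiset.map_coe, Multiset.prod_coe]

section
variable {K : Type} [Field K] [NumberField K] {N : ℕ}

/-- the normalised parameters -/
lemma exists_beta_poly (w : ℝ) (P : HeightOneSpectrum (𝓞 K) → ℂ[X])
    (h0 : ∀ v, (P v).coeff 0 = 1) (hN : ∀ v, (P v).natDegree ≤ N)
    (hroot : ∀ v, ∀ z : ℂ, (P v).IsRoot z → ((nm v : ℕ) : ℝ) ^ (-(w / 2)) ≤ ‖z‖) :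
    ∃ β : HeightOneSpectrum (𝓞 K) → Fin N → ℂ, (∀ v j, ‖β v j‖ ≤ 1) ∧
      ∀ s : ℂ, ∀ v, (P v).eval (((nm v : ℕ) : ℂ) ^ (-s)) =
        ∏ j, (1 - β v j * ((nm v : ℕ) : ℂ) ^ (-(s - (w / 2 : ℝ)))) := by
  have hpos : ∀ v : HeightOneSpectrum (𝓞 K), (0 : ℝ) < ((nm v : ℕ) : ℝ) := by
    intro v
    rw [nm_eq, Nat.cast_pow]
    exact pow_pos (prime_pos _) _
  have hRpos : ∀ v : HeightOneSpectrum (𝓞 K), (0 : ℝ) < ((nm v : ℕ) : ℝ) ^ (w / 2) := fun v =>
    Real.rpow_pos_of_pos (hpos v) _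
  have h1 : ∀ v, ∃ α : Fin N → ℂ, (∀ j, ‖α j‖ ≤ ((nm v : ℕ) : ℝ) ^ (w / 2)) ∧
      ∀ x : ℂ, (P v).eval x = ∏ j, (1 - α j * x) := by
    intro v
    refine poly_alpha (P v) (h0 v) (hN v) (hRpos v) fun z hz => ?_
    rw [← Real.rpow_neg (hpos v).le]
    exact hroot v z hz
  choose α hα1 hα2 using h1
  refine ⟨fun v j => α v j * (((((nm v : ℕ) : ℝ) ^ (w / 2))⁻¹ : ℝ) : ℂ), ?_, ?_⟩
  · intro v j
    rw [norm_mul, Complex.norm_real, norm_inv, Real.norm_of_nonneg (hRpos v).le]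
    rw [← div_eq_mul_inv, div_le_one (hRpos v)]
    exact hα1 v j
  · intro s v
    rw [hα2]
    refine Finset.prod_congr rfl fun j _ => ?_
    have hne : ((nm v : ℕ) : ℂ) ≠ 0 := by
      have := (hpos v).ne'
      exact_mod_cast this
    have h3 : ((nm v : ℕ) : ℂ) ^ (-(s - (w / 2 : ℝ))) =
        ((((nm v : ℕ) : ℝ) ^ (w / 2) : ℝ) : ℂ) * ((nm v : ℕ) : ℂ) ^ (-s) := by
      rw [show -(s - ((w / 2 : ℝ) : ℂ)) = ((w / 2 : ℝ) : ℂ) + -s by ring, cpow_add _ _ hne]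
      congr 1
      rw [Complex.ofReal_cpow (hpos v).le]
      push_cast
      rfl
    rw [h3]
    have h4 : (((((nm v : ℕ) : ℝ) ^ (w / 2))⁻¹ : ℝ) : ℂ) *
        ((((nm v : ℕ) : ℝ) ^ (w / 2) : ℝ) : ℂ) = 1 := by
      rw [← Complex.ofReal_mul, inv_mul_cancel₀ (hRpos v).ne', Complex.ofReal_one]
    calc 1 - α v j * ((nm v : ℕ) : ℂ) ^ (-s) =
          1 - α v j * ((((((nm v : ℕ) : ℝ) ^ (w / 2))⁻¹ : ℝ) : ℂ) *
            ((((nm v : ℕ) : ℝ) ^ (w / 2) : ℝ) : ℂ)) * ((nm v : ℕ) : ℂ) ^ (-s) := by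
          rw [h4, mul_one]
      _ = _ := by ring

lemma hasProd_poly (w : ℝ) (P : HeightOneSpectrum (𝓞 K) → ℂ[X])
    (h0 : ∀ v, (P v).coeff 0 = 1) (hN : ∀ v, (P v).natDegree ≤ N)
    (hroot : ∀ v, ∀ z : ℂ, (P v).IsRoot z → ((nm v : ℕ) : ℝ) ^ (-(w / 2)) ≤ ‖z‖) :
    ∃ b : PP → ℂ, (∀ x, ‖b x‖ ≤ ((Module.finrank ℚ K : ℝ) * N) / (x.2 + 1 : ℕ)) ∧
      ∀ s : ℂ, 1 + w / 2 < s.re →
        HasProd (fun v => ((P v).eval (((nm v : ℕ) : ℂ) ^ (-s)))⁻¹)
          (Complex.exp (FF b (s - (w / 2 : ℝ)))) := by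
  obtain ⟨β, h1, h2⟩ := exists_beta_poly w P h0 hN hroot
  refine ⟨bb β, norm_bb h1, fun s hs => ?_⟩
  have hre : 1 < (s - (w / 2 : ℝ)).re := by
    rw [Complex.sub_re, Complex.ofReal_re]
    linarith
  have h3 := hasProd_L h1 hre
  convert h3 using 1
  funext v
  rw [h2 s v, Finset.prod_inv_distrib]

end

end Pool.Agent.TH339.MP
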