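import Mathlib

/-!
# The group of completely multiplicative functions of absolute value one
-/

set_option autoImplicit false

namespace Pool.Agent.TH339.MP

open MeasureTheory

/-- The compact group of the completely multiplicative functions `ω` with `|ω(n)| = 1`, given by their
values at the primes: the product of circles, one for each prime. -/
abbrev Om : Type := Nat.Primes → Circle

noncomputable instance : MeasurableSpace (Nat.Primes → Circle) := borel _

instance : BorelSpace (Nat.Primes → Circle) := ⟨rfl⟩

/-- The Haar probability measure: the values at the primes are independent and uniformly distributed
on the circle. -/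
noncomputable def PM : Measure Om := Measure.haarMeasure ⊤

open Classical in
/-- The value `ω(n) = ∏ ω(p)^{v_p(n)}`. -/
noncomputable def val (ω : Om) (n : ℕ) : ℂ :=
  ∏ p ∈ n.primeFactors, if h : p.Prime then
    ((ω (⟨p, h⟩ : Nat.Primes) : Circle) : ℂ) ^ n.factorization p else 1

end Pool.Agent.TH339.MP
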