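import Pool.Agent.TH339.MP.U4
import Pool.Agent.TH339.MP.V0

/-!
# The flow `p^{-iτ}` on the infinite torus is equidistributed, uniformly in the starting point
-/

set_option autoImplicit false

namespace Pool.Agent.TH339.MP

open Complex MeasureTheory Finset Filter Topology
open scoped ComplexConjugate

instance : IsProbabilityMeasure PM := ⟨by
  have := Measure.haarMeasure_self (K₀ := (⊤ : TopologicalSpace.PositiveCompacts Om))
  simpa [PM] using this⟩

instance : PM.IsMulLeftInvariant := by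
  unfold PM
  infer_instance

/-- the flow -/
noncomputable def fl (τ : ℝ) : Om := fun p => Circle.exp (-(τ * Real.log (p : ℕ)))

lemma fl_add (τ t : ℝ) : fl (τ + t) = fl τ * fl t := by
  funext p
  rw [Pi.mul_apply, fl, fl, fl, ← Circle.exp_add]
  congr 1
  ring

lemma fl_zero : fl 0 = 1 := by
  funext p
  simp [fl]

lemma continuous_fl : Continuous fl := by
  refine continuous_pi fun p => ?_
  exact Circle.exp.continuous.comp ((continuous_id.mul continuous_const).neg)

/-- the characters -/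
noncomputable def chc (m : Nat.Primes →₀ ℤ) : Om →* Circle where
  toFun ω := m.prod fun p k => ω p ^ k
  map_one' := by simp [Finsupp.prod]
  map_mul' ω ω' := by
    simp only [Finsupp.prod, Pi.mul_apply, mul_zpow, Finset.prod_mul_distrib]

lemma continuous_chc (m : Nat.Primes →₀ ℤ) : Continuous (chc m) := by
  change Continuous fun ω : Om => m.prod fun p k => ω p ^ k
  unfold Finsupp.prod
  exact continuous_finsetProd _ fun p _ => (continuous_apply p).zpow _

lemma chc_add (m n : Nat.Primes →₀ ℤ) (ω : Om) : chc (m + n) ω = chc m ω * chc n ω := by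
  change (m + n).prod (fun p k => ω p ^ k) = _
  rw [Finsupp.prod_add_index' (fun p => zpow_zero _) (fun p k l => zpow_add _ _ _)]
  rfl

lemma chc_zero (ω : Om) : chc 0 ω = 1 := by
  change (0 : Nat.Primes →₀ ℤ).prod (fun p k => ω p ^ k) = 1
  simp

lemma chc_neg (m : Nat.Primes →₀ ℤ) (ω : Om) : chc (-m) ω = (chc m ω)⁻¹ := by
  have h := chc_add (-m) m ω
  rw [neg_add_cancel, chc_zero] at h
  exact eq_inv_of_mul_eq_one_left h.symm

lemma chc_single (p : Nat.Primes) (k : ℤ) (ω : Om) : chc (Finsupp.single p k) ω = ω p ^ k := by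
  change (Finsupp.single p k).prod (fun p k => ω p ^ k) = _
  rw [Finsupp.prod_single_index (zpow_zero _)]

/-- the characters as continuous functions -/
noncomputable def ch (m : Nat.Primes →₀ ℤ) : C(Om, ℂ) :=
  ⟨fun ω => ((chc m ω : Circle) : ℂ), continuous_subtype_val.comp (continuous_chc m)⟩

lemma ch_apply (m : Nat.Primes →₀ ℤ) (ω : Om) : ch m ω = ((chc m ω : Circle) : ℂ) := rfl

/-- the frequency -/
noncomputable def lam (m : Nat.Primes →₀ ℤ) : ℝ := -∑ p ∈ m.support, (m p : ℝ) * Real.log (p : ℕ)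

lemma circ_prod (s : Finset Nat.Primes) (f : Nat.Primes → ℝ) :
    ∏ p ∈ s, Circle.exp (f p) = Circle.exp (∑ p ∈ s, f p) := by
  classical
  induction s using Finset.induction_on with
  | empty => simp
  | insert p s hp ih => rw [Finset.prod_insert hp, Finset.sum_insert hp, ih, Circle.exp_add]

lemma ch_fl (m : Nat.Primes →₀ ℤ) (τ : ℝ) : ch m (fl τ) = ee (lam m) τ := by
  rw [ch_apply]
  change (((m.prod fun p k => fl τ p ^ k : Circle)) : ℂ) = _
  unfold Finsupp.prod
  have h1 : ∀ p ∈ m.support, fl τ p ^ m p = Circle.exp (-(m p * (τ * Real.log (p : ℕ)))) := by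
    intro p _
    unfold fl
    rw [← Circle.exp_zsmul]
    congr 1
    simp
  rw [Finset.prod_congr rfl h1, circ_prod]
  rw [Circle.coe_exp, ee, lam]
  congr 2
  rw [Finset.sum_neg_distrib]
  push_cast
  rw [neg_mul, Finset.sum_mul]
  congr 1
  exact Finset.sum_congr rfl fun p _ => by ring

/-- unique factorisation -/
lemma lam_ne_zero {m : Nat.Primes →₀ ℤ} (hm : m ≠ 0) : lam m ≠ 0 := by
  classical
  intro h0
  apply hm
  set a : ℕ := ∏ p ∈ m.support, (p : ℕ) ^ (m p).toNat with ha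
  set c : ℕ := ∏ p ∈ m.support, (p : ℕ) ^ (-m p).toNat with hc
  have hlog : ∀ f : Nat.Primes → ℕ, Real.log ((∏ p ∈ m.support, (p : ℕ) ^ f p : ℕ) : ℝ) =
      ∑ p ∈ m.support, (f p : ℝ) * Real.log (p : ℕ) := by
    intro f
    rw [Nat.cast_prod, Real.log_prod]
    · refine Finset.sum_congr rfl fun p _ => ?_
      rw [Nat.cast_pow, Real.log_pow]
    · intro p _
      have := p.2.pos
      positivity
  have h1 : Real.log (a : ℝ) = Real.log (c : ℝ) := by
    rw [ha, hc, hlog, hlog]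
    unfold lam at h0
    have h2 : ∑ p ∈ m.support, (m p : ℝ) * Real.log (p : ℕ) = 0 := by linarith
    rw [← sub_eq_zero, ← Finset.sum_sub_distrib, ← h2]
    refine Finset.sum_congr rfl fun p _ => ?_
    rw [← sub_mul]
    congr 1
    have h3 : ((m p).toNat : ℤ) - ((-m p).toNat : ℤ) = m p := by omega
    exact_mod_cast congrArg (fun z : ℤ => (z : ℝ)) h3
  have hpos : ∀ f : Nat.Primes → ℕ, 0 < ∏ p ∈ m.support, (p : ℕ) ^ f p := fun f =>
    Finset.prod_pos fun p _ => pow_pos p.2.pos _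
  have hac : a = c := by
    have h2 := Real.log_injOn_pos (by
      rw [Set.mem_Ioi]
      exact_mod_cast hpos _) (by
      rw [Set.mem_Ioi]
      exact_mod_cast hpos _) h1
    exact_mod_cast h2
  have hfac : ∀ (f : Nat.Primes → ℕ) (q : Nat.Primes), q ∈ m.support →
      (∏ p ∈ m.support, (p : ℕ) ^ f p).factorization (q : ℕ) = f q := by
    intro f q hq
    rw [Nat.factorization_prod fun p _ => (pow_pos p.2.pos _).ne']
    rw [Finsupp.finsetSum_apply]
    rw [Finset.sum_eq_single q]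
    · rw [Nat.factorization_pow, Finsupp.smul_apply, q.2.factorization_self, smul_eq_mul, mul_one]
    · intro p _ hpq
      rw [Nat.factorization_pow, Finsupp.smul_apply, p.2.factorization, Finsupp.single_apply,
        if_neg, smul_zero]
      intro h
      exact hpq (Subtype.ext h)
    · intro h
      exact absurd hq h
  ext q
  by_cases hq : q ∈ m.support
  · have h2 := hfac (fun p => (m p).toNat) q hq
    have h3 := hfac (fun p => (-m p).toNat) q hq
    have h4 : (m q).toNat = (-m q).toNat := by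
      rw [← h2, ← h3]
      exact congrArg (fun n : ℕ => n.factorization (q : ℕ)) hac
    simp only [Finsupp.coe_zero, Pi.zero_apply]
    omega
  · simpa using hq

/-- uniform equidistribution for the function `F` -/
def Eqd (F : C(Om, ℂ)) : Prop :=
  ∀ ε : ℝ, 0 < ε → ∃ T₀ : ℝ, 0 < T₀ ∧ ∀ T : ℝ, T₀ ≤ T → ∀ a : ℝ,
    ‖(1 / T : ℂ) * (∫ τ in a..(a + T), F (fl τ)) - ∫ ω, F ω ∂PM‖ ≤ ε

lemma int_F (F : C(Om, ℂ)) : Integrable (fun ω => F ω) PM :=
  F.continuous.integrable_of_hasCompactSupport (HasCompactSupport.of_compactSpace _)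

lemma int_line (F : C(Om, ℂ)) (a c : ℝ) : IntervalIntegrable (fun τ => F (fl τ)) volume a c :=
  (F.continuous.comp continuous_fl).intervalIntegrable _ _

lemma norm_F (F : C(Om, ℂ)) (ω : Om) : ‖F ω‖ ≤ ‖F‖ := F.norm_coe_le_norm ω

lemma norm_mean (F : C(Om, ℂ)) {T : ℝ} (hT : 0 < T) (a : ℝ) :
    ‖(1 / T : ℂ) * ∫ τ in a..(a + T), F (fl τ)‖ ≤ ‖F‖ := by
  have h1 : ‖∫ τ in a..(a + T), F (fl τ)‖ ≤ ‖F‖ * |a + T - a| :=
    intervalIntegral.norm_integral_le_of_norm_le_const fun τ _ => norm_F F _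
  rw [add_sub_cancel_left, abs_of_pos hT] at h1
  rw [norm_mul, norm_div, norm_one, Complex.norm_real, Real.norm_of_nonneg hT.le, one_div,
    ← div_eq_inv_mul, div_le_iff₀ hT]
  exact h1

lemma norm_int (F : C(Om, ℂ)) : ‖∫ ω, F ω ∂PM‖ ≤ ‖F‖ := by
  have h1 := norm_integral_le_of_norm_le_const (μ := PM) (f := fun ω => F ω) (C := ‖F‖)
    (Eventually.of_forall fun ω => norm_F F ω)
  simpa using h1

lemma Eqd.add {F G : C(Om, ℂ)} (hF : Eqd F) (hG : Eqd G) : Eqd (F + G) := by
  intro ε hε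
  obtain ⟨T₁, h1, h2⟩ := hF (ε / 2) (by positivity)
  obtain ⟨T₂, h3, h4⟩ := hG (ε / 2) (by positivity)
  refine ⟨max T₁ T₂, lt_max_of_lt_left h1, fun T hT a => ?_⟩
  have h5 := h2 T ((le_max_left _ _).trans hT) a
  have h6 := h4 T ((le_max_right _ _).trans hT) a
  simp only [ContinuousMap.add_apply]
  rw [intervalIntegral.integral_add (int_line F _ _) (int_line G _ _),
    integral_add (int_F F) (int_F G)]
  have e2 : (1 / T : ℂ) * ((∫ τ in a..(a + T), F (fl τ)) + ∫ τ in a..(a + T), G (fl τ)) -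
      (∫ ω, F ω ∂PM + ∫ ω, G ω ∂PM) =
      ((1 / T : ℂ) * (∫ τ in a..(a + T), F (fl τ)) - ∫ ω, F ω ∂PM) +
      ((1 / T : ℂ) * (∫ τ in a..(a + T), G (fl τ)) - ∫ ω, G ω ∂PM) := by ring
  rw [e2]
  refine (norm_add_le _ _).trans ?_
  linarith

lemma Eqd.smul {F : C(Om, ℂ)} (hF : Eqd F) (c : ℂ) : Eqd (c • F) := by
  intro ε hε
  obtain ⟨T₁, h1, h2⟩ := hF (ε / (‖c‖ + 1)) (by positivity)
  refine ⟨T₁, h1, fun T hT a => ?_⟩
  have h5 := h2 T hT a
  simp only [ContinuousMap.smul_apply, smul_eq_mul]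
  rw [intervalIntegral.integral_const_mul, integral_const_mul]
  have e2 : (1 / T : ℂ) * (c * (∫ τ in a..(a + T), F (fl τ))) - c * (∫ ω, F ω ∂PM) =
      c * ((1 / T : ℂ) * (∫ τ in a..(a + T), F (fl τ)) - ∫ ω, F ω ∂PM) := by ring
  rw [e2, norm_mul]
  calc _ ≤ ‖c‖ * (ε / (‖c‖ + 1)) := mul_le_mul_of_nonneg_left h5 (norm_nonneg _)
    _ ≤ ε := by
      rw [← mul_div_assoc, div_le_iff₀ (by positivity)]
      nlinarith [norm_nonneg c]

lemma Eqd.approx {F : C(Om, ℂ)} (h : ∀ ε : ℝ, 0 < ε → ∃ G : C(Om, ℂ), Eqd G ∧ ‖F - G‖ ≤ ε) :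
    Eqd F := by
  intro ε hε
  obtain ⟨G, hG, hFG⟩ := h (ε / 3) (by positivity)
  obtain ⟨T₁, h1, h2⟩ := hG (ε / 3) (by positivity)
  refine ⟨T₁, h1, fun T hT a => ?_⟩
  have hT0 : 0 < T := lt_of_lt_of_le h1 hT
  have h5 := h2 T hT a
  have h6 := norm_mean (F - G) hT0 a
  have h7 := norm_int (F - G)
  simp only [ContinuousMap.sub_apply] at h6 h7
  rw [intervalIntegral.integral_sub (int_line F _ _) (int_line G _ _)] at h6
  rw [integral_sub (int_F F) (int_F G)] at h7
  have e2 : (1 / T : ℂ) * (∫ τ in a..(a + T), F (fl τ)) - ∫ ω, F ω ∂PM =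
      (1 / T : ℂ) * ((∫ τ in a..(a + T), F (fl τ)) - ∫ τ in a..(a + T), G (fl τ)) +
      ((1 / T : ℂ) * (∫ τ in a..(a + T), G (fl τ)) - ∫ ω, G ω ∂PM) -
      (∫ ω, F ω ∂PM - ∫ ω, G ω ∂PM) := by ring
  rw [e2]
  refine (norm_sub_le _ _).trans ?_
  have h8 := norm_add_le ((1 / T : ℂ) * ((∫ τ in a..(a + T), F (fl τ)) -
    ∫ τ in a..(a + T), G (fl τ))) ((1 / T : ℂ) * (∫ τ in a..(a + T), G (fl τ)) - ∫ ω, G ω ∂PM)
  linarith

lemma ch_mul (m : Nat.Primes →₀ ℤ) (ω ω' : Om) : ch m (ω * ω') = ch m ω * ch m ω' := by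
  rw [ch_apply, map_mul, Circle.coe_mul]
  rfl

lemma int_ch {m : Nat.Primes →₀ ℤ} (hm : m ≠ 0) : ∫ ω, ch m ω ∂PM = 0 := by
  have hl := lam_ne_zero hm
  set t : ℝ := Real.pi / lam m with ht
  have h1 := integral_mul_left_eq_self (μ := PM) (fun ω => ch m ω) (fl t)
  simp_rw [ch_mul] at h1
  rw [integral_const_mul, ch_fl] at h1
  have h2 : ee (lam m) t = -1 := by
    unfold ee
    rw [ht, mul_div_cancel₀ _ hl, Complex.exp_pi_mul_I]
  rw [h2] at h1
  have h3 : (2 : ℂ) * ∫ ω, ch m ω ∂PM = 0 := by linear_combination -h1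
  rcases mul_eq_zero.1 h3 with h | h
  · norm_num at h
  · exact h

lemma int_ee_bound {l : ℝ} (hl : l ≠ 0) (a T : ℝ) :
    ‖∫ τ in a..(a + T), ee l τ‖ ≤ 2 / |l| := by
  have h1 : ∫ τ in a..(a + T), ee l τ = ee l (a + T / 2) * cc (T / 2) l := by
    unfold cc
    rw [← intervalIntegral.integral_const_mul]
    have h2 := intervalIntegral.integral_comp_add_right (f := fun τ => ee l τ)
      (a := -(T / 2)) (b := T / 2) (a + T / 2)
    have e1 : -(T / 2) + (a + T / 2) = a := by ring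
    have e2 : T / 2 + (a + T / 2) = a + T := by ring
    rw [e1, e2] at h2
    rw [← h2]
    refine intervalIntegral.integral_congr fun x _ => ?_
    change ee l (x + (a + T / 2)) = ee l (a + T / 2) * ee l x
    rw [ee_add, mul_comm]
  rw [h1, norm_mul, norm_ee, one_mul]
  exact cc_bound2 _ hl

lemma Eqd_ch (m : Nat.Primes →₀ ℤ) : Eqd (ch m) := by
  intro ε hε
  by_cases hm : m = 0
  · refine ⟨1, one_pos, fun T hT a => ?_⟩
    have hT0 : (T : ℂ) ≠ 0 := by
      have : T ≠ 0 := by linarith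
      exact_mod_cast this
    have h1 : ∀ ω, ch m ω = 1 := by
      intro ω
      rw [hm, ch_apply, chc_zero, Circle.coe_one]
    simp_rw [h1]
    simp [hT0, hε.le]
  · have hl := lam_ne_zero hm
    have hl' : 0 < |lam m| := abs_pos.2 hl
    refine ⟨2 / (|lam m| * ε), by positivity, fun T hT a => ?_⟩
    have hT0 : 0 < T := lt_of_lt_of_le (by positivity) hT
    rw [int_ch hm, sub_zero]
    simp_rw [ch_fl]
    rw [norm_mul, norm_div, norm_one, Complex.norm_real, Real.norm_of_nonneg hT0.le]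
    calc 1 / T * ‖∫ τ in a..(a + T), ee (lam m) τ‖ ≤ 1 / T * (2 / |lam m|) :=
          mul_le_mul_of_nonneg_left (int_ee_bound hl _ _) (by positivity)
      _ ≤ ε := by
        rw [div_le_iff₀ (by positivity)] at hT
        rw [one_div, ← div_eq_inv_mul, div_div, div_le_iff₀ (by positivity)]
        linarith

/-- the space of the trigonometric polynomials -/
noncomputable abbrev SP : Submodule ℂ C(Om, ℂ) := Submodule.span ℂ (Set.range ch)

lemma ch_mem (m : Nat.Primes →₀ ℤ) : ch m ∈ SP := Submodule.subset_span ⟨m, rfl⟩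

lemma ch_mul_ch (m n : Nat.Primes →₀ ℤ) : ch m * ch n = ch (m + n) := by
  ext ω
  rw [ContinuousMap.mul_apply, ch_apply, ch_apply, ch_apply, chc_add, Circle.coe_mul]

lemma star_ch (m : Nat.Primes →₀ ℤ) : star (ch m) = ch (-m) := by
  ext ω
  rw [ContinuousMap.star_apply, ch_apply, ch_apply, chc_neg, Circle.coe_inv_eq_conj]
  rfl

lemma SP_mul_ch {F : C(Om, ℂ)} (hF : F ∈ SP) (m : Nat.Primes →₀ ℤ) : F * ch m ∈ SP := by
  induction hF using Submodule.span_induction with
  | mem F h =>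
    obtain ⟨n, rfl⟩ := h
    rw [ch_mul_ch]
    exact ch_mem _
  | zero =>
    rw [zero_mul]
    exact Submodule.zero_mem _
  | add x y hx hy ihx ihy =>
    rw [add_mul]
    exact Submodule.add_mem _ ihx ihy
  | smul c x hx ihx =>
    rw [smul_mul_assoc]
    exact Submodule.smul_mem _ _ ihx

lemma SP_mul {F G : C(Om, ℂ)} (hF : F ∈ SP) (hG : G ∈ SP) : F * G ∈ SP := by
  induction hG using Submodule.span_induction with
  | mem G h =>
    obtain ⟨n, rfl⟩ := h
    exact SP_mul_ch hF n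
  | zero =>
    rw [mul_zero]
    exact Submodule.zero_mem _
  | add x y hx hy ihx ihy =>
    rw [mul_add]
    exact Submodule.add_mem _ ihx ihy
  | smul c x hx ihx =>
    rw [mul_smul_comm]
    exact Submodule.smul_mem _ _ ihx

lemma SP_star {F : C(Om, ℂ)} (hF : F ∈ SP) : star F ∈ SP := by
  induction hF using Submodule.span_induction with
  | mem F h =>
    obtain ⟨n, rfl⟩ := h
    rw [star_ch]
    exact ch_mem _
  | zero =>
    rw [star_zero]
    exact Submodule.zero_mem _
  | add x y hx hy ihx ihy =>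
    rw [star_add]
    exact Submodule.add_mem _ ihx ihy
  | smul c x hx ihx =>
    rw [star_smul]
    exact Submodule.smul_mem _ _ ihx

lemma SP_alg (c : ℂ) : algebraMap ℂ C(Om, ℂ) c ∈ SP := by
  have h1 : algebraMap ℂ C(Om, ℂ) c = c • ch 0 := by
    ext ω
    rw [ContinuousMap.smul_apply, ch_apply, chc_zero, Circle.coe_one]
    simp
  rw [h1]
  exact Submodule.smul_mem _ _ (ch_mem _)

/-- the algebra of the trigonometric polynomials -/
noncomputable def trigA : StarSubalgebra ℂ C(Om, ℂ) where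
  carrier := {F | F ∈ SP}
  mul_mem' := fun hF hG => SP_mul hF hG
  add_mem' := fun hF hG => SP.add_mem hF hG
  algebraMap_mem' := SP_alg
  star_mem' := fun hF => SP_star hF

lemma mem_trigA (F : C(Om, ℂ)) : F ∈ trigA ↔ F ∈ SP := Iff.rfl

lemma trigA_sep : trigA.toSubalgebra.SeparatesPoints := by
  intro ω ω' h
  obtain ⟨p, hp⟩ : ∃ p, ω p ≠ ω' p := by
    by_contra hc
    push Not at hc
    exact h (funext hc)
  refine ⟨fun x => ch (Finsupp.single p 1) x, ⟨ch (Finsupp.single p 1),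
    (mem_trigA _).2 (ch_mem _), rfl⟩, ?_⟩
  simp only
  rw [ch_apply, ch_apply, chc_single, chc_single, zpow_one, zpow_one]
  intro h2
  exact hp (Circle.ext h2)

/-- **Equidistribution** of the flow, uniformly in the starting point. -/
theorem equidistribution (F : C(Om, ℂ)) : Eqd F := by
  have h1 := ContinuousMap.starSubalgebra_topologicalClosure_eq_top_of_separatesPoints trigA
    trigA_sep
  have h2 : F ∈ trigA.topologicalClosure := by
    rw [h1]
    trivial
  refine Eqd.approx fun ε hε => ?_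
  have h3 : F ∈ closure (trigA : Set C(Om, ℂ)) := h2
  rw [Metric.mem_closure_iff] at h3
  obtain ⟨G, hG, hFG⟩ := h3 ε hε
  rw [dist_eq_norm] at hFG
  refine ⟨G, ?_, hFG.le⟩
  have hG' : G ∈ SP := (mem_trigA G).1 (SetLike.mem_coe.1 hG)
  clear hFG hG
  induction hG' using Submodule.span_induction with
  | mem G h =>
    obtain ⟨m, rfl⟩ := h
    exact Eqd_ch m
  | zero =>
    have := (Eqd_ch 0).smul 0
    rwa [zero_smul] at this
  | add x y hx hy ihx ihy => exact ihx.add ihy
  | smul c x hx ihx => exact ihx.smul c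

end Pool.Agent.TH339.MP
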