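import Pool.Agent.TH339.MP.V1

/-!
# Random twists of an Euler product
-/

set_option autoImplicit false

namespace Pool.Agent.TH339.MP

open Complex MeasureTheory Finset Filter Topology
open Pool.Agent.W350.Edge (term ps divSet dimH_divSet)
open scoped ENNReal

lemma norm_circ (z : Circle) : ‖(z : ℂ)‖ = 1 := Circle.norm_coe z

/-- the twisted coefficients -/
noncomputable def tb (b : PP → ℂ) (ω : Om) (x : PP) : ℂ := b x * ((ω x.1 : Circle) : ℂ) ^ (x.2 + 1)

lemma norm_tb (b : PP → ℂ) (ω : Om) (x : PP) : ‖tb b ω x‖ = ‖b x‖ := by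
  unfold tb
  rw [norm_mul, norm_pow, norm_circ, one_pow, mul_one]

lemma tb_one (b : PP → ℂ) : tb b 1 = b := by
  funext x
  simp [tb]

lemma fl_pow (x : PP) (τ : ℝ) : ((fl τ x.1 : Circle) : ℂ) ^ (x.2 + 1) = ee (fr x) τ := by
  unfold fl
  rw [Circle.coe_exp, ← Complex.exp_nat_mul, ee]
  congr 1
  rw [fr]
  push_cast
  ring

lemma tb_mul (b : PP → ℂ) (ω : Om) (τ : ℝ) (x : PP) :
    tb b (ω * fl τ) x = tb b ω x * ee (fr x) τ := by
  unfold tb
  rw [Pi.mul_apply, Circle.coe_mul, mul_pow, fl_pow]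
  ring

/-- the partial sums of the random series -/
noncomputable def GX (b : PP → ℂ) (X : ℕ) (ω : Om) : ℂ := ∑ x ∈ TX X, tb b ω x * (wt 1 x : ℂ)

lemma PS_tb (b : PP → ℂ) (X : ℕ) (ω : Om) (τ : ℝ) : PS (tb b ω) X τ = GX b X (ω * fl τ) := by
  unfold PS GX
  refine Finset.sum_congr rfl fun x _ => ?_
  rw [tb_mul]
  ring

lemma PS_fl (b : PP → ℂ) (X : ℕ) (τ : ℝ) : PS b X τ = GX b X (fl τ) := by
  have := PS_tb b X 1 τ
  rwa [tb_one, one_mul] at this

lemma continuous_tb (b : PP → ℂ) (x : PP) : Continuous fun ω : Om => tb b ω x := by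
  unfold tb
  exact continuous_const.mul ((continuous_subtype_val.comp (continuous_apply x.1)).pow _)

lemma continuous_GX (b : PP → ℂ) (X : ℕ) : Continuous (GX b X) := by
  unfold GX
  exact continuous_finsetSum _ fun x _ => (continuous_tb b x).mul continuous_const

/-- the random variable -/
noncomputable def RR (b : PP → ℂ) (ω : Om) : ℂ := bl (tb b ω) 0

lemma tm_tb (b : PP → ℂ) (ω : Om) (s : ℂ) (τ : ℝ) (x : PP) :
    tm (tb b (ω * fl τ)) s x = tm (tb b ω) (s + τ * I) x := by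
  have hse : ((s.re : ℂ) + s.im * I) = s := re_add_im s
  have hse2 : ((s.re : ℂ) + ((s.im + τ : ℝ) : ℂ) * I) = s + τ * I := by
    conv_rhs => rw [← hse]
    push_cast
    ring
  rw [← hse2]
  conv_lhs => rw [← hse]
  rw [tm_eq, tm_eq, tb_mul, ee_add]
  ring

lemma term_tb (b : PP → ℂ) (ω : Om) (τ : ℝ) (p : ℕ) :
    term (ap (tb b ω)) τ p = term (ap (tb b (ω * fl τ))) 0 p := by
  by_cases hp : p.Prime
  · have h1 := term_eq (tb b ω) 0 τ ⟨p, hp⟩
    have h2 := term_eq (tb b (ω * fl τ)) 0 0 ⟨p, hp⟩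
    rw [neg_zero, zero_mul, Complex.exp_zero, one_mul, add_zero] at h1 h2
    have h3 : (1 : ℂ) + ((0 : ℝ) : ℂ) * I = 1 := by simp
    rw [h3, tm_tb] at h2
    exact h1.trans h2.symm
  · unfold Pool.Agent.W350.Edge.term
    rw [if_neg hp, if_neg hp]

lemma ps_tb (b : PP → ℂ) (ω : Om) (τ : ℝ) :
    ps (ap (tb b ω)) τ = ps (ap (tb b (ω * fl τ))) 0 := by
  funext n
  unfold Pool.Agent.W350.Edge.ps
  exact Finset.sum_congr rfl fun p _ => term_tb b ω τ p

lemma mem_divSet_tb (b : PP → ℂ) (ω : Om) (τ : ℝ) :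
    τ ∈ divSet (ap (tb b ω)) ↔ (0 : ℝ) ∈ divSet (ap (tb b (ω * fl τ))) := by
  unfold Pool.Agent.W350.Edge.divSet
  rw [Set.mem_ofPred_eq, Set.mem_ofPred_eq, ps_tb]

open Classical in
/-- the definition of `bl` in terms of its data -/
noncomputable def blF (g : ℕ → ℂ) (c : ℂ) : ℂ :=
  if h : ∃ l, Tendsto g atTop (𝓝 l) then h.choose + c else 0

lemma bl_eq (b : PP → ℂ) (τ : ℝ) : bl b τ = blF (ps (ap b) τ) (hpart b (1 + τ * I)) := rfl

lemma bl_tb (b : PP → ℂ) (ω : Om) (τ : ℝ) : bl (tb b ω) τ = RR b (ω * fl τ) := by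
  unfold RR
  rw [bl_eq, bl_eq]
  have h1 : hpart (tb b ω) (1 + τ * I) = hpart (tb b (ω * fl τ)) (1 + ((0 : ℝ) : ℂ) * I) := by
    unfold hpart
    refine tsum_congr fun x => ?_
    rw [tm_tb]
    congr 1
    push_cast
    ring
  rw [ps_tb b ω τ, h1]

lemma bl_fl (b : PP → ℂ) (τ : ℝ) : bl b τ = RR b (fl τ) := by
  have := bl_tb b 1 τ
  rwa [tb_one, one_mul] at this

section
variable {b : PP → ℂ} {M : ℝ}

lemma tb_bound (hb : ∀ x, ‖b x‖ ≤ M / (x.2 + 1 : ℕ)) (ω : Om) (x : PP) :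
    ‖tb b ω x‖ ≤ M / (x.2 + 1 : ℕ) := by
  rw [norm_tb]
  exact hb x

lemma continuous_ps (b : PP → ℂ) (n : ℕ) : Continuous fun ω : Om => ps (ap (tb b ω)) 0 n := by
  unfold Pool.Agent.W350.Edge.ps
  refine continuous_finsetSum _ fun p _ => ?_
  unfold Pool.Agent.W350.Edge.term
  split_ifs with hp
  · refine Continuous.mul (Continuous.div_const ?_ _) continuous_const
    unfold ap
    simp only [dif_pos hp]
    exact continuous_tb b _
  · exact continuous_const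

lemma ae_good (hb : ∀ x, ‖b x‖ ≤ M / (x.2 + 1 : ℕ)) :
    ∀ᵐ ω ∂PM, (0 : ℝ) ∉ divSet (ap (tb b ω)) := by
  set D : Set Om := {ω | (0 : ℝ) ∈ divSet (ap (tb b ω))} with hD
  have hDm : MeasurableSet D := by
    have h1 : MeasurableSet {ω : Om | ∃ l, Tendsto (fun n => ps (ap (tb b ω)) 0 n) atTop (𝓝 l)} :=
      measurableSet_exists_tendsto fun n => (continuous_ps b n).measurable
    have h2 : D = {ω : Om | ∃ l, Tendsto (fun n => ps (ap (tb b ω)) 0 n) atTop (𝓝 l)}ᶜ := by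
      ext ω
      rfl
    rw [h2]
    exact h1.compl
  set E : Set (Om × ℝ) := {z | z.1 * fl z.2 ∈ D} with hE
  have hcont : Continuous fun z : Om × ℝ => z.1 * fl z.2 :=
    continuous_fst.mul (continuous_fl.comp continuous_snd)
  have hEm : MeasurableSet E := hcont.measurable hDm
  have h0 : (PM.prod (volume : Measure ℝ)) E = 0 := by
    refine Measure.measure_prod_null_of_ae_null hEm (Eventually.of_forall fun ω => ?_)
    have h1 : ∀ᵐ τ : ℝ, τ ∉ divSet (ap (tb b ω)) := ae_notMem (tb_bound hb ω)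
    have h2 := measure_eq_zero_iff_ae_notMem.2 h1
    refine measure_mono_null ?_ h2
    intro τ hτ
    exact (mem_divSet_tb b ω τ).2 hτ
  have h1 : ∀ᵐ z ∂(PM.prod (volume : Measure ℝ)), z ∉ E := measure_eq_zero_iff_ae_notMem.1 h0
  have h2 : ∀ᵐ z ∂((volume : Measure ℝ).prod PM), z.swap ∉ E := by
    have h3 := Measure.prod_swap (μ := (volume : Measure ℝ)) (ν := PM)
    rw [← h3] at h1
    exact ae_of_ae_map measurable_swap.aemeasurable h1
  have h3 := Measure.ae_ae_of_ae_prod h2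
  obtain ⟨τ, hτ⟩ := h3.exists
  have h4 : PM ((fun ω => fl τ * ω) ⁻¹' D) = 0 := by
    refine measure_eq_zero_iff_ae_notMem.2 ?_
    filter_upwards [hτ] with ω hω
    intro h
    apply hω
    change ω * fl τ ∈ D
    rw [mul_comm]
    exact h
  rw [measure_preimage_mul] at h4
  exact measure_eq_zero_iff_ae_notMem.1 h4

lemma ae_tendsto (hb : ∀ x, ‖b x‖ ≤ M / (x.2 + 1 : ℕ)) :
    ∀ᵐ ω ∂PM, Tendsto (fun X => GX b X ω) atTop (𝓝 (RR b ω)) := by
  filter_upwards [ae_good hb] with ω hω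
  have h1 := PS_tendsto (tb_bound hb ω) hω
  have h2 : ∀ X, PS (tb b ω) X 0 = GX b X ω := by
    intro X
    rw [PS_tb, fl_zero, mul_one]
  simp only [h2] at h1
  exact h1

lemma aemeasurable_RR (hb : ∀ x, ‖b x‖ ≤ M / (x.2 + 1 : ℕ)) : AEMeasurable (RR b) PM :=
  aemeasurable_of_tendsto_metrizable_ae atTop
    (fun X => (continuous_GX b X).aemeasurable) (ae_tendsto hb)

lemma GX_diff (hb : ∀ x, ‖b x‖ ≤ M / (x.2 + 1 : ℕ)) {X Y : ℕ} (hX : 2 ≤ X) (hXY : X ≤ Y) :
    ∫ ω, ‖GX b Y ω - GX b X ω‖ ^ 2 ∂PM ≤ 64800 * M ^ 2 / Real.log X := by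
  set C : ℝ := 64800 * M ^ 2 / Real.log X with hC
  set f : Om → ℝ := fun ω => ‖GX b Y ω - GX b X ω‖ ^ 2 with hf
  have hfc : Continuous f := ((continuous_GX b Y).sub (continuous_GX b X)).norm.pow 2
  set F : C(Om, ℂ) := ⟨fun ω => ((f ω : ℝ) : ℂ), Complex.continuous_ofReal.comp hfc⟩ with hF
  have hFa : ∀ ω, F ω = ((f ω : ℝ) : ℂ) := fun ω => rfl
  refine le_of_forall_pos_le_add fun ε hε => ?_
  obtain ⟨T₀, h1, h2⟩ := equidistribution F ε hε
  set n : ℕ := ⌈T₀⌉₊ + 1 with hn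
  have hn1 : T₀ ≤ n := by
    have := Nat.le_ceil T₀
    rw [hn]
    push_cast
    linarith
  have hn0 : (0 : ℝ) < n := lt_of_lt_of_le h1 hn1
  have h3 := h2 n hn1 0
  simp only [hFa, zero_add] at h3
  rw [integral_complex_ofReal, intervalIntegral.integral_ofReal] at h3
  have h4 : ((1 / (n : ℝ) * (∫ τ in (0 : ℝ)..n, f (fl τ)) - ∫ ω, f ω ∂PM : ℝ) : ℂ) =
      (1 / ((n : ℝ) : ℂ)) * ((∫ τ in (0 : ℝ)..n, f (fl τ) : ℝ) : ℂ) -
        ((∫ ω, f ω ∂PM : ℝ) : ℂ) := by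
    push_cast
    ring
  rw [← h4, Complex.norm_real, Real.norm_eq_abs] at h3
  have h5 : ∫ τ in (0 : ℝ)..n, f (fl τ) ≤ n * C := by
    have h6 : ∀ m : ℕ, ∫ τ in (0 : ℝ)..m, f (fl τ) ≤ m * C := by
      intro m
      induction m with
      | zero => simp
      | succ m ih =>
        have h7 : ∫ τ in (m : ℝ)..(m + 1 : ℕ), f (fl τ) ≤ C := by
          have h8 := PS_diff hb hX hXY (m : ℝ)
          push_cast
          refine le_trans (le_of_eq ?_) h8
          refine intervalIntegral.integral_congr fun τ _ => ?_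
          simp only [hf]
          rw [PS_fl, PS_fl]
        have hi : ∀ a c : ℝ, IntervalIntegrable (fun τ => f (fl τ)) volume a c := fun a c =>
          (hfc.comp continuous_fl).intervalIntegrable _ _
        rw [← intervalIntegral.integral_add_adjacent_intervals (b := (m : ℝ)) (hi _ _) (hi _ _)]
        push_cast at h7 ⊢
        linarith
    exact h6 n
  have h6 : 1 / (n : ℝ) * ∫ τ in (0 : ℝ)..n, f (fl τ) ≤ C := by
    rw [one_div, ← div_eq_inv_mul, div_le_iff₀ hn0]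
    linarith
  have h7 := (abs_le.1 h3).1
  linarith

lemma RR_approx (hb : ∀ x, ‖b x‖ ≤ M / (x.2 + 1 : ℕ)) {X : ℕ} (hX : 2 ≤ X) :
    ∫⁻ ω, ENNReal.ofReal (‖RR b ω - GX b X ω‖ ^ 2) ∂PM ≤
      ENNReal.ofReal (64800 * M ^ 2 / Real.log X) := by
  have h1 : ∫⁻ ω, ENNReal.ofReal (‖RR b ω - GX b X ω‖ ^ 2) ∂PM ≤
      ∫⁻ ω, liminf (fun Y => ENNReal.ofReal (‖GX b Y ω - GX b X ω‖ ^ 2)) atTop ∂PM := by
    refine lintegral_mono_ae ?_
    filter_upwards [ae_tendsto hb] with ω hω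
    have h2 : Tendsto (fun Y => ENNReal.ofReal (‖GX b Y ω - GX b X ω‖ ^ 2)) atTop
        (𝓝 (ENNReal.ofReal (‖RR b ω - GX b X ω‖ ^ 2))) :=
      (ENNReal.continuous_ofReal.tendsto _).comp (((hω.sub_const _).norm).pow 2)
    rw [h2.liminf_eq]
  have hc : ∀ Y, Continuous fun ω => ‖GX b Y ω - GX b X ω‖ ^ 2 := fun Y =>
    ((continuous_GX b Y).sub (continuous_GX b X)).norm.pow 2
  refine h1.trans ((lintegral_liminf_le fun Y => ?_).trans ?_)
  · exact (ENNReal.continuous_ofReal.comp (hc Y)).measurable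
  · refine liminf_le_of_frequently_le' (Eventually.frequently ?_)
    filter_upwards [eventually_ge_atTop X] with Y hY
    rw [← ofReal_integral_eq_lintegral_ofReal]
    · exact ENNReal.ofReal_le_ofReal (GX_diff hb hX hY)
    · exact (hc Y).integrable_of_hasCompactSupport (HasCompactSupport.of_compactSpace _)
    · exact Eventually.of_forall fun ω => by positivity

end

end Pool.Agent.TH339.MP
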