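import Pool.Agent.TH339.MP.V2

/-!
# The limiting distribution of the boundary function
-/

set_option autoImplicit false

namespace Pool.Agent.TH339.MP

open Complex MeasureTheory Finset Filter Topology
open scoped ENNReal

section
variable {J : Type} [Fintype J] {b : J → PP → ℂ} {M : J → ℝ}

/-- uniform convergence of the means of `ψ` along the boundary function -/
def MeanC (b : J → PP → ℂ) (ψ : (J → ℂ) → ℝ) : Prop :=
  ∀ ε : ℝ, 0 < ε → ∃ T₀ : ℝ, 0 < T₀ ∧ ∀ T : ℝ, T₀ ≤ T → ∀ a : ℝ,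
    |(1 / T) * (∫ τ in a..(a + T), ψ fun j => bl (b j) τ) - ∫ ω, ψ (fun j => RR (b j) ω) ∂PM| ≤ ε

lemma aem_B (hb : ∀ j, ∀ x, ‖b j x‖ ≤ M j / (x.2 + 1 : ℕ)) :
    AEMeasurable (fun τ : ℝ => fun j => bl (b j) τ) :=
  aemeasurable_pi_lambda _ fun j => (boundary (hb j)).1

lemma aem_R (hb : ∀ j, ∀ x, ‖b j x‖ ≤ M j / (x.2 + 1 : ℕ)) :
    AEMeasurable (fun ω : Om => fun j => RR (b j) ω) PM :=
  aemeasurable_pi_lambda _ fun j => aemeasurable_RR (hb j)

lemma int_B (hb : ∀ j, ∀ x, ‖b j x‖ ≤ M j / (x.2 + 1 : ℕ)) {ψ : (J → ℂ) → ℝ} (hψ : Continuous ψ)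
    {C : ℝ} (hC : ∀ z, |ψ z| ≤ C) (a c : ℝ) :
    IntervalIntegrable (fun τ => ψ fun j => bl (b j) τ) volume a c := by
  have h1 : AEStronglyMeasurable (fun τ => ψ fun j => bl (b j) τ) volume :=
    (hψ.measurable.comp_aemeasurable (aem_B hb)).aestronglyMeasurable
  rw [intervalIntegrable_iff]
  exact Measure.integrableOn_of_bounded (M := C) (by simp) h1 (Eventually.of_forall fun τ => hC _)

lemma int_R (hb : ∀ j, ∀ x, ‖b j x‖ ≤ M j / (x.2 + 1 : ℕ)) {ψ : (J → ℂ) → ℝ} (hψ : Continuous ψ)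
    {C : ℝ} (hC : ∀ z, |ψ z| ≤ C) : Integrable (fun ω => ψ fun j => RR (b j) ω) PM := by
  have h1 : AEStronglyMeasurable (fun ω => ψ fun j => RR (b j) ω) PM :=
    (hψ.measurable.comp_aemeasurable (aem_R hb)).aestronglyMeasurable
  exact Integrable.of_bound h1 C (Eventually.of_forall fun ω => hC _)

lemma window (b : PP → ℂ) {M : ℝ} (hb : ∀ x, ‖b x‖ ≤ M / (x.2 + 1 : ℕ)) {X : ℕ} (hX : 2 ≤ X)
    (a : ℝ) (n : ℕ) :
    ∫⁻ u in Set.Icc a (a + n), ENNReal.ofReal (‖bl b u - PS b X u‖ ^ 2) ≤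
      n * ENNReal.ofReal (64800 * M ^ 2 / Real.log X) := by
  induction n with
  | zero => simp
  | succ n ih =>
    have h1 : Set.Icc a (a + (n + 1 : ℕ)) ⊆ Set.Icc a (a + n) ∪ Set.Icc (a + n) (a + n + 1) := by
      intro u hu
      rcases le_total u (a + n) with h | h
      · exact Or.inl ⟨hu.1, h⟩
      · refine Or.inr ⟨h, ?_⟩
        have := hu.2
        push_cast at this
        linarith
    refine (lintegral_mono_set h1).trans ((lintegral_union_le _ _ _).trans ?_)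
    refine (add_le_add ih ((boundary hb).2.2 X hX (a + n))).trans (le_of_eq ?_)
    push_cast
    ring

lemma window' (b : PP → ℂ) {M : ℝ} (hb : ∀ x, ‖b x‖ ≤ M / (x.2 + 1 : ℕ)) {X : ℕ} (hX : 2 ≤ X)
    (a : ℝ) {T : ℝ} (hT : 1 ≤ T) :
    IntervalIntegrable (fun u => ‖bl b u - PS b X u‖ ^ 2) volume a (a + T) ∧
    (1 / T) * (∫ u in a..(a + T), ‖bl b u - PS b X u‖ ^ 2) ≤ 129600 * M ^ 2 / Real.log X := by
  have hlog : 0 < Real.log X := Real.log_pos (by exact_mod_cast (by omega : 1 < X))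
  set C : ℝ := 64800 * M ^ 2 / Real.log X with hC
  have hC0 : 0 ≤ C := by positivity
  have hT0 : 0 < T := by linarith
  have h1 : ∫⁻ u in Set.Icc a (a + T), ENNReal.ofReal (‖bl b u - PS b X u‖ ^ 2) ≤
      ENNReal.ofReal (2 * T * C) := by
    have h2 : Set.Icc a (a + T) ⊆ Set.Icc a (a + ⌈T⌉₊) :=
      Set.Icc_subset_Icc_right (by linarith [Nat.le_ceil T])
    refine (lintegral_mono_set h2).trans ((window b hb hX a ⌈T⌉₊).trans ?_)
    rw [← ENNReal.ofReal_natCast, ← ENNReal.ofReal_mul (Nat.cast_nonneg _)]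
    refine ENNReal.ofReal_le_ofReal (mul_le_mul_of_nonneg_right ?_ hC0)
    have := Nat.ceil_lt_add_one hT0.le
    linarith
  have hm : AEStronglyMeasurable (fun u => ‖bl b u - PS b X u‖ ^ 2)
      (volume.restrict (Set.Icc a (a + T))) := by
    have h3 : AEMeasurable (fun u => bl b u - PS b X u) :=
      (boundary hb).1.sub (continuous_PS b X).aemeasurable
    exact ((h3.norm.pow_const 2).aestronglyMeasurable).restrict
  have hint : IntegrableOn (fun u => ‖bl b u - PS b X u‖ ^ 2) (Set.Icc a (a + T)) := by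
    refine ⟨hm, ?_⟩
    rw [hasFiniteIntegral_iff_ofReal (Eventually.of_forall fun u => by positivity)]
    exact lt_of_le_of_lt h1 ENNReal.ofReal_lt_top
  refine ⟨?_, ?_⟩
  · rw [intervalIntegrable_iff_integrableOn_Icc_of_le (by linarith)]
    exact hint
  · rw [intervalIntegral.integral_of_le (by linarith), ← integral_Icc_eq_integral_Ioc]
    have h4 := ofReal_integral_eq_lintegral_ofReal hint
      (Eventually.of_forall fun u => by positivity)
    rw [← h4] at h1
    have h5 := (ENNReal.ofReal_le_ofReal_iff (by positivity)).1 h1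
    rw [one_div, ← div_eq_inv_mul, div_le_iff₀ hT0]
    refine h5.trans (le_of_eq ?_)
    rw [hC]
    ring

lemma random' (b : PP → ℂ) {M : ℝ} (hb : ∀ x, ‖b x‖ ≤ M / (x.2 + 1 : ℕ)) {X : ℕ} (hX : 2 ≤ X) :
    Integrable (fun ω => ‖RR b ω - GX b X ω‖ ^ 2) PM ∧
    ∫ ω, ‖RR b ω - GX b X ω‖ ^ 2 ∂PM ≤ 129600 * M ^ 2 / Real.log X := by
  have hlog : 0 < Real.log X := Real.log_pos (by exact_mod_cast (by omega : 1 < X))
  have h1 := RR_approx hb hX
  have hm : AEStronglyMeasurable (fun ω => ‖RR b ω - GX b X ω‖ ^ 2) PM := by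
    have h3 : AEMeasurable (fun ω => RR b ω - GX b X ω) PM :=
      (aemeasurable_RR hb).sub (continuous_GX b X).aemeasurable
    exact (h3.norm.pow_const 2).aestronglyMeasurable
  have hint : Integrable (fun ω => ‖RR b ω - GX b X ω‖ ^ 2) PM := by
    refine ⟨hm, ?_⟩
    rw [hasFiniteIntegral_iff_ofReal (Eventually.of_forall fun u => by positivity)]
    exact lt_of_le_of_lt h1 ENNReal.ofReal_lt_top
  refine ⟨hint, ?_⟩
  have h4 := ofReal_integral_eq_lintegral_ofReal hint (Eventually.of_forall fun u => by positivity)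
  rw [← h4] at h1
  have h5 := (ENNReal.ofReal_le_ofReal_iff (by positivity)).1 h1
  refine h5.trans ?_
  refine div_le_div_of_nonneg_right ?_ hlog.le
  nlinarith [sq_nonneg M]

/-- the means for functions with a modulus of continuity in the mean square -/
lemma mean_mod (hb : ∀ j, ∀ x, ‖b j x‖ ≤ M j / (x.2 + 1 : ℕ)) {ψ : (J → ℂ) → ℝ}
    (hψ : Continuous ψ) {C : ℝ} (hC : ∀ z, |ψ z| ≤ C)
    (hmod : ∀ ε : ℝ, 0 < ε → ∃ K : ℝ, 0 ≤ K ∧ ∀ z w, |ψ z - ψ w| ≤ ε + K * ∑ j, ‖z j - w j‖ ^ 2) :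
    MeanC b ψ := by
  intro ε hε
  obtain ⟨K, hK, hmodK⟩ := hmod (ε / 8) (by positivity)
  set D : ℝ := ∑ j, 129600 * M j ^ 2 with hD
  have hD0 : 0 ≤ D := Finset.sum_nonneg fun j _ => by positivity
  -- the choice of `X`
  obtain ⟨X, hX2, hX⟩ : ∃ X : ℕ, 2 ≤ X ∧ K * (D / Real.log X) ≤ ε / 8 := by
    have h1 : Tendsto (fun X : ℕ => K * (D / Real.log X)) atTop (𝓝 (K * 0)) := by
      refine Tendsto.const_mul K ?_
      exact (Real.tendsto_log_atTop.comp tendsto_natCast_atTop_atTop).const_div_atTop D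
    rw [mul_zero] at h1
    have h2 := (h1.eventually (gt_mem_nhds (show (0 : ℝ) < ε / 8 by positivity))).and
      (eventually_ge_atTop 2)
    obtain ⟨X, h3, h4⟩ := h2.exists
    exact ⟨X, h4, h3.le⟩
  set f : Om → ℝ := fun ω => ψ fun j => GX (b j) X ω with hf
  have hfc : Continuous f := hψ.comp (continuous_pi fun j => continuous_GX (b j) X)
  set F : C(Om, ℂ) := ⟨fun ω => ((f ω : ℝ) : ℂ), Complex.continuous_ofReal.comp hfc⟩ with hF
  have hFa : ∀ ω, F ω = ((f ω : ℝ) : ℂ) := fun ω => rfl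
  obtain ⟨T₀, h1, h2⟩ := equidistribution F (ε / 8) (by positivity)
  refine ⟨max T₀ 1, by positivity, fun T hT a => ?_⟩
  have hT1 : 1 ≤ T := (le_max_right _ _).trans hT
  have hT0 : 0 < T := by linarith
  have h3 := h2 T ((le_max_left _ _).trans hT) a
  simp only [hFa] at h3
  rw [integral_complex_ofReal, intervalIntegral.integral_ofReal] at h3
  have h4 : ((1 / T * (∫ τ in a..(a + T), f (fl τ)) - ∫ ω, f ω ∂PM : ℝ) : ℂ) =
      (1 / (T : ℂ)) * ((∫ τ in a..(a + T), f (fl τ) : ℝ) : ℂ) - ((∫ ω, f ω ∂PM : ℝ) : ℂ) := by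
    push_cast
    ring
  rw [← h4, Complex.norm_real, Real.norm_eq_abs] at h3
  -- the deterministic side
  have i1 : IntervalIntegrable (fun τ => f (fl τ)) volume a (a + T) :=
    (hfc.comp continuous_fl).intervalIntegrable _ _
  have i2 := int_B hb hψ hC a (a + T)
  have i4 : IntervalIntegrable (fun τ => ∑ j, ‖bl (b j) τ - PS (b j) X τ‖ ^ 2)
      volume a (a + T) := by
    have h9 := IntervalIntegrable.sum (Finset.univ : Finset J)
      fun j _ => (window' (b j) (hb j) hX2 a hT1).1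
    have e9 : (fun τ => ∑ j, ‖bl (b j) τ - PS (b j) X τ‖ ^ 2) =
        ∑ j, fun τ => ‖bl (b j) τ - PS (b j) X τ‖ ^ 2 := by
      funext τ
      rw [Finset.sum_apply]
    rw [e9]
    exact h9
  have i5 : IntervalIntegrable (fun _ : ℝ => ε / 8) volume a (a + T) :=
    continuous_const.intervalIntegrable _ _
  have i3 : IntervalIntegrable (fun τ => ε / 8 + K * ∑ j, ‖bl (b j) τ - PS (b j) X τ‖ ^ 2)
      volume a (a + T) := i5.add (i4.const_mul K)
  have h5 : |(1 / T) * (∫ τ in a..(a + T), ψ fun j => bl (b j) τ) -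
      (1 / T) * (∫ τ in a..(a + T), f (fl τ))| ≤ ε / 4 := by
    rw [← mul_sub, ← intervalIntegral.integral_sub i2 i1, abs_mul, abs_of_pos (by positivity)]
    have h6 : |∫ τ in a..(a + T), ((ψ fun j => bl (b j) τ) - f (fl τ))| ≤
        ∫ τ in a..(a + T), (ε / 8 + K * ∑ j, ‖bl (b j) τ - PS (b j) X τ‖ ^ 2) := by
      rw [← Real.norm_eq_abs]
      refine intervalIntegral.norm_integral_le_of_norm_le (by linarith) ?_ i3
      refine Eventually.of_forall fun τ _ => ?_
      rw [Real.norm_eq_abs]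
      have h7 := hmodK (fun j => bl (b j) τ) (fun j => GX (b j) X (fl τ))
      simp only [← PS_fl] at h7
      simp only [hf, ← PS_fl]
      exact h7
    have h7 : ∫ τ in a..(a + T), (ε / 8 + K * ∑ j, ‖bl (b j) τ - PS (b j) X τ‖ ^ 2) =
        T * (ε / 8) + K * ∑ j, ∫ τ in a..(a + T), ‖bl (b j) τ - PS (b j) X τ‖ ^ 2 := by
      rw [intervalIntegral.integral_add i5 (i4.const_mul K),
        intervalIntegral.integral_const_mul, intervalIntegral.integral_finsetSum
          fun j _ => (window' (b j) (hb j) hX2 a hT1).1]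
      simp
      ring
    rw [h7] at h6
    calc _ ≤ 1 / T * (T * (ε / 8) + K * ∑ j, ∫ τ in a..(a + T), ‖bl (b j) τ - PS (b j) X τ‖ ^ 2) :=
          mul_le_mul_of_nonneg_left h6 (by positivity)
      _ = ε / 8 + K * ∑ j, (1 / T) * ∫ τ in a..(a + T), ‖bl (b j) τ - PS (b j) X τ‖ ^ 2 := by
        rw [← Finset.mul_sum]
        field_simp
      _ ≤ ε / 8 + K * ∑ j, 129600 * M j ^ 2 / Real.log X := by
        refine add_le_add le_rfl (mul_le_mul_of_nonneg_left ?_ hK)
        exact Finset.sum_le_sum fun j _ => (window' (b j) (hb j) hX2 a hT1).2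
      _ = ε / 8 + K * (D / Real.log X) := by rw [hD, Finset.sum_div]
      _ ≤ ε / 4 := by linarith
  -- the random side
  have j1 : Integrable f PM := hfc.integrable_of_hasCompactSupport (HasCompactSupport.of_compactSpace _)
  have j2 := int_R hb hψ hC
  have j3 : Integrable (fun ω => ε / 8 + K * ∑ j, ‖RR (b j) ω - GX (b j) X ω‖ ^ 2) PM := by
    refine Integrable.add (integrable_const _) (Integrable.const_mul ?_ K)
    exact integrable_finsetSum _ fun j _ => (random' (b j) (hb j) hX2).1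
  have h8 : |∫ ω, ψ (fun j => RR (b j) ω) ∂PM - ∫ ω, f ω ∂PM| ≤ ε / 4 := by
    rw [← integral_sub j2 j1]
    have h6 : |∫ ω, ((ψ fun j => RR (b j) ω) - f ω) ∂PM| ≤
        ∫ ω, (ε / 8 + K * ∑ j, ‖RR (b j) ω - GX (b j) X ω‖ ^ 2) ∂PM := by
      rw [← Real.norm_eq_abs]
      refine norm_integral_le_of_norm_le j3 (Eventually.of_forall fun ω => ?_)
      rw [Real.norm_eq_abs]
      exact hmodK (fun j => RR (b j) ω) (fun j => GX (b j) X ω)
    have h7 : ∫ ω, (ε / 8 + K * ∑ j, ‖RR (b j) ω - GX (b j) X ω‖ ^ 2) ∂PM =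
        ε / 8 + K * ∑ j, ∫ ω, ‖RR (b j) ω - GX (b j) X ω‖ ^ 2 ∂PM := by
      rw [integral_add (integrable_const _) (Integrable.const_mul
        (integrable_finsetSum _ fun j _ => (random' (b j) (hb j) hX2).1) K),
        integral_const_mul, integral_finsetSum _ fun j _ => (random' (b j) (hb j) hX2).1]
      simp
    rw [h7] at h6
    calc _ ≤ _ := h6
      _ ≤ ε / 8 + K * ∑ j, 129600 * M j ^ 2 / Real.log X := by
        refine add_le_add le_rfl (mul_le_mul_of_nonneg_left ?_ hK)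
        exact Finset.sum_le_sum fun j _ => (random' (b j) (hb j) hX2).2
      _ = ε / 8 + K * (D / Real.log X) := by rw [hD, Finset.sum_div]
      _ ≤ ε / 4 := by linarith
  rw [abs_le] at h3 h5 h8 ⊢
  constructor <;> linarith [h3.1, h3.2, h5.1, h5.2, h8.1, h8.2]

end

end Pool.Agent.TH339.MP
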