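import Pool.Agent.TH339.MP.V3

/-!
# The limiting distribution of the boundary function, II
-/

set_option autoImplicit false

namespace Pool.Agent.TH339.MP

open Complex MeasureTheory Finset Filter Topology
open scoped ENNReal

section
variable {J : Type} [Fintype J] {b : J → PP → ℂ} {M : J → ℝ}

lemma norm_sq_le_sum (z : J → ℂ) : ‖z‖ ^ 2 ≤ ∑ j, ‖z j‖ ^ 2 := by
  rcases isEmpty_or_nonempty J with h | h
  · have : z = 0 := Subsingleton.elim _ _
    rw [this, norm_zero]
    simp
  · obtain ⟨j, hj⟩ : ∃ j, ‖z‖ = ‖z j‖ := by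
      obtain ⟨j, _, hj⟩ := Finset.exists_max_image Finset.univ (fun j => ‖z j‖)
        Finset.univ_nonempty
      refine ⟨j, le_antisymm ?_ (norm_le_pi_norm z j)⟩
      exact (pi_norm_le_iff_of_nonneg (norm_nonneg _)).2 fun i => hj i (Finset.mem_univ i)
    rw [hj]
    exact Finset.single_le_sum (f := fun j => ‖z j‖ ^ 2) (fun i _ => by positivity)
      (Finset.mem_univ j)

lemma mean_uc (hb : ∀ j, ∀ x, ‖b j x‖ ≤ M j / (x.2 + 1 : ℕ)) {ψ : (J → ℂ) → ℝ}
    (hψ : UniformContinuous ψ) {C : ℝ} (hC : ∀ z, |ψ z| ≤ C) : MeanC b ψ := by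
  have hC0 : 0 ≤ C := (abs_nonneg _).trans (hC 0)
  refine mean_mod hb hψ.continuous hC fun ε hε => ?_
  obtain ⟨δ, hδ, h1⟩ := Metric.uniformContinuous_iff.1 hψ ε hε
  refine ⟨2 * C / δ ^ 2, by positivity, fun z w => ?_⟩
  have h0 : 0 ≤ ∑ j, ‖z j - w j‖ ^ 2 := Finset.sum_nonneg fun j _ => by positivity
  rcases lt_or_ge (dist z w) δ with h | h
  · have h2 := h1 h
    rw [Real.dist_eq] at h2
    have : 0 ≤ 2 * C / δ ^ 2 * ∑ j, ‖z j - w j‖ ^ 2 := by positivity
    linarith
  · have h2 : |ψ z - ψ w| ≤ 2 * C := by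
      refine (abs_sub _ _).trans ?_
      linarith [hC z, hC w]
    have h3 : δ ^ 2 ≤ ∑ j, ‖z j - w j‖ ^ 2 := by
      rw [dist_eq_norm] at h
      calc δ ^ 2 ≤ ‖z - w‖ ^ 2 := pow_le_pow_left₀ hδ.le h 2
        _ ≤ _ := norm_sq_le_sum (z - w)
    have h4 : 2 * C ≤ 2 * C / δ ^ 2 * ∑ j, ‖z j - w j‖ ^ 2 := by
      rw [div_mul_eq_mul_div, le_div_iff₀ (by positivity)]
      exact mul_le_mul_of_nonneg_left h3 (by positivity)
    linarith

/-- a cut-off function -/
noncomputable def cut (n : ℕ) (z : J → ℂ) : ℝ := max 0 (min 1 ((n : ℝ) + 1 - ‖z‖))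

lemma cut_nonneg (n : ℕ) (z : J → ℂ) : 0 ≤ cut n z := le_max_left _ _

lemma cut_le_one (n : ℕ) (z : J → ℂ) : cut n z ≤ 1 := max_le zero_le_one (min_le_left _ _)

lemma cut_uc (n : ℕ) : UniformContinuous (cut n : (J → ℂ) → ℝ) := by
  have h1 : LipschitzWith 1 fun z : J → ℂ => (n : ℝ) + 1 - ‖z‖ := by
    refine LipschitzWith.of_dist_le_mul fun z w => ?_
    rw [Real.dist_eq, NNReal.coe_one, one_mul, dist_eq_norm]
    have e1 : (n : ℝ) + 1 - ‖z‖ - (n + 1 - ‖w‖) = ‖w‖ - ‖z‖ := by ring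
    rw [e1, abs_sub_comm]
    exact abs_norm_sub_norm_le z w
  exact ((h1.const_min 1).const_max 0).uniformContinuous

lemma cut_eq_one {n : ℕ} {z : J → ℂ} (h : ‖z‖ ≤ n) : cut n z = 1 := by
  unfold cut
  rw [min_eq_left (by linarith), max_eq_right zero_le_one]

lemma cut_eq_zero {n : ℕ} {z : J → ℂ} (h : (n : ℝ) + 1 ≤ ‖z‖) : cut n z = 0 := by
  unfold cut
  rw [min_eq_right (by linarith), max_eq_left (by linarith)]

/-- **The means of all bounded continuous functions** of the boundary functions converge, uniformly in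
the starting point, to their expectations for the random twist. -/
theorem mean_all (hb : ∀ j, ∀ x, ‖b j x‖ ≤ M j / (x.2 + 1 : ℕ)) {ψ : (J → ℂ) → ℝ}
    (hψ : Continuous ψ) {C : ℝ} (hC : ∀ z, |ψ z| ≤ C) : MeanC b ψ := by
  have hC0 : 0 ≤ C := (abs_nonneg _).trans (hC 0)
  intro ε hε
  -- tightness
  obtain ⟨n, hn⟩ : ∃ n : ℕ, ∫ ω, (1 - cut n fun j => RR (b j) ω) ∂PM ≤ ε / (8 * (C + 1)) := by
    have h1 : Tendsto (fun n : ℕ => ∫ ω, (1 - cut n fun j => RR (b j) ω) ∂PM) atTop
        (𝓝 (∫ _ω : Om, (0 : ℝ) ∂PM)) := by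
      refine tendsto_integral_of_dominated_convergence (fun _ => (1 : ℝ)) (fun n => ?_)
        (integrable_const _) (fun n => Eventually.of_forall fun ω => ?_)
        (Eventually.of_forall fun ω => ?_)
      · exact ((continuous_const.sub (cut_uc n).continuous).measurable.comp_aemeasurable
          (aem_R hb)).aestronglyMeasurable
      · rw [Real.norm_eq_abs, abs_le]
        constructor <;> linarith [cut_nonneg n fun j => RR (b j) ω, cut_le_one n fun j => RR (b j) ω]
      · refine tendsto_const_nhds.congr' ?_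
        obtain ⟨N, hN⟩ := exists_nat_ge ‖fun j => RR (b j) ω‖
        filter_upwards [eventually_ge_atTop N] with n hn
        rw [cut_eq_one (hN.trans (by exact_mod_cast hn)), sub_self]
    rw [integral_zero] at h1
    exact (h1.eventually (ge_mem_nhds (by positivity))).exists
  -- the two uniformly continuous functions
  have huc1 : UniformContinuous fun z : J → ℂ => ψ z * cut n z := by
    refine HasCompactSupport.uniformContinuous_of_continuous ?_ (hψ.mul (cut_uc n).continuous)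
    refine HasCompactSupport.intro (isCompact_closedBall (0 : J → ℂ) (n + 1)) fun z hz => ?_
    have h2 : (n : ℝ) + 1 ≤ ‖z‖ := by
      by_contra h
      apply hz
      rw [mem_closedBall_zero_iff]
      linarith
    rw [cut_eq_zero h2, mul_zero]
  have huc2 : UniformContinuous fun z : J → ℂ => 1 - cut n z :=
    uniformContinuous_const.sub (cut_uc n)
  have hb1 : ∀ z : J → ℂ, |ψ z * cut n z| ≤ C := by
    intro z
    rw [abs_mul, abs_of_nonneg (cut_nonneg n z)]
    calc _ ≤ C * 1 := mul_le_mul (hC z) (cut_le_one n z) (cut_nonneg n z) hC0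
      _ = C := mul_one C
  have hb2 : ∀ z : J → ℂ, |1 - cut n z| ≤ 1 := by
    intro z
    rw [abs_le]
    constructor <;> linarith [cut_nonneg n z, cut_le_one n z]
  obtain ⟨T₁, h1, h2⟩ := mean_uc hb huc1 hb1 (ε / 4) (by positivity)
  obtain ⟨T₂, h3, h4⟩ := mean_uc hb huc2 hb2 (ε / (8 * (C + 1))) (by positivity)
  refine ⟨max T₁ T₂, lt_max_of_lt_left h1, fun T hT a => ?_⟩
  have hT0 : 0 < T := lt_of_lt_of_le h1 ((le_max_left _ _).trans hT)
  have h5 := h2 T ((le_max_left _ _).trans hT) a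
  have h6 := h4 T ((le_max_right _ _).trans hT) a
  have iB := int_B hb hψ hC a (a + T)
  have iB1 := int_B hb huc1.continuous hb1 a (a + T)
  have iB2 := int_B hb huc2.continuous hb2 a (a + T)
  have iR := int_R hb hψ hC
  have iR1 := int_R hb huc1.continuous hb1
  have iR2 := int_R hb huc2.continuous hb2
  have hdiff : ∀ z : J → ℂ, |ψ z - ψ z * cut n z| ≤ C * (1 - cut n z) := by
    intro z
    have e1 : ψ z - ψ z * cut n z = ψ z * (1 - cut n z) := by ring
    rw [e1, abs_mul, abs_of_nonneg (by linarith [cut_le_one n z] : 0 ≤ 1 - cut n z)]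
    exact mul_le_mul_of_nonneg_right (hC z) (by linarith [cut_le_one n z])
  have h7 : |(1 / T) * (∫ τ in a..(a + T), ψ fun j => bl (b j) τ) -
      (1 / T) * (∫ τ in a..(a + T), (ψ fun j => bl (b j) τ) * cut n fun j => bl (b j) τ)| ≤
      C * ((1 / T) * ∫ τ in a..(a + T), (1 - cut n fun j => bl (b j) τ)) := by
    rw [← mul_sub, ← intervalIntegral.integral_sub iB iB1, abs_mul, abs_of_pos (by positivity)]
    have h8 : |∫ τ in a..(a + T), ((ψ fun j => bl (b j) τ) -
        (ψ fun j => bl (b j) τ) * cut n fun j => bl (b j) τ)| ≤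
        ∫ τ in a..(a + T), C * (1 - cut n fun j => bl (b j) τ) := by
      rw [← Real.norm_eq_abs]
      refine intervalIntegral.norm_integral_le_of_norm_le (by linarith) ?_ (iB2.const_mul C)
      refine Eventually.of_forall fun τ _ => ?_
      rw [Real.norm_eq_abs]
      exact hdiff _
    rw [intervalIntegral.integral_const_mul] at h8
    calc _ ≤ 1 / T * (C * ∫ τ in a..(a + T), (1 - cut n fun j => bl (b j) τ)) :=
          mul_le_mul_of_nonneg_left h8 (by positivity)
      _ = _ := by ring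
  have h8 : |∫ ω, ψ (fun j => RR (b j) ω) ∂PM -
      ∫ ω, ψ (fun j => RR (b j) ω) * cut n (fun j => RR (b j) ω) ∂PM| ≤
      C * ∫ ω, (1 - cut n fun j => RR (b j) ω) ∂PM := by
    rw [← integral_sub iR iR1, ← integral_const_mul, ← Real.norm_eq_abs]
    refine norm_integral_le_of_norm_le (iR2.const_mul C) (Eventually.of_forall fun ω => ?_)
    rw [Real.norm_eq_abs]
    exact hdiff _
  have h9 : (C + 1) * (ε / (8 * (C + 1))) = ε / 8 := by
    field_simp
  set q : ℝ := ε / (8 * (C + 1)) with hq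
  have hq0 : 0 < q := by positivity
  set m2 : ℝ := (1 / T) * ∫ τ in a..(a + T), (1 - cut n fun j => bl (b j) τ) with hm2
  set r2 : ℝ := ∫ ω, (1 - cut n fun j => RR (b j) ω) ∂PM with hr2
  have h10 : m2 ≤ 2 * q := by
    have := (abs_le.1 h6).2
    linarith
  have h11 : C * m2 ≤ ε / 4 := by nlinarith
  have h12 : C * r2 ≤ ε / 8 := by nlinarith
  rw [abs_le] at h5 h7 h8 ⊢
  constructor <;> linarith [h5.1, h5.2, h7.1, h7.2, h8.1, h8.2]

end

end Pool.Agent.TH339.MP
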