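import Pool.Agent.TH339.MP.V4

/-!
# Random twists of Euler products over number fields
-/

set_option autoImplicit false

namespace Pool.Agent.TH339.MP

open Complex MeasureTheory Finset Filter Topology NumberField IsDedekindDomain Polynomial

section
variable {K : Type} [Field K] [NumberField K] {N : ℕ}

lemma val_nm (ω : Om) (v : HeightOneSpectrum (𝓞 K)) :
    val ω (nm v) = ((ω (pr v) : Circle) : ℂ) ^ dg v := by
  unfold val
  have hp := (pr v).2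
  have hd := dg_pos v
  have h1 : (nm v).primeFactors = {((pr v : Nat.Primes) : ℕ)} := by
    rw [nm_eq, Nat.primeFactors_pow _ hd.ne', hp.primeFactors]
  rw [h1, Finset.prod_singleton, dif_pos hp, nm_eq, hp.factorization_pow, Finsupp.single_eq_same]
  rfl

lemma norm_val (ω : Om) (v : HeightOneSpectrum (𝓞 K)) : ‖val ω (nm v)‖ = 1 := by
  rw [val_nm, norm_pow, norm_circ, one_pow]

lemma bb_twist (β : HeightOneSpectrum (𝓞 K) → Fin N → ℂ) (ω : Om) :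
    bb (fun v j => β v j * val ω (nm v)) = tb (bb β) ω := by
  funext x
  unfold bb tb
  rw [Finset.sum_mul]
  refine Finset.sum_congr rfl fun v hv => ?_
  rw [mem_Sp] at hv
  split_ifs with h
  · have h1 : ∀ j, (β v j * val ω (nm v)) ^ ((x.2 + 1) / dg v) =
        β v j ^ ((x.2 + 1) / dg v) * ((ω x.1 : Circle) : ℂ) ^ (x.2 + 1) := by
      intro j
      rw [mul_pow, val_nm, ← pow_mul, Nat.mul_div_cancel' h, hv]
    simp_rw [h1]
    rw [← Finset.sum_mul]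
    ring
  · rw [zero_mul]

lemma exists_beta_poly' (w : ℝ) (P : HeightOneSpectrum (𝓞 K) → ℂ[X])
    (h0 : ∀ v, (P v).coeff 0 = 1) (hN : ∀ v, (P v).natDegree ≤ N)
    (hroot : ∀ v, ∀ z : ℂ, (P v).IsRoot z → ((nm v : ℕ) : ℝ) ^ (-(w / 2)) ≤ ‖z‖) :
    ∃ β : HeightOneSpectrum (𝓞 K) → Fin N → ℂ, (∀ v j, ‖β v j‖ ≤ 1) ∧
      ∀ s : ℂ, ∀ v, ∀ z : ℂ, (P v).eval (z * ((nm v : ℕ) : ℂ) ^ (-s)) =
        ∏ j, (1 - β v j * z * ((nm v : ℕ) : ℂ) ^ (-(s - (w / 2 : ℝ)))) := by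
  have hpos : ∀ v : HeightOneSpectrum (𝓞 K), (0 : ℝ) < ((nm v : ℕ) : ℝ) := by
    intro v
    rw [nm_eq, Nat.cast_pow]
    exact pow_pos (prime_pos _) _
  have hRpos : ∀ v : HeightOneSpectrum (𝓞 K), (0 : ℝ) < ((nm v : ℕ) : ℝ) ^ (w / 2) := fun v =>
    Real.rpow_pos_of_pos (hpos v) _
  have h1 : ∀ v, ∃ α : Fin N → ℂ, (∀ j, ‖α j‖ ≤ ((nm v : ℕ) : ℝ) ^ (w / 2)) ∧
      ∀ x : ℂ, (P v).eval x = ∏ j, (1 - α j * x) := by
    intro v
    refine poly_alpha (P v) (h0 v) (hN v) (hRpos v) fun z hz => ?_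
    rw [← Real.rpow_neg (hpos v).le]
    exact hroot v z hz
  choose α hα1 hα2 using h1
  refine ⟨fun v j => α v j * (((((nm v : ℕ) : ℝ) ^ (w / 2))⁻¹ : ℝ) : ℂ), ?_, ?_⟩
  · intro v j
    rw [norm_mul, Complex.norm_real, norm_inv, Real.norm_of_nonneg (hRpos v).le]
    rw [← div_eq_mul_inv, div_le_one (hRpos v)]
    exact hα1 v j
  · intro s v z
    rw [hα2]
    refine Finset.prod_congr rfl fun j _ => ?_
    have hne : ((nm v : ℕ) : ℂ) ≠ 0 := by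
      have := (hpos v).ne'
      exact_mod_cast this
    have h3 : ((nm v : ℕ) : ℂ) ^ (-(s - (w / 2 : ℝ))) =
        ((((nm v : ℕ) : ℝ) ^ (w / 2) : ℝ) : ℂ) * ((nm v : ℕ) : ℂ) ^ (-s) := by
      rw [show -(s - ((w / 2 : ℝ) : ℂ)) = ((w / 2 : ℝ) : ℂ) + -s by ring, cpow_add _ _ hne]
      congr 1
      rw [Complex.ofReal_cpow (hpos v).le]
      push_cast
      rfl
    rw [h3]
    have h4 : (((((nm v : ℕ) : ℝ) ^ (w / 2))⁻¹ : ℝ) : ℂ) *
        ((((nm v : ℕ) : ℝ) ^ (w / 2) : ℝ) : ℂ) = 1 := by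
      rw [← Complex.ofReal_mul, inv_mul_cancel₀ (hRpos v).ne', Complex.ofReal_one]
    calc 1 - α v j * (z * ((nm v : ℕ) : ℂ) ^ (-s)) =
          1 - α v j * ((((((nm v : ℕ) : ℝ) ^ (w / 2))⁻¹ : ℝ) : ℂ) *
            ((((nm v : ℕ) : ℝ) ^ (w / 2) : ℝ) : ℂ)) * (z * ((nm v : ℕ) : ℂ) ^ (-s)) := by
          rw [h4, mul_one]
      _ = _ := by ring

/-- the Euler products of all twists at once -/
lemma hasProd_twist (w : ℝ) (P : HeightOneSpectrum (𝓞 K) → ℂ[X])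
    (h0 : ∀ v, (P v).coeff 0 = 1) (hN : ∀ v, (P v).natDegree ≤ N)
    (hroot : ∀ v, ∀ z : ℂ, (P v).IsRoot z → ((nm v : ℕ) : ℝ) ^ (-(w / 2)) ≤ ‖z‖) :
    ∃ b : PP → ℂ, (∀ x, ‖b x‖ ≤ ((Module.finrank ℚ K : ℝ) * N) / (x.2 + 1 : ℕ)) ∧
      ∀ ω : Om, ∀ s : ℂ, 1 + w / 2 < s.re →
        HasProd (fun v => ((P v).eval (val ω (nm v) * ((nm v : ℕ) : ℂ) ^ (-s)))⁻¹)
          (Complex.exp (FF (tb b ω) (s - (w / 2 : ℝ)))) := by
  obtain ⟨β, h1, h2⟩ := exists_beta_poly' w P h0 hN hroot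
  refine ⟨bb β, norm_bb h1, fun ω s hs => ?_⟩
  have hre : 1 < (s - (w / 2 : ℝ)).re := by
    rw [Complex.sub_re, Complex.ofReal_re]
    linarith
  have hβ : ∀ v j, ‖β v j * val ω (nm v)‖ ≤ 1 := by
    intro v j
    rw [norm_mul, norm_val, mul_one]
    exact h1 v j
  have h3 := hasProd_L hβ hre
  rw [bb_twist] at h3
  convert h3 using 1
  funext v
  rw [h2 s v, Finset.prod_inv_distrib]

lemma val_one (n : ℕ) : val 1 n = 1 := by
  unfold val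
  refine Finset.prod_eq_one fun p _ => ?_
  split_ifs
  · change ((1 : Circle) : ℂ) ^ _ = 1
    rw [Circle.coe_one, one_pow]
  · rfl

end

lemma dimH_union {J : Type} [Countable J] (s : J → Set ℝ) (h : ∀ j, dimH (s j) = 0) :
    dimH (⋃ j, s j) = 0 := by
  rw [dimH_iUnion]
  simp [h]

/-- angular limits at `1 + w/2 + iτ` -/
lemma tendsto_angle {b : PP → ℂ} {M : ℝ} (hb : ∀ x, ‖b x‖ ≤ M / (x.2 + 1 : ℕ)) {τ : ℝ}
    (hτ : τ ∉ Pool.Agent.W350.Edge.divSet (ap b)) (w C : ℝ) (s₀ : ℂ)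
    (hs₀ : s₀ = 1 + w / 2 + τ * I) :
    Tendsto (fun s : ℂ => FF b (s - (w / 2 : ℝ)))
      (𝓝[{s : ℂ | s₀.re < s.re ∧ ‖s - s₀‖ ≤ C * (s - s₀).re}] s₀) (𝓝 (bl b τ)) := by
  have h5 := bl_angle hb hτ C
  have h6 : Tendsto (fun s : ℂ => s - s₀)
      (𝓝[{s : ℂ | s₀.re < s.re ∧ ‖s - s₀‖ ≤ C * (s - s₀).re}] s₀)
      (𝓝[{z : ℂ | 0 < z.re ∧ ‖z‖ ≤ C * z.re}] 0) := by
    rw [tendsto_nhdsWithin_iff]
    constructor
    · have h7 : Tendsto (fun s : ℂ => s - s₀) (𝓝 s₀) (𝓝 (s₀ - s₀)) :=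
        (continuous_id.sub continuous_const).tendsto _
      rw [sub_self] at h7
      exact h7.mono_left nhdsWithin_le_nhds
    · filter_upwards [self_mem_nhdsWithin] with s hs
      refine ⟨?_, hs.2⟩
      rw [Complex.sub_re]
      linarith [hs.1]
  refine (h5.comp h6).congr fun s => ?_
  simp only [Function.comp_apply]
  congr 1
  rw [hs₀]
  push_cast
  ring

end Pool.Agent.TH339.MP
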