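import Mathlib

/-!
# Local uniqueness of boundary values, part 1: the function `U = (1/2) log (|F|² + η²)`
-/

set_option autoImplicit false

namespace Pool.Agent.TH339.MP

open Complex Set Filter Topology MeasureTheory

/-- the rectangle -/
def rect (r : ℝ) : Set ℂ := {z : ℂ | 0 < z.re ∧ z.re < r ∧ |z.im| < r}

lemma isOpen_rect (r : ℝ) : IsOpen (rect r) := by
  have h : rect r = {z : ℂ | 0 < z.re} ∩ ({z : ℂ | z.re < r} ∩ {z : ℂ | |z.im| < r}) := by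
    ext z; simp [rect]
  rw [h]
  exact (isOpen_lt continuous_const Complex.continuous_re).inter
    ((isOpen_lt Complex.continuous_re continuous_const).inter
      (isOpen_lt (continuous_abs.comp Complex.continuous_im) continuous_const))

lemma convex_rect (r : ℝ) : Convex ℝ (rect r) := by
  have h : rect r = {z : ℂ | 0 < z.re} ∩ ({z : ℂ | z.re < r} ∩ ({z : ℂ | -r < z.im} ∩
      {z : ℂ | z.im < r})) := by
    ext z; simp only [rect, abs_lt, mem_setOf_eq, mem_inter_iff]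
  rw [h]
  exact (convex_halfSpace_re_gt 0).inter ((convex_halfSpace_re_lt r).inter
    ((convex_halfSpace_im_gt (-r)).inter (convex_halfSpace_im_lt r)))

/-- `U` along a curve -/
noncomputable def UU (η : ℝ) (w : ℂ) : ℝ := (1 / 2) * Real.log (‖w‖ ^ 2 + η ^ 2)

lemma pos_A {η : ℝ} (hη : 0 < η) (w : ℂ) : 0 < ‖w‖ ^ 2 + η ^ 2 := by positivity

lemma hasDeriv_U {η : ℝ} (hη : 0 < η) {a : ℝ → ℂ} {a' : ℂ} {s : ℝ} (ha : HasDerivAt a a' s) :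
    HasDerivAt (fun s => UU η (a s)) (inner ℝ (a s) a' / (‖a s‖ ^ 2 + η ^ 2)) s := by
  have h1 : HasDerivAt (fun s => ‖a s‖ ^ 2 + η ^ 2) (2 * inner ℝ (a s) a') s :=
    ha.norm_sq.add_const _
  have h2 := (h1.log (pos_A hη (a s)).ne').const_mul (1 / 2 : ℝ)
  unfold UU
  refine h2.congr_deriv ?_
  ring

lemma hasDeriv_U2 {η : ℝ} (hη : 0 < η) {a b : ℝ → ℂ} {b' : ℂ} {s : ℝ}
    (ha : HasDerivAt a (b s) s) (hb : HasDerivAt b b' s) :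
    HasDerivAt (fun s => inner ℝ (a s) (b s) / (‖a s‖ ^ 2 + η ^ 2))
      ((inner ℝ (a s) b' + ‖b s‖ ^ 2) / (‖a s‖ ^ 2 + η ^ 2) -
        2 * (inner ℝ (a s) (b s)) ^ 2 / (‖a s‖ ^ 2 + η ^ 2) ^ 2) s := by
  have h1 : HasDerivAt (fun s => ‖a s‖ ^ 2 + η ^ 2) (2 * inner ℝ (a s) (b s)) s :=
    ha.norm_sq.add_const _
  have h0 : HasDerivAt (fun s => inner ℝ (a s) (b s)) (inner ℝ (a s) b' + inner ℝ (b s) (b s)) s :=
    ha.inner ℝ hb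
  have hA := (pos_A hη (a s)).ne'
  have h2 := h0.div h1 hA
  refine h2.congr_deriv ?_
  rw [real_inner_self_eq_norm_sq]
  field_simp

/-- sum of the two second derivatives -/
lemma lap_nonneg {η : ℝ} (hη : 0 < η) (w w1 w2 : ℂ) :
    0 ≤ ((inner ℝ w w2 + ‖w1‖ ^ 2) / (‖w‖ ^ 2 + η ^ 2) -
        2 * (inner ℝ w w1) ^ 2 / (‖w‖ ^ 2 + η ^ 2) ^ 2) +
      ((inner ℝ w (I * (I * w2)) + ‖I * w1‖ ^ 2) / (‖w‖ ^ 2 + η ^ 2) -
        2 * (inner ℝ w (I * w1)) ^ 2 / (‖w‖ ^ 2 + η ^ 2) ^ 2) := by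
  have hA := pos_A hη w
  have e1 : I * (I * w2) = -w2 := by rw [← mul_assoc, I_mul_I]; ring
  have e2 : ‖I * w1‖ = ‖w1‖ := by rw [norm_mul, norm_I, one_mul]
  have e3 : (inner ℝ w w1 : ℝ) ^ 2 + (inner ℝ w (I * w1)) ^ 2 = ‖w‖ ^ 2 * ‖w1‖ ^ 2 := by
    rw [Complex.inner, Complex.inner, ← Complex.normSq_eq_norm_sq, ← Complex.normSq_eq_norm_sq,
      Complex.normSq_apply, Complex.normSq_apply]
    simp only [mul_re, conj_re, conj_im, I_re, I_im, mul_im]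
    ring
  rw [e1, e2, inner_neg_right]
  have e4 : (inner ℝ w w2 + ‖w1‖ ^ 2) / (‖w‖ ^ 2 + η ^ 2) -
        2 * (inner ℝ w w1) ^ 2 / (‖w‖ ^ 2 + η ^ 2) ^ 2 +
      ((-inner ℝ w w2 + ‖w1‖ ^ 2) / (‖w‖ ^ 2 + η ^ 2) -
        2 * (inner ℝ w (I * w1)) ^ 2 / (‖w‖ ^ 2 + η ^ 2) ^ 2) =
      2 * η ^ 2 * ‖w1‖ ^ 2 / (‖w‖ ^ 2 + η ^ 2) ^ 2 := by
    have e5 : (inner ℝ w (I * w1)) ^ 2 = ‖w‖ ^ 2 * ‖w1‖ ^ 2 - (inner ℝ w w1 : ℝ) ^ 2 := by linarith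
    rw [e5]
    field_simp
    ring
  rw [e4]
  positivity

end Pool.Agent.TH339.MP
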