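import Pool.Agent.TH339.MP.X1

/-!
# Local uniqueness of boundary values, part 2: Green's inequality on a rectangle
-/

set_option autoImplicit false

namespace Pool.Agent.TH339.MP

open Complex Set Filter Topology MeasureTheory

/-- the point `x + i t` -/
def pt (q : ℝ × ℝ) : ℂ := (q.1 : ℂ) + q.2 * I

lemma continuous_pt : Continuous pt := by unfold pt; fun_prop

@[simp] lemma pt_re (q : ℝ × ℝ) : (pt q).re = q.1 := by simp [pt]
@[simp] lemma pt_im (q : ℝ × ℝ) : (pt q).im = q.2 := by simp [pt]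

/-- the cut-off in the vertical direction -/
def chi (ρ t : ℝ) : ℝ := (ρ ^ 2 - t ^ 2) ^ 4
def chi1 (ρ t : ℝ) : ℝ := -(8 * t * (ρ ^ 2 - t ^ 2) ^ 3)
def chi2 (ρ t : ℝ) : ℝ := 8 * (ρ ^ 2 - t ^ 2) ^ 2 * (7 * t ^ 2 - ρ ^ 2)

lemma hasDeriv_chi (ρ t : ℝ) : HasDerivAt (chi ρ) (chi1 ρ t) t := by
  have h : HasDerivAt (fun t : ℝ => ρ ^ 2 - t ^ 2) (-(2 * t)) t := by
    simpa using (hasDerivAt_pow 2 t).const_sub (ρ ^ 2)
  have h2 := h.pow 4
  unfold chi chi1
  refine h2.congr_deriv ?_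
  norm_num
  ring

lemma hasDeriv_chi1 (ρ t : ℝ) : HasDerivAt (chi1 ρ) (chi2 ρ t) t := by
  have h : HasDerivAt (fun t : ℝ => ρ ^ 2 - t ^ 2) (-(2 * t)) t := by
    simpa using (hasDerivAt_pow 2 t).const_sub (ρ ^ 2)
  have h2 := h.pow 3
  have h3 : HasDerivAt (fun t : ℝ => 8 * t) 8 t := by simpa using (hasDerivAt_id t).const_mul (8 : ℝ)
  have h4 := (h3.mul h2).neg
  unfold chi1 chi2
  refine (h4.congr_deriv ?_)
  norm_num
  ring

lemma continuous_chi (ρ : ℝ) : Continuous (chi ρ) := by unfold chi; fun_prop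
lemma continuous_chi1 (ρ : ℝ) : Continuous (chi1 ρ) := by unfold chi1; fun_prop
lemma continuous_chi2 (ρ : ℝ) : Continuous (chi2 ρ) := by unfold chi2; fun_prop

lemma chi_nonneg (ρ t : ℝ) : 0 ≤ chi ρ t := by unfold chi; positivity

lemma chi_le {ρ t : ℝ} (h : |t| ≤ ρ) : chi ρ t ≤ ρ ^ 8 := by
  have h1 : t ^ 2 ≤ ρ ^ 2 := by
    rw [← sq_abs t]; exact pow_le_pow_left₀ (abs_nonneg t) h 2
  have h2 : (0 : ℝ) ≤ ρ ^ 2 - t ^ 2 := by linarith
  have h3 : ρ ^ 2 - t ^ 2 ≤ ρ ^ 2 := by nlinarith [sq_nonneg t]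
  calc chi ρ t ≤ (ρ ^ 2) ^ 4 := pow_le_pow_left₀ h2 h3 4
    _ = ρ ^ 8 := by ring

/-- the weight is nonnegative -/
lemma weight_nonneg {ρ t p : ℝ} (hρ : 0 < ρ) (h : |t| ≤ ρ) (hp : 0 ≤ p)
    (hp1 : 11 * p ≤ 2 * ρ ^ 2) : 0 ≤ 2 * chi ρ t + p * chi2 ρ t := by
  have h1 : t ^ 2 ≤ ρ ^ 2 := by
    rw [← sq_abs t]; exact pow_le_pow_left₀ (abs_nonneg t) h 2
  set y := t ^ 2 with hy
  have hy0 : 0 ≤ y := sq_nonneg t
  have e : 2 * chi ρ t + p * chi2 ρ t =
      2 * (ρ ^ 2 - y) ^ 2 * ((ρ ^ 2 - y) ^ 2 + 4 * p * (7 * y - ρ ^ 2)) := by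
    unfold chi chi2
    rw [← hy]
    ring
  rw [e]
  refine mul_nonneg (by positivity) ?_
  have hR : 0 < ρ ^ 2 := by positivity
  set R := ρ ^ 2 with hRdef
  by_cases h7 : R ≤ 7 * y
  · have : 0 ≤ 4 * p * (7 * y - R) := mul_nonneg (by linarith) (by linarith)
    positivity
  · push Not at h7
    have h8 : 4 * p * (7 * y - R) ≥ -(4 * p * R) := by nlinarith
    have h9 : 4 * p * R ≤ (8 / 11) * R ^ 2 := by nlinarith
    have h10 : (R - y) ^ 2 ≥ ((6 / 7) * R) ^ 2 := by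
      have : (6 / 7) * R ≤ R - y := by linarith
      exact pow_le_pow_left₀ (by positivity) this 2
    nlinarith

lemma weight_le {ρ t p : ℝ} (hρ : 0 < ρ) (h : |t| ≤ ρ) (hp : 0 ≤ p) (hp1 : 11 * p ≤ 2 * ρ ^ 2) :
    2 * chi ρ t + p * chi2 ρ t ≤ 12 * ρ ^ 8 := by
  have h1 : t ^ 2 ≤ ρ ^ 2 := by
    rw [← sq_abs t]; exact pow_le_pow_left₀ (abs_nonneg t) h 2
  have h2 := chi_le h
  have h3 : chi2 ρ t ≤ 48 * ρ ^ 6 := by
    unfold chi2
    have a1 : (ρ ^ 2 - t ^ 2) ^ 2 ≤ (ρ ^ 2) ^ 2 :=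
      pow_le_pow_left₀ (by linarith) (by nlinarith [sq_nonneg t]) 2
    have a2 : 7 * t ^ 2 - ρ ^ 2 ≤ 6 * ρ ^ 2 := by linarith
    have a3 : 0 ≤ (ρ ^ 2 - t ^ 2) ^ 2 := by positivity
    calc 8 * (ρ ^ 2 - t ^ 2) ^ 2 * (7 * t ^ 2 - ρ ^ 2)
        ≤ 8 * (ρ ^ 2 - t ^ 2) ^ 2 * (6 * ρ ^ 2) := mul_le_mul_of_nonneg_left a2 (by positivity)
      _ ≤ 8 * (ρ ^ 2) ^ 2 * (6 * ρ ^ 2) := by
          apply mul_le_mul_of_nonneg_right _ (by positivity)
          linarith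
      _ = 48 * ρ ^ 6 := by ring
  have h4 : p * chi2 ρ t ≤ p * (48 * ρ ^ 6) := mul_le_mul_of_nonneg_left h3 hp
  have h5 : p * (48 * ρ ^ 6) ≤ (2 / 11 * ρ ^ 2) * (48 * ρ ^ 6) :=
    mul_le_mul_of_nonneg_right (by linarith) (by positivity)
  have h6 : (2 / 11 * ρ ^ 2) * (48 * ρ ^ 6) ≤ 10 * ρ ^ 8 := by
    have : (2 / 11 * ρ ^ 2) * (48 * ρ ^ 6) = (96 / 11) * ρ ^ 8 := by ring
    rw [this]
    have : 0 < ρ ^ 8 := by positivity
    linarith
  linarith

section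
variable {r : ℝ} {F : ℂ → ℂ}

/-- the first derivatives of `U` -/
noncomputable def Ux (F : ℂ → ℂ) (η : ℝ) (z : ℂ) : ℝ :=
  inner ℝ (F z) (deriv F z) / (‖F z‖ ^ 2 + η ^ 2)
noncomputable def Ut (F : ℂ → ℂ) (η : ℝ) (z : ℂ) : ℝ :=
  inner ℝ (F z) (I * deriv F z) / (‖F z‖ ^ 2 + η ^ 2)
noncomputable def Uxx (F : ℂ → ℂ) (η : ℝ) (z : ℂ) : ℝ :=
  (inner ℝ (F z) (deriv (deriv F) z) + ‖deriv F z‖ ^ 2) / (‖F z‖ ^ 2 + η ^ 2) -
        2 * (inner ℝ (F z) (deriv F z)) ^ 2 / (‖F z‖ ^ 2 + η ^ 2) ^ 2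
noncomputable def Utt (F : ℂ → ℂ) (η : ℝ) (z : ℂ) : ℝ :=
  (inner ℝ (F z) (I * (I * deriv (deriv F) z)) + ‖I * deriv F z‖ ^ 2) / (‖F z‖ ^ 2 + η ^ 2) -
        2 * (inner ℝ (F z) (I * deriv F z)) ^ 2 / (‖F z‖ ^ 2 + η ^ 2) ^ 2

lemma lap_pos {η : ℝ} (hη : 0 < η) (z : ℂ) : 0 ≤ Uxx F η z + Utt F η z :=
  lap_nonneg hη _ _ _

lemma diff_deriv {U : Set ℂ} (hU : IsOpen U) (hF : DifferentiableOn ℂ F U) :
    DifferentiableOn ℂ (deriv F) U := hF.deriv hU

lemma cont_UU {η : ℝ} (hη : 0 < η) {U : Set ℂ} (hF : ContinuousOn F U) :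
    ContinuousOn (fun z => UU η (F z)) U := by
  unfold UU
  refine continuousOn_const.mul (ContinuousOn.log ?_ fun z _ => (pos_A hη _).ne')
  exact (hF.norm.pow 2).add continuousOn_const

lemma cont_A {η : ℝ} {U : Set ℂ} (hF : ContinuousOn F U) :
    ContinuousOn (fun z => ‖F z‖ ^ 2 + η ^ 2) U := (hF.norm.pow 2).add continuousOn_const

lemma cont_Ux {η : ℝ} (hη : 0 < η) {U : Set ℂ} (hU : IsOpen U) (hF : DifferentiableOn ℂ F U) :
    ContinuousOn (Ux F η) U := by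
  unfold Ux
  exact (hF.continuousOn.inner (diff_deriv hU hF).continuousOn).div (cont_A hF.continuousOn)
    fun z _ => (pos_A hη _).ne'

lemma cont_Uxx {η : ℝ} (hη : 0 < η) {U : Set ℂ} (hU : IsOpen U) (hF : DifferentiableOn ℂ F U) :
    ContinuousOn (Uxx F η) U := by
  have h1 := (diff_deriv hU hF)
  have h2 := diff_deriv hU h1
  have hA := cont_A (η := η) hF.continuousOn
  unfold Uxx
  refine ContinuousOn.sub ?_ ?_
  · exact ((hF.continuousOn.inner h2.continuousOn).add (h1.continuousOn.norm.pow 2)).div hA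
      fun z _ => (pos_A hη _).ne'
  · exact (continuousOn_const.mul ((hF.continuousOn.inner h1.continuousOn).pow 2)).div (hA.pow 2)
      fun z _ => (pow_pos (pos_A hη _) 2).ne'

lemma cont_Utt {η : ℝ} (hη : 0 < η) {U : Set ℂ} (hU : IsOpen U) (hF : DifferentiableOn ℂ F U) :
    ContinuousOn (Utt F η) U := by
  have h1 := (diff_deriv hU hF)
  have h2 := diff_deriv hU h1
  have hA := cont_A (η := η) hF.continuousOn
  unfold Utt
  refine ContinuousOn.sub ?_ ?_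
  · exact ((hF.continuousOn.inner (continuousOn_const.mul (continuousOn_const.mul
      h2.continuousOn))).add ((continuousOn_const.mul h1.continuousOn).norm.pow 2)).div hA
      fun z _ => (pos_A hη _).ne'
  · exact (continuousOn_const.mul ((hF.continuousOn.inner (continuousOn_const.mul
      h1.continuousOn)).pow 2)).div (hA.pow 2) fun z _ => (pow_pos (pos_A hη _) 2).ne'

/-- derivative in the horizontal direction -/
lemma deriv_x {G : ℂ → ℂ} (hG : DifferentiableOn ℂ G (rect r)) {x t : ℝ}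
    (h : pt (x, t) ∈ rect r) : HasDerivAt (fun x : ℝ => G (pt (x, t))) (deriv G (pt (x, t))) x := by
  have h1 : HasDerivAt G (deriv G (pt (x, t))) (pt (x, t)) :=
    (hG.differentiableAt ((isOpen_rect r).mem_nhds h)).hasDerivAt
  have h2 : HasDerivAt (fun x : ℝ => pt (x, t)) 1 x := by
    have h0 : HasDerivAt (fun x : ℝ => ((x : ℝ) : ℂ)) 1 x := (hasDerivAt_id x).ofReal_comp
    have h1' := h0.add_const ((t : ℂ) * I)
    unfold pt
    exact h1'
  have h3 : HasDerivAt (G ∘ fun x : ℝ => pt (x, t)) (deriv G (pt (x, t)) * 1) x := h1.comp x h2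
  rw [mul_one] at h3
  exact h3

/-- derivative in the vertical direction -/
lemma deriv_t {G : ℂ → ℂ} (hG : DifferentiableOn ℂ G (rect r)) {x t : ℝ}
    (h : pt (x, t) ∈ rect r) :
    HasDerivAt (fun t : ℝ => G (pt (x, t))) (I * deriv G (pt (x, t))) t := by
  have h1 : HasDerivAt G (deriv G (pt (x, t))) (pt (x, t)) :=
    (hG.differentiableAt ((isOpen_rect r).mem_nhds h)).hasDerivAt
  have h2 : HasDerivAt (fun t : ℝ => pt (x, t)) I t := by
    have h0 : HasDerivAt (fun t : ℝ => ((t : ℝ) : ℂ)) 1 t := (hasDerivAt_id t).ofReal_comp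
    have h1' := (h0.mul_const I).const_add (x : ℂ)
    rw [one_mul] at h1'
    unfold pt
    exact h1'
  have h3 : HasDerivAt (G ∘ fun t : ℝ => pt (x, t)) (deriv G (pt (x, t)) * I) t := h1.comp t h2
  rw [mul_comm] at h3
  exact h3

lemma step_x {η : ℝ} (hη : 0 < η) (hF : DifferentiableOn ℂ F (rect r)) {ε x1 t : ℝ} (hε : 0 < ε)
    (hε1 : ε ≤ x1) (hx1 : x1 < r) (ht : |t| < r) :
    ∫ x in ε..x1, ((x - ε) + (x - ε) ^ 2) * Uxx F η (pt (x, t)) =
      ((x1 - ε) + (x1 - ε) ^ 2) * Ux F η (pt (x1, t)) -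
        (1 + 2 * (x1 - ε)) * UU η (F (pt (x1, t))) + UU η (F (pt (ε, t))) +
        ∫ x in ε..x1, 2 * UU η (F (pt (x, t))) := by
  have hmem : ∀ x ∈ uIcc ε x1, pt (x, t) ∈ rect r := by
    intro x hx
    rw [uIcc_of_le hε1] at hx
    refine ⟨?_, ?_, ?_⟩
    · simpa using hε.trans_le hx.1
    · simpa using hx.2.trans_lt hx1
    · simpa using ht
  have hmaps : MapsTo (fun x : ℝ => pt (x, t)) (uIcc ε x1) (rect r) := fun x hx => hmem x hx
  have hc : ContinuousOn (fun x : ℝ => pt (x, t)) (uIcc ε x1) :=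
    (continuous_pt.comp (by fun_prop)).continuousOn
  have cU : ContinuousOn (fun x : ℝ => UU η (F (pt (x, t)))) (uIcc ε x1) :=
    (cont_UU hη hF.continuousOn).comp hc hmaps
  have cUxx : ContinuousOn (fun x : ℝ => Uxx F η (pt (x, t))) (uIcc ε x1) :=
    (cont_Uxx hη (isOpen_rect r) hF).comp hc hmaps
  have cp : Continuous fun x : ℝ => (x - ε) + (x - ε) ^ 2 := by fun_prop
  have hder : ∀ x ∈ uIcc ε x1, HasDerivAt (fun x : ℝ => ((x - ε) + (x - ε) ^ 2) *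
      Ux F η (pt (x, t)) - (1 + 2 * (x - ε)) * UU η (F (pt (x, t))))
      (((x - ε) + (x - ε) ^ 2) * Uxx F η (pt (x, t)) - 2 * UU η (F (pt (x, t)))) x := by
    intro x hx
    have h1 := deriv_x hF (hmem x hx)
    have h2 := deriv_x (diff_deriv (isOpen_rect r) hF) (hmem x hx)
    have h3 := hasDeriv_U hη h1
    have h4 := hasDeriv_U2 hη (a := fun x : ℝ => F (pt (x, t)))
      (b := fun x : ℝ => deriv F (pt (x, t))) h1 h2
    have h5 : HasDerivAt (fun x : ℝ => (x - ε) + (x - ε) ^ 2) (1 + 2 * (x - ε)) x := by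
      have h6 : HasDerivAt (fun x : ℝ => x - ε) 1 x := (hasDerivAt_id x).sub_const ε
      have h7 := h6.add (h6.pow 2)
      refine h7.congr_deriv ?_
      norm_num
    have h8 : HasDerivAt (fun x : ℝ => 1 + 2 * (x - ε)) 2 x := by
      have h6 : HasDerivAt (fun x : ℝ => x - ε) 1 x := (hasDerivAt_id x).sub_const ε
      simpa using (h6.const_mul 2).const_add 1
    have h9 := (h5.mul h4).sub (h8.mul h3)
    refine h9.congr_deriv ?_
    unfold Uxx
    ring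
  have hint : IntervalIntegrable (fun x => ((x - ε) + (x - ε) ^ 2) * Uxx F η (pt (x, t)) -
      2 * UU η (F (pt (x, t)))) volume ε x1 :=
    ((cp.continuousOn.mul cUxx).sub (continuousOn_const.mul cU)).intervalIntegrable
  have hFTC := intervalIntegral.integral_eq_sub_of_hasDerivAt hder hint
  have i1 : IntervalIntegrable (fun x => ((x - ε) + (x - ε) ^ 2) * Uxx F η (pt (x, t))) volume
      ε x1 := (cp.continuousOn.mul cUxx).intervalIntegrable
  have i2 : IntervalIntegrable (fun x => 2 * UU η (F (pt (x, t)))) volume ε x1 :=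
    (continuousOn_const.mul cU).intervalIntegrable
  rw [intervalIntegral.integral_sub i1 i2] at hFTC
  have e1 : ((ε - ε) + (ε - ε) ^ 2 : ℝ) = 0 := by ring
  have e2 : (1 + 2 * (ε - ε) : ℝ) = 1 := by ring
  rw [e1, e2] at hFTC
  linarith

lemma step_t {η : ℝ} (hη : 0 < η) (hF : DifferentiableOn ℂ F (rect r)) {x ρ : ℝ} (hx : 0 < x)
    (hx1 : x < r) (hρ : 0 < ρ) (hρr : ρ < r) :
    ∫ t in -ρ..ρ, chi ρ t * Utt F η (pt (x, t)) =
      ∫ t in -ρ..ρ, chi2 ρ t * UU η (F (pt (x, t))) := by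
  have hle : -ρ ≤ ρ := by linarith
  have hmem : ∀ t ∈ uIcc (-ρ) ρ, pt (x, t) ∈ rect r := by
    intro t ht
    rw [uIcc_of_le hle] at ht
    refine ⟨by simpa using hx, by simpa using hx1, ?_⟩
    have : |t| ≤ ρ := abs_le.2 ht
    simpa using this.trans_lt hρr
  have hmaps : MapsTo (fun t : ℝ => pt (x, t)) (uIcc (-ρ) ρ) (rect r) := fun t ht => hmem t ht
  have hc : ContinuousOn (fun t : ℝ => pt (x, t)) (uIcc (-ρ) ρ) :=
    (continuous_pt.comp (by fun_prop)).continuousOn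
  have cU : ContinuousOn (fun t : ℝ => UU η (F (pt (x, t)))) (uIcc (-ρ) ρ) :=
    (cont_UU hη hF.continuousOn).comp hc hmaps
  have cUtt : ContinuousOn (fun t : ℝ => Utt F η (pt (x, t))) (uIcc (-ρ) ρ) :=
    (cont_Utt hη (isOpen_rect r) hF).comp hc hmaps
  have hder : ∀ t ∈ uIcc (-ρ) ρ, HasDerivAt (fun t : ℝ => chi ρ t * Ut F η (pt (x, t)) -
      chi1 ρ t * UU η (F (pt (x, t))))
      (chi ρ t * Utt F η (pt (x, t)) - chi2 ρ t * UU η (F (pt (x, t)))) t := by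
    intro t ht
    have h1 := deriv_t hF (hmem t ht)
    have h2 := (deriv_t (diff_deriv (isOpen_rect r) hF) (hmem t ht)).const_mul I
    have h3 := hasDeriv_U hη h1
    have h4 := hasDeriv_U2 hη (a := fun t : ℝ => F (pt (x, t)))
      (b := fun t : ℝ => I * deriv F (pt (x, t))) h1 h2
    have h9 := ((hasDeriv_chi ρ t).mul h4).sub ((hasDeriv_chi1 ρ t).mul h3)
    refine h9.congr_deriv ?_
    unfold Utt
    ring
  have hint : IntervalIntegrable (fun t => chi ρ t * Utt F η (pt (x, t)) -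
      chi2 ρ t * UU η (F (pt (x, t)))) volume (-ρ) ρ :=
    (((continuous_chi ρ).continuousOn.mul cUtt).sub
      ((continuous_chi2 ρ).continuousOn.mul cU)).intervalIntegrable
  have hFTC := intervalIntegral.integral_eq_sub_of_hasDerivAt hder hint
  have i1 : IntervalIntegrable (fun t => chi ρ t * Utt F η (pt (x, t))) volume (-ρ) ρ :=
    ((continuous_chi ρ).continuousOn.mul cUtt).intervalIntegrable
  have i2 : IntervalIntegrable (fun t => chi2 ρ t * UU η (F (pt (x, t)))) volume (-ρ) ρ :=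
    ((continuous_chi2 ρ).continuousOn.mul cU).intervalIntegrable
  rw [intervalIntegral.integral_sub i1 i2] at hFTC
  have e1 : chi ρ ρ = 0 := by unfold chi; ring
  have e2 : chi ρ (-ρ) = 0 := by unfold chi; ring
  have e3 : chi1 ρ ρ = 0 := by unfold chi1; ring
  have e4 : chi1 ρ (-ρ) = 0 := by unfold chi1; ring
  rw [e1, e2, e3, e4] at hFTC
  linarith

end

end Pool.Agent.TH339.MP
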