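import Pool.Agent.TH339.MP.X2

/-!
# Local uniqueness of boundary values, part 3: the lower bound for the boundary integral
-/

set_option autoImplicit false

namespace Pool.Agent.TH339.MP

open Complex Set Filter Topology MeasureTheory

section iter
variable {a b c d : ℝ} {f : ℝ × ℝ → ℝ}

lemma iter_int (hf : ContinuousOn f (Icc a b ×ˢ Icc c d)) :
    IntegrableOn f (Ioc a b ×ˢ Ioc c d) volume :=
  (hf.integrableOn_compact (isCompact_Icc.prod isCompact_Icc)).mono_set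
    (prod_mono Ioc_subset_Icc_self Ioc_subset_Icc_self)

lemma iter_xt (hab : a ≤ b) (hcd : c ≤ d) (hf : ContinuousOn f (Icc a b ×ˢ Icc c d)) :
    ∫ z in Ioc a b ×ˢ Ioc c d, f z = ∫ x in a..b, ∫ t in c..d, f (x, t) := by
  have h := iter_int hf
  rw [Measure.volume_eq_prod] at h ⊢
  rw [setIntegral_prod _ h, intervalIntegral.integral_of_le hab]
  simp_rw [intervalIntegral.integral_of_le hcd]

lemma iter_tx (hab : a ≤ b) (hcd : c ≤ d) (hf : ContinuousOn f (Icc a b ×ˢ Icc c d)) :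
    ∫ z in Ioc a b ×ˢ Ioc c d, f z = ∫ t in c..d, ∫ x in a..b, f (x, t) := by
  rw [iter_xt hab hcd hf]
  refine MeasureTheory.intervalIntegral_intervalIntegral_swap (F := fun x t => f (x, t)) ?_
  rw [uIoc_of_le hab, uIoc_of_le hcd]
  exact iter_int hf

lemma iter_int_t (hab : a ≤ b) (hcd : c ≤ d) (hf : ContinuousOn f (Icc a b ×ˢ Icc c d)) :
    IntervalIntegrable (fun t => ∫ x in a..b, f (x, t)) volume c d := by
  have h := iter_int hf
  rw [Measure.volume_eq_prod, IntegrableOn, ← Measure.prod_restrict] at h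
  have h2 := h.integral_prod_right
  rw [intervalIntegrable_iff_integrableOn_Ioc_of_le hcd]
  simp_rw [intervalIntegral.integral_of_le hab]
  exact h2

end iter

section
variable {r : ℝ} {F : ℂ → ℂ}

lemma cont_pt_comp {g : ℂ → ℝ} {a b ρ : ℝ} (ha : 0 < a) (hb : b < r) (hρ : ρ < r)
    (hg : ContinuousOn g (rect r)) :
    ContinuousOn (fun z : ℝ × ℝ => g (pt z)) (Icc a b ×ˢ Icc (-ρ) ρ) := by
  refine hg.comp continuous_pt.continuousOn ?_
  rintro ⟨x, t⟩ ⟨hx, ht⟩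
  refine ⟨by simpa using ha.trans_le hx.1, by simpa using hx.2.trans_lt hb, ?_⟩
  have : |t| ≤ ρ := abs_le.2 ht
  simpa using this.trans_lt hρ

lemma green {η : ℝ} (hη : 0 < η) (hF : DifferentiableOn ℂ F (rect r)) {ε x1 ρ : ℝ} (hε : 0 < ε)
    (hε1 : ε ≤ x1) (hx1 : x1 < r) (hρ : 0 < ρ) (hρr : ρ < r) :
    0 ≤ (∫ t in -ρ..ρ, chi ρ t * (((x1 - ε) + (x1 - ε) ^ 2) * Ux F η (pt (x1, t)) -
        (1 + 2 * (x1 - ε)) * UU η (F (pt (x1, t))) + UU η (F (pt (ε, t))))) +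
      ∫ x in ε..x1, ∫ t in -ρ..ρ,
        (2 * chi ρ t + ((x - ε) + (x - ε) ^ 2) * chi2 ρ t) * UU η (F (pt (x, t))) := by
  have hle : -ρ ≤ ρ := by linarith
  have cU : ContinuousOn (fun z : ℝ × ℝ => UU η (F (pt z))) (Icc ε x1 ×ˢ Icc (-ρ) ρ) :=
    cont_pt_comp (g := fun z => UU η (F z)) hε hx1 hρr (cont_UU hη hF.continuousOn)
  have cUxx : ContinuousOn (fun z : ℝ × ℝ => Uxx F η (pt z)) (Icc ε x1 ×ˢ Icc (-ρ) ρ) :=
    cont_pt_comp hε hx1 hρr (cont_Uxx hη (isOpen_rect r) hF)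
  have cUtt : ContinuousOn (fun z : ℝ × ℝ => Utt F η (pt z)) (Icc ε x1 ×ˢ Icc (-ρ) ρ) :=
    cont_pt_comp hε hx1 hρr (cont_Utt hη (isOpen_rect r) hF)
  have cp : Continuous fun z : ℝ × ℝ => (z.1 - ε) + (z.1 - ε) ^ 2 := by fun_prop
  have cchi : Continuous fun z : ℝ × ℝ => chi ρ z.2 := (continuous_chi ρ).comp continuous_snd
  have cchi2 : Continuous fun z : ℝ × ℝ => chi2 ρ z.2 := (continuous_chi2 ρ).comp continuous_snd
  set A : ℝ × ℝ → ℝ := fun z => chi ρ z.2 * (((z.1 - ε) + (z.1 - ε) ^ 2) * Uxx F η (pt z)) with hA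
  set B : ℝ × ℝ → ℝ := fun z => ((z.1 - ε) + (z.1 - ε) ^ 2) * (chi ρ z.2 * Utt F η (pt z)) with hB
  set D : ℝ × ℝ → ℝ := fun z => chi ρ z.2 * (2 * UU η (F (pt z))) with hD
  set E : ℝ × ℝ → ℝ := fun z => ((z.1 - ε) + (z.1 - ε) ^ 2) * (chi2 ρ z.2 * UU η (F (pt z))) with hE
  have cA : ContinuousOn A (Icc ε x1 ×ˢ Icc (-ρ) ρ) :=
    cchi.continuousOn.mul (cp.continuousOn.mul cUxx)
  have cB : ContinuousOn B (Icc ε x1 ×ˢ Icc (-ρ) ρ) :=
    cp.continuousOn.mul (cchi.continuousOn.mul cUtt)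
  have cD : ContinuousOn D (Icc ε x1 ×ˢ Icc (-ρ) ρ) :=
    cchi.continuousOn.mul (continuousOn_const.mul cU)
  have cE : ContinuousOn E (Icc ε x1 ×ˢ Icc (-ρ) ρ) :=
    cp.continuousOn.mul (cchi2.continuousOn.mul cU)
  -- positivity
  have hpos : 0 ≤ ∫ z in Ioc ε x1 ×ˢ Ioc (-ρ) ρ, (A z + B z) := by
    refine setIntegral_nonneg (measurableSet_Ioc.prod measurableSet_Ioc) ?_
    rintro ⟨x, t⟩ ⟨hx, ht⟩
    have h1 : A (x, t) + B (x, t) = ((x - ε) + (x - ε) ^ 2) * chi ρ t *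
        (Uxx F η (pt (x, t)) + Utt F η (pt (x, t))) := by
      simp only [hA, hB]; ring
    rw [h1]
    have h2 : 0 ≤ x - ε := by have := hx.1; simp only at this; linarith
    exact mul_nonneg (mul_nonneg (by positivity) (chi_nonneg _ _)) (lap_pos hη _)
  rw [integral_add (iter_int cA) (iter_int cB)] at hpos
  -- the first integral
  have hint1 : IntervalIntegrable (fun t => chi ρ t * (((x1 - ε) + (x1 - ε) ^ 2) *
      Ux F η (pt (x1, t)) - (1 + 2 * (x1 - ε)) * UU η (F (pt (x1, t))) +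
        UU η (F (pt (ε, t))))) volume (-ρ) ρ := by
    refine ContinuousOn.intervalIntegrable ?_
    rw [uIcc_of_le hle]
    have m : ∀ x, 0 < x → x < r → MapsTo (fun t : ℝ => pt (x, t)) (Icc (-ρ) ρ) (rect r) := by
      intro x h0 h1 t ht
      have : |t| ≤ ρ := abs_le.2 ht
      exact ⟨by simpa using h0, by simpa using h1, by simpa using this.trans_lt hρr⟩
    have hc : ∀ x : ℝ, ContinuousOn (fun t : ℝ => pt (x, t)) (Icc (-ρ) ρ) := fun x =>
      (continuous_pt.comp (by fun_prop)).continuousOn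
    refine (continuous_chi ρ).continuousOn.mul (((continuousOn_const.mul ?_).sub
      (continuousOn_const.mul ?_)).add ?_)
    · exact (cont_Ux hη (isOpen_rect r) hF).comp (hc x1) (m x1 (hε.trans_le hε1) hx1)
    · exact (cont_UU hη hF.continuousOn).comp (hc x1) (m x1 (hε.trans_le hε1) hx1)
    · exact (cont_UU hη hF.continuousOn).comp (hc ε) (m ε hε (hε1.trans_lt hx1))
  have eA : ∫ z in Ioc ε x1 ×ˢ Ioc (-ρ) ρ, A z =
      (∫ t in -ρ..ρ, chi ρ t * (((x1 - ε) + (x1 - ε) ^ 2) * Ux F η (pt (x1, t)) -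
        (1 + 2 * (x1 - ε)) * UU η (F (pt (x1, t))) + UU η (F (pt (ε, t))))) +
      ∫ z in Ioc ε x1 ×ˢ Ioc (-ρ) ρ, D z := by
    rw [iter_tx hε1 hle cA, iter_tx hε1 hle cD,
      ← intervalIntegral.integral_add hint1 (iter_int_t hε1 hle cD)]
    refine intervalIntegral.integral_congr ?_
    intro t ht
    rw [uIcc_of_le hle] at ht
    have ht1 : |t| < r := (abs_le.2 ht).trans_lt hρr
    simp only [hA, hD]
    rw [intervalIntegral.integral_const_mul, intervalIntegral.integral_const_mul,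
      step_x hη hF hε hε1 hx1 ht1]
    ring
  have eB : ∫ z in Ioc ε x1 ×ˢ Ioc (-ρ) ρ, B z = ∫ z in Ioc ε x1 ×ˢ Ioc (-ρ) ρ, E z := by
    rw [iter_xt hε1 hle cB, iter_xt hε1 hle cE]
    refine intervalIntegral.integral_congr ?_
    intro x hx
    rw [uIcc_of_le hε1] at hx
    simp only [hB, hE]
    rw [intervalIntegral.integral_const_mul, intervalIntegral.integral_const_mul,
      step_t hη hF (hε.trans_le hx.1) (hx.2.trans_lt hx1) hρ hρr]
  rw [eA, eB, add_assoc, ← integral_add (iter_int cD) (iter_int cE)] at hpos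
  have eDE : ∫ z in Ioc ε x1 ×ˢ Ioc (-ρ) ρ, (D z + E z) = ∫ x in ε..x1, ∫ t in -ρ..ρ,
        (2 * chi ρ t + ((x - ε) + (x - ε) ^ 2) * chi2 ρ t) * UU η (F (pt (x, t))) := by
    rw [iter_xt (f := fun z => D z + E z) hε1 hle (cD.add cE)]
    refine intervalIntegral.integral_congr fun x _ => ?_
    refine intervalIntegral.integral_congr fun t _ => ?_
    simp only [hD, hE]
    ring
  rw [eDE] at hpos
  exact hpos

lemma UU_le_one {η : ℝ} (hη : 0 < η) (hη1 : η ≤ 1) (w : ℂ) : UU η w ≤ UU 1 w := by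
  unfold UU
  have : Real.log (‖w‖ ^ 2 + η ^ 2) ≤ Real.log (‖w‖ ^ 2 + 1 ^ 2) :=
    Real.log_le_log (pos_A hη w) (by nlinarith)
  exact mul_le_mul_of_nonneg_left this (by norm_num)

lemma UU_one_nonneg (w : ℂ) : 0 ≤ UU 1 w := by
  unfold UU
  have : 0 ≤ Real.log (‖w‖ ^ 2 + 1 ^ 2) := Real.log_nonneg (by nlinarith [sq_nonneg ‖w‖])
  exact mul_nonneg (by norm_num) this

/-- the double integral is bounded above -/
lemma double_le {η : ℝ} (hη : 0 < η) (hη1 : η ≤ 1) (hF : DifferentiableOn ℂ F (rect r))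
    {ε x1 ρ C : ℝ} (hε : 0 < ε)
    (hε1 : ε ≤ x1) (hx1 : x1 < r) (hρ : 0 < ρ) (hρr : ρ < r)
    (hw : 11 * ((x1 - ε) + (x1 - ε) ^ 2) ≤ 2 * ρ ^ 2)
    (hC : ∀ x, 0 < x → x < r → ∫ t in -ρ..ρ, UU 1 (F (pt (x, t))) ≤ C) :
    ∫ x in ε..x1, ∫ t in -ρ..ρ,
        (2 * chi ρ t + ((x - ε) + (x - ε) ^ 2) * chi2 ρ t) * UU η (F (pt (x, t))) ≤
      12 * ρ ^ 8 * C * (x1 - ε) := by
  have hle : -ρ ≤ ρ := by linarith
  have cU : ContinuousOn (fun z : ℝ × ℝ => UU η (F (pt z))) (Icc ε x1 ×ˢ Icc (-ρ) ρ) :=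
    cont_pt_comp (g := fun z => UU η (F z)) hε hx1 hρr (cont_UU hη hF.continuousOn)
  have cU1 : ContinuousOn (fun z : ℝ × ℝ => UU 1 (F (pt z))) (Icc ε x1 ×ˢ Icc (-ρ) ρ) :=
    cont_pt_comp (g := fun z => UU 1 (F z)) hε hx1 hρr (cont_UU one_pos hF.continuousOn)
  have cW : Continuous fun z : ℝ × ℝ => 2 * chi ρ z.2 + ((z.1 - ε) + (z.1 - ε) ^ 2) * chi2 ρ z.2 := by
    have cchi : Continuous fun z : ℝ × ℝ => chi ρ z.2 := (continuous_chi ρ).comp continuous_snd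
    have cchi2 : Continuous fun z : ℝ × ℝ => chi2 ρ z.2 := (continuous_chi2 ρ).comp continuous_snd
    fun_prop
  have c1 : ContinuousOn (fun z : ℝ × ℝ => (2 * chi ρ z.2 + ((z.1 - ε) + (z.1 - ε) ^ 2) *
      chi2 ρ z.2) * UU η (F (pt z))) (Icc ε x1 ×ˢ Icc (-ρ) ρ) := cW.continuousOn.mul cU
  have c2 : ContinuousOn (fun z : ℝ × ℝ => 12 * ρ ^ 8 * UU 1 (F (pt z)))
      (Icc ε x1 ×ˢ Icc (-ρ) ρ) := continuousOn_const.mul cU1
  rw [← iter_xt (f := fun z : ℝ × ℝ => (2 * chi ρ z.2 + ((z.1 - ε) + (z.1 - ε) ^ 2) *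
      chi2 ρ z.2) * UU η (F (pt z))) hε1 hle c1]
  calc ∫ z in Ioc ε x1 ×ˢ Ioc (-ρ) ρ, (2 * chi ρ z.2 + ((z.1 - ε) + (z.1 - ε) ^ 2) *
      chi2 ρ z.2) * UU η (F (pt z))
      ≤ ∫ z in Ioc ε x1 ×ˢ Ioc (-ρ) ρ, 12 * ρ ^ 8 * UU 1 (F (pt z)) := by
        refine setIntegral_mono_on (iter_int c1) (iter_int c2)
          (measurableSet_Ioc.prod measurableSet_Ioc) ?_
        rintro ⟨x, t⟩ ⟨hx, ht⟩
        simp only at hx ht ⊢
        have ht1 : |t| ≤ ρ := abs_le.2 ⟨ht.1.le, ht.2⟩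
        have hx0 : 0 ≤ x - ε := by linarith [hx.1]
        have hx2 : x - ε ≤ x1 - ε := by linarith [hx.2]
        have hp0 : 0 ≤ (x - ε) + (x - ε) ^ 2 := by positivity
        have hp1 : 11 * ((x - ε) + (x - ε) ^ 2) ≤ 2 * ρ ^ 2 := by
          have : (x - ε) ^ 2 ≤ (x1 - ε) ^ 2 := pow_le_pow_left₀ hx0 hx2 2
          linarith
        have w0 := weight_nonneg hρ ht1 hp0 hp1
        have w1 := weight_le hρ ht1 hp0 hp1
        calc (2 * chi ρ t + ((x - ε) + (x - ε) ^ 2) * chi2 ρ t) * UU η (F (pt (x, t)))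
            ≤ (2 * chi ρ t + ((x - ε) + (x - ε) ^ 2) * chi2 ρ t) * UU 1 (F (pt (x, t))) :=
              mul_le_mul_of_nonneg_left (UU_le_one hη hη1 _) w0
          _ ≤ 12 * ρ ^ 8 * UU 1 (F (pt (x, t))) :=
              mul_le_mul_of_nonneg_right w1 (UU_one_nonneg _)
    _ = ∫ x in ε..x1, ∫ t in -ρ..ρ, 12 * ρ ^ 8 * UU 1 (F (pt (x, t))) := iter_xt hε1 hle c2
    _ ≤ ∫ x in ε..x1, 12 * ρ ^ 8 * C := by
        have hI : IntervalIntegrable (fun x => ∫ t in -ρ..ρ, 12 * ρ ^ 8 * UU 1 (F (pt (x, t))))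
            volume ε x1 := by
          have h := iter_int c2
          rw [Measure.volume_eq_prod, IntegrableOn, ← Measure.prod_restrict] at h
          have h2 := h.integral_prod_left
          rw [intervalIntegrable_iff_integrableOn_Ioc_of_le hε1]
          simp_rw [intervalIntegral.integral_of_le hle]
          exact h2
        refine intervalIntegral.integral_mono_on hε1 hI intervalIntegrable_const fun x hx => ?_
        rw [intervalIntegral.integral_const_mul]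
        exact mul_le_mul_of_nonneg_left (hC x (hε.trans_le hx.1) (hx.2.trans_lt hx1))
          (by positivity)
    _ = 12 * ρ ^ 8 * C * (x1 - ε) := by
        rw [intervalIntegral.integral_const, smul_eq_mul]; ring

end

end Pool.Agent.TH339.MP
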