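import Pool.Agent.TH339.MP.X3

/-!
# Local uniqueness of boundary values, part 4: the uniqueness theorem
-/

set_option autoImplicit false

namespace Pool.Agent.TH339.MP

open Complex Set Filter Topology MeasureTheory

section
variable {r : ℝ} {F : ℂ → ℂ}

lemma pt_mem {x t ρ : ℝ} (hx : 0 < x) (hx1 : x < r) (ht : |t| ≤ ρ) (hρr : ρ < r) :
    pt (x, t) ∈ rect r :=
  ⟨by simpa using hx, by simpa using hx1, by simpa using ht.trans_lt hρr⟩

/-- a nonzero analytic function has no zero on some vertical segment -/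
lemma exists_line (hF : DifferentiableOn ℂ F (rect r)) (hne : ¬ ∀ z ∈ rect r, F z = 0)
    {δ ρ : ℝ} (hδ : 0 < δ) (hδr : δ < r) (hρr : ρ < r) :
    ∃ x1 ∈ Ioo (δ / 2) δ, ∀ t, |t| ≤ ρ → F (pt (x1, t)) ≠ 0 := by
  by_contra hcon
  push Not at hcon
  choose! t ht1 ht2 using hcon
  -- the compact set
  set K : Set ℂ := pt '' (Icc (δ / 2) δ ×ˢ Icc (-ρ) ρ) with hK
  have hKc : IsCompact K := (isCompact_Icc.prod isCompact_Icc).image continuous_pt
  have hKr : K ⊆ rect r := by
    rintro _ ⟨⟨x, s⟩, ⟨hx, hs⟩, rfl⟩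
    exact pt_mem (by linarith [hx.1]) (hx.2.trans_lt hδr) (abs_le.2 hs) hρr
  set S : Set ℂ := (fun x => pt (x, t x)) '' Ioo (δ / 2) δ with hS
  have hSinf : S.Infinite := by
    refine (Ioo_infinite (by linarith : δ / 2 < δ)).image ?_
    intro x _ y _ hxy
    have := congrArg Complex.re hxy
    simpa using this
  have hSK : S ⊆ K := by
    rintro _ ⟨x, hx, rfl⟩
    exact ⟨(x, t x), ⟨⟨hx.1.le, hx.2.le⟩, abs_le.1 (ht1 x hx)⟩, rfl⟩
  obtain ⟨z0, hz0, hacc⟩ := hSinf.exists_accPt_of_subset_isCompact hKc hSK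
  have hfr : ∃ᶠ z in 𝓝[≠] z0, F z = 0 := by
    rw [accPt_iff_frequently] at hacc
    rw [frequently_nhdsWithin_iff]
    refine hacc.mono ?_
    rintro y ⟨hy, x, hx, rfl⟩
    exact ⟨ht2 x hx, hy⟩
  have hA : AnalyticOnNhd ℂ F (rect r) := hF.analyticOnNhd (isOpen_rect r)
  have := hA.eqOn_zero_of_preconnected_of_frequently_eq_zero (convex_rect r).isPreconnected
    (hKr hz0) hfr
  exact hne this

/-- the boundary integral is bounded below -/
lemma lower_bound (hF : DifferentiableOn ℂ F (rect r)) (hne : ¬ ∀ z ∈ rect r, F z = 0)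
    {ρ C : ℝ} (hρ : 0 < ρ) (hρr : ρ < r)
    (hC : ∀ x, 0 < x → x < r → ∫ t in -ρ..ρ, UU 1 (F (pt (x, t))) ≤ C) :
    ∃ x1, 0 < x1 ∧ x1 < r ∧ ∃ K : ℝ, ∀ η, 0 < η → η ≤ 1 → ∀ ε, 0 < ε → ε < x1 →
      -K ≤ ∫ t in -ρ..ρ, chi ρ t * UU η (F (pt (ε, t))) := by
  have hle : -ρ ≤ ρ := by linarith
  obtain ⟨δ, hδ, hδr, hδ1⟩ : ∃ δ, 0 < δ ∧ δ < r ∧ 11 * (δ + δ ^ 2) ≤ 2 * ρ ^ 2 := by
    have hr : 0 < r := hρ.trans hρr
    refine ⟨min (r / 2) (min 1 (ρ ^ 2 / 11)), by positivity, ?_, ?_⟩
    · exact (min_le_left _ _).trans_lt (by linarith)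
    · set d := min (r / 2) (min 1 (ρ ^ 2 / 11)) with hd
      have h0 : 0 < d := by positivity
      have h1 : d ≤ 1 := (min_le_right _ _).trans (min_le_left _ _)
      have h2 : d ≤ ρ ^ 2 / 11 := (min_le_right _ _).trans (min_le_right _ _)
      nlinarith
  obtain ⟨x1, hx1, hnz⟩ := exists_line hF hne hδ hδr hρr
  have hx10 : 0 < x1 := by linarith [hx1.1]
  have hx1r : x1 < r := hx1.2.trans hδr
  -- bounds on the line
  have mline : MapsTo (fun t : ℝ => pt (x1, t)) (Icc (-ρ) ρ) (rect r) := fun t ht =>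
    pt_mem hx10 hx1r (abs_le.2 ht) hρr
  have hc : ∀ x : ℝ, ContinuousOn (fun t : ℝ => pt (x, t)) (Icc (-ρ) ρ) := fun x =>
    (continuous_pt.comp (by fun_prop)).continuousOn
  have cF : ContinuousOn (fun t : ℝ => ‖F (pt (x1, t))‖) (Icc (-ρ) ρ) :=
    (hF.continuousOn.comp (hc x1) mline).norm
  have cF1 : ContinuousOn (fun t : ℝ => ‖deriv F (pt (x1, t))‖) (Icc (-ρ) ρ) :=
    ((diff_deriv (isOpen_rect r) hF).continuousOn.comp (hc x1) mline).norm
  have hne' : (Icc (-ρ) ρ).Nonempty := nonempty_Icc.2 hle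
  obtain ⟨t0, ht0, hmin⟩ := isCompact_Icc.exists_isMinOn hne' cF
  obtain ⟨t2, ht2, hmax⟩ := isCompact_Icc.exists_isMaxOn hne' cF1
  set m := ‖F (pt (x1, t0))‖ with hm
  have hm0 : 0 < m := norm_pos_iff.2 (hnz t0 (abs_le.2 ht0))
  set M := ‖deriv F (pt (x1, t2))‖ with hM
  have hM0 : 0 ≤ M := norm_nonneg _
  have hmle : ∀ t ∈ Icc (-ρ) ρ, m ≤ ‖F (pt (x1, t))‖ := fun t ht => hmin ht
  have hMle : ∀ t ∈ Icc (-ρ) ρ, ‖deriv F (pt (x1, t))‖ ≤ M := fun t ht => hmax ht
  have hC0 : 0 ≤ C := by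
    refine le_trans ?_ (hC x1 hx10 hx1r)
    exact intervalIntegral.integral_nonneg hle fun t _ => UU_one_nonneg _
  set Q : ℝ := (δ + δ ^ 2) * (M / m) + (1 + 2 * δ) * |Real.log m| with hQ
  have hQ0 : 0 ≤ Q := by positivity
  refine ⟨x1, hx10, hx1r, 12 * ρ ^ 8 * C * δ + ρ ^ 8 * Q * (2 * ρ), ?_⟩
  intro η hη hη1 ε hε hεx
  have hεr : ε < r := hεx.trans hx1r
  have mε : MapsTo (fun t : ℝ => pt (ε, t)) (Icc (-ρ) ρ) (rect r) := fun t ht =>
    pt_mem hε hεr (abs_le.2 ht) hρr
  have h1 := green hη hF hε hεx.le hx1r hρ hρr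
  have hd0 : 0 ≤ x1 - ε := by linarith
  have hd1 : x1 - ε ≤ δ := by linarith [hx1.2]
  have hd2 : (x1 - ε) ^ 2 ≤ δ ^ 2 := pow_le_pow_left₀ hd0 hd1 2
  have h2 := double_le hη hη1 hF hε hεx.le hx1r hρ hρr (by linarith) hC
  have h3 : 12 * ρ ^ 8 * C * (x1 - ε) ≤ 12 * ρ ^ 8 * C * δ :=
    mul_le_mul_of_nonneg_left hd1 (by positivity)
  have i1 : IntervalIntegrable (fun t => chi ρ t * UU η (F (pt (ε, t)))) volume (-ρ) ρ := by
    refine ContinuousOn.intervalIntegrable ?_
    rw [uIcc_of_le hle]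
    exact (continuous_chi ρ).continuousOn.mul ((cont_UU hη hF.continuousOn).comp (hc ε) mε)
  have i2 : IntervalIntegrable (fun t => chi ρ t * (((x1 - ε) + (x1 - ε) ^ 2) *
      Ux F η (pt (x1, t)) - (1 + 2 * (x1 - ε)) * UU η (F (pt (x1, t))))) volume (-ρ) ρ := by
    refine ContinuousOn.intervalIntegrable ?_
    rw [uIcc_of_le hle]
    refine (continuous_chi ρ).continuousOn.mul ((continuousOn_const.mul ?_).sub
      (continuousOn_const.mul ?_))
    · exact (cont_Ux hη (isOpen_rect r) hF).comp (hc x1) mline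
    · exact (cont_UU hη hF.continuousOn).comp (hc x1) mline
  have h4 : ∫ t in -ρ..ρ, chi ρ t * (((x1 - ε) + (x1 - ε) ^ 2) *
      Ux F η (pt (x1, t)) - (1 + 2 * (x1 - ε)) * UU η (F (pt (x1, t)))) ≤
      ρ ^ 8 * Q * (2 * ρ) := by
    calc ∫ t in -ρ..ρ, chi ρ t * (((x1 - ε) + (x1 - ε) ^ 2) *
      Ux F η (pt (x1, t)) - (1 + 2 * (x1 - ε)) * UU η (F (pt (x1, t)))) ≤
        ∫ _t in -ρ..ρ, ρ ^ 8 * Q := by
          refine intervalIntegral.integral_mono_on hle i2 intervalIntegrable_const fun t ht => ?_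
          have a1 : Ux F η (pt (x1, t)) ≤ M / m := by
            have b1 := hmle t ht
            have b2 := hMle t ht
            set w := F (pt (x1, t)) with hw
            set w' := deriv F (pt (x1, t)) with hw'
            have b0 : 0 < ‖w‖ := hm0.trans_le b1
            unfold Ux
            rw [← hw, ← hw', div_le_div_iff₀ (pos_A hη w) hm0]
            have b3 : inner ℝ w w' ≤ ‖w‖ * M :=
              (real_inner_le_norm w w').trans (mul_le_mul_of_nonneg_left b2 (norm_nonneg _))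
            calc inner ℝ w w' * m ≤ (‖w‖ * M) * m := mul_le_mul_of_nonneg_right b3 hm0.le
              _ ≤ (‖w‖ * M) * ‖w‖ := mul_le_mul_of_nonneg_left b1 (by positivity)
              _ = M * ‖w‖ ^ 2 := by ring
              _ ≤ M * (‖w‖ ^ 2 + η ^ 2) := mul_le_mul_of_nonneg_left (by nlinarith) hM0
          have a2 : -|Real.log m| ≤ UU η (F (pt (x1, t))) := by
            have b1 := hmle t ht
            have b2 : m ^ 2 ≤ ‖F (pt (x1, t))‖ ^ 2 + η ^ 2 := by
              have := pow_le_pow_left₀ hm0.le b1 2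
              nlinarith
            have b3 : Real.log (m ^ 2) ≤ Real.log (‖F (pt (x1, t))‖ ^ 2 + η ^ 2) :=
              Real.log_le_log (by positivity) b2
            have b4 : Real.log (m ^ 2) = 2 * Real.log m := by
              rw [Real.log_pow]; norm_num
            have b5 := neg_abs_le (Real.log m)
            have b6 : Real.log m ≤ UU η (F (pt (x1, t))) := by
              unfold UU
              calc Real.log m = (1 / 2) * Real.log (m ^ 2) := by rw [b4]; ring
                _ ≤ _ := mul_le_mul_of_nonneg_left b3 (by norm_num)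
            exact b5.trans b6
          have a3 : ((x1 - ε) + (x1 - ε) ^ 2) * Ux F η (pt (x1, t)) ≤ (δ + δ ^ 2) * (M / m) := by
            calc ((x1 - ε) + (x1 - ε) ^ 2) * Ux F η (pt (x1, t)) ≤
                ((x1 - ε) + (x1 - ε) ^ 2) * (M / m) :=
                  mul_le_mul_of_nonneg_left a1 (by positivity)
              _ ≤ (δ + δ ^ 2) * (M / m) := mul_le_mul_of_nonneg_right (by linarith) (by positivity)
          have a4 : -((1 + 2 * (x1 - ε)) * UU η (F (pt (x1, t)))) ≤
              (1 + 2 * δ) * |Real.log m| := by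
            calc -((1 + 2 * (x1 - ε)) * UU η (F (pt (x1, t)))) =
                (1 + 2 * (x1 - ε)) * (-UU η (F (pt (x1, t)))) := by ring
              _ ≤ (1 + 2 * (x1 - ε)) * |Real.log m| :=
                  mul_le_mul_of_nonneg_left (by linarith) (by positivity)
              _ ≤ (1 + 2 * δ) * |Real.log m| :=
                  mul_le_mul_of_nonneg_right (by linarith) (abs_nonneg _)
          have a5 : ((x1 - ε) + (x1 - ε) ^ 2) *
              Ux F η (pt (x1, t)) - (1 + 2 * (x1 - ε)) * UU η (F (pt (x1, t))) ≤ Q := by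
            rw [hQ]; linarith
          calc _ ≤ chi ρ t * Q := mul_le_mul_of_nonneg_left a5 (chi_nonneg _ _)
            _ ≤ ρ ^ 8 * Q := mul_le_mul_of_nonneg_right (chi_le (abs_le.2 ht)) hQ0
      _ = ρ ^ 8 * Q * (2 * ρ) := by
          rw [intervalIntegral.integral_const, smul_eq_mul]; ring
  have h5 : ∫ t in -ρ..ρ, chi ρ t * (((x1 - ε) + (x1 - ε) ^ 2) * Ux F η (pt (x1, t)) -
        (1 + 2 * (x1 - ε)) * UU η (F (pt (x1, t))) + UU η (F (pt (ε, t)))) =
      (∫ t in -ρ..ρ, chi ρ t * (((x1 - ε) + (x1 - ε) ^ 2) *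
      Ux F η (pt (x1, t)) - (1 + 2 * (x1 - ε)) * UU η (F (pt (x1, t))))) +
      ∫ t in -ρ..ρ, chi ρ t * UU η (F (pt (ε, t))) := by
    rw [← intervalIntegral.integral_add i2 i1]
    refine intervalIntegral.integral_congr fun t _ => ?_
    ring
  rw [h5] at h1
  linarith

/-- clamp to `[-ρ, ρ]` -/
noncomputable def clamp (ρ t : ℝ) : ℝ := max (-ρ) (min t ρ)

lemma continuous_clamp (ρ : ℝ) : Continuous (clamp ρ) := by unfold clamp; fun_prop

lemma clamp_of {ρ t : ℝ} (h : t ∈ Icc (-ρ) ρ) : clamp ρ t = t := by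
  unfold clamp; rw [min_eq_left h.2, max_eq_right h.1]

lemma abs_clamp {ρ : ℝ} (hρ : 0 ≤ ρ) (t : ℝ) : |clamp ρ t| ≤ ρ := by
  unfold clamp
  rw [abs_le]
  exact ⟨le_max_left _ _, max_le (by linarith) (min_le_right _ _)⟩

/-- **Local uniqueness of boundary values.** -/
theorem local_uniqueness (hF : DifferentiableOn ℂ F (rect r))
    {ρ C : ℝ} (hρ : 0 < ρ) (hρr : ρ < r)
    (hC : ∀ x, 0 < x → x < r → ∫ t in -ρ..ρ, UU 1 (F (pt (x, t))) ≤ C)
    {Z : Set ℝ} (hZ : Z ⊆ Icc (-ρ) ρ) (hZ0 : volume Z ≠ 0)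
    (hlim : ∀ t ∈ Z, Tendsto (fun x => F (pt (x, t))) (𝓝[>] 0) (𝓝 0)) :
    ∀ z ∈ rect r, F z = 0 := by
  by_contra hne
  have hle : -ρ ≤ ρ := by linarith
  obtain ⟨x1, hx10, hx1r, K, hK⟩ := lower_bound hF hne hρ hρr hC
  -- the sequence
  set e : ℕ → ℝ := fun n => x1 / ((n : ℝ) + 2) with he
  have he0 : ∀ n, 0 < e n := fun n => by positivity
  have he1 : ∀ n, e n < x1 := fun n => by
    rw [he]; simp only
    rw [div_lt_iff₀ (by positivity)]
    nlinarith [(Nat.cast_nonneg n : (0 : ℝ) ≤ n)]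
  have heT : Tendsto e atTop (𝓝[>] 0) := by
    rw [tendsto_nhdsWithin_iff]
    refine ⟨?_, Eventually.of_forall fun n => he0 n⟩
    have : Tendsto (fun n : ℕ => (n : ℝ) + 2) atTop atTop :=
      tendsto_atTop_add_const_right _ _ tendsto_natCast_atTop_atTop
    exact this.const_div_atTop x1
  -- the measure of chi on Z
  set c0 : ENNReal := ∫⁻ t in Z, ENNReal.ofReal (chi ρ t) with hc0
  have hmeas_chi : Measurable fun t => ENNReal.ofReal (chi ρ t) :=
    ENNReal.measurable_ofReal.comp (continuous_chi ρ).measurable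
  have hc0pos : c0 ≠ 0 := by
    intro h0
    rw [hc0, lintegral_eq_zero_iff hmeas_chi] at h0
    have h1 : (volume.restrict Z) {t | ENNReal.ofReal (chi ρ t) ≠ 0} = 0 := h0
    have hms : MeasurableSet {t | ENNReal.ofReal (chi ρ t) ≠ 0} :=
      (hmeas_chi (measurableSet_singleton 0)).compl
    rw [Measure.restrict_apply hms] at h1
    apply hZ0
    have hsub : Z ⊆ ({t | ENNReal.ofReal (chi ρ t) ≠ 0} ∩ Z) ∪ {ρ, -ρ} := by
      intro t ht
      by_cases h : t = ρ ∨ t = -ρ
      · right; simpa using h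
      · left
        push Not at h
        refine ⟨?_, ht⟩
        have h2 := hZ ht
        have h3 : -ρ < t := lt_of_le_of_ne h2.1 (Ne.symm h.2)
        have h4 : t < ρ := lt_of_le_of_ne h2.2 h.1
        have h5 : 0 < ρ ^ 2 - t ^ 2 := by nlinarith
        have h6 : 0 < chi ρ t := by unfold chi; positivity
        exact (ENNReal.ofReal_pos.2 h6).ne'
    refine measure_mono_null hsub (measure_union_null h1 ?_)
    exact (Set.toFinite _).measure_zero _
  set K' : ℝ := ρ ^ 8 * C + K with hK'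
  obtain ⟨n0, hn0⟩ := ENNReal.exists_nat_mul_gt hc0pos (ENNReal.ofReal_ne_top (r := K'))
  set η : ℝ := Real.exp (-(n0 : ℝ)) with hηdef
  have hη : 0 < η := Real.exp_pos _
  have hη1 : η ≤ 1 := Real.exp_le_one_iff.2 (by simp)
  have hlogη : Real.log η = -(n0 : ℝ) := Real.log_exp _
  -- the functions
  set g : ℕ → ℝ → ℝ := fun n t => chi ρ t * (UU 1 (F (pt (e n, clamp ρ t))) -
    UU η (F (pt (e n, clamp ρ t)))) with hg
  have hgc : ∀ n, Continuous (g n) := by
    intro n
    have hm : MapsTo (fun t : ℝ => pt (e n, clamp ρ t)) univ (rect r) := fun t _ =>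
      pt_mem (he0 n) ((he1 n).trans hx1r) (abs_clamp hρ.le t) hρr
    have hc : ContinuousOn (fun t : ℝ => pt (e n, clamp ρ t)) univ :=
      (continuous_pt.comp (continuous_const.prodMk (continuous_clamp ρ))).continuousOn
    have c1 := (cont_UU one_pos hF.continuousOn).comp hc hm
    have c2 := (cont_UU hη hF.continuousOn).comp hc hm
    rw [continuousOn_univ] at c1 c2
    exact (continuous_chi ρ).mul (c1.sub c2)
  have hg0 : ∀ n t, 0 ≤ g n t := fun n t =>
    mul_nonneg (chi_nonneg _ _) (sub_nonneg.2 (UU_le_one hη hη1 _))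
  have hgint : ∀ n, ∫ t in Icc (-ρ) ρ, g n t ≤ K' := by
    intro n
    have m' : MapsTo (fun t : ℝ => pt (e n, t)) (Icc (-ρ) ρ) (rect r) := fun t ht =>
      pt_mem (he0 n) ((he1 n).trans hx1r) (abs_le.2 ht) hρr
    have hc : ContinuousOn (fun t : ℝ => pt (e n, t)) (Icc (-ρ) ρ) :=
      (continuous_pt.comp (by fun_prop)).continuousOn
    have c1 : ContinuousOn (fun t => chi ρ t * UU 1 (F (pt (e n, t)))) (uIcc (-ρ) ρ) := by
      rw [uIcc_of_le hle]
      exact (continuous_chi ρ).continuousOn.mul ((cont_UU one_pos hF.continuousOn).comp hc m')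
    have c2 : ContinuousOn (fun t => chi ρ t * UU η (F (pt (e n, t)))) (uIcc (-ρ) ρ) := by
      rw [uIcc_of_le hle]
      exact (continuous_chi ρ).continuousOn.mul ((cont_UU hη hF.continuousOn).comp hc m')
    have c3 : ContinuousOn (fun t => ρ ^ 8 * UU 1 (F (pt (e n, t)))) (uIcc (-ρ) ρ) := by
      rw [uIcc_of_le hle]
      exact continuousOn_const.mul ((cont_UU one_pos hF.continuousOn).comp hc m')
    have e1 : ∫ t in Icc (-ρ) ρ, g n t = (∫ t in -ρ..ρ, chi ρ t * UU 1 (F (pt (e n, t)))) -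
        ∫ t in -ρ..ρ, chi ρ t * UU η (F (pt (e n, t))) := by
      rw [integral_Icc_eq_integral_Ioc, ← intervalIntegral.integral_of_le hle,
        ← intervalIntegral.integral_sub c1.intervalIntegrable c2.intervalIntegrable]
      refine intervalIntegral.integral_congr fun t ht => ?_
      rw [uIcc_of_le hle] at ht
      simp only [hg]
      rw [clamp_of ht]
      ring
    have e2 : ∫ t in -ρ..ρ, chi ρ t * UU 1 (F (pt (e n, t))) ≤ ρ ^ 8 * C := by
      calc ∫ t in -ρ..ρ, chi ρ t * UU 1 (F (pt (e n, t))) ≤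
          ∫ t in -ρ..ρ, ρ ^ 8 * UU 1 (F (pt (e n, t))) := by
            refine intervalIntegral.integral_mono_on hle c1.intervalIntegrable
              c3.intervalIntegrable fun t ht => ?_
            exact mul_le_mul_of_nonneg_right (chi_le (abs_le.2 ht)) (UU_one_nonneg _)
        _ = ρ ^ 8 * ∫ t in -ρ..ρ, UU 1 (F (pt (e n, t))) := by
            rw [intervalIntegral.integral_const_mul]
        _ ≤ ρ ^ 8 * C := mul_le_mul_of_nonneg_left (hC _ (he0 n) ((he1 n).trans hx1r))
            (by positivity)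
    have e3 := hK η hη hη1 (e n) (he0 n) (he1 n)
    rw [e1, hK']
    linarith
  have hglint : ∀ n, ∫⁻ t in Icc (-ρ) ρ, ENNReal.ofReal (g n t) ≤ ENNReal.ofReal K' := by
    intro n
    rw [← ofReal_integral_eq_lintegral_ofReal]
    · exact ENNReal.ofReal_le_ofReal (hgint n)
    · exact (hgc n).continuousOn.integrableOn_compact isCompact_Icc
    · exact Eventually.of_forall fun t => hg0 n t
  have hgm : ∀ n, Measurable fun t => ENNReal.ofReal (g n t) := fun n =>
    ENNReal.measurable_ofReal.comp (hgc n).measurable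
  have hfatou := lintegral_liminf_le (μ := volume.restrict (Icc (-ρ) ρ)) (u := atTop) hgm
  have hR : liminf (fun n => ∫⁻ t in Icc (-ρ) ρ, ENNReal.ofReal (g n t)) atTop ≤
      ENNReal.ofReal K' := by
    have := liminf_le_liminf (u := fun n => ∫⁻ t in Icc (-ρ) ρ, ENNReal.ofReal (g n t))
      (v := fun _ : ℕ => ENNReal.ofReal K') (f := atTop) (Eventually.of_forall hglint)
    simpa using this
  have hL : (n0 : ENNReal) * c0 ≤ ∫⁻ t in Icc (-ρ) ρ, liminf (fun n => ENNReal.ofReal (g n t))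
      atTop := by
    calc (n0 : ENNReal) * c0 = ∫⁻ t in Z, (n0 : ENNReal) * ENNReal.ofReal (chi ρ t) := by
          rw [hc0, lintegral_const_mul _ hmeas_chi]
      _ ≤ ∫⁻ t in Z, liminf (fun n => ENNReal.ofReal (g n t)) atTop := by
          have hml : Measurable fun t => liminf (fun n => ENNReal.ofReal (g n t)) atTop :=
            Measurable.liminf hgm
          refine setLIntegral_mono hml fun t ht => ?_
          have htI := hZ ht
          have h1 : Tendsto (fun n => F (pt (e n, clamp ρ t))) atTop (𝓝 0) := by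
            rw [clamp_of htI]
            exact (hlim t ht).comp heT
          have h2 : ∀ η' : ℝ, 0 < η' → Tendsto (fun n => UU η' (F (pt (e n, clamp ρ t)))) atTop
              (𝓝 (Real.log η')) := by
            intro η' hη'
            have h3 : Continuous (UU η') := by
              unfold UU
              refine continuous_const.mul (Continuous.log (by fun_prop) fun w => (pos_A hη' w).ne')
            have h4 := (h3.tendsto 0).comp h1
            have h5 : UU η' 0 = Real.log η' := by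
              unfold UU
              rw [norm_zero, zero_pow two_ne_zero, zero_add, Real.log_pow]
              push_cast
              ring
            rw [h5] at h4
            exact h4
          have h6 : Tendsto (fun n => ENNReal.ofReal (g n t)) atTop
              (𝓝 (ENNReal.ofReal (chi ρ t * (Real.log 1 - Real.log η)))) :=
            (ENNReal.continuous_ofReal.tendsto _).comp
              (((h2 1 one_pos).sub (h2 η hη)).const_mul (chi ρ t))
          rw [h6.liminf_eq, Real.log_one, hlogη]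
          have h7 : chi ρ t * (0 - -(n0 : ℝ)) = (n0 : ℝ) * chi ρ t := by ring
          rw [h7, ENNReal.ofReal_mul (Nat.cast_nonneg _), ENNReal.ofReal_natCast]
      _ ≤ ∫⁻ t in Icc (-ρ) ρ, liminf (fun n => ENNReal.ofReal (g n t)) atTop :=
          lintegral_mono_set hZ
  exact absurd (hL.trans (hfatou.trans hR)) (not_le.2 hn0)

end

end Pool.Agent.TH339.MP
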