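import Pool.Agent.TH339.MP.X4
import Pool.Agent.TH339.MP.U3

/-!
# Local uniqueness of boundary values for Euler products
-/

set_option autoImplicit false

namespace Pool.Agent.TH339.MP

open Complex Set Filter Topology MeasureTheory

/-- the logarithm is dominated by a power -/
lemma UU_dom {B y r : ℝ} (hB : 1 ≤ B) (hr : 0 < r) (hr1 : r ≤ 1) {w : ℂ} (hy : 0 ≤ y)
    (hw : ‖w‖ ≤ B * (1 + y)) : UU 1 w ≤ Real.log 2 + Real.log B + (1 / r + (1 / r) * y ^ r) := by
  have hB0 : 0 < B := by linarith
  have h1 : ‖w‖ ^ 2 + 1 ^ 2 ≤ 4 * (B ^ 2 * (1 + y) ^ 2) := by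
    have h2 : ‖w‖ ^ 2 ≤ (B * (1 + y)) ^ 2 := pow_le_pow_left₀ (norm_nonneg _) hw 2
    have h3 : 1 ≤ B * (1 + y) := by nlinarith
    have h4 : 1 ≤ (B * (1 + y)) ^ 2 := one_le_pow₀ h3
    have h5 : (B * (1 + y)) ^ 2 = B ^ 2 * (1 + y) ^ 2 := by ring
    nlinarith
  have h2 : Real.log (‖w‖ ^ 2 + 1 ^ 2) ≤ Real.log (4 * (B ^ 2 * (1 + y) ^ 2)) :=
    Real.log_le_log (pos_A one_pos w) h1
  have h3 : Real.log (4 * (B ^ 2 * (1 + y) ^ 2)) =
      2 * (Real.log 2 + Real.log B + Real.log (1 + y)) := by
    rw [Real.log_mul (by norm_num) (by positivity), Real.log_mul (by positivity) (by positivity),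
      show (4 : ℝ) = 2 ^ 2 by norm_num, Real.log_pow, Real.log_pow, Real.log_pow]
    push_cast
    ring
  have h4 : Real.log (1 + y) ≤ (1 + y) ^ r / r := Real.log_le_rpow_div (by linarith) hr
  have h5 : (1 + y) ^ r ≤ 1 + y ^ r := by
    have := Real.rpow_add_le_add_rpow (a := 1) (b := y) zero_le_one hy hr.le hr1
    rwa [Real.one_rpow] at this
  have h6 : (1 + y) ^ r / r ≤ 1 / r + (1 / r) * y ^ r := by
    rw [div_le_iff₀ hr]
    have : (1 / r + 1 / r * y ^ r) * r = 1 + y ^ r := by field_simp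
    rw [this]
    exact h5
  have h7 : UU 1 w ≤ Real.log 2 + Real.log B + Real.log (1 + y) := by
    unfold UU
    calc 1 / 2 * Real.log (‖w‖ ^ 2 + 1 ^ 2) ≤
        1 / 2 * (2 * (Real.log 2 + Real.log B + Real.log (1 + y))) := by
          rw [← h3]; exact mul_le_mul_of_nonneg_left h2 (by norm_num)
      _ = _ := by ring
  linarith

section
variable {b : PP → ℂ} {M : ℝ}

/-- **Local uniqueness of boundary values** for `h · exp (FF b) - g`. -/
theorem unique_b (hb : ∀ x, ‖b x‖ ≤ M / (x.2 + 1 : ℕ)) {U : Set ℂ} (hU : IsOpen U)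
    (hUc : IsPreconnected (U ∩ {s : ℂ | 1 < s.re})) {h g : ℂ → ℂ} (hh : DifferentiableOn ℂ h U)
    (hg : DifferentiableOn ℂ g U) {Z : Set ℝ} (hZ : volume Z ≠ 0)
    (hZU : ∀ τ ∈ Z, (1 + τ * I : ℂ) ∈ U)
    (hlim : ∀ τ ∈ Z, Tendsto (fun x : ℝ => h (1 + τ * I + x) * Complex.exp (FF b (1 + τ * I + x)) -
      g (1 + τ * I + x)) (𝓝[>] 0) (𝓝 0)) :
    ∀ s ∈ U, 1 < s.re → h s * Complex.exp (FF b s) = g s := by
  have hM := M_nonneg hb
  obtain ⟨τ₁, hτ₁, hdens⟩ := exists_mem_forall_mem_nhdsWithin_pos_measure hZ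
  set w : ℂ := 1 + τ₁ * I with hw
  obtain ⟨d, hd, hdU⟩ := Metric.isOpen_iff.1 hU w (hZU τ₁ hτ₁)
  -- bounds for `h` and `g`
  have hcb : IsCompact (Metric.closedBall w (d / 2)) := isCompact_closedBall _ _
  have hcbU : Metric.closedBall w (d / 2) ⊆ U :=
    (Metric.closedBall_subset_ball (by linarith)).trans hdU
  obtain ⟨B1, hB1⟩ := hcb.exists_bound_of_continuousOn (hh.continuousOn.mono hcbU)
  obtain ⟨B2, hB2⟩ := hcb.exists_bound_of_continuousOn (hg.continuousOn.mono hcbU)
  set B : ℝ := max 1 (max B1 B2) with hB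
  have hB1' : ∀ z ∈ Metric.closedBall w (d / 2), ‖h z‖ ≤ B := fun z hz =>
    (hB1 z hz).trans ((le_max_left _ _).trans (le_max_right _ _))
  have hB2' : ∀ z ∈ Metric.closedBall w (d / 2), ‖g z‖ ≤ B := fun z hz =>
    (hB2 z hz).trans ((le_max_right _ _).trans (le_max_right _ _))
  have hBone : 1 ≤ B := le_max_left _ _
  set r : ℝ := min (d / 4) (1 / 2) with hr
  have hr0 : 0 < r := by positivity
  have hrd : r ≤ d / 4 := min_le_left _ _
  have hr2 : r ≤ 1 / 2 := min_le_right _ _
  set ρ : ℝ := r / 2 with hρ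
  have hρ0 : 0 < ρ := by positivity
  have hρr : ρ < r := by rw [hρ]; linarith
  have hle : -ρ ≤ ρ := by linarith
  have hin : ∀ z ∈ rect r, w + z ∈ Metric.closedBall w (d / 2) := by
    intro z hz
    rw [Metric.mem_closedBall, dist_eq_norm, add_sub_cancel_left]
    have h1 := Complex.norm_le_abs_re_add_abs_im z
    have h2 : |z.re| ≤ r := by rw [abs_of_pos hz.1]; exact hz.2.1.le
    linarith [hz.2.2]
  have hre : ∀ z ∈ rect r, 1 < (w + z).re := by
    intro z hz
    simp only [hw, add_re, one_re, mul_re, ofReal_re, I_re, mul_zero, ofReal_im, I_im, mul_one,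
      sub_zero]
    linarith [hz.1]
  set F : ℂ → ℂ := fun z => h (w + z) * Complex.exp (FF b (w + z)) - g (w + z) with hF
  have hFd : DifferentiableOn ℂ F (rect r) := by
    have ha : DifferentiableOn ℂ (fun z => w + z) (rect r) :=
      (differentiable_id.const_add w).differentiableOn
    have m1 : MapsTo (fun z => w + z) (rect r) U := fun z hz => hcbU (hin z hz)
    have m2 : MapsTo (fun z => w + z) (rect r) {s : ℂ | 1 < s.re} := fun z hz => hre z hz
    exact ((hh.comp ha m1).mul ((differentiableOn_FF hb).comp ha m2).cexp).sub (hg.comp ha m1)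
  -- the set
  set Z' : Set ℝ := {t | τ₁ + t ∈ Z} ∩ Icc (-ρ) ρ with hZ'
  have hZ'0 : volume Z' ≠ 0 := by
    have h1 : Z ∩ Icc (τ₁ - ρ) (τ₁ + ρ) ∈ 𝓝[Z] τ₁ := by
      refine inter_mem self_mem_nhdsWithin (mem_nhdsWithin_of_mem_nhds ?_)
      exact Icc_mem_nhds (by linarith) (by linarith)
    have h2 := hdens _ h1
    have h3 : Z' = (fun t => τ₁ + t) ⁻¹' (Z ∩ Icc (τ₁ - ρ) (τ₁ + ρ)) := by
      ext t
      simp only [hZ', mem_inter_iff, mem_preimage, mem_Icc]
      constructor
      · rintro ⟨h4, h5, h6⟩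
        exact ⟨h4, by linarith, by linarith⟩
      · rintro ⟨h4, h5, h6⟩
        exact ⟨h4, by linarith, by linarith⟩
    rw [h3, measure_preimage_add]
    exact h2.ne'
  -- the bound
  set q : ℝ := 1 / (2 * (M + 1)) with hq
  have hq0 : 0 < q := by positivity
  have hq1 : q ≤ 1 := by
    rw [hq, div_le_one (by positivity)]
    linarith
  have hqM : |q| * M ≤ 1 / 2 := by
    rw [abs_of_pos hq0, hq, div_mul_eq_mul_div, one_mul, div_le_div_iff₀ (by positivity) (by norm_num)]
    linarith
  set C : ℝ := Real.log 2 + Real.log B + 1 / q + (1 / q) * 72 with hC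
  have hbound : ∀ x, 0 < x → x < r → ∫ t in -ρ..ρ, UU 1 (F (pt (x, t))) ≤ C := by
    intro x hx hxr
    set L : ℝ → ℝ := fun t => ‖Complex.exp (FF b (w + pt (x, t)))‖ with hL
    have hcL : Continuous fun t => L t ^ q := by
      have h1 := continuous_norm_exp hb (σ := 1 + x) (by linarith) q
      have h2 : (fun t => L t ^ q) = fun t : ℝ =>
          ‖Complex.exp (FF b (((1 + x : ℝ) : ℂ) + (τ₁ + t : ℝ) * I))‖ ^ q := by
        funext t
        simp only [hL]
        congr 4
        simp only [hw, pt]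
        push_cast
        ring
      rw [h2]
      exact h1.comp (continuous_const.add continuous_id)
    have hint : ∫ t in (-(1 / 2) : ℝ)..(1 / 2), L t ^ q ≤ 72 := by
      have h1 := hardy b hb (σ := 1 + x) (by linarith) (τ₁ - 1 / 2) (r := q)
        (lt_of_le_of_lt hqM (by norm_num))
      have h2 : 36 / (1 - |q| * M) ≤ 72 := by
        rw [div_le_iff₀ (by linarith)]
        linarith
      have h3 := intervalIntegral.integral_comp_add_left
        (fun u : ℝ => ‖Complex.exp (FF b (((1 + x : ℝ) : ℂ) + u * I))‖ ^ q)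
        (a := -(1 / 2)) (b := 1 / 2) τ₁
      have h4 : ∫ t in (-(1 / 2) : ℝ)..(1 / 2), L t ^ q =
          ∫ t in (-(1 / 2) : ℝ)..(1 / 2),
            ‖Complex.exp (FF b (((1 + x : ℝ) : ℂ) + (τ₁ + t : ℝ) * I))‖ ^ q := by
        refine intervalIntegral.integral_congr fun t _ => ?_
        simp only [hL]
        congr 4
        simp only [hw, pt]
        push_cast
        ring
      rw [h4, h3]
      have h5 : τ₁ + 1 / 2 = τ₁ - 1 / 2 + 1 := by ring
      have h6 : τ₁ + -(1 / 2) = τ₁ - 1 / 2 := by ring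
      rw [h5, h6]
      exact h1.trans h2
    have hL0 : ∀ t, 0 ≤ L t := fun t => norm_nonneg _
    set D : ℝ → ℝ := fun t => Real.log 2 + Real.log B + (1 / q + (1 / q) * L t ^ q) with hD
    have hlogB : 0 ≤ Real.log B := Real.log_nonneg hBone
    have hlog2 : 0 ≤ Real.log 2 := Real.log_nonneg (by norm_num)
    have hD0 : ∀ t, 0 ≤ D t := fun t => by
      have := Real.rpow_nonneg (hL0 t) q
      simp only [hD]
      positivity
    have hDc : Continuous D := by simp only [hD]; fun_prop
    have hmem : ∀ t ∈ Icc (-ρ) ρ, pt (x, t) ∈ rect r := fun t ht =>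
      pt_mem hx hxr (abs_le.2 ht) hρr
    calc ∫ t in -ρ..ρ, UU 1 (F (pt (x, t))) ≤ ∫ t in -ρ..ρ, D t := by
          refine intervalIntegral.integral_mono_on hle ?_ (hDc.intervalIntegrable _ _) fun t ht => ?_
          · refine ContinuousOn.intervalIntegrable ?_
            rw [uIcc_of_le hle]
            exact (cont_UU one_pos hFd.continuousOn).comp
              ((continuous_pt.comp (by fun_prop)).continuousOn) (fun t ht => hmem t ht)
          · refine UU_dom hBone hq0 hq1 (hL0 t) ?_
            have hz := hin _ (hmem t ht)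
            calc ‖F (pt (x, t))‖ ≤ ‖h (w + pt (x, t))‖ * L t + ‖g (w + pt (x, t))‖ := by
                  simp only [hF, hL]
                  refine (norm_sub_le _ _).trans ?_
                  rw [norm_mul]
              _ ≤ B * L t + B :=
                  add_le_add (mul_le_mul_of_nonneg_right (hB1' _ hz) (hL0 t)) (hB2' _ hz)
              _ = B * (1 + L t) := by ring
      _ ≤ ∫ t in (-(1 / 2) : ℝ)..(1 / 2), D t := by
          refine intervalIntegral.integral_mono_interval (by linarith) hle (by linarith)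
            (Eventually.of_forall fun t => hD0 t) (hDc.intervalIntegrable _ _)
      _ = Real.log 2 + Real.log B + 1 / q + (1 / q) * ∫ t in (-(1 / 2) : ℝ)..(1 / 2), L t ^ q := by
          simp only [hD]
          rw [intervalIntegral.integral_add (by simp) ((by fun_prop : Continuous fun t =>
              1 / q + 1 / q * L t ^ q).intervalIntegrable _ _),
            intervalIntegral.integral_add (by simp) ((by fun_prop : Continuous fun t =>
              1 / q * L t ^ q).intervalIntegrable _ _), intervalIntegral.integral_const_mul,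
            intervalIntegral.integral_const, intervalIntegral.integral_const]
          simp only [smul_eq_mul]
          ring
      _ ≤ C := by
          rw [hC]
          have : (1 / q) * ∫ t in (-(1 / 2) : ℝ)..(1 / 2), L t ^ q ≤ (1 / q) * 72 :=
            mul_le_mul_of_nonneg_left hint (by positivity)
          linarith
  have hlim' : ∀ t ∈ Z', Tendsto (fun x : ℝ => F (pt (x, t))) (𝓝[>] 0) (𝓝 0) := by
    intro t ht
    refine (hlim (τ₁ + t) ht.1).congr fun x => ?_
    have e : (1 + ((τ₁ + t : ℝ) : ℂ) * I + x : ℂ) = w + pt (x, t) := by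
      simp only [hw, pt]
      push_cast
      ring
    rw [e]
  have hzero := local_uniqueness hFd hρ0 hρr hbound inter_subset_right hZ'0 hlim'
  -- the identity theorem
  have hV : IsOpen (U ∩ {s : ℂ | 1 < s.re}) :=
    hU.inter (isOpen_lt continuous_const Complex.continuous_re)
  have hA : AnalyticOnNhd ℂ (fun s => h s * Complex.exp (FF b s) - g s)
      (U ∩ {s : ℂ | 1 < s.re}) := by
    refine DifferentiableOn.analyticOnNhd ?_ hV
    exact ((hh.mono inter_subset_left).mul
      ((differentiableOn_FF hb).mono inter_subset_right).cexp).sub (hg.mono inter_subset_left)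
  set z0 : ℂ := ((r / 2 : ℝ) : ℂ) with hz0
  have hz0r : z0 ∈ rect r := by
    refine ⟨?_, ?_, ?_⟩
    · simp only [hz0, ofReal_re]; positivity
    · simp only [hz0, ofReal_re]; linarith
    · simp only [hz0, ofReal_im, abs_zero]; exact hr0
  have hev : (fun s => h s * Complex.exp (FF b s) - g s) =ᶠ[𝓝 (w + z0)] 0 := by
    have h1 : ∀ᶠ s in 𝓝 (w + z0), s - w ∈ rect r := by
      have hc : Continuous fun s : ℂ => s - w := continuous_id.sub continuous_const
      refine hc.continuousAt.eventually (p := fun y => y ∈ rect r) ?_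
      have e : w + z0 - w = z0 := by ring
      change ∀ᶠ y in 𝓝 (w + z0 - w), y ∈ rect r
      rw [e]
      exact (isOpen_rect r).mem_nhds hz0r
    filter_upwards [h1] with s hs
    have := hzero _ hs
    simp only [hF, add_sub_cancel] at this
    exact this
  have hfin := hA.eqOn_zero_of_preconnected_of_eventuallyEq_zero hUc
    ⟨hcbU (hin _ hz0r), hre _ hz0r⟩ hev
  intro s hs hs1
  exact sub_eq_zero.1 (hfin ⟨hs, hs1⟩)

end

end Pool.Agent.TH339.MP
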