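import Pool.Agent.TH339.MP.X5
import Pool.Agent.TH339.MP.R1

/-!
# The Euler product on the edge, the injectivity of the Dirichlet series, and eigenvalues
-/

set_option autoImplicit false

namespace Pool.Agent.TH339.MP

open Complex Set Filter Topology MeasureTheory
open Pool.Agent.W350.Edge (ps divSet dimH_divSet)

section
variable {b : PP → ℂ} {M : ℝ}

/-- radial limits -/
lemma radial_x (hb : ∀ x, ‖b x‖ ≤ M / (x.2 + 1 : ℕ)) {τ : ℝ} (hτ : τ ∉ divSet (ap b)) :
    Tendsto (fun x : ℝ => FF b (1 + τ * I + x)) (𝓝[>] 0) (𝓝 (bl b τ)) := by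
  have h1 := bl_angle hb hτ 1
  have h2 : Tendsto (fun x : ℝ => (x : ℂ)) (𝓝[>] 0)
      (𝓝[{z : ℂ | 0 < z.re ∧ ‖z‖ ≤ 1 * z.re}] 0) := by
    rw [tendsto_nhdsWithin_iff]
    constructor
    · have h4 := (Complex.continuous_ofReal.tendsto 0)
      rw [Complex.ofReal_zero] at h4
      exact h4.mono_left nhdsWithin_le_nhds
    · filter_upwards [self_mem_nhdsWithin] with x hx
      have h3 : (0 : ℝ) < x := hx
      refine ⟨by rw [Complex.ofReal_re]; exact h3, ?_⟩
      rw [Complex.norm_real, Real.norm_of_nonneg h3.le, Complex.ofReal_re, one_mul]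
  exact h1.comp h2

lemma volume_divSet (hb : ∀ x, ‖b x‖ ≤ M / (x.2 + 1 : ℕ)) : volume (divSet (ap b)) = 0 :=
  measure_eq_zero_iff_ae_notMem.2 (ae_notMem hb)

lemma volume_diff_ne {Z T : Set ℝ} (hZ : volume Z ≠ 0) (hT : volume T = 0) :
    volume (Z \ T) ≠ 0 := by
  intro h
  apply hZ
  refine measure_mono_null (t := (Z \ T) ∪ T) ?_ (measure_union_null h hT)
  intro x hx
  by_cases h : x ∈ T
  · exact Or.inr h
  · exact Or.inl ⟨hx, h⟩

/-- the sum over the primes `p ≤ X` on the edge -/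
lemma line_sum (hb : ∀ x, ‖b x‖ ≤ M / (x.2 + 1 : ℕ)) {τ : ℝ} (hτ : τ ∉ divSet (ap b))
    (L : ℕ → ℂ) (hL : ∀ p : Nat.Primes, HasSum (fun k => tm b (1 + τ * I) (p, k)) (L p)) :
    Tendsto (fun X : ℕ => ∑ p ∈ (Finset.range (X + 1)).filter Nat.Prime, L p) atTop
      (𝓝 (bl b τ)) := by
  classical
  obtain ⟨l, h1, h2⟩ := bl_spec hτ
  rw [h2]
  have hs1 : (1 : ℝ) ≤ ((1 : ℂ) + τ * I).re := by simp
  -- the proper powers
  have h3 : ∀ p : Nat.Primes, HasSum (fun k => tm b (1 + τ * I) (sh (p, k)))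
      (L p - tm b (1 + τ * I) (p, 0)) := by
    intro p
    have h4 := (hasSum_nat_add_iff' (f := fun k => tm b (1 + τ * I) (p, k)) 1).2 (hL p)
    simpa [sh] using h4
  have h4 : HasSum (fun p : Nat.Primes => L p - tm b (1 + τ * I) (p, 0)) (hpart b (1 + τ * I)) :=
    (summable_sh hb hs1).hasSum.prod_fiberwise h3
  set m : ℕ → ℂ := fun n => if h : n.Prime then L n - tm b (1 + τ * I) (⟨n, h⟩, 0) else 0 with hm
  have h5 : HasSum m (hpart b (1 + τ * I)) := by
    have hinj : Function.Injective (fun p : Nat.Primes => (p : ℕ)) := Subtype.val_injective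
    rw [← hinj.hasSum_iff]
    · convert h4 using 1
      funext p
      simp only [Function.comp_apply, hm]
      rw [dif_pos p.2]
      rfl
    · intro n hn
      simp only [hm]
      rw [dif_neg]
      intro h
      exact hn ⟨⟨n, h⟩, rfl⟩
  have h6 : Tendsto (fun X : ℕ => ps (ap b) τ (X + 1)) atTop (𝓝 l) :=
    h1.comp (tendsto_add_atTop_nat 1)
  have h7 : Tendsto (fun X : ℕ => ∑ n ∈ Finset.range (X + 1), m n) atTop
      (𝓝 (hpart b (1 + τ * I))) := h5.tendsto_sum_nat.comp (tendsto_add_atTop_nat 1)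
  refine (h6.add h7).congr fun X => ?_
  unfold Pool.Agent.W350.Edge.ps
  rw [← Finset.sum_add_distrib, Finset.sum_filter]
  refine Finset.sum_congr rfl fun n _ => ?_
  by_cases h : n.Prime
  · rw [if_pos h]
    have h8 := term_eq b 0 τ ⟨n, h⟩
    rw [neg_zero, zero_mul, Complex.exp_zero, one_mul, add_zero] at h8
    have h9 : ((⟨n, h⟩ : Nat.Primes) : ℕ) = n := rfl
    rw [h9] at h8
    simp only [hm]
    rw [dif_pos h, h8]
    ring
  · rw [if_neg h]
    simp only [hm]
    rw [dif_neg h]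
    unfold Pool.Agent.W350.Edge.term
    rw [if_neg h, add_zero]

/-- the coefficients as an arithmetic function -/
noncomputable def aco (b : PP → ℂ) (n : ℕ) : ℂ := by
  classical exact if h : ∃ x, qq x = n then b h.choose else 0

lemma aco_qq (b : PP → ℂ) (x : PP) : aco b (qq x) = b x := by
  unfold aco
  have h : ∃ y, qq y = qq x := ⟨x, rfl⟩
  rw [dif_pos h, qq_injective h.choose_spec]

lemma aco_zero (b : PP → ℂ) : aco b 0 = 0 := by
  unfold aco
  rw [dif_neg]
  rintro ⟨x, hx⟩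
  have := two_le_qq x
  omega

lemma term_aco (b : PP → ℂ) (s : ℂ) (x : PP) : LSeries.term (aco b) s (qq x) = tm b s x := by
  have hq : qq x ≠ 0 := by have := two_le_qq x; omega
  rw [LSeries.term_of_ne_zero hq, aco_qq]
  unfold tm qq
  rw [div_eq_mul_inv]
  congr 1
  rw [← Complex.cpow_neg, Nat.cast_pow, ← Complex.cpow_nat_mul, ← Complex.natCast_cpow_natCast_mul]

lemma hasSum_aco (hb : ∀ x, ‖b x‖ ≤ M / (x.2 + 1 : ℕ)) {s : ℂ} (hs : 1 < s.re) :
    HasSum (LSeries.term (aco b) s) (FF b s) := by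
  rw [← qq_injective.hasSum_iff]
  · have h1 : (LSeries.term (aco b) s ∘ qq) = tm b s := by
      funext x
      exact term_aco b s x
    rw [h1]
    exact (summable_tm hb hs).hasSum
  · intro n hn
    by_cases h0 : n = 0
    · rw [h0, LSeries.term_zero]
    · rw [LSeries.term_of_ne_zero h0]
      have : aco b n = 0 := by
        unfold aco
        rw [dif_neg]
        rintro ⟨x, hx⟩
        exact hn ⟨x, hx⟩
      rw [this, zero_div]

/-- the Dirichlet series determines the coefficients -/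
theorem FF_inj {b' : PP → ℂ} {M' : ℝ} (hb : ∀ x, ‖b x‖ ≤ M / (x.2 + 1 : ℕ))
    (hb' : ∀ x, ‖b' x‖ ≤ M' / (x.2 + 1 : ℕ)) (h : ∀ s : ℂ, 1 < s.re → FF b s = FF b' s) :
    b = b' := by
  have key : ∀ {b : PP → ℂ} {M : ℝ}, (∀ x, ‖b x‖ ≤ M / (x.2 + 1 : ℕ)) →
      LSeries.abscissaOfAbsConv (aco b) < ⊤ := by
    intro b M hb
    have h2 : (1 : ℝ) < ((2 : ℝ) : ℂ).re := by simp
    have h1 : LSeriesSummable (aco b) ((2 : ℝ) : ℂ) := (hasSum_aco hb h2).summable
    refine lt_of_le_of_lt h1.abscissaOfAbsConv_le ?_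
    exact EReal.coe_lt_top _
  have h1 := key hb
  have h2 := key hb'
  have h3 : ∀ n : ℕ, n ≠ 0 → aco b n = aco b' n := by
    intro n hn
    refine LSeries.eq_of_LSeries_eventually_eq h1 h2 ?_ hn
    filter_upwards [eventually_gt_atTop 1] with x hx
    have hx' : 1 < ((x : ℝ) : ℂ).re := by simpa using hx
    have e1 : LSeries (aco b) x = FF b x := (hasSum_aco hb hx').tsum_eq
    have e2 : LSeries (aco b') x = FF b' x := (hasSum_aco hb' hx').tsum_eq
    rw [e1, e2, h _ hx']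
  funext x
  have hq : qq x ≠ 0 := by have := two_le_qq x; omega
  rw [← aco_qq b x, ← aco_qq b' x, h3 _ hq]

end

/-- equal power sums, equal polynomials -/
theorem prod_eq_of_psum {N : ℕ} {α β : Fin N → ℂ} (hα : ∀ j, ‖α j‖ ≤ 1) (hβ : ∀ j, ‖β j‖ ≤ 1)
    (h : ∀ k : ℕ, ∑ j, α j ^ (k + 1) = ∑ j, β j ^ (k + 1)) :
    ∏ j, (Polynomial.X - Polynomial.C (α j)) = ∏ j, (Polynomial.X - Polynomial.C (β j)) := by
  have hs : ∀ (γ : Fin N → ℂ), (∀ j, ‖γ j‖ ≤ 1) → ∀ z : ℂ, ‖z‖ < 1 →
      HasSum (fun k : ℕ => (∑ j, γ j ^ (k + 1)) * (z ^ (k + 1) / ((k + 1 : ℕ) : ℂ)))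
        (∑ j, -Complex.log (1 - γ j * z)) := by
    intro γ hγ z hz
    have h2 : ∀ j, HasSum (fun l : ℕ => (γ j * z) ^ (l + 1) /
        ((l + 1 : ℕ) : ℂ)) (-Complex.log (1 - γ j * z)) := by
      intro j
      have hsm : ‖γ j * z‖ < 1 := by
        rw [norm_mul]
        have := hγ j
        nlinarith [norm_nonneg (γ j), norm_nonneg z]
      have h1 := Complex.hasSum_taylorSeries_neg_log hsm
      rw [← hasSum_nat_add_iff' 1] at h1
      simpa only [Finset.range_one, Finset.sum_singleton, pow_zero, CharP.cast_eq_zero, div_zero,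
        sub_zero] using h1
    have h3 := hasSum_sum (s := (Finset.univ : Finset (Fin N))) fun j _ => h2 j
    convert h3 using 1
    funext l
    rw [Finset.sum_mul]
    refine Finset.sum_congr rfl fun j _ => ?_
    rw [mul_pow]
    ring
  have hexp : ∀ (γ : Fin N → ℂ), (∀ j, ‖γ j‖ ≤ 1) → ∀ z : ℂ, ‖z‖ < 1 →
      Complex.exp (∑ j, -Complex.log (1 - γ j * z)) = (∏ j, (1 - γ j * z))⁻¹ := by
    intro γ hγ z hz
    rw [Complex.exp_sum, ← Finset.prod_inv_distrib]
    refine Finset.prod_congr rfl fun j _ => ?_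
    rw [Complex.exp_neg, Complex.exp_log]
    intro h0
    have hsm : ‖γ j * z‖ < 1 := by
      rw [norm_mul]
      have := hγ j
      nlinarith [norm_nonneg (γ j), norm_nonneg z]
    rw [← sub_eq_zero.1 h0, norm_one] at hsm
    exact lt_irrefl _ hsm
  have hprod : ∀ z : ℂ, ‖z‖ < 1 → ∏ j, (1 - α j * z) = ∏ j, (1 - β j * z) := by
    intro z hz
    have h1 := hs α hα z hz
    have h2 := hs β hβ z hz
    simp_rw [h] at h1
    have h3 := h1.unique h2
    have h4 := hexp α hα z hz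
    rw [h3, hexp β hβ z hz] at h4
    exact (inv_injective h4).symm
  refine Polynomial.eq_of_infinite_eval_eq _ _ ?_
  refine Set.Infinite.mono (s := (fun n : ℕ => ((n + 2 : ℕ) : ℂ)) '' univ) ?_ ?_
  · rintro _ ⟨n, _, rfl⟩
    have hw0 : ((n + 2 : ℕ) : ℂ) ≠ 0 := by exact_mod_cast (by omega : n + 2 ≠ 0)
    have hz : ‖(((n + 2 : ℕ) : ℂ))⁻¹‖ < 1 := by
      rw [norm_inv, Complex.norm_natCast]
      refine inv_lt_one_of_one_lt₀ ?_
      exact_mod_cast (by omega : 1 < n + 2)
    have h1 := hprod _ hz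
    have h2 : ∀ γ : Fin N → ℂ, Polynomial.eval ((n + 2 : ℕ) : ℂ)
        (∏ j, (Polynomial.X - Polynomial.C (γ j))) =
        ((n + 2 : ℕ) : ℂ) ^ N * ∏ j, (1 - γ j * (((n + 2 : ℕ) : ℂ))⁻¹) := by
      intro γ
      rw [Polynomial.eval_prod]
      have h3 : ((n + 2 : ℕ) : ℂ) ^ N = ∏ _j : Fin N, ((n + 2 : ℕ) : ℂ) := by simp
      rw [h3, ← Finset.prod_mul_distrib]
      refine Finset.prod_congr rfl fun j _ => ?_
      rw [Polynomial.eval_sub, Polynomial.eval_X, Polynomial.eval_C, mul_sub, mul_one,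
        mul_left_comm, mul_inv_cancel₀ hw0, mul_one]
    change Polynomial.eval _ _ = Polynomial.eval _ _
    rw [h2, h2, h1]
  · refine Set.infinite_univ.image ?_
    intro a _ c _ hac
    simp only at hac
    have : a + 2 = c + 2 := by exact_mod_cast hac
    omega

lemma charpoly_prod {N : ℕ} (B : Matrix (Fin N) (Fin N) ℂ) (α : Fin N → ℂ)
    (hα : B.charpoly.roots = Multiset.map α Finset.univ.val) :
    B.charpoly = ∏ j, (Polynomial.X - Polynomial.C (α j)) := by
  have h3 : B.charpoly = (Multiset.map (fun a => Polynomial.X - Polynomial.C a)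
        B.charpoly.roots).prod :=
      ((IsAlgClosed.splits B.charpoly).eq_prod_roots_of_monic (Matrix.charpoly_monic B))
  rw [h3, hα, Multiset.map_map]
  rfl

lemma exists_eig {N : ℕ} (B : Matrix (Fin N) (Fin N) ℂ) :
    ∃ α : Fin N → ℂ, B.charpoly.roots = Multiset.map α Finset.univ.val := by
  have hc : Multiset.card B.charpoly.roots = N := by
    rw [← (IsAlgClosed.splits B.charpoly).natDegree_eq_card_roots,
      Matrix.charpoly_natDegree_eq_dim, Fintype.card_fin]
  obtain ⟨l, hl⟩ := Quot.exists_rep B.charpoly.roots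
  have hl' : (l : Multiset ℂ) = B.charpoly.roots := hl
  have hlen : l.length = N := by
    rw [← hc, ← hl', Multiset.coe_card]
  subst hlen
  refine ⟨fun j => l.get j, ?_⟩
  rw [← hl']
  rw [Fin.univ_val_map, List.ofFn_get]

end Pool.Agent.TH339.MP
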