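import Pool.Agent.TH339.MP.X6

/-!
# Two Euler products whose boundary values are proportional on a set of positive measure are equal
-/

set_option autoImplicit false

namespace Pool.Agent.TH339.MP

open Complex Set Filter Topology MeasureTheory
open Pool.Agent.W350.Edge (ps divSet dimH_divSet)

section
variable {b b' : PP → ℂ} {M M' : ℝ}

lemma sub_bound (hb : ∀ x, ‖b x‖ ≤ M / (x.2 + 1 : ℕ)) (hb' : ∀ x, ‖b' x‖ ≤ M' / (x.2 + 1 : ℕ))
    (x : PP) : ‖b x - b' x‖ ≤ (M + M') / (x.2 + 1 : ℕ) := by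
  rw [add_div]
  exact (norm_sub_le _ _).trans (add_le_add (hb x) (hb' x))

lemma FF_sub (hb : ∀ x, ‖b x‖ ≤ M / (x.2 + 1 : ℕ)) (hb' : ∀ x, ‖b' x‖ ≤ M' / (x.2 + 1 : ℕ))
    {s : ℂ} (hs : 1 < s.re) : FF (fun x => b x - b' x) s = FF b s - FF b' s := by
  have h1 := (summable_tm hb hs).hasSum.sub (summable_tm hb' hs).hasSum
  have h2 : (fun x => tm b s x - tm b' s x) = tm (fun x => b x - b' x) s := by
    funext x
    unfold tm
    ring
  rw [h2] at h1
  exact h1.tsum_eq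

lemma aco_one (b : PP → ℂ) : aco b 1 = 0 := by
  unfold aco
  rw [dif_neg]
  rintro ⟨x, hx⟩
  have := two_le_qq x
  omega

lemma FF_atTop (hb : ∀ x, ‖b x‖ ≤ M / (x.2 + 1 : ℕ)) :
    Tendsto (fun x : ℝ => FF b (x : ℂ)) atTop (𝓝 0) := by
  have h2 : (1 : ℝ) < ((2 : ℝ) : ℂ).re := by simp
  have h1 : LSeriesSummable (aco b) ((2 : ℝ) : ℂ) := (hasSum_aco hb h2).summable
  have h3 : LSeries.abscissaOfAbsConv (aco b) < ⊤ :=
    lt_of_le_of_lt h1.abscissaOfAbsConv_le (EReal.coe_lt_top _)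
  have h4 := LSeries.tendsto_atTop h3
  rw [aco_one] at h4
  refine h4.congr' ?_
  filter_upwards [eventually_gt_atTop 1] with x hx
  have hx' : 1 < ((x : ℝ) : ℂ).re := by simpa using hx
  exact (hasSum_aco hb hx').tsum_eq

/-- **Rigidity.** -/
theorem rigid (hb : ∀ x, ‖b x‖ ≤ M / (x.2 + 1 : ℕ)) (hb' : ∀ x, ‖b' x‖ ≤ M' / (x.2 + 1 : ℕ))
    {Z : Set ℝ} (hZ : volume Z ≠ 0) {c : ℂ}
    (hlim : ∀ τ ∈ Z, Tendsto (fun x : ℝ => Complex.exp (FF b (1 + τ * I + x) -
      FF b' (1 + τ * I + x))) (𝓝[>] 0) (𝓝 c)) : b = b' := by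
  set a : PP → ℂ := fun x => b x - b' x with ha
  have hab : ∀ x, ‖a x‖ ≤ (M + M') / (x.2 + 1 : ℕ) := sub_bound hb hb'
  have hopen : IsOpen {s : ℂ | 1 < s.re} := isOpen_lt continuous_const Complex.continuous_re
  have hconv : Convex ℝ {s : ℂ | 1 < s.re} := convex_halfSpace_re_gt 1
  have h1 : ∀ s : ℂ, 1 < s.re → Complex.exp (FF a s) = c := by
    intro s hs
    have h2 := unique_b hab (U := univ) isOpen_univ
      (by rw [univ_inter]; exact hconv.isPreconnected) (h := fun _ => 1) (g := fun _ => c)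
      (differentiableOn_const _) (differentiableOn_const _) hZ (fun τ _ => mem_univ _) (by
        intro τ hτ
        have h3 := (hlim τ hτ).sub_const c
        rw [sub_self] at h3
        refine h3.congr' ?_
        filter_upwards [self_mem_nhdsWithin] with x hx
        have hx' : 0 < x := hx
        rw [one_mul, FF_sub hb hb']
        simpa using hx') s (mem_univ _) hs
    rwa [one_mul] at h2
  -- the derivative vanishes
  have hd := differentiableOn_FF hab
  have h2 : ∀ s : ℂ, 1 < s.re → deriv (FF a) s = 0 := by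
    intro s hs
    have h3 : HasDerivAt (fun s => Complex.exp (FF a s)) (Complex.exp (FF a s) * deriv (FF a) s) s :=
      ((hd.differentiableAt (hopen.mem_nhds hs)).hasDerivAt).cexp
    have h4 : HasDerivAt (fun s => Complex.exp (FF a s)) 0 s := by
      refine (hasDerivAt_const s c).congr_of_eventuallyEq ?_
      filter_upwards [hopen.mem_nhds hs] with z hz
      exact h1 z hz
    have h5 := h3.unique h4
    exact (mul_eq_zero.1 h5).resolve_left (Complex.exp_ne_zero _)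
  have h3 : ∀ s : ℂ, 1 < s.re → FF a s = FF a 2 := by
    intro s hs
    have h2re : (1 : ℝ) < (2 : ℂ).re := by simp
    exact hopen.is_const_of_deriv_eq_zero hconv.isPreconnected hd
      (fun z hz => h2 z hz) hs h2re
  have h4 : FF a 2 = 0 := by
    have h5 := FF_atTop hab
    have h6 : Tendsto (fun x : ℝ => FF a (x : ℂ)) atTop (𝓝 (FF a 2)) := by
      refine (tendsto_congr' ?_).2 tendsto_const_nhds
      filter_upwards [eventually_gt_atTop 1] with x hx
      exact h3 _ (by simpa using hx)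
    exact tendsto_nhds_unique h6 h5
  refine FF_inj hb hb' fun s hs => ?_
  have h5 := h3 s hs
  rw [h4, ha, FF_sub hb hb' hs] at h5
  exact sub_eq_zero.1 h5

end

section
variable {N : ℕ}

/-- the Euler product on the line in terms of the coefficients -/
lemma line_prod {α : ℕ → Fin N → ℂ} {S : Finset ℕ}
    (hα : ∀ p : ℕ, p.Prime → p ∉ S → ∀ j, ‖α p j‖ ≤ 1) {τ : ℝ}
    (hτ : τ ∉ divSet (ap (bα α S))) :
    Tendsto (fun X : ℕ => ∏ p ∈ (Finset.range (X + 1)).filter (fun p => p.Prime ∧ p ∉ S),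
      ∏ j, (1 - α p j * (p : ℂ) ^ (-(1 + τ * I : ℂ)))⁻¹) atTop
        (𝓝 (Complex.exp (bl (bα α S) τ))) := by
  classical
  have hre1 : (1 : ℝ) ≤ (1 + τ * I : ℂ).re := by simp
  set L : ℕ → ℂ := fun n => if hn : n.Prime then lα α S (1 + τ * I) ⟨n, hn⟩ else 0 with hLdef
  have hLp : ∀ p : Nat.Primes, L p = lα α S (1 + τ * I) p := by
    intro p
    simp only [hLdef]
    rw [dif_pos p.2]
    rfl
  have h2 := line_sum (norm_bα hα) hτ L (fun p => by
    rw [hLp p]
    exact hasSum_lα hα p hre1)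
  have h3 := (Complex.continuous_exp.tendsto _).comp h2
  refine h3.congr fun X => ?_
  simp only [Function.comp_apply]
  rw [Complex.exp_sum, ← Finset.filter_filter, Finset.prod_filter (p := fun p => p ∉ S)]
  refine Finset.prod_congr rfl fun p hp => ?_
  rw [Finset.mem_filter] at hp
  have h4 := exp_lα hα ⟨p, hp.2⟩ hre1
  have h5 : L p = lα α S (1 + τ * I) ⟨p, hp.2⟩ := hLp ⟨p, hp.2⟩
  rw [h5, h4]
  unfold fα
  by_cases hpS : p ∈ S
  · have : ((⟨p, hp.2⟩ : Nat.Primes) : ℕ) ∈ S := hpS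
    rw [if_pos this, if_neg (not_not.2 hpS)]
  · have : ((⟨p, hp.2⟩ : Nat.Primes) : ℕ) ∉ S := hpS
    rw [if_neg this, if_pos hpS]

/-- equal coefficients, equal polynomials -/
lemma prod_of_bα {α β : ℕ → Fin N → ℂ} {S : Finset ℕ}
    (hα : ∀ p : ℕ, p.Prime → p ∉ S → ∀ j, ‖α p j‖ ≤ 1)
    (hβ : ∀ p : ℕ, p.Prime → p ∉ S → ∀ j, ‖β p j‖ ≤ 1) (h : bα α S = bα β S) {p : ℕ}
    (hp : p.Prime) (hpS : p ∉ S) :
    ∏ j, (Polynomial.X - Polynomial.C (α p j)) = ∏ j, (Polynomial.X - Polynomial.C (β p j)) := by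
  refine prod_eq_of_psum (hα p hp hpS) (hβ p hp hpS) fun k => ?_
  have h1 := congrFun h (⟨p, hp⟩, k)
  unfold bα at h1
  have h2 : (((⟨p, hp⟩ : Nat.Primes), k).1 : ℕ) ∉ S := hpS
  rw [if_neg h2, if_neg h2] at h1
  have h3 : (((k + 1 : ℕ)) : ℂ) ≠ 0 := by exact_mod_cast Nat.succ_ne_zero k
  exact (div_left_inj' h3).1 h1

end

end Pool.Agent.TH339.MP
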