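import Pool.Agent.TH339.MP.X7
import Pool.Agent.TH339.MP.V4

/-!
# The law of the random Euler product does not charge lines, part 1
-/

set_option autoImplicit false

namespace Pool.Agent.TH339.MP

open Complex Set Filter Topology MeasureTheory
open Pool.Agent.W350.Edge (ps divSet dimH_divSet)

/-- an analytic function with constant real part on the unit circle -/
lemma const_re {H : ℂ → ℂ} (hH : DiffContOnCl ℂ H (Metric.ball 0 1)) (h0 : H 0 = 0) {κ : ℝ}
    (hκ : ∀ z : ℂ, ‖z‖ = 1 → (H z).re = κ) : ∀ z ∈ Metric.ball (0 : ℂ) 1, H z = 0 := by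
  have hb : Bornology.IsBounded (Metric.ball (0 : ℂ) 1) := Metric.isBounded_ball
  have hfr : ∀ z ∈ frontier (Metric.ball (0 : ℂ) 1), ‖z‖ = 1 := by
    intro z hz
    rw [frontier_ball (0 : ℂ) one_ne_zero, mem_sphere_zero_iff_norm] at hz
    exact hz
  have hcl : closure (Metric.ball (0 : ℂ) 1) = Metric.closedBall 0 1 :=
    closure_ball (0 : ℂ) one_ne_zero
  have h1 : ∀ z ∈ Metric.ball (0 : ℂ) 1, (H z).re ≤ κ := by
    intro z hz
    have h2 : DiffContOnCl ℂ (fun z => Complex.exp (H z)) (Metric.ball 0 1) :=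
      Complex.differentiable_exp.comp_diffContOnCl hH
    have h3 := Complex.norm_le_of_forall_mem_frontier_norm_le hb h2 (C := Real.exp κ) (by
      intro w hw
      rw [Complex.norm_exp, hκ w (hfr w hw)]) (subset_closure hz)
    rw [Complex.norm_exp] at h3
    exact Real.exp_le_exp.1 h3
  have h2 : ∀ z ∈ Metric.ball (0 : ℂ) 1, κ ≤ (H z).re := by
    intro z hz
    have h2 : DiffContOnCl ℂ (fun z => Complex.exp (-H z)) (Metric.ball 0 1) :=
      Complex.differentiable_exp.comp_diffContOnCl hH.neg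
    have h3 := Complex.norm_le_of_forall_mem_frontier_norm_le hb h2 (C := Real.exp (-κ)) (by
      intro w hw
      rw [Complex.norm_exp, neg_re, hκ w (hfr w hw)]) (subset_closure hz)
    rw [Complex.norm_exp, neg_re] at h3
    have := Real.exp_le_exp.1 h3
    linarith
  have h3 : ∀ z ∈ Metric.ball (0 : ℂ) 1, (H z).re = κ := fun z hz =>
    le_antisymm (h1 z hz) (h2 z hz)
  have hd : DifferentiableOn ℂ H (Metric.ball 0 1) := hH.differentiableOn
  have h4 : ∀ z ∈ Metric.ball (0 : ℂ) 1, deriv H z = 0 := by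
    intro z hz
    have hnb : Metric.ball (0 : ℂ) 1 ∈ 𝓝 z := Metric.isOpen_ball.mem_nhds hz
    have h5 : ∀ᶠ y in 𝓝 z, DifferentiableAt ℂ (fun z => Complex.exp (H z)) y := by
      filter_upwards [Metric.isOpen_ball.eventually_mem hz] with y hy
      exact (hd.differentiableAt (Metric.isOpen_ball.mem_nhds hy)).cexp
    have h6 : IsLocalMax (norm ∘ fun z => Complex.exp (H z)) z := by
      filter_upwards [hnb] with y hy
      simp only [Function.comp_apply, Complex.norm_exp]
      rw [h3 y hy, h3 z hz]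
    have h7 := Complex.eventually_eq_of_isLocalMax_norm h5 h6
    have h8 : HasDerivAt (fun z => Complex.exp (H z)) 0 z :=
      (hasDerivAt_const z (Complex.exp (H z))).congr_of_eventuallyEq h7
    have h9 : HasDerivAt (fun z => Complex.exp (H z)) (Complex.exp (H z) * deriv H z) z :=
      ((hd.differentiableAt hnb).hasDerivAt).cexp
    have h10 := h9.unique h8
    exact (mul_eq_zero.1 h10).resolve_left (Complex.exp_ne_zero _)
  intro z hz
  have h5 := Metric.isOpen_ball.is_const_of_deriv_eq_zero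
    (convex_ball (0 : ℂ) 1).isPreconnected hd (fun w hw => h4 w hw) hz
    (Metric.mem_ball_self one_pos)
  rw [h5, h0]

section
variable {b : PP → ℂ} {M : ℝ}

/-- the part of the random Euler product at the prime `p` -/
noncomputable def T1 (b : PP → ℂ) (p : Nat.Primes) (z : ℂ) : ℂ :=
  ∑' k : ℕ, (b (p, k) * (wt 1 (p, k) : ℂ)) * z ^ (k + 1)

lemma T1_zero (b : PP → ℂ) (p : Nat.Primes) : T1 b p 0 = 0 := by
  unfold T1
  simp

lemma T1_bound (hb : ∀ x, ‖b x‖ ≤ M / (x.2 + 1 : ℕ)) (p : Nat.Primes) (k : ℕ) {z : ℂ}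
    (hz : ‖z‖ ≤ 3 / 2) : ‖(b (p, k) * (wt 1 (p, k) : ℂ)) * z ^ (k + 1)‖ ≤ M * (3 / 4) ^ (k + 1) := by
  have hM := M_nonneg hb
  rw [norm_mul, norm_mul, Complex.norm_real, Real.norm_of_nonneg (wt_nonneg _ _), norm_pow]
  have h1 : ‖b (p, k)‖ ≤ M := norm_b_le hb (p, k)
  have h2 : wt 1 (p, k) ≤ (1 / 2) ^ (k + 1) := by
    unfold wt
    refine pow_le_pow_left₀ (by positivity) ?_ _
    rw [Real.rpow_neg_one]
    simp only [one_div]
    refine inv_anti₀ (by norm_num) ?_
    exact_mod_cast p.2.two_le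
  have h3 : ‖z‖ ^ (k + 1) ≤ (3 / 2) ^ (k + 1) := pow_le_pow_left₀ (norm_nonneg _) hz _
  calc ‖b (p, k)‖ * wt 1 (p, k) * ‖z‖ ^ (k + 1) ≤ (M * (1 / 2) ^ (k + 1)) * (3 / 2) ^ (k + 1) := by
        refine mul_le_mul (mul_le_mul h1 h2 (wt_nonneg _ _) hM) h3 (by positivity) (by positivity)
    _ = M * (3 / 4) ^ (k + 1) := by
        rw [mul_assoc, ← mul_pow]
        norm_num

lemma summable_34 (M : ℝ) : Summable fun k : ℕ => M * (3 / 4 : ℝ) ^ (k + 1) := by
  have h1 := (summable_geometric_of_lt_one (by norm_num) (by norm_num : (3 / 4 : ℝ) < 1))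
  exact ((summable_nat_add_iff 1).2 h1).mul_left M

lemma T1_diff (hb : ∀ x, ‖b x‖ ≤ M / (x.2 + 1 : ℕ)) (p : Nat.Primes) :
    DifferentiableOn ℂ (T1 b p) (Metric.ball 0 (3 / 2)) := by
  unfold T1
  refine differentiableOn_tsum_of_summable_norm (summable_34 M) (fun k => ?_) Metric.isOpen_ball
    fun k z hz => ?_
  · exact ((differentiable_id.pow _).const_mul _).differentiableOn
  · rw [mem_ball_zero_iff] at hz
    exact T1_bound hb p k hz.le

lemma T1_hasSum (hb : ∀ x, ‖b x‖ ≤ M / (x.2 + 1 : ℕ)) (p : Nat.Primes) {z : ℂ} (hz : ‖z‖ ≤ 1) :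
    HasSum (fun k : ℕ => (b (p, k) * (wt 1 (p, k) : ℂ)) * z ^ (k + 1)) (T1 b p z) :=
  (Summable.of_norm_bounded (summable_34 M) fun k => T1_bound hb p k (by linarith)).hasSum

/-- if the part at `p` has constant real part on the circle, the coefficients vanish -/
lemma T1_rigid (hb : ∀ x, ‖b x‖ ≤ M / (x.2 + 1 : ℕ)) (p : Nat.Primes) {u : ℂ} (hu : u ≠ 0) {κ : ℝ}
    (hκ : ∀ z : ℂ, ‖z‖ = 1 → (u * T1 b p z).re = κ) : ∀ k, b (p, k) = 0 := by
  classical
  have h1 : DifferentiableOn ℂ (fun z => u * T1 b p z) (Metric.ball 0 (3 / 2)) :=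
    (T1_diff hb p).const_mul u
  have h2 : DiffContOnCl ℂ (fun z => u * T1 b p z) (Metric.ball 0 1) := by
    refine DifferentiableOn.diffContOnCl (h1.mono ?_)
    rw [closure_ball (0 : ℂ) one_ne_zero]
    exact Metric.closedBall_subset_ball (by norm_num)
  have h3 := const_re h2 (by rw [T1_zero, mul_zero]) hκ
  have h4 : ∀ z ∈ Metric.ball (0 : ℂ) 1, T1 b p z = 0 := fun z hz =>
    (mul_eq_zero.1 (h3 z hz)).resolve_left hu
  -- the Dirichlet series of the part at `p`
  set b0 : PP → ℂ := fun x => if x.1 = p then b x else 0 with hb0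
  have hb0b : ∀ x, ‖b0 x‖ ≤ M / (x.2 + 1 : ℕ) := by
    intro x
    simp only [hb0]
    split_ifs
    · exact hb x
    · rw [norm_zero]
      exact div_nonneg (M_nonneg hb) (by positivity)
  have hz0 : ∀ x : PP, ‖(fun _ : PP => (0 : ℂ)) x‖ ≤ (0 : ℝ) / (x.2 + 1 : ℕ) := by
    intro x; simp
  have h5 : b0 = fun _ => 0 := by
    refine FF_inj hb0b hz0 fun s hs => ?_
    have e0 : FF (fun _ : PP => (0 : ℂ)) s = 0 := by
      unfold FF tm
      simp
    rw [e0]
    -- `p^(1-s)` is in the unit ball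
    set z : ℂ := ((p : ℕ) : ℂ) ^ (1 - s) with hz
    have hp0 : ((p : ℕ) : ℂ) ≠ 0 := by exact_mod_cast p.2.ne_zero
    have hpos : (0 : ℝ) < (p : ℕ) := by exact_mod_cast p.2.pos
    have hzn : ‖z‖ < 1 := by
      rw [hz, Complex.norm_natCast_cpow_of_pos p.2.pos]
      refine Real.rpow_lt_one_of_one_lt_of_neg ?_ ?_
      · exact_mod_cast p.2.one_lt
      · simp only [sub_re, one_re]
        linarith
    have h6 := h4 z (by rwa [mem_ball_zero_iff])
    have h7 := T1_hasSum hb p hzn.le
    rw [h6] at h7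
    have h8 : ∀ k, (b (p, k) * (wt 1 (p, k) : ℂ)) * z ^ (k + 1) = tm b0 s (p, k) := by
      intro k
      unfold tm
      simp only [hb0, if_true]
      rw [mul_assoc]
      congr 1
      unfold wt
      simp only
      rw [Real.rpow_neg_one, Complex.ofReal_pow, ← mul_pow]
      congr 1
      rw [hz, Complex.cpow_sub _ _ hp0, Complex.cpow_one, Complex.cpow_neg, Complex.ofReal_inv]
      push_cast
      have : ((p : ℕ) : ℂ) ^ s ≠ 0 := by
        rw [Complex.cpow_ne_zero_iff]
        exact Or.inl hp0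
      field_simp
    simp_rw [h8] at h7
    have h9 : Function.Injective fun k : ℕ => ((p, k) : PP) := fun a c h => congrArg Prod.snd h
    have h10 : HasSum (tm b0 s) 0 := by
      rw [← h9.hasSum_iff]
      · exact h7
      · intro x hx
        have hxp : x.1 ≠ p := by
          intro h
          exact hx ⟨x.2, by rw [← h]⟩
        unfold tm
        simp only [hb0]
        rw [if_neg hxp, zero_mul]
    exact h10.tsum_eq
  intro k
  have h6 := congrFun h5 (p, k)
  simp only [hb0, if_true] at h6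
  exact h6

/-- the level sets of the part at `p` are null -/
lemma T1_level (hb : ∀ x, ‖b x‖ ≤ M / (x.2 + 1 : ℕ)) (p : Nat.Primes) {u : ℂ} (hu : u ≠ 0)
    (hne : ∃ k, b (p, k) ≠ 0) (z0 : Circle) (κ : ℝ) :
    ∀ᵐ t : ℝ, (u * T1 b p ((z0 * Circle.exp t : Circle) : ℂ)).re ≠ κ := by
  have hA : AnalyticOnNhd ℝ (fun t : ℝ => (u * T1 b p ((z0 * Circle.exp t : Circle) : ℂ)).re - κ)
      univ := by
    intro t _
    have h1 : AnalyticAt ℝ (fun t : ℝ => ((z0 * Circle.exp t : Circle) : ℂ)) t := by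
      have e : (fun t : ℝ => ((z0 * Circle.exp t : Circle) : ℂ)) =
          fun t : ℝ => (z0 : ℂ) * Complex.exp ((t : ℂ) * I) := by
        funext t
        rw [Circle.coe_mul, Circle.coe_exp]
      rw [e]
      refine analyticAt_const.mul ?_
      have h2 : AnalyticAt ℝ (fun t : ℝ => (t : ℂ) * I) t :=
        (Complex.ofRealCLM.analyticAt t).mul analyticAt_const
      exact (analyticAt_cexp.restrictScalars).comp h2
    have h2 : AnalyticAt ℂ (fun z => u * T1 b p z) ((z0 * Circle.exp t : Circle) : ℂ) := by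
      have h3 : DifferentiableOn ℂ (fun z => u * T1 b p z) (Metric.ball 0 (3 / 2)) :=
        (T1_diff hb p).const_mul u
      refine h3.analyticAt (Metric.isOpen_ball.mem_nhds ?_)
      rw [mem_ball_zero_iff, Circle.norm_coe]
      norm_num
    have h3 : AnalyticAt ℝ (fun t : ℝ => u * T1 b p ((z0 * Circle.exp t : Circle) : ℂ)) t :=
      AnalyticAt.comp (g := fun z : ℂ => u * T1 b p z)
        (f := fun t : ℝ => ((z0 * Circle.exp t : Circle) : ℂ)) (h2.restrictScalars (𝕜 := ℝ)) h1
    have h4 : AnalyticAt ℝ (fun t : ℝ => (u * T1 b p ((z0 * Circle.exp t : Circle) : ℂ)).re) t :=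
      AnalyticAt.comp (g := fun z : ℂ => Complex.reCLM z)
        (f := fun t : ℝ => u * T1 b p ((z0 * Circle.exp t : Circle) : ℂ))
        (Complex.reCLM.analyticAt _) h3
    exact h4.sub analyticAt_const
  rcases hA.eqOn_zero_or_eventually_ne_zero_of_preconnected isPreconnected_univ with h | h
  · exfalso
    obtain ⟨k, hk⟩ := hne
    refine hk (T1_rigid hb p hu (κ := κ) (fun z hz => ?_) k)
    have ht : ((z0 * Circle.exp (Complex.arg z - Complex.arg (z0 : ℂ)) : Circle) : ℂ) = z := by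
      have h2 : Circle.exp (Complex.arg (z0 : ℂ)) = z0 := Circle.exp_arg z0
      have h3 : z0 * Circle.exp (Complex.arg z - Complex.arg (z0 : ℂ)) =
          Circle.exp (Complex.arg z) := by
        rw [Circle.exp_sub, h2, mul_div_cancel]
      rw [h3, Circle.coe_exp]
      have h4 := Complex.norm_mul_exp_arg_mul_I z
      rw [hz, Complex.ofReal_one, one_mul] at h4
      exact h4
    have h1 : (u * T1 b p ((z0 * Circle.exp (Complex.arg z - Complex.arg (z0 : ℂ)) :
        Circle) : ℂ)).re - κ = 0 := h (mem_univ _)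
    rw [ht] at h1
    exact sub_eq_zero.1 h1
  · have h1 := ae_restrict_le_codiscreteWithin (μ := volume) MeasurableSet.univ h
    rw [Measure.restrict_univ] at h1
    filter_upwards [h1] with t ht hκ
    exact ht (sub_eq_zero.2 hκ)

end

end Pool.Agent.TH339.MP
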