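import Pool.Agent.TH339.MP.X8

/-!
# The law of the random Euler product does not charge lines, part 2
-/

set_option autoImplicit false

namespace Pool.Agent.TH339.MP

open Complex Set Filter Topology MeasureTheory
open Pool.Agent.W350.Edge (ps divSet dimH_divSet)

section
variable {b : PP → ℂ} {M : ℝ}

lemma TX_tendsto : Tendsto TX atTop atTop := by
  refine tendsto_atTop_finset_of_monotone ?_ ?_
  · intro X Y hXY x hx
    rw [mem_TX] at hx ⊢
    exact hx.trans hXY
  · intro x
    exact ⟨qq x, (mem_TX _ _).2 le_rfl⟩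

/-- changing the phase at one prime -/
lemma RR_change (hb : ∀ x, ‖b x‖ ≤ M / (x.2 + 1 : ℕ)) {ω ω' : Om}
    (h0 : (0 : ℝ) ∉ divSet (ap (tb b ω))) (h0' : (0 : ℝ) ∉ divSet (ap (tb b ω')))
    (p : Nat.Primes) (hag : ∀ q, q ≠ p → ω' q = ω q) :
    RR b ω' - RR b ω = T1 b p (ω' p : ℂ) - T1 b p (ω p : ℂ) := by
  have key : ∀ ω : Om, (0 : ℝ) ∉ divSet (ap (tb b ω)) →
      Tendsto (fun X => GX b X ω) atTop (𝓝 (RR b ω)) := by
    intro ω hω
    have h1 := PS_tendsto (tb_bound hb ω) hω
    have h2 : ∀ X, PS (tb b ω) X 0 = GX b X ω := by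
      intro X
      rw [PS_tb, fl_zero, mul_one]
    simp only [h2] at h1
    exact h1
  have h1 := (key ω' h0').sub (key ω h0)
  set d : PP → ℂ := fun x => tb b ω' x * (wt 1 x : ℂ) - tb b ω x * (wt 1 x : ℂ) with hd
  have h2 : HasSum d (T1 b p (ω' p : ℂ) - T1 b p (ω p : ℂ)) := by
    have hinj : Function.Injective fun k : ℕ => ((p, k) : PP) := fun a c h => congrArg Prod.snd h
    rw [← hinj.hasSum_iff]
    · have h3 := (T1_hasSum hb p (z := (ω' p : ℂ)) (Circle.norm_coe _).le).sub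
        (T1_hasSum hb p (z := (ω p : ℂ)) (Circle.norm_coe _).le)
      refine h3.congr_fun fun k => ?_
      simp only [Function.comp_apply, hd, tb]
      ring
    · intro x hx
      have hxp : x.1 ≠ p := by
        intro h
        exact hx ⟨x.2, by rw [← h]⟩
      simp only [hd, tb]
      rw [hag _ hxp, sub_self]
  have h3 : Tendsto (fun X => ∑ x ∈ TX X, d x) atTop (𝓝 (T1 b p (ω' p : ℂ) - T1 b p (ω p : ℂ))) :=
    h2.comp TX_tendsto
  refine tendsto_nhds_unique h1 (h3.congr fun X => ?_)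
  simp only [hd]
  rw [Finset.sum_sub_distrib]
  rfl

/-- **The law of the random Euler product does not charge lines.** -/
theorem null_line (hb : ∀ x, ‖b x‖ ≤ M / (x.2 + 1 : ℕ)) (hne : ∃ x, b x ≠ 0) {u : ℂ} (hu : u ≠ 0)
    (κ : ℝ) : ∀ᵐ ω ∂PM, (u * RR b ω).re ≠ κ := by
  classical
  obtain ⟨⟨p, k⟩, hpk⟩ := hne
  set ι : ℝ → Om := fun t => Pi.mulSingle p (Circle.exp t) with hι
  have hιc : Continuous ι := (continuous_mulSingle p).comp Circle.exp.continuous
  have hιp : ∀ t, ι t p = Circle.exp t := fun t => by simp [hι]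
  have hιq : ∀ t q, q ≠ p → ι t q = 1 := fun t q hq => by simp [hι, hq]
  have hRm := aemeasurable_RR hb
  set R1 : Om → ℂ := hRm.mk (RR b) with hR1
  have hR1m : Measurable R1 := hRm.measurable_mk
  have hR1e : RR b =ᵐ[PM] R1 := hRm.ae_eq_mk
  have hgood : ∀ᵐ ω ∂PM, RR b ω = R1 ω ∧ (0 : ℝ) ∉ divSet (ap (tb b ω)) := hR1e.and (ae_good hb)
  set N : Set Om := toMeasurable PM {ω | ¬(RR b ω = R1 ω ∧ (0 : ℝ) ∉ divSet (ap (tb b ω)))} with hN
  have hNm : MeasurableSet N := measurableSet_toMeasurable _ _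
  have hN0 : PM N = 0 := by
    rw [hN, measure_toMeasurable]
    exact hgood
  have hNg : ∀ ω, ω ∉ N → RR b ω = R1 ω ∧ (0 : ℝ) ∉ divSet (ap (tb b ω)) := by
    intro ω hω
    by_contra h
    exact hω (subset_toMeasurable _ _ h)
  have hΦ : Continuous fun z : ℝ × Om => z.2 * ι z.1 :=
    continuous_snd.mul (hιc.comp continuous_fst)
  have hmeas : ∀ E : Set Om, MeasurableSet E → ∀ t, PM {ω | ω * ι t ∈ E} = PM E := by
    intro E hE t
    have h1 : {ω | ω * ι t ∈ E} = (fun ω => ι t * ω) ⁻¹' E := by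
      ext ω
      change ω * ι t ∈ E ↔ ι t * ω ∈ E
      rw [mul_comm]
    rw [h1, measure_preimage_mul]
  -- almost all translates are good
  have hgood2 : ∀ᵐ ω ∂PM, ∀ᵐ t : ℝ, ω * ι t ∉ N := by
    set E : Set (ℝ × Om) := {z | z.2 * ι z.1 ∈ N} with hE
    have hEm : MeasurableSet E := hΦ.measurable hNm
    have h0 : ((volume : Measure ℝ).prod PM) E = 0 := by
      refine Measure.measure_prod_null_of_ae_null hEm (Eventually.of_forall fun t => ?_)
      change PM {ω | ω * ι t ∈ N} = 0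
      rw [hmeas N hNm t, hN0]
    have h1 : ∀ᵐ z ∂((volume : Measure ℝ).prod PM), z ∉ E := measure_eq_zero_iff_ae_notMem.1 h0
    have h2 : ∀ᵐ z ∂(PM.prod (volume : Measure ℝ)), z.swap ∉ E := by
      have h3 := Measure.prod_swap (μ := PM) (ν := (volume : Measure ℝ))
      rw [← h3] at h1
      exact ae_of_ae_map measurable_swap.aemeasurable h1
    exact Measure.ae_ae_of_ae_prod h2
  -- the level set
  set E1 : Set Om := {ω | (u * R1 ω).re = κ} with hE1
  have hE1m : MeasurableSet E1 := by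
    have : Measurable fun ω => (u * R1 ω).re := Complex.measurable_re.comp (hR1m.const_mul u)
    exact this (measurableSet_singleton κ)
  have hsec : ∀ᵐ ω ∂PM, volume {t : ℝ | ω * ι t ∈ E1} = 0 := by
    filter_upwards [hgood, hgood2] with ω hω hω2
    have h1 := T1_level hb p hu ⟨k, hpk⟩ (ω p) (κ - (u * (RR b ω - T1 b p (ω p : ℂ))).re)
    have h2 : ∀ᵐ t : ℝ, ¬ (ω * ι t ∈ E1) := by
      filter_upwards [h1, hω2] with t ht ht2 htE
      obtain ⟨g1, g2⟩ := hNg _ ht2
      have h3 := RR_change hb hω.2 g2 p (fun q hq => by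
        rw [Pi.mul_apply, hιq t q hq, mul_one])
      rw [Pi.mul_apply, hιp t] at h3
      apply ht
      have h4 : (u * R1 (ω * ι t)).re = κ := htE
      rw [← g1] at h4
      have h5 : RR b (ω * ι t) = T1 b p ((ω p * Circle.exp t : Circle) : ℂ) +
          (RR b ω - T1 b p (ω p : ℂ)) := by
        linear_combination h3
      rw [h5, mul_add, add_re] at h4
      linarith
    exact measure_eq_zero_iff_ae_notMem.2 h2
  have hPM : PM E1 = 0 := by
    set E : Set (Om × ℝ) := {z | z.1 * ι z.2 ∈ E1} with hE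
    have hΦ' : Continuous fun z : Om × ℝ => z.1 * ι z.2 :=
      continuous_fst.mul (hιc.comp continuous_snd)
    have hEm : MeasurableSet E := hΦ'.measurable hE1m
    have h0 : (PM.prod (volume : Measure ℝ)) E = 0 := Measure.measure_prod_null_of_ae_null hEm hsec
    have h1 : ∀ᵐ z ∂(PM.prod (volume : Measure ℝ)), z ∉ E := measure_eq_zero_iff_ae_notMem.1 h0
    have h2 : ∀ᵐ z ∂((volume : Measure ℝ).prod PM), z.swap ∉ E := by
      have h3 := Measure.prod_swap (μ := (volume : Measure ℝ)) (ν := PM)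
      rw [← h3] at h1
      exact ae_of_ae_map measurable_swap.aemeasurable h1
    obtain ⟨t, ht⟩ := (Measure.ae_ae_of_ae_prod h2).exists
    rw [← hmeas E1 hE1m t]
    exact measure_eq_zero_iff_ae_notMem.2 ht
  have h1 : ∀ᵐ ω ∂PM, ω ∉ E1 := measure_eq_zero_iff_ae_notMem.1 hPM
  filter_upwards [h1, hR1e] with ω h2 h3 h4
  apply h2
  change (u * R1 ω).re = κ
  rw [← h3]
  exact h4

/-- the density of the times at which the boundary function is in a closed null set -/
theorem density (hb : ∀ x, ‖b x‖ ≤ M / (x.2 + 1 : ℕ)) {F : Set ℂ} (hF : IsClosed F)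
    (hnull : ∀ᵐ ω ∂PM, RR b ω ∉ F) (ε : ℝ) (hε : 0 < ε) :
    ∃ T₀ : ℝ, 0 < T₀ ∧ ∀ T : ℝ, T₀ ≤ T → ∀ a : ℝ,
      volume ({τ : ℝ | bl b τ ∈ F} ∩ Icc a (a + T)) ≤ ENNReal.ofReal (ε * T) := by
  rcases F.eq_empty_or_nonempty with hF0 | hF0
  · refine ⟨1, one_pos, fun T _ a => ?_⟩
    have : ({τ : ℝ | bl b τ ∈ F} ∩ Icc a (a + T)) = ∅ := by
      ext τ
      simp [hF0]
    rw [this, measure_empty]
    exact bot_le
  -- the test functions
  set φ : ℕ → ℂ → ℝ := fun n z => max 0 (1 - n * Metric.infDist z F) with hφ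
  have hφc : ∀ n, Continuous (φ n) := fun n =>
    continuous_const.max (continuous_const.sub (continuous_const.mul (Metric.continuous_infDist_pt F)))
  have hφ0 : ∀ n z, 0 ≤ φ n z := fun n z => le_max_left _ _
  have hφ1 : ∀ n z, φ n z ≤ 1 := fun n z => by
    refine max_le zero_le_one ?_
    have : 0 ≤ (n : ℝ) * Metric.infDist z F := mul_nonneg (Nat.cast_nonneg n) Metric.infDist_nonneg
    linarith
  have hφF : ∀ n z, z ∈ F → φ n z = 1 := fun n z hz => by
    simp only [hφ]
    rw [Metric.infDist_zero_of_mem hz, mul_zero, sub_zero, max_eq_right zero_le_one]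
  have hlim : Tendsto (fun n : ℕ => ∫ ω, φ n (RR b ω) ∂PM) atTop (𝓝 (∫ _ω : Om, (0 : ℝ) ∂PM)) := by
    refine tendsto_integral_of_dominated_convergence (fun _ => (1 : ℝ)) (fun n => ?_)
      (integrable_const _) (fun n => Eventually.of_forall fun ω => ?_) ?_
    · exact ((hφc n).measurable.comp_aemeasurable (aemeasurable_RR hb)).aestronglyMeasurable
    · rw [Real.norm_eq_abs, abs_of_nonneg (hφ0 _ _)]
      exact hφ1 _ _
    · filter_upwards [hnull] with ω hω
      have hpos : 0 < Metric.infDist (RR b ω) F := (hF.notMem_iff_infDist_pos hF0).1 hω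
      refine tendsto_const_nhds.congr' ?_
      obtain ⟨n0, hn0⟩ := exists_nat_ge (1 / Metric.infDist (RR b ω) F)
      filter_upwards [eventually_ge_atTop n0] with n hn
      simp only [hφ]
      rw [max_eq_left]
      have h1 : 1 / Metric.infDist (RR b ω) F ≤ n := hn0.trans (by exact_mod_cast hn)
      rw [div_le_iff₀ hpos] at h1
      linarith
  rw [integral_zero] at hlim
  obtain ⟨n, hn⟩ := (hlim.eventually (ge_mem_nhds (by positivity : (0 : ℝ) < ε / 2))).exists
  -- the means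
  have hJ := mean_all (J := Unit) (b := fun _ => b) (M := fun _ => M) (fun _ => hb)
    (ψ := fun z => φ n (z ())) ((hφc n).comp (continuous_apply _)) (C := 1) (fun z => by
      rw [abs_of_nonneg (hφ0 _ _)]
      exact hφ1 _ _)
  obtain ⟨T₀, hT₀, hm⟩ := hJ (ε / 2) (by positivity)
  refine ⟨T₀, hT₀, fun T hT a => ?_⟩
  have hTpos : 0 < T := lt_of_lt_of_le hT₀ hT
  have h1 := hm T hT a
  simp only at h1
  have h2 : (1 / T) * ∫ τ in a..(a + T), φ n (bl b τ) ≤ ε := by
    have := (abs_le.1 h1).2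
    linarith
  have h3 : ∫ τ in a..(a + T), φ n (bl b τ) ≤ ε * T := by
    rw [one_div, ← div_eq_inv_mul, div_le_iff₀ hTpos] at h2
    exact h2
  have hae := (boundary hb).1
  have hint : Integrable (fun τ => φ n (bl b τ)) (volume.restrict (Icc a (a + T))) := by
    refine Measure.integrableOn_of_bounded (M := 1) (by simp) ?_ ?_
    · exact ((hφc n).measurable.comp_aemeasurable hae).aestronglyMeasurable
    · refine Eventually.of_forall fun τ => ?_
      rw [Real.norm_eq_abs, abs_of_nonneg (hφ0 _ _)]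
      exact hφ1 _ _
  rw [intervalIntegral.integral_of_le (by linarith), ← integral_Icc_eq_integral_Ioc] at h3
  -- Markov
  have h4 : ∫⁻ τ in Icc a (a + T), ENNReal.ofReal (φ n (bl b τ)) ≤ ENNReal.ofReal (ε * T) := by
    rw [← ofReal_integral_eq_lintegral_ofReal hint (Eventually.of_forall fun τ => hφ0 _ _)]
    exact ENNReal.ofReal_le_ofReal h3
  refine le_trans ?_ h4
  have hae2 : AEMeasurable (fun τ => ENNReal.ofReal (φ n (bl b τ)))
      (volume.restrict (Icc a (a + T))) :=
    (ENNReal.measurable_ofReal.comp_aemeasurable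
      ((hφc n).measurable.comp_aemeasurable hae)).restrict
  have h5 := mul_meas_ge_le_lintegral₀ hae2 1
  rw [one_mul] at h5
  refine le_trans ?_ h5
  rw [Measure.restrict_apply₀' measurableSet_Icc.nullMeasurableSet]
  refine measure_mono ?_
  rintro τ ⟨hτ, hτ2⟩
  refine ⟨?_, hτ2⟩
  change 1 ≤ ENNReal.ofReal (φ n (bl b τ))
  rw [hφF n _ hτ, ENNReal.ofReal_one]

end

end Pool.Agent.TH339.MP
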