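import Pool.Agent.TH339.MP.X9

/-!
# Large deviations of the random Euler product, part 1: independence
-/

set_option autoImplicit false

namespace Pool.Agent.TH339.MP

open Complex Set Filter Topology MeasureTheory

/-- the circle at the prime `p` -/
noncomputable def iot (p : Nat.Primes) (t : ℝ) : Om := by
  classical exact Pi.mulSingle p (Circle.exp t)

lemma iot_same (p : Nat.Primes) (t : ℝ) : iot p t p = Circle.exp t := by
  unfold iot
  simp

lemma iot_ne {p q : Nat.Primes} (h : q ≠ p) (t : ℝ) : iot p t q = 1 := by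
  unfold iot
  simp [h]

lemma continuous_iot (p : Nat.Primes) : Continuous (iot p) := by
  classical
  unfold iot
  exact (continuous_mulSingle p).comp Circle.exp.continuous

/-- the integral of a product of functions of different coordinates -/
theorem prod_int (s : Finset Nat.Primes) (g : Nat.Primes → Circle → ℝ)
    (hg : ∀ p, Continuous (g p)) (hg0 : ∀ p z, 0 ≤ g p z) (B : Nat.Primes → ℝ)
    (hB : ∀ p, ∀ z : Circle, ∫ t in (0 : ℝ)..(2 * Real.pi), g p (z * Circle.exp t) ≤
      2 * Real.pi * B p) :
    ∫ ω : Om, ∏ p ∈ s, g p (ω p) ∂PM ≤ ∏ p ∈ s, B p := by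
  classical
  have hpi : 0 < 2 * Real.pi := by positivity
  have hB0 : ∀ p, 0 ≤ B p := by
    intro p
    have h1 := hB p 1
    have h2 : 0 ≤ ∫ t in (0 : ℝ)..(2 * Real.pi), g p (1 * Circle.exp t) :=
      intervalIntegral.integral_nonneg hpi.le fun t _ => hg0 p _
    have h3 : 0 ≤ 2 * Real.pi * B p := h2.trans h1
    exact nonneg_of_mul_nonneg_right h3 hpi
  induction s using Finset.induction_on with
  | empty => simp
  | insert p s hp ih =>
    set G : Om → ℝ := fun ω => ∏ q ∈ s, g q (ω q) with hG
    have hGc : Continuous G := continuous_finsetProd _ fun q _ => (hg q).comp (continuous_apply q)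
    have hG0 : ∀ ω, 0 ≤ G ω := fun ω => Finset.prod_nonneg fun q _ => hg0 q _
    have hGi : Integrable G PM :=
      hGc.integrable_of_hasCompactSupport (HasCompactSupport.of_compactSpace _)
    set F : Om → ℝ := fun ω => g p (ω p) * G ω with hF
    have hFc : Continuous F := ((hg p).comp (continuous_apply p)).mul hGc
    have e1 : ∀ ω : Om, ∏ q ∈ insert p s, g q (ω q) = F ω := fun ω => Finset.prod_insert hp
    simp_rw [e1]
    rw [Finset.prod_insert hp]
    have hinv : ∀ t : ℝ, ∫ ω, F (ω * iot p t) ∂PM = ∫ ω, F ω ∂PM := by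
      intro t
      have h1 := integral_mul_left_eq_self (μ := PM) F (iot p t)
      rw [← h1]
      refine integral_congr_ae (Eventually.of_forall fun ω => ?_)
      simp only
      rw [mul_comm]
    have hGt : ∀ (ω : Om) (t : ℝ), G (ω * iot p t) = G ω := by
      intro ω t
      refine Finset.prod_congr rfl fun q hq => ?_
      rw [Pi.mul_apply, iot_ne (fun h => hp (by rw [← h]; exact hq)), mul_one]
    have hFt : ∀ (ω : Om) (t : ℝ), F (ω * iot p t) = g p (ω p * Circle.exp t) * G ω := by
      intro ω t
      simp only [hF]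
      rw [hGt, Pi.mul_apply, iot_same]
    -- Fubini
    have hJc : Continuous fun z : ℝ × Om => F (z.2 * iot p z.1) :=
      hFc.comp (continuous_snd.mul ((continuous_iot p).comp continuous_fst))
    obtain ⟨C, hC⟩ : ∃ C : ℝ, ∀ ω, ‖F ω‖ ≤ C := by
      obtain ⟨C, hC⟩ := (isCompact_univ (X := Om)).exists_bound_of_continuousOn hFc.continuousOn
      exact ⟨C, fun ω => hC ω (mem_univ _)⟩
    have hint : Integrable (Function.uncurry fun (t : ℝ) (ω : Om) => F (ω * iot p t))
        ((volume.restrict (Ioc 0 (2 * Real.pi))).prod PM) :=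
      Integrable.of_bound hJc.aestronglyMeasurable C (Eventually.of_forall fun z => hC _)
    have hswap := integral_integral_swap hint
    have h1 : ∫ t in Ioc 0 (2 * Real.pi), ∫ ω, F (ω * iot p t) ∂PM =
        2 * Real.pi * ∫ ω, F ω ∂PM := by
      simp_rw [hinv]
      rw [setIntegral_const, smul_eq_mul, Measure.real, Real.volume_Ioc, sub_zero,
        ENNReal.toReal_ofReal hpi.le]
    have h2 : ∫ ω, (∫ t in Ioc 0 (2 * Real.pi), F (ω * iot p t)) ∂PM ≤
        ∫ ω, (2 * Real.pi * B p) * G ω ∂PM := by
      refine integral_mono hint.integral_prod_right (hGi.const_mul _) fun ω => ?_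
      simp only
      simp_rw [hFt]
      rw [integral_mul_const, ← intervalIntegral.integral_of_le hpi.le]
      exact mul_le_mul_of_nonneg_right (hB p (ω p)) (hG0 ω)
    rw [← hswap, h1, integral_const_mul] at h2
    have h3 : ∫ ω, F ω ∂PM ≤ B p * ∫ ω, G ω ∂PM := by
      have h4 : 2 * Real.pi * ∫ ω, F ω ∂PM ≤ 2 * Real.pi * (B p * ∫ ω, G ω ∂PM) := by
        rw [← mul_assoc]
        exact h2
      exact le_of_mul_le_mul_left h4 hpi
    exact h3.trans (mul_le_mul_of_nonneg_left ih (hB0 p))

/-- the local bound -/
lemma local_bound {m : ℕ} (c : ℕ → ℂ) {A κ : ℝ} (hκ : 0 ≤ κ)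
    (hA : ∀ z : Circle, ‖∑ k ∈ Finset.range m, c k * (z : ℂ) ^ (k + 1)‖ ≤ A) (z : Circle) :
    (∫ t in (0 : ℝ)..(2 * Real.pi), Real.exp (κ * (∑ k ∈ Finset.range m, c k *
      ((z * Circle.exp t : Circle) : ℂ) ^ (k + 1)).re) ≤ 2 * Real.pi * Real.exp (κ * A)) ∧
    (κ * A ≤ 1 → ∫ t in (0 : ℝ)..(2 * Real.pi), Real.exp (κ * (∑ k ∈ Finset.range m, c k *
      ((z * Circle.exp t : Circle) : ℂ) ^ (k + 1)).re) ≤
        2 * Real.pi * Real.exp (κ ^ 2 * A ^ 2)) := by
  have hpi : 0 < 2 * Real.pi := by positivity
  set f : ℝ → ℂ := fun t => ∑ k ∈ Finset.range m, c k *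
      ((z * Circle.exp t : Circle) : ℂ) ^ (k + 1) with hf
  have hfc : Continuous f := by
    refine continuous_finsetSum _ fun k _ => continuous_const.mul (Continuous.pow ?_ _)
    exact continuous_subtype_val.comp (continuous_const.mul Circle.exp.continuous)
  have hfA : ∀ t, ‖f t‖ ≤ A := fun t => hA _
  have hre : ∀ t, |(f t).re| ≤ A := fun t => (Complex.abs_re_le_norm _).trans (hfA t)
  have hA0 : 0 ≤ A := (norm_nonneg _).trans (hfA 0)
  have hc : Continuous fun t => Real.exp (κ * (f t).re) :=
    Real.continuous_exp.comp (continuous_const.mul (Complex.continuous_re.comp hfc))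
  refine ⟨?_, ?_⟩
  · calc ∫ t in (0 : ℝ)..(2 * Real.pi), Real.exp (κ * (f t).re)
        ≤ ∫ _t in (0 : ℝ)..(2 * Real.pi), Real.exp (κ * A) := by
          refine intervalIntegral.integral_mono_on hpi.le (hc.intervalIntegrable _ _)
            intervalIntegrable_const fun t _ => ?_
          exact Real.exp_le_exp.2 (mul_le_mul_of_nonneg_left ((le_abs_self _).trans (hre t)) hκ)
      _ = 2 * Real.pi * Real.exp (κ * A) := by
          rw [intervalIntegral.integral_const, sub_zero, smul_eq_mul]
  · intro hκA
    have hmean : ∫ t in (0 : ℝ)..(2 * Real.pi), (f t).re = 0 := by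
      have h1 : ∫ t in (0 : ℝ)..(2 * Real.pi), f t = 0 := by
        simp only [hf]
        rw [intervalIntegral.integral_finsetSum]
        · refine Finset.sum_eq_zero fun k _ => ?_
          rw [intervalIntegral.integral_const_mul]
          have h2 : ∀ t : ℝ, ((z * Circle.exp t : Circle) : ℂ) ^ (k + 1) =
              (z : ℂ) ^ (k + 1) * Complex.exp (((k + 1 : ℕ) * I) * t) := by
            intro t
            rw [Circle.coe_mul, Circle.coe_exp, mul_pow, ← Complex.exp_nat_mul]
            congr 2
            ring
          simp_rw [h2]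
          rw [intervalIntegral.integral_const_mul, integral_exp_mul_complex]
          · have h3 : Complex.exp (((k + 1 : ℕ) * I) * ((2 * Real.pi : ℝ) : ℂ)) = 1 := by
              rw [Complex.exp_eq_one_iff]
              exact ⟨k + 1, by push_cast; ring⟩
            rw [h3]
            simp
          · exact mul_ne_zero (by exact_mod_cast Nat.succ_ne_zero k) I_ne_zero
        · intro k _
          refine Continuous.intervalIntegrable ?_ _ _
          exact continuous_const.mul ((continuous_subtype_val.comp
            (continuous_const.mul Circle.exp.continuous)).pow _)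
      have h2 := Complex.reCLM.intervalIntegral_comp_comm
        (hfc.intervalIntegrable (μ := volume) 0 (2 * Real.pi))
      rw [h1, map_zero] at h2
      exact h2
    calc ∫ t in (0 : ℝ)..(2 * Real.pi), Real.exp (κ * (f t).re)
        ≤ ∫ t in (0 : ℝ)..(2 * Real.pi), ((1 + κ ^ 2 * A ^ 2) + κ * (f t).re) := by
          refine intervalIntegral.integral_mono_on hpi.le (hc.intervalIntegrable _ _)
            ((continuous_const.add (continuous_const.mul
              (Complex.continuous_re.comp hfc))).intervalIntegrable _ _) fun t _ => ?_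
          have h1 : |κ * (f t).re| ≤ κ * A := by
            rw [abs_mul, abs_of_nonneg hκ]
            exact mul_le_mul_of_nonneg_left (hre t) hκ
          have h2 := Real.abs_exp_sub_one_sub_id_le (h1.trans hκA)
          have h3 : (κ * (f t).re) ^ 2 ≤ κ ^ 2 * A ^ 2 := by
            rw [← sq_abs, ← mul_pow]
            exact pow_le_pow_left₀ (abs_nonneg _) h1 2
          have h4 := (abs_le.1 h2).2
          linarith
      _ = 2 * Real.pi * (1 + κ ^ 2 * A ^ 2) := by
          have i1 : IntervalIntegrable (fun _ : ℝ => 1 + κ ^ 2 * A ^ 2) volume 0 (2 * Real.pi) :=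
            intervalIntegrable_const
          have i2 : IntervalIntegrable (fun t : ℝ => κ * (f t).re) volume 0 (2 * Real.pi) :=
            (continuous_const.mul (Complex.continuous_re.comp hfc)).intervalIntegrable _ _
          rw [intervalIntegral.integral_add i1 i2,
            intervalIntegral.integral_const_mul, hmean, intervalIntegral.integral_const, sub_zero,
            smul_eq_mul]
          ring
      _ ≤ 2 * Real.pi * Real.exp (κ ^ 2 * A ^ 2) := by
          refine mul_le_mul_of_nonneg_left ?_ hpi.le
          have := Real.add_one_le_exp (κ ^ 2 * A ^ 2)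
          linarith

end Pool.Agent.TH339.MP
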