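import Pool.Agent.TH339.MP.Y1
import Pool.Agent.Helper923.HMertens

/-!
# Large deviations of the random Euler product, part 2: the exponential moments
-/

set_option autoImplicit false

namespace Pool.Agent.TH339.MP

open Complex Set Filter Topology MeasureTheory

/-- the exponent at `p` -/
noncomputable def bet (m : ℕ) (n : ℕ) : ℝ :=
  if n ≤ m then (m / 2 : ℝ) * (1 / n + 2 * (1 / (n : ℝ) ^ 2)) else ((m : ℝ) / n) ^ 2

lemma bet_nonneg (m n : ℕ) : 0 ≤ bet m n := by
  unfold bet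
  split_ifs <;> positivity

/-- the sum of the exponents -/
lemma bet_sum : ∃ C : ℝ, 0 < C ∧ ∀ m : ℕ, 2 ≤ m → ∀ s : Finset ℕ, (∀ p ∈ s, p.Prime) →
    ∑ p ∈ s, bet m p ≤ (m / 2 : ℝ) * (Real.log (Real.log m) + C) := by
  obtain ⟨C, hC0, hC⟩ := Pool.Agent.Helper923.HMertens.mertens_ratio
  have hs : Summable (fun n : ℕ => 1 / (n : ℝ) ^ 2) := Real.summable_one_div_nat_pow.2 (by norm_num)
  set S := ∑' n : ℕ, 1 / (n : ℝ) ^ 2 with hS
  have hS0 : 0 ≤ S := tsum_nonneg fun n => by positivity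
  have hl2 : 0 < Real.log 2 := Real.log_pos (by norm_num)
  set C' : ℝ := 1 / 2 + |Real.log (Real.log 2)| + C / Real.log 2 + 2 * S + 2 with hC'
  refine ⟨C', by positivity, fun m hm s hs1 => ?_⟩
  have hm0 : (0 : ℝ) < m := by exact_mod_cast (by omega : 0 < m)
  rw [← Finset.sum_filter_add_sum_filter_not s (fun p => p ≤ m)]
  -- the small primes
  have h1 : ∑ p ∈ s.filter (fun p => p ≤ m), bet m p ≤
      (m / 2 : ℝ) * (Real.log (Real.log m) + (1 / 2 + |Real.log (Real.log 2)| + C / Real.log 2) +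
        2 * S) := by
    have h2 : ∀ p ∈ s.filter (fun p => p ≤ m), bet m p =
        (m / 2 : ℝ) * (1 / (p : ℝ) + 2 * (1 / (p : ℝ) ^ 2)) := by
      intro p hp
      rw [Finset.mem_filter] at hp
      unfold bet
      rw [if_pos hp.2]
    rw [Finset.sum_congr rfl h2, ← Finset.mul_sum]
    refine mul_le_mul_of_nonneg_left ?_ (by positivity)
    rw [Finset.sum_add_distrib]
    refine add_le_add ?_ ?_
    · have hsub : s.filter (fun p => p ≤ m) ⊆ insert 2 ((Finset.Ioc 2 m).filter Nat.Prime) := by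
        intro p hp
        rw [Finset.mem_filter] at hp
        rw [Finset.mem_insert, Finset.mem_filter, Finset.mem_Ioc]
        have := (hs1 p hp.1).two_le
        by_cases h : p = 2
        · exact Or.inl h
        · exact Or.inr ⟨⟨by omega, hp.2⟩, hs1 p hp.1⟩
      refine (Finset.sum_le_sum_of_subset_of_nonneg hsub fun _ _ _ => by positivity).trans ?_
      rw [Finset.sum_insert (by simp)]
      have h3 := (abs_le.1 (hC 2 m le_rfl hm)).2
      have h4 : Real.log (Real.log m / Real.log ((2 : ℕ) : ℝ)) =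
          Real.log (Real.log m) - Real.log (Real.log 2) := by
        rw [Nat.cast_ofNat]
        refine Real.log_div ?_ hl2.ne'
        have : 0 < Real.log m := Real.log_pos (by exact_mod_cast (by omega : 1 < m))
        exact this.ne'
      rw [h4] at h3
      have h5 := neg_abs_le (Real.log (Real.log 2))
      push_cast at h3 ⊢
      linarith
    · rw [← Finset.mul_sum]
      refine mul_le_mul_of_nonneg_left ?_ (by norm_num)
      exact hs.sum_le_tsum _ fun p _ => by positivity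
  -- the large primes
  have h2 : ∑ p ∈ s.filter (fun p => ¬ p ≤ m), bet m p ≤ m := by
    have h3 : ∀ p ∈ s.filter (fun p => ¬ p ≤ m), bet m p = (m : ℝ) ^ 2 * ((p : ℝ) ^ 2)⁻¹ := by
      intro p hp
      rw [Finset.mem_filter] at hp
      unfold bet
      rw [if_neg hp.2, div_pow, div_eq_mul_inv]
    rw [Finset.sum_congr rfl h3, ← Finset.mul_sum]
    have h4 : ∑ p ∈ s.filter (fun p => ¬ p ≤ m), ((p : ℝ) ^ 2)⁻¹ ≤ (m : ℝ)⁻¹ := by
      set n : ℕ := max m (s.sup id) with hn
      have hsub : s.filter (fun p => ¬ p ≤ m) ⊆ Finset.Ioc m n := by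
        intro p hp
        rw [Finset.mem_filter] at hp
        rw [Finset.mem_Ioc]
        exact ⟨by omega, (Finset.le_sup (f := id) hp.1).trans (le_max_right _ _)⟩
      refine (Finset.sum_le_sum_of_subset_of_nonneg hsub fun _ _ _ => by positivity).trans ?_
      have h5 := sum_Ioc_inv_sq_le_sub (α := ℝ) (k := m) (n := n) (by omega) (le_max_left _ _)
      refine h5.trans ?_
      have : (0 : ℝ) ≤ (n : ℝ)⁻¹ := by positivity
      linarith
    calc (m : ℝ) ^ 2 * ∑ p ∈ s.filter (fun p => ¬ p ≤ m), ((p : ℝ) ^ 2)⁻¹ ≤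
        (m : ℝ) ^ 2 * (m : ℝ)⁻¹ := mul_le_mul_of_nonneg_left h4 (by positivity)
      _ = m := by field_simp
  calc _ ≤ (m / 2 : ℝ) * (Real.log (Real.log m) + (1 / 2 + |Real.log (Real.log 2)| +
        C / Real.log 2) + 2 * S) + m := add_le_add h1 h2
    _ = (m / 2 : ℝ) * (Real.log (Real.log m) + C') := by
        rw [hC']; ring

section
variable {b : PP → ℂ} {M : ℝ}

/-- the truncated coefficients at `p` -/
noncomputable def cX (b : PP → ℂ) (X : ℕ) (p : Nat.Primes) (k : ℕ) : ℂ :=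
  if qq (p, k) ≤ X then b (p, k) * (wt 1 (p, k) : ℂ) else 0

lemma GX_split (b : PP → ℂ) (X : ℕ) (ω : Om) : GX b X ω =
    ∑ p ∈ (TX X).image Prod.fst, ∑ k ∈ Finset.range X, cX b X p k * (ω p : ℂ) ^ (k + 1) := by
  classical
  unfold GX
  rw [← Finset.sum_fiberwise_of_maps_to (s := TX X) (t := (TX X).image Prod.fst) (g := Prod.fst)
    (fun x hx => Finset.mem_image_of_mem _ hx)]
  refine Finset.sum_congr rfl fun p _ => ?_
  have h1 : ∑ k ∈ Finset.range X, cX b X p k * (ω p : ℂ) ^ (k + 1) =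
      ∑ k ∈ (Finset.range X).filter (fun k => qq (p, k) ≤ X),
        (b (p, k) * (wt 1 (p, k) : ℂ)) * (ω p : ℂ) ^ (k + 1) := by
    rw [Finset.sum_filter]
    refine Finset.sum_congr rfl fun k _ => ?_
    unfold cX
    split_ifs
    · rfl
    · rw [zero_mul]
  rw [h1]
  refine Finset.sum_bij (fun x _ => x.2) ?_ ?_ ?_ ?_
  · intro x hx
    rw [Finset.mem_filter, mem_TX] at hx
    have hx2 : x = (p, x.2) := Prod.ext hx.2 rfl
    have h3 : qq (p, x.2) ≤ X := by rw [← hx2]; exact hx.1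
    rw [Finset.mem_filter, Finset.mem_range]
    refine ⟨?_, h3⟩
    have h4 : x.2 + 1 < (p : ℕ) ^ (x.2 + 1) := Nat.lt_pow_self p.2.one_lt
    unfold qq at h3
    simp only at h3
    omega
  · intro x hx y hy hxy
    rw [Finset.mem_filter] at hx hy
    exact Prod.ext (hx.2.trans hy.2.symm) hxy
  · intro k hk
    rw [Finset.mem_filter] at hk
    exact ⟨(p, k), by rw [Finset.mem_filter, mem_TX]; exact ⟨hk.2, rfl⟩, rfl⟩
  · intro x hx
    rw [Finset.mem_filter] at hx
    have hx2 : x = (p, x.2) := Prod.ext hx.2 rfl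
    unfold tb
    rw [← hx2, hx.2]
    ring

lemma cX_bound (hb : ∀ x, ‖b x‖ ≤ M / (x.2 + 1 : ℕ)) (X : ℕ) (p : Nat.Primes) (z : Circle) :
    ‖∑ k ∈ Finset.range X, cX b X p k * (z : ℂ) ^ (k + 1)‖ ≤
      M * (1 / ((p : ℕ) : ℝ) + 2 * (1 / ((p : ℕ) : ℝ) ^ 2)) := by
  have hM := M_nonneg hb
  set x : ℝ := 1 / ((p : ℕ) : ℝ) with hx
  have hp2 : (2 : ℝ) ≤ ((p : ℕ) : ℝ) := by exact_mod_cast p.2.two_le
  have hx0 : 0 < x := by positivity
  have hx2 : x ≤ 1 / 2 := one_div_le_one_div_of_le (by norm_num) hp2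
  have h1 : ∀ k, ‖cX b X p k * (z : ℂ) ^ (k + 1)‖ ≤ M * (x ^ (k + 1) / ((k : ℝ) + 1)) := by
    intro k
    rw [norm_mul, norm_pow, Circle.norm_coe, one_pow, mul_one]
    unfold cX
    split_ifs
    · rw [norm_mul, Complex.norm_real, Real.norm_of_nonneg (wt_nonneg _ _)]
      have h2 : wt 1 (p, k) = x ^ (k + 1) := by
        unfold wt
        simp only
        rw [Real.rpow_neg_one, hx, one_div]
      rw [h2]
      refine (mul_le_mul_of_nonneg_right (hb (p, k)) (by positivity)).trans (le_of_eq ?_)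
      push_cast
      ring
    · rw [norm_zero]
      positivity
  refine (norm_sum_le_of_le _ fun k _ => h1 k).trans ?_
  rw [← Finset.mul_sum]
  have h2 := Real.hasSum_pow_div_log_of_abs_lt_one (x := x) (by rw [abs_of_pos hx0]; linarith)
  have h3 : ∑ k ∈ Finset.range X, x ^ (k + 1) / ((k : ℝ) + 1) ≤ -Real.log (1 - x) :=
    sum_le_hasSum _ (fun k _ => by positivity) h2
  have h4 : -Real.log (1 - x) ≤ x + 2 * x ^ 2 := by
    have h5 := Real.one_sub_inv_le_log_of_pos (by linarith : (0 : ℝ) < 1 - x)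
    have h6 : (1 - x)⁻¹ ≤ 1 + x + 2 * x ^ 2 := by
      rw [inv_le_iff_one_le_mul₀ (by linarith)]
      nlinarith [mul_nonneg (sq_nonneg x) (by linarith : 0 ≤ 1 - 2 * x)]
    linarith
  have h5 : x + 2 * x ^ 2 = 1 / ((p : ℕ) : ℝ) + 2 * (1 / ((p : ℕ) : ℝ) ^ 2) := by
    rw [hx, div_pow, one_pow]
  rw [← h5]
  exact mul_le_mul_of_nonneg_left (h3.trans h4) hM

/-- the exponential moments of the finite products -/
theorem moment_GX : ∃ C : ℝ, 0 < C ∧ ∀ (b : PP → ℂ) (M : ℝ), 0 < M →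
    (∀ x, ‖b x‖ ≤ M / (x.2 + 1 : ℕ)) → ∀ m : ℕ, 2 ≤ m → ∀ X : ℕ,
    ∫ ω, Real.exp ((m / (2 * M)) * (GX b X ω).re) ∂PM ≤
      Real.exp ((m / 2 : ℝ) * (Real.log (Real.log m) + C)) := by
  classical
  obtain ⟨C, hC0, hC⟩ := bet_sum
  refine ⟨C, hC0, fun b M hM hb m hm X => ?_⟩
  set κ : ℝ := m / (2 * M) with hκ
  have hm0 : (0 : ℝ) < m := by exact_mod_cast (by omega : 0 < m)
  have hκ0 : 0 ≤ κ := by positivity
  set s : Finset Nat.Primes := (TX X).image Prod.fst with hs
  set f : Nat.Primes → Circle → ℂ := fun p z =>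
    ∑ k ∈ Finset.range X, cX b X p k * (z : ℂ) ^ (k + 1) with hf
  have e1 : ∀ ω : Om, Real.exp (κ * (GX b X ω).re) = ∏ p ∈ s, Real.exp (κ * (f p (ω p)).re) := by
    intro ω
    rw [GX_split, Complex.re_sum, Finset.mul_sum, Real.exp_sum]
  simp_rw [e1]
  have h1 := prod_int s (fun p z => Real.exp (κ * (f p z).re)) (fun p => by
      refine Real.continuous_exp.comp (continuous_const.mul (Complex.continuous_re.comp ?_))
      exact continuous_finsetSum _ fun k _ => continuous_const.mul (continuous_subtype_val.pow _))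
    (fun p z => (Real.exp_pos _).le) (fun p => Real.exp (bet m p)) (by
      intro p z
      set A : ℝ := M * (1 / ((p : ℕ) : ℝ) + 2 * (1 / ((p : ℕ) : ℝ) ^ 2)) with hA
      have hA0 : 0 ≤ A := by positivity
      have hκA : κ * A = (m / 2 : ℝ) * (1 / ((p : ℕ) : ℝ) + 2 * (1 / ((p : ℕ) : ℝ) ^ 2)) := by
        rw [hκ, hA]
        field_simp
      obtain ⟨g1, g2⟩ := local_bound (m := X) (cX b X p) (A := A) hκ0
        (fun z => cX_bound hb X p z) z
      have hpi : 0 < 2 * Real.pi := by positivity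
      unfold bet
      split_ifs with hpm
      · rw [← hκA]
        exact g1
      · have hp0 : (0 : ℝ) < ((p : ℕ) : ℝ) := by exact_mod_cast p.2.pos
        have hp2 : (2 : ℝ) ≤ ((p : ℕ) : ℝ) := by exact_mod_cast p.2.two_le
        have h3 : κ * A ≤ (m : ℝ) / (p : ℕ) := by
          rw [hκA]
          have h4 : 2 * (1 / ((p : ℕ) : ℝ) ^ 2) ≤ 1 / ((p : ℕ) : ℝ) := by
            rw [mul_one_div, div_le_div_iff₀ (by positivity) hp0]
            nlinarith
          calc (m / 2 : ℝ) * (1 / ((p : ℕ) : ℝ) + 2 * (1 / ((p : ℕ) : ℝ) ^ 2)) ≤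
              (m / 2 : ℝ) * (1 / ((p : ℕ) : ℝ) + 1 / ((p : ℕ) : ℝ)) :=
                mul_le_mul_of_nonneg_left (by linarith) (by positivity)
            _ = _ := by ring
        have h4 : κ * A ≤ 1 := by
          refine h3.trans ?_
          rw [div_le_one hp0]
          exact_mod_cast (by omega : m ≤ (p : ℕ))
        refine (g2 h4).trans (mul_le_mul_of_nonneg_left (Real.exp_le_exp.2 ?_) hpi.le)
        rw [← mul_pow]
        exact pow_le_pow_left₀ (mul_nonneg hκ0 hA0) h3 2)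
  refine h1.trans ?_
  rw [← Real.exp_sum]
  refine Real.exp_le_exp.2 ?_
  have h2 := hC m hm (s.image fun p : Nat.Primes => (p : ℕ)) (by
    intro p hp
    obtain ⟨q, _, rfl⟩ := Finset.mem_image.1 hp
    exact q.2)
  have h3 : ∑ p ∈ s.image (fun p : Nat.Primes => (p : ℕ)), bet m p = ∑ p ∈ s, bet m (p : ℕ) :=
    Finset.sum_image (fun p _ q _ h => Subtype.ext h)
  rw [h3] at h2
  exact h2

/-- the exponential moments of the random Euler product -/
theorem moment_RR : ∃ C : ℝ, 0 < C ∧ ∀ (b : PP → ℂ) (M : ℝ), 0 < M →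
    (∀ x, ‖b x‖ ≤ M / (x.2 + 1 : ℕ)) → ∀ m : ℕ, 2 ≤ m →
    ∫⁻ ω, ENNReal.ofReal (Real.exp ((m / (2 * M)) * (RR b ω).re)) ∂PM ≤
      ENNReal.ofReal (Real.exp ((m / 2 : ℝ) * (Real.log (Real.log m) + C))) := by
  obtain ⟨C, hC0, hC⟩ := moment_GX
  refine ⟨C, hC0, fun b M hM hb m hm => ?_⟩
  have hc : ∀ X, Continuous fun ω => Real.exp ((m / (2 * M)) * (GX b X ω).re) := fun X =>
    Real.continuous_exp.comp (continuous_const.mul (Complex.continuous_re.comp (continuous_GX b X)))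
  have h1 : ∫⁻ ω, ENNReal.ofReal (Real.exp ((m / (2 * M)) * (RR b ω).re)) ∂PM ≤
      ∫⁻ ω, liminf (fun X => ENNReal.ofReal (Real.exp ((m / (2 * M)) * (GX b X ω).re))) atTop
        ∂PM := by
    refine lintegral_mono_ae ?_
    filter_upwards [ae_tendsto hb] with ω hω
    have h2 : Continuous fun z : ℂ => ENNReal.ofReal (Real.exp ((m / (2 * M)) * z.re)) :=
      ENNReal.continuous_ofReal.comp (Real.continuous_exp.comp
        (continuous_const.mul Complex.continuous_re))
    have h3 := (h2.tendsto (RR b ω)).comp hω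
    have h4 : liminf (fun X => ENNReal.ofReal (Real.exp ((m / (2 * M)) * (GX b X ω).re))) atTop =
        ENNReal.ofReal (Real.exp ((m / (2 * M)) * (RR b ω).re)) := h3.liminf_eq
    rw [h4]
  refine h1.trans ((lintegral_liminf_le fun X => ?_).trans ?_)
  · exact (ENNReal.continuous_ofReal.comp (hc X)).measurable
  · refine liminf_le_of_frequently_le' (Eventually.frequently (Eventually.of_forall fun X => ?_))
    rw [← ofReal_integral_eq_lintegral_ofReal]
    · exact ENNReal.ofReal_le_ofReal (hC b M hM hb m hm X)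
    · exact (hc X).integrable_of_hasCompactSupport (HasCompactSupport.of_compactSpace _)
    · exact Eventually.of_forall fun ω => (Real.exp_pos _).le

/-- the tail of the random Euler product -/
theorem tail_RR : ∃ C : ℝ, 0 < C ∧ ∀ (b : PP → ℂ) (M : ℝ), 0 < M →
    (∀ x, ‖b x‖ ≤ M / (x.2 + 1 : ℕ)) → ∀ m : ℕ, 2 ≤ m → ∀ y : ℝ,
    PM {ω | y ≤ (RR b ω).re} ≤
      ENNReal.ofReal (Real.exp (-((m / 2 : ℝ) * (y / M - Real.log (Real.log m) - C)))) := by
  obtain ⟨C, hC0, hC⟩ := moment_RR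
  refine ⟨C, hC0, fun b M hM hb m hm y => ?_⟩
  have h1 := hC b M hM hb m hm
  have hm0 : (0 : ℝ) < m := by exact_mod_cast (by omega : 0 < m)
  set κ : ℝ := m / (2 * M) with hκ
  have hκ0 : 0 ≤ κ := by positivity
  have hcont : Continuous fun z : ℂ => ENNReal.ofReal (Real.exp (κ * z.re)) :=
    ENNReal.continuous_ofReal.comp (Real.continuous_exp.comp
      (continuous_const.mul Complex.continuous_re))
  have hae : AEMeasurable (fun ω => ENNReal.ofReal (Real.exp (κ * (RR b ω).re))) PM :=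
    hcont.measurable.comp_aemeasurable (aemeasurable_RR hb)
  have h2 := mul_meas_ge_le_lintegral₀ hae (ENNReal.ofReal (Real.exp (κ * y)))
  have h3 : PM {ω | y ≤ (RR b ω).re} ≤
      PM {ω | ENNReal.ofReal (Real.exp (κ * y)) ≤ ENNReal.ofReal (Real.exp (κ * (RR b ω).re))} := by
    refine measure_mono fun ω hω => ?_
    have hω' : y ≤ (RR b ω).re := hω
    exact ENNReal.ofReal_le_ofReal (Real.exp_le_exp.2 (mul_le_mul_of_nonneg_left hω' hκ0))
  have hpos : ENNReal.ofReal (Real.exp (κ * y)) ≠ 0 := (ENNReal.ofReal_pos.2 (Real.exp_pos _)).ne'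
  have h4 : ENNReal.ofReal (Real.exp (κ * y)) * PM {ω | y ≤ (RR b ω).re} ≤
      ENNReal.ofReal (Real.exp ((m / 2 : ℝ) * (Real.log (Real.log m) + C))) :=
    (mul_le_mul_of_nonneg_left h3 bot_le).trans (h2.trans h1)
  have h5 : PM {ω | y ≤ (RR b ω).re} ≤
      ENNReal.ofReal (Real.exp ((m / 2 : ℝ) * (Real.log (Real.log m) + C))) /
        ENNReal.ofReal (Real.exp (κ * y)) := by
    rw [ENNReal.le_div_iff_mul_le (Or.inl hpos) (Or.inl ENNReal.ofReal_ne_top), mul_comm]
    exact h4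
  refine h5.trans (le_of_eq ?_)
  rw [← ENNReal.ofReal_div_of_pos (Real.exp_pos _), ← Real.exp_sub]
  congr 2
  rw [hκ]
  field_simp
  ring

end

end Pool.Agent.TH339.MP
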